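import Pool.Agent.MBase

/-!
# The Kashaev invariant of a link, from a diagram

`V_N` is the `N`-dimensional irreducible module of quantum `sl(2)` at the root of unity
`v = exp (π i / N)` (so `q = v ^ 2 = exp (2 π i / N)`), with basis `e_0, ..., e_{N-1}` and
`K e_i = v ^ (N - 1 - 2 i) e_i`, `F e_i = e_{i+1}`, `E e_i = [i] [N - i] e_{i-1}`.

A vector of the direct sum of all tensor powers of `V_N` is given by its coordinates, a function
`List ℕ → ℂ`: the coordinate at the word `[a, b, c]` is the coefficient of `e_a ⊗ e_b ⊗ e_c`.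
A link diagram in Morse position, read from bottom to top, is a list of elementary pieces (cup, cap,
the two crossings), each with the number of strands to its left.  `RT N D` is the
Reshetikhin-Turaev operator of the diagram `D`, all of whose strands are coloured by `V_N`.
-/

namespace Pool.Agent.Helper9.Kashaev

open Finset

/-- `v = exp (π i / N)`, so that `v ^ 2 = exp (2 π i / N)`. -/
noncomputable def v (N : ℕ) : ℂ := Complex.exp (Real.pi * Complex.I / N)

/-- The quantum integer `[m] = (v ^ m - v ^ (-m)) / (v - v ^ (-1))`. -/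
noncomputable def qint (N m : ℕ) : ℂ := (v N ^ m - (v N)⁻¹ ^ m) / (v N - (v N)⁻¹)

/-- The quantum factorial `[1] [2] ... [m]`. -/
noncomputable def qfac (N m : ℕ) : ℂ := ∏ t ∈ range m, qint N (t + 1)

/-- The weight `N - 1 - 2 i` of the basis vector `e_i`. -/
def wt (N i : ℕ) : ℤ := (N : ℤ) - 1 - 2 * i

/-- `E e_i = [i] [N - i] e_{i-1}`. -/
noncomputable def ecoef (N i : ℕ) : ℂ := qint N i * qint N (N - i)

/-- The coefficient of `e_{j+m} ⊗ e_{i-m}` in `R (e_i ⊗ e_j)`, where `R` is the flip after
`v ^ (H ⊗ H / 2) ∑ m, v ^ (m (m - 1) / 2) (v - v⁻¹) ^ m / [m]! · E ^ m ⊗ F ^ m`. -/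
noncomputable def posC (N i j m : ℕ) : ℂ :=
  Complex.exp (Real.pi * Complex.I * (wt N (i - m) * wt N (j + m) : ℤ) / (2 * N)) *
    v N ^ (m * (m - 1) / 2) * ((v N - (v N)⁻¹) ^ m / qfac N m) * ∏ t ∈ range m, ecoef N (i - t)

/-- The coefficient of `e_{j-m} ⊗ e_{i+m}` in `R⁻¹ (e_i ⊗ e_j)`, where `R⁻¹` is
`(∑ m, (-1) ^ m v ^ (-m (m - 1) / 2) (v - v⁻¹) ^ m / [m]! · E ^ m ⊗ F ^ m) v ^ (-H ⊗ H / 2)`
after the flip. -/
noncomputable def negC (N i j m : ℕ) : ℂ :=
  Complex.exp (-(Real.pi * Complex.I * (wt N i * wt N j : ℤ) / (2 * N))) *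
    (-1) ^ m * (v N)⁻¹ ^ (m * (m - 1) / 2) * ((v N - (v N)⁻¹) ^ m / qfac N m) *
      ∏ t ∈ range m, ecoef N (j - t)

/-- The invariant vector is `∑ i, cupC N i • e_i ⊗ e_{N-1-i}`, with
`cupC N i = (-1) ^ i v ^ (i (N - 2 - i))`. -/
noncomputable def cupC (N i : ℕ) : ℂ := (-1) ^ i * v N ^ ((i : ℤ) * ((N : ℤ) - 2 - i))

/-- The invariant pairing sends `e_i ⊗ e_{N-1-i}` to `capC N i`; it is dual to the cup. -/
noncomputable def capC (N i : ℕ) : ℂ := (cupC N (N - 1 - i))⁻¹

/-- The elementary pieces of a link diagram: minimum, maximum, the two kinds of crossing. -/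
inductive Piece
  | cup
  | cap
  | pos
  | neg

/-- The operator of an elementary piece with no strand to its left, on coordinates. -/
noncomputable def piece (N : ℕ) : Piece → (List ℕ → ℂ) → List ℕ → ℂ
  | .cup, f, a :: b :: w => if a + b + 1 = N then cupC N a * f w else 0
  | .cup, _, _ => 0
  | .cap, f, w => ∑ a ∈ range N, capC N a * f (a :: (N - 1 - a) :: w)
  | .pos, f, a :: b :: w => ∑ m ∈ range N,
      if m ≤ a ∧ a < N ∧ b + m < N then
        posC N (b + m) (a - m) m * f ((b + m) :: (a - m) :: w) else 0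
  | .pos, _, _ => 0
  | .neg, f, a :: b :: w => ∑ m ∈ range N,
      if m ≤ b ∧ b < N ∧ a + m < N then
        negC N (b - m) (a + m) m * f ((b - m) :: (a + m) :: w) else 0
  | .neg, _, _ => 0

/-- The operator of an elementary piece with `k` strands to its left. -/
noncomputable def slice (N : ℕ) (p : Piece) : ℕ → (List ℕ → ℂ) → List ℕ → ℂ
  | 0, f, w => piece N p f w
  | _ + 1, _, [] => 0
  | k + 1, f, x :: w => slice N p k (fun u => f (x :: u)) w

/-- A link diagram: elementary pieces from bottom to top, with the number of strands to the left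
of each. -/
abbrev Diagram := List (ℕ × Piece)

/-- The Reshetikhin-Turaev operator of a diagram (the first piece acts first). -/
noncomputable def RT (N : ℕ) : Diagram → (List ℕ → ℂ) → List ℕ → ℂ
  | [], f => f
  | s :: D, f => RT N D (slice N s.2 s.1 f)

/-- The basis vector of a word. -/
def ket (w : List ℕ) : List ℕ → ℂ := fun u => if u = w then 1 else 0

/-- `z` is the Kashaev invariant at `N` of the link that is the closure of the diagram `D` with
one strand at the bottom and one at the top: `D` acts on `V_N` as the scalar `z`. -/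
def IsKashaev (N : ℕ) (D : Diagram) (z : ℂ) : Prop :=
  ∀ i < N, RT N D (ket [i]) = fun w => z * ket [i] w

/-- The Lobachevsky function. -/
noncomputable def lobachevsky (θ : ℝ) : ℝ := -∫ t in (0 : ℝ)..θ, Real.log |2 * Real.sin t|

/-- The volume of the regular ideal octahedron, `8 Λ(π / 4) = 3.6638...`. -/
noncomputable def octVol : ℝ := 8 * lobachevsky (Real.pi / 4)

end Pool.Agent.Helper9.Kashaev
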