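import Pool.Agent.Helper9.RTDefs

/-!
# The closed braids `(σ₁ σ₂⁻¹) ^ p` together with their axis
-/

namespace Pool.Agent.Helper9.Kashaev

/-- The braid `(σ₁ σ₂⁻¹) ^ p` on the strands number `k`, `k + 1`, `k + 2`. -/
def braid (k : ℕ) : ℕ → Diagram
  | 0 => []
  | p + 1 => (k, .pos) :: (k + 1, .neg) :: braid k p

/-- The link formed by the closure of the braid `(σ₁ σ₂⁻¹) ^ p` on three strands and the axis of
this closed braid, cut open at the axis.  Strand number 0 is the axis; the strands number 1, 2, 3
carry the braid and are closed by the strands number 4, 5, 6; after the braid, the axis runs in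
front of the strands 1, 2, 3 and comes back behind them. -/
def axisLink (p : ℕ) : Diagram :=
  [(1, .cup), (2, .cup), (3, .cup)] ++ braid 1 p ++
    [(0, .pos), (1, .pos), (2, .pos), (2, .pos), (1, .pos), (0, .pos)] ++
    [(3, .cap), (2, .cap), (1, .cap)]

end Pool.Agent.Helper9.Kashaev
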