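import Pool.Agent.MBase

/-!
# Two lemmas on traces
-/

namespace Pool.Agent.Helper9.Lin

open LinearMap

/-- Additivity of the trace in a short exact sequence. -/
lemma trace_exact {K U V W : Type*} [Field K] [AddCommGroup U] [Module K U] [AddCommGroup V]
    [Module K V] [AddCommGroup W] [Module K W] [FiniteDimensional K U] [FiniteDimensional K V]
    [FiniteDimensional K W] (g : U →ₗ[K] V) (f : V →ₗ[K] W) (hg : Function.Injective g)
    (hf : Function.Surjective f) (h0 : ∀ u, f (g u) = 0) (hex : ∀ x, f x = 0 → ∃ u, g u = x)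
    (A : U →ₗ[K] U) (B : V →ₗ[K] V) (C : W →ₗ[K] W) (hAB : ∀ u, B (g u) = g (A u))
    (hBC : ∀ x, f (B x) = C (f x)) :
    trace K V B = trace K U A + trace K W C := by
  obtain ⟨s, hs⟩ := f.exists_rightInverse_of_surjective (LinearMap.range_eq_top.mpr hf)
  obtain ⟨r0, hr0⟩ := g.exists_leftInverse_of_injective (LinearMap.ker_eq_bot.mpr hg)
  have hs' : ∀ w, f (s w) = w := fun w => by
    have := LinearMap.congr_fun hs w
    simpa using this
  have hr0' : ∀ u, r0 (g u) = u := fun u => by
    have := LinearMap.congr_fun hr0 u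
    simpa using this
  set r : V →ₗ[K] U := r0 ∘ₗ (LinearMap.id - s ∘ₗ f) with hr
  have hrg : ∀ u, r (g u) = u := fun u => by
    simp [hr, h0, hr0']
  have hgr : ∀ x, g (r x) + s (f x) = x := fun x => by
    obtain ⟨u, hu⟩ := hex (x - s (f x)) (by rw [map_sub, hs', sub_self])
    have : r x = u := by
      simp only [hr, LinearMap.comp_apply, LinearMap.sub_apply, LinearMap.id_apply, ← hu, hr0']
    rw [this, hu]; abel
  have h1 : B = (B ∘ₗ g) ∘ₗ r + (B ∘ₗ s) ∘ₗ f := by
    ext x
    simp only [LinearMap.add_apply, LinearMap.comp_apply]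
    rw [← map_add, hgr]
  have h2 : trace K V ((B ∘ₗ g) ∘ₗ r) = trace K U A := by
    rw [LinearMap.trace_comp_comm']
    congr 1
    ext u
    simp only [LinearMap.comp_apply]
    rw [hAB, hrg]
  have h3 : trace K V ((B ∘ₗ s) ∘ₗ f) = trace K W C := by
    rw [LinearMap.trace_comp_comm']
    congr 1
    ext w
    simp only [LinearMap.comp_apply]
    rw [hBC, hs']
  rw [h1, map_add, h2, h3]

/-- Trace of an operator commuting with a nilpotent `E` for which the space is free. -/
lemma trace_free {K V : Type*} [Field K] [AddCommGroup V] [Module K V] [FiniteDimensional K V]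
    (E B : V →ₗ[K] V) (hEB : ∀ x, B (E x) = E (B x)) (n : ℕ) (hn : ∀ x, (E ^ n) x = 0)
    (hfree : ∀ j < n, ∀ u, E u = 0 → ∃ x, (E ^ j) x = u)
    (hker : ∀ x ∈ ker E, B x ∈ ker E) :
    trace K V B = n * trace K (ker E) (B.restrict hker) := by
  have hcomm : ∀ j, ∀ x, B ((E ^ j) x) = (E ^ j) (B x) := by
    intro j
    induction j with
    | zero => intro x; rfl
    | succ j ih =>
      intro x
      rw [pow_succ, Module.End.mul_apply, Module.End.mul_apply, ih, hEB]
  have hk : ∀ j, ∀ x ∈ ker (E ^ j), B x ∈ ker (E ^ j) := by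
    intro j x hx
    rw [LinearMap.mem_ker] at *
    rw [← hcomm, hx, map_zero]
  have key : ∀ j ≤ n, trace K (ker (E ^ j)) (B.restrict (hk j)) =
      j * trace K (ker E) (B.restrict hker) := by
    intro j
    induction j with
    | zero =>
      intro _
      have hbot : ker (E ^ 0) = ⊥ := by
        rw [pow_zero]
        exact LinearMap.ker_eq_bot.mpr (fun _ _ h => h)
      have : Subsingleton (ker (E ^ 0)) := by rw [hbot]; infer_instance
      have h0 : B.restrict (hk 0) = 0 := by
        ext x
        exact congrArg Subtype.val (Subsingleton.elim _ _)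
      rw [h0, map_zero]; simp
    | succ j ih =>
      intro hj
      have hle : ker (E ^ j) ≤ ker (E ^ (j + 1)) := by
        intro x hx
        rw [LinearMap.mem_ker] at *
        rw [pow_succ', Module.End.mul_apply, hx, map_zero]
      have hmap : ∀ x ∈ ker (E ^ (j + 1)), (E ^ j) x ∈ ker E := by
        intro x hx
        rw [LinearMap.mem_ker] at *
        rw [pow_succ', Module.End.mul_apply] at hx
        exact hx
      have := trace_exact (Submodule.inclusion hle) ((E ^ j).restrict hmap)
        (Submodule.inclusion_injective hle) ?_ ?_ ?_ (B.restrict (hk j))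
        (B.restrict (hk (j + 1))) (B.restrict hker) ?_ ?_
      · rw [this, ih (by omega)]; push_cast; ring
      · rintro ⟨u, hu⟩
        obtain ⟨x, hx⟩ := hfree j (by omega) u hu
        refine ⟨⟨x, ?_⟩, ?_⟩
        · rw [LinearMap.mem_ker, pow_succ', Module.End.mul_apply, hx]
          exact hu
        · exact Subtype.ext hx
      · rintro ⟨u, hu⟩
        exact Subtype.ext hu
      · rintro ⟨x, hx⟩ h
        have hx' : (E ^ j) x = 0 := congrArg Subtype.val h
        exact ⟨⟨x, hx'⟩, rfl⟩
      · rintro ⟨u, hu⟩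
        rfl
      · rintro ⟨x, hx⟩
        exact Subtype.ext (hcomm j x).symm
  have htop : ker (E ^ n) = ⊤ := by
    rw [LinearMap.ker_eq_top]
    ext x
    exact hn x
  rw [← key n le_rfl]
  -- compare with the whole space
  have := trace_exact (K := K) (U := ker (E ^ n)) (V := V) (W := PUnit.{1})
    (Submodule.subtype _) 0 (Submodule.injective_subtype _) (fun x => ⟨0, rfl⟩) (fun _ => rfl)
    (fun x _ => ⟨⟨x, by rw [htop]; trivial⟩, rfl⟩) (B.restrict (hk n)) B 0 (fun _ => rfl)
    (fun _ => rfl)
  rw [this, map_zero, add_zero]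

/-- Trace and bijective intertwiners. -/
lemma trace_bij {K V W : Type*} [Field K] [AddCommGroup V] [Module K V] [AddCommGroup W]
    [Module K W] [FiniteDimensional K V] [FiniteDimensional K W] (e : V →ₗ[K] W)
    (hinj : ∀ x, e x = 0 → x = 0) (hsurj : ∀ y, ∃ x, e x = y) (A : V →ₗ[K] V) (B : W →ₗ[K] W)
    (h : ∀ x, e (A x) = B (e x)) : trace K V A = trace K W B := by
  have hb : Function.Bijective e :=
    ⟨(injective_iff_map_eq_zero e).mpr hinj, hsurj⟩
  set E : V ≃ₗ[K] W := LinearEquiv.ofBijective e hb with hE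
  have h1 : E.conj A = B := by
    apply LinearMap.ext
    intro y
    obtain ⟨x, rfl⟩ := E.surjective y
    rw [LinearEquiv.conj_apply_apply, LinearEquiv.symm_apply_apply]
    exact h x
  rw [← h1, LinearMap.trace_conj']

end Pool.Agent.Helper9.Lin
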