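import Pool.Agent.Helper9.Lin

/-!
# Traces of powers and positive semidefinite forms
-/

namespace Pool.Agent.Helper9.Lin

open Matrix Finset

variable {n m r : Type*} [Fintype n] [Fintype m] [Fintype r] [DecidableEq n] [DecidableEq m]
  [DecidableEq r]

lemma re_trace_star_mul_self {α β : Type*} [Fintype α] [Fintype β] (Q : Matrix α β ℂ) :
    (trace (Qᴴ * Q)).re = ∑ j, ∑ i, ‖Q i j‖ ^ 2 := by
  unfold Matrix.trace
  rw [Complex.re_sum]
  apply sum_congr rfl
  intro j _
  rw [diag_apply, mul_apply, Complex.re_sum]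
  apply sum_congr rfl
  intro i _
  rw [conjTranspose_apply, Complex.star_def, ← Complex.normSq_eq_conj_mul_self,
    Complex.ofReal_re, Complex.normSq_eq_norm_sq]

/-- `G (C A) ^ p` is a Gram matrix for `G = Mᴴ M` if `G C = Aᴴ G`. -/
lemma gram_pow (A C : Matrix n n ℂ) (M : Matrix r n ℂ) (hrel : (Mᴴ * M) * C = Aᴴ * (Mᴴ * M))
    (p : ℕ) : ∃ W : Matrix n n ℂ, (Mᴴ * M) * (C * A) ^ p = Wᴴ * (Mᴴ * M) * W := by
  obtain ⟨G, hG⟩ : ∃ G, G = Mᴴ * M := ⟨_, rfl⟩
  rw [← hG] at hrel ⊢
  have hGH : Gᴴ = G := by rw [hG, conjTranspose_mul, conjTranspose_conjTranspose]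
  have h1 : G * (C * A) = Aᴴ * G * A := by
    rw [← Matrix.mul_assoc, hrel]
  have h2 : G * (C * A) = (C * A)ᴴ * G := by
    rw [h1, conjTranspose_mul, Matrix.mul_assoc]
    have : Cᴴ * G = G * A := by
      have h3 := congrArg conjTranspose hrel
      rw [conjTranspose_mul, conjTranspose_mul, conjTranspose_conjTranspose, hGH] at h3
      exact h3
    rw [Matrix.mul_assoc, this]
  have h3 : ∀ q : ℕ, G * (C * A) ^ q = ((C * A) ^ q)ᴴ * G := by
    intro q
    induction q with
    | zero => simp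
    | succ q ih =>
      rw [pow_succ, ← Matrix.mul_assoc, ih, Matrix.mul_assoc, h2, ← Matrix.mul_assoc,
        ← conjTranspose_mul]
      congr 2
      rw [← pow_succ, ← pow_succ']
  rcases Nat.even_or_odd p with ⟨q, hq⟩ | ⟨q, hq⟩
  · refine ⟨(C * A) ^ q, ?_⟩
    rw [hq, pow_add, ← Matrix.mul_assoc, h3]
  · refine ⟨A * (C * A) ^ q, ?_⟩
    have : (C * A) ^ p = (C * A) ^ q * (C * A) * (C * A) ^ q := by
      rw [hq, ← pow_succ, ← pow_add]; congr 1; ring
    rw [this, ← Matrix.mul_assoc, ← Matrix.mul_assoc, h3, Matrix.mul_assoc _ G, h1,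
      conjTranspose_mul]
    simp only [Matrix.mul_assoc]

/-- comparison of traces of powers -/
lemma psd_trace (A C : Matrix n n ℂ) (A' C' : Matrix m m ℂ) (M : Matrix r n ℂ)
    (J : Matrix n m ℂ) (hrel : (Mᴴ * M) * C = Aᴴ * (Mᴴ * M)) (hA : A * J = J * A')
    (hC : C * J = J * C') (hMJ : M * J = 0) (hJ : ∀ u, J.mulVec u = 0 → u = 0)
    (hM : ∀ y, ∃ x, M.mulVec x = y) (hcard : Fintype.card n = Fintype.card m + Fintype.card r)
    (p : ℕ) : (trace ((C' * A') ^ p)).re ≤ (trace ((C * A) ^ p)).re := by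
  obtain ⟨W, hW⟩ := gram_pow A C M hrel p
  -- right inverse
  choose x hx using fun i : r => hM (Pi.single i 1)
  set S : Matrix n r ℂ := fun a i => x i a with hS
  have hMS : M * S = 1 := by
    ext i j
    have := congrFun (hx j) i
    rw [mul_apply, one_apply]
    unfold mulVec dotProduct at this
    rw [Pi.single_apply] at this
    exact this
  have hBJ : (C * A) ^ p * J = J * (C' * A') ^ p := by
    clear hW
    induction p with
    | zero => simp
    | succ p ih =>
      rw [pow_succ, Matrix.mul_assoc, Matrix.mul_assoc, hA, ← Matrix.mul_assoc C, hC,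
        Matrix.mul_assoc J, ← Matrix.mul_assoc, ih, Matrix.mul_assoc, ← pow_succ]
  set B := (C * A) ^ p with hB
  set B' := (C' * A') ^ p with hB'
  -- exactness
  have hex : ∀ y : n → ℂ, M.mulVec y = 0 → ∃ u, J.mulVec u = y := by
    have hle : LinearMap.range (toLin' J) ≤ LinearMap.ker (toLin' M) := by
      rintro _ ⟨u, rfl⟩
      rw [LinearMap.mem_ker, toLin'_apply, toLin'_apply, mulVec_mulVec, hMJ, zero_mulVec]
    have h1 : Module.finrank ℂ (LinearMap.range (toLin' J)) = Fintype.card m := by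
      rw [LinearMap.finrank_range_of_inj]
      · simp
      · rw [injective_iff_map_eq_zero]
        intro u hu
        exact hJ u hu
    have h2 : Module.finrank ℂ (LinearMap.ker (toLin' M)) = Fintype.card m := by
      have h3 := LinearMap.finrank_range_add_finrank_ker (toLin' M)
      have h4 : LinearMap.range (toLin' M) = ⊤ := by
        rw [LinearMap.range_eq_top]
        intro y
        obtain ⟨z, hz⟩ := hM y
        exact ⟨z, hz⟩
      rw [h4, finrank_top] at h3
      simp only [Module.finrank_fintype_fun_eq_card] at h3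
      omega
    have h5 := Submodule.eq_of_le_of_finrank_eq hle (by rw [h1, h2])
    intro y hy
    have : y ∈ LinearMap.range (toLin' J) := by rw [h5]; exact hy
    obtain ⟨u, hu⟩ := this
    exact ⟨u, hu⟩
  have htr := trace_exact (K := ℂ) (toLin' J) (toLin' M)
    ((injective_iff_map_eq_zero _).mpr hJ) hM
    (fun u => by rw [toLin'_apply, toLin'_apply, mulVec_mulVec, hMJ, zero_mulVec])
    (fun y hy => hex y hy) (toLin' B') (toLin' B) (toLin' (M * B * S))
    (fun u => by
      rw [toLin'_apply, toLin'_apply, toLin'_apply, toLin'_apply, mulVec_mulVec, mulVec_mulVec,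
        hBJ])
    (fun y => by
      rw [toLin'_apply, toLin'_apply, toLin'_apply, toLin'_apply]
      have h1 : M.mulVec (y - S.mulVec (M.mulVec y)) = 0 := by
        rw [mulVec_sub, mulVec_mulVec, hMS, one_mulVec, sub_self]
      obtain ⟨u, hu⟩ := hex _ h1
      have h2 : M.mulVec (B.mulVec (y - S.mulVec (M.mulVec y))) = 0 := by
        rw [← hu, mulVec_mulVec, mulVec_mulVec, Matrix.mul_assoc, hBJ, ← Matrix.mul_assoc, hMJ,
          Matrix.zero_mul, zero_mulVec]
      rw [mulVec_sub, mulVec_sub, sub_eq_zero] at h2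
      rw [h2]
      simp only [mulVec_mulVec, Matrix.mul_assoc])
  rw [trace_toLin'_eq, trace_toLin'_eq, trace_toLin'_eq] at htr
  have hpos : 0 ≤ (trace (M * B * S)).re := by
    have h1 : M * B * S = (M * W * S)ᴴ * (M * W * S) := by
      calc M * B * S = (M * S)ᴴ * (M * B * S) := by
            rw [hMS, conjTranspose_one, Matrix.one_mul]
        _ = Sᴴ * ((Mᴴ * M) * B) * S := by
            rw [conjTranspose_mul]; simp only [Matrix.mul_assoc]
        _ = (M * W * S)ᴴ * (M * W * S) := by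
            rw [hW, conjTranspose_mul, conjTranspose_mul]; simp only [Matrix.mul_assoc]
    rw [h1, re_trace_star_mul_self]
    positivity
  rw [htr, Complex.add_re]
  linarith

/-- lower bound for the trace of a power of a Gram matrix -/
lemma gram_trace_pow (A : Matrix n n ℂ) (i j : n) (p : ℕ) :
    ‖A i j‖ ^ (2 * p) ≤ (trace ((Aᴴ * A) ^ p)).re := by
  set P := Aᴴ * A with hP
  have hPH : Pᴴ = P := by rw [hP, conjTranspose_mul, conjTranspose_conjTranspose]
  have hPHp : ∀ q : ℕ, (P ^ q)ᴴ = P ^ q := by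
    intro q; rw [conjTranspose_pow, hPH]
  -- square roots of powers
  have hroot : ∀ q : ℕ, ∃ U : Matrix n n ℂ, P ^ q = Uᴴ * U ∧ P ^ (q + 2) = (U * P)ᴴ * (U * P) ∧
      P ^ (q + 1) = Uᴴ * (U * P) := by
    intro q
    rcases Nat.even_or_odd q with ⟨t, ht⟩ | ⟨t, ht⟩
    · refine ⟨P ^ t, ?_, ?_, ?_⟩
      · rw [hPHp, ← pow_add, ht]
      · rw [conjTranspose_mul, hPH, hPHp, ← Matrix.mul_assoc, Matrix.mul_assoc P, ← pow_add,
          ← pow_succ', ← pow_succ, ht]
      · rw [hPHp, ← Matrix.mul_assoc, ← pow_add, ← pow_succ, ht]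
    · have h0 : P ^ q = (A * P ^ t)ᴴ * (A * P ^ t) := by
        rw [conjTranspose_mul, hPHp, Matrix.mul_assoc, ← Matrix.mul_assoc Aᴴ, ← hP, ← pow_succ',
          ← pow_add, ht]
        congr 1; ring
      refine ⟨A * P ^ t, h0, ?_, ?_⟩
      · rw [conjTranspose_mul, hPH, Matrix.mul_assoc, ← Matrix.mul_assoc _ _ P, ← h0, ← pow_succ,
          ← pow_succ']
      · rw [← Matrix.mul_assoc, ← h0, ← pow_succ]
  -- diagonal entries
  set μ : ℕ → ℝ := fun q => ((P ^ q) j j).re with hμ
  have hdiag : ∀ (U V : Matrix n n ℂ), (Uᴴ * V) j j = ∑ k, star (U k j) * V k j := by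
    intro U V
    rw [mul_apply]; rfl
  have hsq : ∀ U : Matrix n n ℂ, ((Uᴴ * U) j j).re = ∑ k, ‖U k j‖ ^ 2 := by
    intro U
    rw [hdiag, Complex.re_sum]
    apply sum_congr rfl
    intro k _
    rw [Complex.star_def, ← Complex.normSq_eq_conj_mul_self, Complex.ofReal_re,
      Complex.normSq_eq_norm_sq]
  have hnn : ∀ q, 0 ≤ μ q := by
    intro q
    obtain ⟨U, h1, _, _⟩ := hroot q
    simp only [hμ]
    rw [h1, hsq]; positivity
  have hcs : ∀ q, μ (q + 1) ^ 2 ≤ μ q * μ (q + 2) := by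
    intro q
    obtain ⟨U, h1, h2, h3⟩ := hroot q
    simp only [hμ]
    rw [h1, h2, h3, hsq, hsq, hdiag]
    have h4 : |(∑ k, star (U k j) * (U * P) k j).re| ≤ ∑ k, ‖U k j‖ * ‖(U * P) k j‖ := by
      refine (Complex.abs_re_le_norm _).trans ((norm_sum_le _ _).trans ?_)
      apply le_of_eq
      apply sum_congr rfl
      intro k _
      rw [norm_mul, norm_star]
    calc (∑ k, star (U k j) * (U * P) k j).re ^ 2
        = |(∑ k, star (U k j) * (U * P) k j).re| ^ 2 := (sq_abs _).symm
      _ ≤ (∑ k, ‖U k j‖ * ‖(U * P) k j‖) ^ 2 := by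
          apply pow_le_pow_left₀ (abs_nonneg _) h4
      _ ≤ _ := Finset.sum_mul_sq_le_sq_mul_sq _ _ _
  have h0 : μ 0 = 1 := by simp [hμ]
  have hgrow : ∀ q, μ 1 ^ q ≤ μ q := by
    by_cases h1 : μ 1 = 0
    · intro q
      rcases q with _ | q
      · simp [h0]
      · rw [h1]; simp only [ne_eq, Nat.add_eq_zero_iff, one_ne_zero, and_false,
          not_false_eq_true, zero_pow]
        exact hnn _
    · have h1' : 0 < μ 1 := lt_of_le_of_ne (hnn 1) (Ne.symm h1)
      have hpos : ∀ q, μ 1 ^ q ≤ μ q ∧ μ 1 * μ q ≤ μ (q + 1) := by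
        intro q
        induction q with
        | zero => exact ⟨by simp [h0], by rw [h0, zero_add, mul_one]⟩
        | succ q ih =>
          obtain ⟨i1, i2⟩ := ih
          have hq : 0 < μ q := lt_of_lt_of_le (pow_pos h1' q) i1
          have i3 : μ 1 ^ (q + 1) ≤ μ (q + 1) := by
            rw [pow_succ']
            exact (mul_le_mul_of_nonneg_left i1 h1'.le).trans i2
          refine ⟨i3, ?_⟩
          have h5 := hcs q
          have hq1 : 0 < μ (q + 1) := lt_of_lt_of_le (pow_pos h1' _) i3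
          have h6 : μ q * (μ 1 * μ (q + 1)) ≤ μ q * μ (q + 2) := by
            calc μ q * (μ 1 * μ (q + 1)) = (μ 1 * μ q) * μ (q + 1) := by ring
              _ ≤ μ (q + 1) * μ (q + 1) := mul_le_mul_of_nonneg_right i2 hq1.le
              _ = μ (q + 1) ^ 2 := by ring
              _ ≤ _ := h5
          exact le_of_mul_le_mul_left h6 hq
      intro q
      exact (hpos q).1
  have h2 : ‖A i j‖ ^ 2 ≤ μ 1 := by
    simp only [hμ]
    rw [pow_one, hP, hsq]
    exact Finset.single_le_sum (f := fun k => ‖A k j‖ ^ 2) (fun k _ => by positivity)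
      (mem_univ i)
  have h3 : μ p ≤ (trace (P ^ p)).re := by
    unfold Matrix.trace
    rw [Complex.re_sum]
    apply Finset.single_le_sum (f := fun k => (diag (P ^ p) k).re) _ (mem_univ j)
    intro k _
    obtain ⟨U, h1, _, _⟩ := hroot p
    rw [diag_apply, h1, mul_apply, Complex.re_sum]
    apply sum_nonneg
    intro l _
    rw [conjTranspose_apply, Complex.star_def, ← Complex.normSq_eq_conj_mul_self,
      Complex.ofReal_re]
    exact Complex.normSq_nonneg _
  calc ‖A i j‖ ^ (2 * p) = (‖A i j‖ ^ 2) ^ p := pow_mul _ _ _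
    _ ≤ μ 1 ^ p := pow_le_pow_left₀ (by positivity) h2 p
    _ ≤ μ p := hgrow p
    _ ≤ _ := h3

end Pool.Agent.Helper9.Lin
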