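import Pool.Agent.Helper9.Supp
import Pool.Agent.Helper9.AxisDefs
import Pool.Agent.Helper9.Lin
import Pool.Agent.Helper9.Psd

/-!
# The state sum of a closed braid with its axis is an ordinary trace
-/

namespace Pool.Agent.Helper9.Kashaev

open Finset

lemma RT_braid_Sup {N n : ℕ} (k p : ℕ) {f : List ℕ → ℂ} (hf : Sup N n f) :
    Sup N n (RT N (braid k p) f) := by
  induction p generalizing f with
  | zero => exact hf
  | succ p ih =>
    simp only [braid, RT]
    exact ih ((hf.pos k).neg (k + 1))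

lemma RT_braid_cons {N : ℕ} (k p : ℕ) (f : List ℕ → ℂ) (x : ℕ) (w : List ℕ) :
    RT N (braid (k + 1) p) f (x :: w) = RT N (braid k p) (fun u => f (x :: u)) w := by
  induction p generalizing f with
  | zero => rfl
  | succ p ih =>
    simp only [braid, RT]
    rw [ih]
    congr 1

lemma RT_braid_append {N : ℕ} (p : ℕ) (f : List ℕ → ℂ) (a b c : ℕ) (s : List ℕ) :
    RT N (braid 0 p) f ([a, b, c] ++ s) = RT N (braid 0 p) (fun u => f (u ++ s)) [a, b, c] := by
  induction p generalizing f with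
  | zero => rfl
  | succ p ih =>
    simp only [braid, RT]
    rw [ih]
    have key : ∀ f g : List ℕ → ℂ, (∀ a b c, f [a, b, c] = g [a, b, c]) → ∀ p a b c,
        RT N (braid 0 p) f [a, b, c] = RT N (braid 0 p) g [a, b, c] := by
      intro f g hfg p
      induction p generalizing f g with
      | zero => exact hfg
      | succ p ih =>
        simp only [braid, RT]
        apply ih
        intro a b c
        simp only [slice, piece, hfg]
    apply key
    intro a b c
    simp only [slice, piece, List.cons_append, List.nil_append]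

lemma RT_braid_congr {N : ℕ} (p : ℕ) (f g : List ℕ → ℂ)
    (hfg : ∀ a b c, f [a, b, c] = g [a, b, c]) (a b c : ℕ) :
    RT N (braid 0 p) f [a, b, c] = RT N (braid 0 p) g [a, b, c] := by
  induction p generalizing f g a b c with
  | zero => exact hfg a b c
  | succ p ih =>
    simp only [braid, RT]
    apply ih
    intro a b c
    simp only [slice, piece, hfg]

lemma rho_zero (N a b : ℕ) : rho N a b 0 = tht N a b := by
  unfold rho; rw [kap_zero, eta_zero]; ring

/-- the double braiding of the axis, in state `e_0`, with three strands -/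
lemma double_braiding {N : ℕ} (h0 : 0 < N) (h : List ℕ → ℂ)
    (hh : ∀ x w, x ≠ 0 → h (x :: w) = 0) {a b c : ℕ} (ha : a < N) (hb : b < N) (hc : c < N)
    (s : List ℕ) :
    RT N [(0, .pos), (1, .pos), (2, .pos), (2, .pos), (1, .pos), (0, .pos)] h
      (0 :: a :: b :: c :: s) =
      (tht N 0 a * tht N 0 b * tht N 0 c) ^ 2 * h (0 :: a :: b :: c :: s) := by
  simp only [RT]
  set g1 := slice N .pos 0 h with hg1
  set g2 := slice N .pos 1 g1 with hg2
  set g3 := slice N .pos 2 g2 with hg3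
  set g4 := slice N .pos 2 g3 with hg4
  set g5 := slice N .pos 1 g4 with hg5
  have e1 : slice N .pos 0 g5 (0 :: a :: b :: c :: s) =
      tht N 0 a * g5 (a :: 0 :: b :: c :: s) := by
    simp only [slice]
    rw [pos_apply h0 ha]
    simp [rho_zero]
  have e2 : g5 (a :: 0 :: b :: c :: s) = tht N 0 b * g4 (a :: b :: 0 :: c :: s) := by
    rw [hg5]
    simp only [slice]
    rw [pos_apply h0 hb]
    simp [rho_zero]
  have e3 : g4 (a :: b :: 0 :: c :: s) = tht N 0 c * g3 (a :: b :: c :: 0 :: s) := by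
    rw [hg4]
    simp only [slice]
    rw [pos_apply h0 hc]
    simp [rho_zero]
  -- supports
  have s1 : ∀ x y w, y ≠ 0 → g1 (x :: y :: w) = 0 := by
    intro x y w hy
    rw [hg1]
    simp only [slice, piece]
    apply sum_eq_zero
    intro m _
    rw [hh (y + m) _ (by omega)]; simp
  have s2 : ∀ x y z w, z ≠ 0 → g2 (x :: y :: z :: w) = 0 := by
    intro x y z w hz
    rw [hg2]
    simp only [slice, piece]
    apply sum_eq_zero
    intro m _
    rw [s1 x (z + m) _ (by omega)]; simp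
  have e4 : g3 (a :: b :: c :: 0 :: s) = tht N c 0 * g2 (a :: b :: 0 :: c :: s) := by
    rw [hg3]
    simp only [slice]
    rw [pos_apply hc h0, sum_range_succ', sum_eq_zero]
    · simp [rho_zero]
    · intro m _
      rw [s2 a b (0 + (m + 1)) _ (by omega), mul_zero]
  have e5 : g2 (a :: b :: 0 :: c :: s) = tht N b 0 * g1 (a :: 0 :: b :: c :: s) := by
    rw [hg2]
    simp only [slice]
    rw [pos_apply hb h0, sum_range_succ', sum_eq_zero]
    · simp [rho_zero]
    · intro m _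
      rw [s1 a (0 + (m + 1)) _ (by omega), mul_zero]
  have e6 : g1 (a :: 0 :: b :: c :: s) = tht N a 0 * h (0 :: a :: b :: c :: s) := by
    rw [hg1]
    simp only [slice]
    rw [pos_apply ha h0, sum_range_succ', sum_eq_zero]
    · simp [rho_zero]
    · intro m _
      rw [hh (0 + (m + 1)) _ (by omega), mul_zero]
  rw [e1, e2, e3, e4, e5, e6, tht_symm N c 0, tht_symm N b 0, tht_symm N a 0]
  ring

lemma tht_sq {N : ℕ} (hN : 2 ≤ N) (a : ℕ) : tht N 0 a ^ 2 = v N ^ (((N : ℤ) - 1) * wt N a) := by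
  unfold tht
  rw [← Complex.exp_nat_mul, v_zpow]
  congr 1
  have : (N : ℂ) ≠ 0 := by exact_mod_cast (by omega : N ≠ 0)
  unfold wt
  push_cast
  field_simp
  ring

lemma cup_cap_tht {N a : ℕ} (hN : 2 ≤ N) (ha : a < N) :
    capC N a * cupC N a * tht N 0 a ^ 2 = 1 := by
  rw [tht_sq hN]
  unfold capC
  have h1 : cupC N a * v N ^ (((N : ℤ) - 1) * wt N a) = cupC N (N - 1 - a) := by
    unfold cupC
    have h2 : v N ^ ((a : ℤ) * ((N : ℤ) - 2 - a)) * v N ^ (((N : ℤ) - 1) * wt N a) =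
        (-1) ^ (N - 1) * v N ^ (((N - 1 - a : ℕ) : ℤ) *
          ((N : ℤ) - 2 - ((N - 1 - a : ℕ) : ℤ))) := by
      have h3 : ((-1 : ℂ)) ^ (N - 1) = (v N ^ (N : ℤ)) ^ ((N : ℤ) - 1 - 2 * a) := by
        rw [v_zpow_self hN]
        have h5 : ((N : ℤ) - 1 - 2 * a) = ((N - 1 : ℕ) : ℤ) + 2 * (-(a : ℤ)) := by
          push_cast [Nat.cast_sub (show 1 ≤ N by omega)]; ring
        rw [h5, zpow_add₀ (by norm_num), zpow_mul, zpow_natCast]
        norm_num
      rw [h3, ← zpow_mul, vz, vz]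
      congr 1
      unfold wt
      have h4 : ((N - 1 - a : ℕ) : ℤ) = (N : ℤ) - 1 - a := by omega
      rw [h4]; ring
    rw [mul_assoc, h2]
    have h6 : ((-1 : ℂ)) ^ (N - 1 - a) = (-1) ^ a * (-1) ^ (N - 1) := by
      obtain ⟨b, hb⟩ : ∃ b, N - 1 = a + b := ⟨N - 1 - a, by omega⟩
      rw [hb, show a + b - a = b by omega, pow_add]
      have : ((-1 : ℂ)) ^ a * (-1) ^ a = 1 := by
        rw [← mul_pow]; norm_num
      linear_combination (-(-1 : ℂ) ^ b) * this
    rw [h6]; ring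
  have h7 := cupC_ne N (N - 1 - a)
  calc (cupC N (N - 1 - a))⁻¹ * cupC N a * v N ^ (((N : ℤ) - 1) * wt N a)
      = (cupC N (N - 1 - a))⁻¹ * (cupC N a * v N ^ (((N : ℤ) - 1) * wt N a)) := by ring
    _ = 1 := by rw [h1]; exact inv_mul_cancel₀ h7

/-- the Kashaev invariant of a closed braid with its axis is a trace -/
lemma axis_trace {N : ℕ} (hN : 2 ≤ N) (p : ℕ) :
    RT N (axisLink p) (ket [0]) [0] = ∑ a ∈ range N, ∑ b ∈ range N, ∑ c ∈ range N,
      RT N (braid 0 p) (ket [a, b, c]) [a, b, c] := by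
  have h0 : 0 < N := by omega
  unfold axisLink
  rw [RT_append, RT_append, RT_append]
  set k3 := RT N [(1, .cup), (2, .cup), (3, .cup)] (ket [0]) with hk3
  set h := RT N (braid 1 p) k3 with hh
  set g := RT N [(0, .pos), (1, .pos), (2, .pos), (2, .pos), (1, .pos), (0, .pos)] h with hg
  -- the caps
  have hcap : RT N [(3, .cap), (2, .cap), (1, .cap)] g [0] =
      ∑ a ∈ range N, ∑ b ∈ range N, ∑ c ∈ range N, capC N a * capC N b * capC N c *
        g [0, a, b, c, N - 1 - c, N - 1 - b, N - 1 - a] := by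
    simp only [RT, slice, piece, mul_sum]
    apply sum_congr rfl; intro a _
    apply sum_congr rfl; intro b _
    apply sum_congr rfl; intro c _
    ring
  rw [hcap]
  -- support of h
  have hk0 : ∀ x w, x ≠ 0 → k3 (x :: w) = 0 := by
    intro x w hx
    rw [hk3]
    have hz : (fun u => ket [0] (x :: u)) = fun _ => 0 := by
      funext u; simp [ket, hx]
    simp only [RT, slice]
    rw [hz]
    have z0 : (fun u => piece N .cup (fun _ => 0) u) = fun _ => 0 := slice_zero_fun N .cup 0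
    have z1 : (fun u => slice N .cup 1 (fun _ => 0) u) = fun _ => 0 := slice_zero_fun N .cup 1
    have z2 : slice N .cup 2 (fun _ => 0) = fun _ => 0 := slice_zero_fun N .cup 2
    have e0 : piece N .cup (fun _ => 0) = fun _ => 0 := z0
    rw [e0]
    have e1 : slice N .cup 1 (fun _ => 0) = fun _ => 0 := z1
    rw [e1]
    exact congrFun z2 w
  have hh0 : ∀ x w, x ≠ 0 → h (x :: w) = 0 := by
    intro x w hx
    rw [hh, RT_braid_cons]
    have : (fun u => k3 (x :: u)) = fun _ => 0 := by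
      funext u; exact hk0 x u hx
    rw [this]
    have z : RT N (braid 0 p) (fun _ => 0) = fun _ => 0 := by
      rw [← RTL_apply]; exact (RTL N (braid 0 p)).map_zero
    exact congrFun z w
  apply sum_congr rfl; intro a ha
  apply sum_congr rfl; intro b hb
  apply sum_congr rfl; intro c hc
  rw [mem_range] at ha hb hc
  have e1 : g [0, a, b, c, N - 1 - c, N - 1 - b, N - 1 - a] =
      (tht N 0 a * tht N 0 b * tht N 0 c) ^ 2 *
        h [0, a, b, c, N - 1 - c, N - 1 - b, N - 1 - a] :=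
    double_braiding h0 h hh0 ha hb hc _
  have e2 : h [0, a, b, c, N - 1 - c, N - 1 - b, N - 1 - a] =
      cupC N a * cupC N b * cupC N c * RT N (braid 0 p) (ket [a, b, c]) [a, b, c] := by
    rw [hh, RT_braid_cons]
    have := RT_braid_append (N := N) p (fun u => k3 (0 :: u)) a b c
      [N - 1 - c, N - 1 - b, N - 1 - a]
    simp only [List.cons_append, List.nil_append] at this
    rw [this]
    have h3 : RT N (braid 0 p) (fun u => k3 (0 :: (u ++ [N - 1 - c, N - 1 - b, N - 1 - a])))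
        [a, b, c] = RT N (braid 0 p) (fun u => (cupC N a * cupC N b * cupC N c) *
          ket [a, b, c] u) [a, b, c] := by
      apply RT_braid_congr
      intro a' b' c'
      rw [hk3]
      simp only [RT, slice, piece, List.cons_append, List.nil_append, ket]
      by_cases hc' : c' = c
      · by_cases hb' : b' = b
        · by_cases ha' : a' = a
          · subst ha' hb' hc'
            rw [if_pos (by omega), if_pos (by omega), if_pos (by omega)]
            simp; ring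
          · rw [if_pos (by omega), if_pos (by omega), if_neg (by omega)]
            simp [ha']
        · rw [if_pos (by omega), if_neg (by omega)]
          simp [hb']
      · rw [if_neg (by omega)]
        simp [hc']
    rw [h3]
    have h4 : (fun u => (cupC N a * cupC N b * cupC N c) * ket [a, b, c] u) =
        (cupC N a * cupC N b * cupC N c) • ket [a, b, c] := rfl
    rw [h4, ← RTL_apply, map_smul, RTL_apply]
    rfl
  rw [e1, e2]
  have ca := cup_cap_tht hN ha
  have cb := cup_cap_tht hN hb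
  have cc := cup_cap_tht hN hc
  calc capC N a * capC N b * capC N c * ((tht N 0 a * tht N 0 b * tht N 0 c) ^ 2 *
        (cupC N a * cupC N b * cupC N c * RT N (braid 0 p) (ket [a, b, c]) [a, b, c]))
      = (capC N a * cupC N a * tht N 0 a ^ 2) * (capC N b * cupC N b * tht N 0 b ^ 2) *
        (capC N c * cupC N c * tht N 0 c ^ 2) *
        RT N (braid 0 p) (ket [a, b, c]) [a, b, c] := by ring
    _ = _ := by rw [ca, cb, cc]; ring

lemma axis_isKashaev {N : ℕ} (hN : 2 ≤ N) (p : ℕ) :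
    IsKashaev N (axisLink p) (∑ a ∈ range N, ∑ b ∈ range N, ∑ c ∈ range N,
      RT N (braid 0 p) (ket [a, b, c]) [a, b, c]) := by
  rw [← axis_trace hN p]
  apply isKashaev_of_Sup hN
  unfold axisLink
  rw [RT_append, RT_append, RT_append]
  have h1 : Sup N 1 (ket [0]) := Sup_ket (w := [0]) (by intro x hx; simp at hx; omega)
  have h2 : Sup N 7 (RT N [(1, .cup), (2, .cup), (3, .cup)] (ket [0])) := by
    simp only [RT]
    exact ((h1.cup 1).cup 2).cup 3
  have h3 := RT_braid_Sup 1 p h2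
  simp only [RT] at h3 ⊢
  exact (((((((((h3.pos 0).pos 1).pos 2).pos 2).pos 1).pos 0).cap 3).cap 2).cap 1)

end Pool.Agent.Helper9.Kashaev

/-!
# The trace on the third tensor power in terms of highest weight vectors
-/

namespace Pool.Agent.Helper9.Kashaev

open Finset

/-- the third tensor power -/
def S3 (N : ℕ) : Submodule ℂ (List ℕ → ℂ) where
  carrier := {f | Sup N 3 f}
  add_mem' := by
    intro f g hf hg w hw
    rw [Pi.add_apply, hf w hw, hg w hw, add_zero]
  zero_mem' := fun _ _ => rfl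
  smul_mem' := by
    intro c f hf w hw
    rw [Pi.smul_apply, hf w hw, smul_zero]

lemma mem_S3 {N : ℕ} {f : List ℕ → ℂ} : f ∈ S3 N ↔ Sup N 3 f := Iff.rfl

abbrev I3 (N : ℕ) := Fin N × Fin N × Fin N
abbrev I2 (N : ℕ) := Fin N × Fin N

/-- extension by zero -/
def ext3 (N : ℕ) (g : I3 N → ℂ) : List ℕ → ℂ
  | [a, b, c] => if h : a < N ∧ b < N ∧ c < N then g (⟨a, h.1⟩, ⟨b, h.2.1⟩, ⟨c, h.2.2⟩) else 0
  | _ => 0

lemma ext3_Sup (N : ℕ) (g : I3 N → ℂ) : Sup N 3 (ext3 N g) := by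
  rw [Sup3_iff]
  intro w hw
  rcases w with _ | ⟨a, _ | ⟨b, _ | ⟨c, _ | ⟨d, w⟩⟩⟩⟩
  · rfl
  · rfl
  · rfl
  · simp only [ext3]
    rw [dif_neg]
    intro h
    exact hw ⟨a, b, c, rfl, h⟩
  · rfl

/-- coordinates on the third tensor power -/
def e3 (N : ℕ) : S3 N ≃ₗ[ℂ] (I3 N → ℂ) where
  toFun f := fun x => f.1 [x.1, x.2.1, x.2.2]
  map_add' f g := rfl
  map_smul' c f := rfl
  invFun g := ⟨ext3 N g, ext3_Sup N g⟩
  left_inv := by
    rintro ⟨f, hf⟩
    apply Subtype.ext
    funext w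
    by_cases hw : ∃ a b c, w = [a, b, c] ∧ a < N ∧ b < N ∧ c < N
    · obtain ⟨a, b, c, rfl, h⟩ := hw
      simp only [ext3]
      rw [dif_pos h]
    · have h1 := Sup3_iff.mp (ext3_Sup N (fun x => f [x.1, x.2.1, x.2.2])) w hw
      have h2 := Sup3_iff.mp hf w hw
      exact h1.trans h2.symm
  right_inv := by
    intro g
    funext x
    obtain ⟨⟨a, ha⟩, ⟨b, hb⟩, ⟨c, hc⟩⟩ := x
    simp only [ext3]
    rw [dif_pos ⟨ha, hb, hc⟩]

instance (N : ℕ) : FiniteDimensional ℂ (S3 N) := LinearEquiv.finiteDimensional (e3 N).symm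

lemma finrank_S3 (N : ℕ) : Module.finrank ℂ (S3 N) = N * (N * N) := by
  rw [LinearEquiv.finrank_eq (e3 N)]
  simp

/-- trace on the third tensor power in coordinates -/
lemma trace_S3 {N : ℕ} (T : S3 N →ₗ[ℂ] S3 N) (T0 : (List ℕ → ℂ) → (List ℕ → ℂ))
    (hT : ∀ f : S3 N, (T f).1 = T0 f.1) :
    LinearMap.trace ℂ (S3 N) T =
      ∑ a ∈ range N, ∑ b ∈ range N, ∑ c ∈ range N, T0 (ket [a, b, c]) [a, b, c] := by
  have hb : ∀ i : I3 N, ((Module.Basis.ofEquivFun (e3 N)) i).1 = ket [i.1, i.2.1, i.2.2] := by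
    intro i
    rw [Module.Basis.coe_ofEquivFun]
    funext w
    show ext3 N (Pi.single i 1) w = _
    by_cases hw : ∃ a b c, w = [a, b, c] ∧ a < N ∧ b < N ∧ c < N
    · obtain ⟨a, b, c, rfl, h⟩ := hw
      simp only [ext3]
      rw [dif_pos h]
      obtain ⟨⟨i1, h1⟩, ⟨i2, h2⟩, ⟨i3, h3⟩⟩ := i
      simp only [Pi.single_apply, ket, Prod.mk.injEq, Fin.mk.injEq, List.cons.injEq, and_true]
    · rw [Sup3_iff.mp (ext3_Sup N _) w hw]
      unfold ket
      rw [if_neg]
      rintro rfl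
      exact hw ⟨i.1, i.2.1, i.2.2, rfl, i.1.2, i.2.1.2, i.2.2.2⟩
  rw [LinearMap.trace_eq_matrix_trace ℂ (Module.Basis.ofEquivFun (e3 N)), Matrix.trace]
  have h1 : ∀ i : I3 N, Matrix.diag (LinearMap.toMatrix (Module.Basis.ofEquivFun (e3 N))
      (Module.Basis.ofEquivFun (e3 N)) T) i =
      T0 (ket [i.1, i.2.1, i.2.2]) [i.1, i.2.1, i.2.2] := by
    intro i
    rw [Matrix.diag_apply, LinearMap.toMatrix_apply, Module.Basis.ofEquivFun_repr_apply, ← hb,
      ← hT]
    rfl
  rw [sum_congr rfl (fun i _ => h1 i)]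
  rw [Fintype.sum_prod_type, Finset.sum_range]
  apply sum_congr rfl
  intro a _
  rw [Fintype.sum_prod_type, Finset.sum_range]
  apply sum_congr rfl
  intro b _
  rw [Finset.sum_range]

/-- `E` on the third tensor power -/
noncomputable def ES (N : ℕ) : S3 N →ₗ[ℂ] S3 N :=
  (EL N).restrict (p := S3 N) (q := S3 N) (fun _ hf => Sup.E hf)

lemma ES_coe {N : ℕ} (f : S3 N) : (ES N f).1 = Eop N f.1 := rfl

lemma ES_pow_coe {N : ℕ} (j : ℕ) (f : S3 N) : ((ES N ^ j) f).1 = (EL N ^ j) f.1 := by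
  induction j generalizing f with
  | zero => rfl
  | succ j ih => rw [pow_succ, pow_succ, Module.End.mul_apply, Module.End.mul_apply, ih]; rfl

lemma gg_add {N : ℕ} (f g : List ℕ → ℂ) (a b c : ℕ) :
    gg N (f + g) a b c = gg N f a b c + gg N g a b c := by
  unfold gg; rw [Pi.add_apply]; ring

lemma gg_smul {N : ℕ} (k : ℂ) (f : List ℕ → ℂ) (a b c : ℕ) :
    gg N (k • f) a b c = k * gg N f a b c := by
  unfold gg; rw [Pi.smul_apply, smul_eq_mul]; ring

/-- coordinates with middle letter `0` -/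
noncomputable def rhoS (N : ℕ) : S3 N →ₗ[ℂ] (I2 N → ℂ) where
  toFun f := fun x => gg N f.1 x.1 0 x.2
  map_add' f g := by funext x; exact gg_add _ _ _ _ _
  map_smul' k f := by funext x; exact gg_smul _ _ _ _ _

/-- all coordinates of the iterates -/
noncomputable def PhiS (N : ℕ) : S3 N →ₗ[ℂ] (Fin N → I2 N → ℂ) :=
  LinearMap.pi (fun i => rhoS N ∘ₗ (ES N ^ (i : ℕ)))

lemma PhiS_apply {N : ℕ} (f : S3 N) (i : Fin N) : PhiS N f i = rhoS N ((ES N ^ (i : ℕ)) f) := rfl

lemma gg_zero_of {N : ℕ} {f : List ℕ → ℂ} (hf : Sup N 3 f) {a b c : ℕ}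
    (h : ¬ (a < N ∧ b < N ∧ c < N)) : gg N f a b c = 0 := by
  unfold gg
  rw [(Sup3_iff.mp hf).zero h, mul_zero]

lemma PhiS_injective {N : ℕ} (hN : 2 ≤ N) : Function.Injective (PhiS N) := by
  rw [← LinearMap.ker_eq_bot, LinearMap.ker_eq_bot']
  intro f hf
  have h0 : ∀ i < N, ∀ a c, gg N ((EL N ^ i) f.1) a 0 c = 0 := by
    intro i hi a c
    by_cases h : a < N ∧ c < N
    · have := congrFun (congrFun hf ⟨i, hi⟩) (⟨a, h.1⟩, ⟨c, h.2⟩)
      rw [PhiS_apply] at this
      have h2 : gg N ((ES N ^ i) f).1 a 0 c = 0 := this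
      rwa [ES_pow_coe] at h2
    · have h2 : Sup N 3 ((EL N ^ i) f.1) := by rw [← ES_pow_coe]; exact ((ES N ^ i) f).2
      exact gg_zero_of h2 (by omega)
  have key : ∀ b i, i + b < N → ∀ a c, gg N ((EL N ^ i) f.1) a b c = 0 := by
    intro b
    induction b with
    | zero => intro i hi a c; exact h0 i (by omega) a c
    | succ b ih =>
      intro i hi a c
      have hs : Sup N 3 ((EL N ^ i) f.1) := by rw [← ES_pow_coe]; exact ((ES N ^ i) f).2
      have hE := gg_E hN (Sup3_iff.mp hs) a b c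
      have h1 : gg N (Eop N ((EL N ^ i) f.1)) a b c = 0 := by
        have := ih (i + 1) (by omega) a c
        rw [pow_succ', Module.End.mul_apply] at this
        exact this
      rw [h1, ih i (by omega) (a + 1) c, ih i (by omega) a (c + 1)] at hE
      simp only [mul_zero, zero_add, add_zero] at hE
      rcases mul_eq_zero.mp hE.symm with h2 | h2
      · exact absurd h2 (vz_ne _ _)
      · exact h2
  apply Subtype.ext
  funext w
  by_cases hw : ∃ a b c, w = [a, b, c] ∧ a < N ∧ b < N ∧ c < N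
  · obtain ⟨a, b, c, rfl, ha, hb, hc⟩ := hw
    have := key b 0 (by omega) a c
    rw [pow_zero] at this
    have h3 : w2 N a * w2 N b * w2 N c * f.1 [a, b, c] = 0 := this
    rcases mul_eq_zero.mp h3 with h4 | h4
    · exact absurd h4 (mul_ne_zero (mul_ne_zero (w2_ne ha) (w2_ne hb)) (w2_ne hc))
    · exact h4
  · exact Sup3_iff.mp f.2 w hw

lemma PhiS_surjective {N : ℕ} (hN : 2 ≤ N) : Function.Surjective (PhiS N) := by
  have h : Module.finrank ℂ (S3 N) = Module.finrank ℂ (Fin N → I2 N → ℂ) := by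
    rw [finrank_S3, Module.finrank_pi_fintype]
    simp
  exact (LinearMap.injective_iff_surjective_of_finrank_eq_finrank h).mp (PhiS_injective hN)

lemma ES_free {N : ℕ} (hN : 2 ≤ N) (j : ℕ) (hj : j < N) (u : S3 N) (hu : ES N u = 0) :
    ∃ x, (ES N ^ j) x = u := by
  obtain ⟨x, hx⟩ := PhiS_surjective hN (fun i => if (i : ℕ) = j then rhoS N u else 0)
  refine ⟨x, PhiS_injective hN ?_⟩
  funext i
  rw [PhiS_apply, PhiS_apply, ← Module.End.mul_apply, ← pow_add]
  have hu' : ∀ i : ℕ, i ≠ 0 → (ES N ^ i) u = 0 := by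
    intro i hi
    obtain ⟨k, rfl⟩ : ∃ k, i = k + 1 := ⟨i - 1, by omega⟩
    rw [pow_succ, Module.End.mul_apply, hu, map_zero]
  by_cases h : (i : ℕ) + j < N
  · have := congrFun hx ⟨(i : ℕ) + j, h⟩
    rw [PhiS_apply] at this
    simp only at this
    rw [this]
    by_cases hi : (i : ℕ) = 0
    · rw [if_pos (by omega), hi, pow_zero]; rfl
    · rw [if_neg (by omega), hu' _ hi, map_zero]
  · have h1 : (ES N ^ ((i : ℕ) + j)) x = 0 := by
      apply Subtype.ext
      rw [ES_pow_coe]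
      obtain ⟨d, hd⟩ : ∃ d, (i : ℕ) + j = d + N := ⟨(i : ℕ) + j - N, by omega⟩
      rw [hd, pow_add, Module.End.mul_apply, EL_pow_N hN, map_zero]; rfl
    rw [h1, hu' _ (by omega)]

/-- an element of the third tensor power with given coordinates killed by `E` -/
lemma rhoS_ker_surj {N : ℕ} (hN : 2 ≤ N) (y : I2 N → ℂ) : ∃ f : S3 N, ES N f = 0 ∧
    rhoS N f = y := by
  obtain ⟨x, hx⟩ := PhiS_surjective hN (fun i => if (i : ℕ) = 0 then y else 0)
  refine ⟨x, PhiS_injective hN ?_, ?_⟩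
  · funext i
    rw [PhiS_apply, map_zero, ← Module.End.mul_apply, ← pow_succ]
    by_cases h : (i : ℕ) + 1 < N
    · have := congrFun hx ⟨(i : ℕ) + 1, h⟩
      rw [PhiS_apply] at this
      simp only at this
      rw [this, if_neg (by omega)]; rfl
    · have h1 : (ES N ^ ((i : ℕ) + 1)) x = 0 := by
        apply Subtype.ext
        rw [ES_pow_coe]
        have : (i : ℕ) + 1 = N := by omega
        rw [this, EL_pow_N hN]; rfl
      rw [h1, map_zero]; rfl
  · have := congrFun hx ⟨0, by omega⟩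
    rw [PhiS_apply] at this
    simpa using this

lemma rhoS_ker_inj {N : ℕ} (hN : 2 ≤ N) (f : S3 N) (hE : ES N f = 0) (h : rhoS N f = 0) :
    f = 0 := by
  apply PhiS_injective hN
  funext i
  rw [PhiS_apply, map_zero]
  rcases Nat.eq_zero_or_pos (i : ℕ) with h0 | h0
  · rw [h0, pow_zero]; exact h
  · obtain ⟨k, hk⟩ : ∃ k, (i : ℕ) = k + 1 := ⟨(i : ℕ) - 1, by omega⟩
    rw [hk, pow_succ, Module.End.mul_apply, hE, map_zero, map_zero]; rfl

/-- the matrix of the positive crossing -/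
noncomputable def MA (N : ℕ) : Matrix (I2 N) (I2 N) ℂ := fun x y =>
  if (y.1 : ℕ) ≤ x.1 ∧ (y.2 : ℕ) = x.2 + (x.1 - y.1) then Ac N x.1 x.2 y.1 else 0

/-- the matrix of the negative crossing -/
noncomputable def MC (N : ℕ) : Matrix (I2 N) (I2 N) ℂ := fun x y =>
  if (y.2 : ℕ) ≤ x.2 ∧ (y.1 : ℕ) = x.1 + (x.2 - y.2) then Cc N x.2 y.2 else 0

lemma rhoS_pos {N : ℕ} (hN : 2 ≤ N) (f g : S3 N) (hE : ES N f = 0)
    (hg : g.1 = slice N .pos 0 f.1) : rhoS N g = (MA N).mulVec (rhoS N f) := by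
  funext x
  obtain ⟨⟨a, ha⟩, ⟨c, hc⟩⟩ := x
  show gg N g.1 a 0 c = _
  rw [hg, A_action hN (Sup3_iff.mp f.2) (congrArg Subtype.val hE) ha]
  unfold Matrix.mulVec dotProduct
  rw [Fintype.sum_prod_type]
  -- right hand side as a sum over l < N
  have hR : ∀ l : Fin N, ∑ c' : Fin N, MA N (⟨a, ha⟩, ⟨c, hc⟩) (l, c') * rhoS N f (l, c') =
      if (l : ℕ) ≤ a then Ac N a c l * gg N f.1 l 0 (c + (a - l)) else 0 := by
    intro l
    by_cases hl : (l : ℕ) ≤ a
    · rw [if_pos hl]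
      by_cases hc' : c + (a - l) < N
      · rw [sum_eq_single (⟨c + (a - l), hc'⟩ : Fin N)]
        · unfold MA
          rw [if_pos ⟨hl, rfl⟩]
          rfl
        · intro c' _ hne
          unfold MA
          rw [if_neg, zero_mul]
          rintro ⟨_, h2⟩
          exact hne (Fin.ext h2)
        · intro h; exact absurd (mem_univ _) h
      · rw [gg_zero_of f.2 (by omega), mul_zero]
        apply sum_eq_zero
        intro c' _
        unfold MA
        rw [if_neg, zero_mul]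
        rintro ⟨_, h2⟩
        have := c'.2
        simp only at h2
        omega
    · rw [if_neg hl]
      apply sum_eq_zero
      intro c' _
      unfold MA
      rw [if_neg, zero_mul]
      rintro ⟨h1, _⟩
      exact hl h1
  rw [sum_congr rfl (fun l _ => hR l)]
  rw [← Fin.sum_univ_eq_sum_range (fun l => Ac N a c l * gg N f.1 l 0 (c + (a - l))) (a + 1)]
  rw [Fin.sum_univ_eq_sum_range (fun l => Ac N a c l * gg N f.1 l 0 (c + (a - l))) (a + 1),
    Fin.sum_univ_eq_sum_range (fun l => if l ≤ a then Ac N a c l *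
      gg N f.1 l 0 (c + (a - l)) else 0) N]
  have hsub : range (a + 1) ⊆ range N := by
    intro l hl; rw [mem_range] at *; omega
  rw [← sum_subset hsub]
  · apply sum_congr rfl
    intro l hl
    rw [mem_range] at hl
    rw [if_pos (by omega)]
  · intro l _ hl
    rw [mem_range] at hl
    rw [if_neg (by omega)]

lemma rhoS_neg {N : ℕ} (hN : 2 ≤ N) (f g : S3 N) (hE : ES N f = 0)
    (hg : g.1 = slice N .neg 1 f.1) : rhoS N g = (MC N).mulVec (rhoS N f) := by
  funext x
  obtain ⟨⟨a, ha⟩, ⟨c, hc⟩⟩ := x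
  show gg N g.1 a 0 c = _
  rw [hg, C_action hN (Sup3_iff.mp f.2) (congrArg Subtype.val hE) hc]
  unfold Matrix.mulVec dotProduct
  rw [Fintype.sum_prod_type_right]
  have hR : ∀ l : Fin N, ∑ a' : Fin N, MC N (⟨a, ha⟩, ⟨c, hc⟩) (a', l) * rhoS N f (a', l) =
      if (l : ℕ) ≤ c then Cc N c l * gg N f.1 (a + (c - l)) 0 l else 0 := by
    intro l
    by_cases hl : (l : ℕ) ≤ c
    · rw [if_pos hl]
      by_cases hc' : a + (c - l) < N
      · rw [sum_eq_single (⟨a + (c - l), hc'⟩ : Fin N)]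
        · unfold MC
          rw [if_pos ⟨hl, rfl⟩]
          rfl
        · intro c' _ hne
          unfold MC
          rw [if_neg, zero_mul]
          rintro ⟨_, h2⟩
          exact hne (Fin.ext h2)
        · intro h; exact absurd (mem_univ _) h
      · rw [gg_zero_of f.2 (by omega), mul_zero]
        apply sum_eq_zero
        intro c' _
        unfold MC
        rw [if_neg, zero_mul]
        rintro ⟨_, h2⟩
        have := c'.2
        simp only at h2
        omega
    · rw [if_neg hl]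
      apply sum_eq_zero
      intro c' _
      unfold MC
      rw [if_neg, zero_mul]
      rintro ⟨h1, _⟩
      exact hl h1
  rw [sum_congr rfl (fun l _ => hR l)]
  rw [Fin.sum_univ_eq_sum_range (fun l => if l ≤ c then Cc N c l *
      gg N f.1 (a + (c - l)) 0 l else 0) N]
  have hsub : range (c + 1) ⊆ range N := by
    intro l hl; rw [mem_range] at *; omega
  rw [← sum_subset hsub]
  · apply sum_congr rfl
    intro l hl
    rw [mem_range] at hl
    rw [if_pos (by omega)]
  · intro l _ hl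
    rw [mem_range] at hl
    rw [if_neg (by omega)]

/-- `p` copies of the braid, on the third tensor power -/
noncomputable def BS (N p : ℕ) : S3 N →ₗ[ℂ] S3 N :=
  (RTL N (braid 0 p)).restrict (p := S3 N) (q := S3 N)
    (fun _ hf => by rw [RTL_apply]; exact RT_braid_Sup 0 p hf)

lemma BS_coe {N p : ℕ} (f : S3 N) : (BS N p f).1 = RT N (braid 0 p) f.1 := RTL_apply _ _ _

lemma BS_comm {N p : ℕ} (hN : 2 ≤ N) (f : S3 N) : BS N p (ES N f) = ES N (BS N p f) := by
  apply Subtype.ext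
  rw [BS_coe, ES_coe, ES_coe, BS_coe, RT_E hN]

lemma rhoS_BS {N : ℕ} (hN : 2 ≤ N) (p : ℕ) : ∀ f : S3 N, ES N f = 0 →
    rhoS N (BS N p f) = ((MC N * MA N) ^ p).mulVec (rhoS N f) := by
  induction p with
  | zero =>
    intro f _
    rw [pow_zero, Matrix.one_mulVec]
    rfl
  | succ p ih =>
    intro f hf
    have h1 : Sup N 3 (slice N .pos 0 f.1) := f.2.pos 0
    have h2 : Sup N 3 (slice N .neg 1 (slice N .pos 0 f.1)) := h1.neg 1
    set g : S3 N := ⟨_, h1⟩ with hg
    set g' : S3 N := ⟨_, h2⟩ with hg'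
    have hEg : ES N g = 0 := by
      apply Subtype.ext
      show Eop N (slice N .pos 0 f.1) = 0
      rw [← slice_E hN]
      have : Eop N f.1 = fun _ => 0 := congrArg Subtype.val hf
      rw [this, slice_zero_fun]; rfl
    have hEg' : ES N g' = 0 := by
      apply Subtype.ext
      show Eop N (slice N .neg 1 (slice N .pos 0 f.1)) = 0
      rw [← slice_E hN]
      have : Eop N (slice N .pos 0 f.1) = fun _ => 0 := congrArg Subtype.val hEg
      rw [this, slice_zero_fun]; rfl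
    have h3 : BS N (p + 1) f = BS N p g' := by
      apply Subtype.ext
      rw [BS_coe, BS_coe]
      rfl
    rw [h3, ih g' hEg', rhoS_neg hN g g' hEg rfl, rhoS_pos hN f g hf rfl, Matrix.mulVec_mulVec,
      Matrix.mulVec_mulVec, pow_succ, Matrix.mul_assoc]

/-- The Kashaev invariant of the closed braid with its axis, as a trace of a matrix power. -/
theorem axis_value {N : ℕ} (hN : 2 ≤ N) (p : ℕ) :
    IsKashaev N (axisLink p) (N * Matrix.trace ((MC N * MA N) ^ p)) := by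
  have h1 := axis_isKashaev hN p
  have h2 := trace_S3 (BS N p) (fun f => RT N (braid 0 p) f) (fun f => BS_coe f)
  rw [← h2] at h1
  have hker : ∀ x ∈ LinearMap.ker (ES N), BS N p x ∈ LinearMap.ker (ES N) := by
    intro x hx
    rw [LinearMap.mem_ker] at *
    rw [← BS_comm hN, hx, map_zero]
  have h3 := Lin.trace_free (ES N) (BS N p) (BS_comm hN) N (by
    intro x
    apply Subtype.ext
    rw [ES_pow_coe, EL_pow_N hN]; rfl) (fun j hj u hu => ES_free hN j hj u hu) hker
  have h4 : LinearMap.trace ℂ (LinearMap.ker (ES N)) ((BS N p).restrict hker) =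
      Matrix.trace ((MC N * MA N) ^ p) := by
    rw [← Matrix.trace_toLin'_eq]
    refine Lin.trace_bij (K := ℂ) (V := LinearMap.ker (ES N)) (W := I2 N → ℂ)
      { toFun := fun f => rhoS N f.1
        map_add' := fun f g => map_add (rhoS N) f.1 g.1
        map_smul' := fun c f => map_smul (rhoS N) c f.1 } ?_ ?_ _ _ ?_
    · rintro ⟨f, hf⟩ h
      exact Subtype.ext (rhoS_ker_inj hN f hf h)
    · intro y
      obtain ⟨f, hf, h⟩ := rhoS_ker_surj hN y
      exact ⟨⟨f, hf⟩, h⟩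
    · rintro ⟨f, hf⟩
      rw [Matrix.toLin'_apply]
      exact rhoS_BS hN p f hf
  rw [h3, h4] at h1
  exact h1

end Pool.Agent.Helper9.Kashaev

/-!
# Powers of `F` on highest weight vectors
-/

namespace Pool.Agent.Helper9.Kashaev

open Finset

/-- `F` on the third tensor power -/
noncomputable def FS (N : ℕ) : S3 N →ₗ[ℂ] S3 N :=
  (FL N).restrict (p := S3 N) (q := S3 N) (fun _ hf => Sup.F hf)

lemma FS_coe {N : ℕ} (f : S3 N) : (FS N f).1 = Fop N f.1 := rfl

lemma FS_pow_coe {N : ℕ} (j : ℕ) (f : S3 N) : ((FS N ^ j) f).1 = (FL N ^ j) f.1 := by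
  induction j generalizing f with
  | zero => rfl
  | succ j ih => rw [pow_succ, pow_succ, Module.End.mul_apply, Module.End.mul_apply, ih]; rfl

/-- coefficients of `F ^ n` on coordinates with middle letter `0` -/
noncomputable def tF (N n a j : ℕ) : ℂ :=
  v N ^ (((n : ℤ) - j) * j + 2 * ((a : ℤ) - j + 1) * ((n : ℤ) - j)) * qb N n j

lemma Fop_mid {N : ℕ} (hN : 2 ≤ N) (f : List ℕ → ℂ) {a c : ℕ} (ha : a < N) (hc : c < N) :
    Fop N f [a, 0, c] = (if 1 ≤ a then f [a - 1, 0, c] else 0) +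
      v N ^ (2 * (a : ℤ) + 2) * (if 1 ≤ c then f [a, 0, c - 1] else 0) := by
  simp only [Fop]
  have h1 : (if 1 ≤ a ∧ a < N then f [a - 1, 0, c] else 0) =
      if 1 ≤ a then f [a - 1, 0, c] else 0 := by
    by_cases h : 1 ≤ a
    · rw [if_pos ⟨h, ha⟩, if_pos h]
    · rw [if_neg (by omega), if_neg h]
  have h2 : (if 1 ≤ c ∧ c < N then f [a, 0, c - 1] else 0) =
      if 1 ≤ c then f [a, 0, c - 1] else 0 := by
    by_cases h : 1 ≤ c
    · rw [if_pos ⟨h, hc⟩, if_pos h]
    · rw [if_neg (by omega), if_neg h]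
  have h3 : v N ^ (-wt N a) * v N ^ (-wt N 0) = v N ^ (2 * (a : ℤ) + 2) := by
    rw [v_neg_wt hN, v_neg_wt hN, neg_mul_neg, vz]; congr 1; push_cast; ring
  rw [h1, h2, if_neg (show ¬ (1 ≤ 0 ∧ 0 < N) by omega), ← h3]
  ring

lemma F_pow_mid {N : ℕ} (hN : 2 ≤ N) (n : ℕ) : n ≤ N → ∀ (f : List ℕ → ℂ) (a c : ℕ), a < N →
    c < N → (FL N ^ n) f [a, 0, c] = ∑ j ∈ range (n + 1),
      if j ≤ a ∧ n - j ≤ c then tF N n a j * f [a - j, 0, c - (n - j)] else 0 := by
  induction n with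
  | zero =>
    intro _ f a c _ _
    simp [tF, qb]
  | succ n ih =>
    intro hn f a c ha hc
    rw [pow_succ, Module.End.mul_apply, ih (by omega) _ a c ha hc]
    -- expand the inner F
    have h1 : ∀ j ∈ range (n + 1),
        (if j ≤ a ∧ n - j ≤ c then tF N n a j * (FL N f) [a - j, 0, c - (n - j)] else 0) =
        (if j + 1 ≤ a ∧ n - j ≤ c then tF N n a j * f [a - (j + 1), 0, c - (n - j)] else 0) +
        (if j ≤ a ∧ n + 1 - j ≤ c then tF N n a j * v N ^ (2 * ((a : ℤ) - j) + 2) *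
          f [a - j, 0, c - (n + 1 - j)] else 0) := by
      intro j hj
      rw [mem_range] at hj
      by_cases h : j ≤ a ∧ n - j ≤ c
      · rw [if_pos h]
        have hF : (FL N f) [a - j, 0, c - (n - j)] = (if 1 ≤ a - j then
            f [a - j - 1, 0, c - (n - j)] else 0) + v N ^ (2 * ((a - j : ℕ) : ℤ) + 2) *
            (if 1 ≤ c - (n - j) then f [a - j, 0, c - (n - j) - 1] else 0) :=
          Fop_mid hN f (by omega) (by omega)
        rw [hF]
        have e1 : ((a - j : ℕ) : ℤ) = (a : ℤ) - j := by push_cast [Nat.cast_sub h.1]; ring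
        rw [e1]
        have e2 : (if 1 ≤ a - j then f [a - j - 1, 0, c - (n - j)] else 0) =
            if j + 1 ≤ a ∧ n - j ≤ c then f [a - (j + 1), 0, c - (n - j)] else 0 := by
          by_cases h2 : j + 1 ≤ a
          · rw [if_pos (by omega), if_pos ⟨h2, h.2⟩, show a - (j + 1) = a - j - 1 by omega]
          · rw [if_neg (by omega), if_neg (by omega)]
        have e3 : (if 1 ≤ c - (n - j) then f [a - j, 0, c - (n - j) - 1] else 0) =
            if j ≤ a ∧ n + 1 - j ≤ c then f [a - j, 0, c - (n + 1 - j)] else 0 := by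
          by_cases h2 : n + 1 - j ≤ c
          · rw [if_pos (by omega), if_pos ⟨h.1, h2⟩,
              show c - (n + 1 - j) = c - (n - j) - 1 by omega]
          · rw [if_neg (by omega), if_neg (by omega)]
        rw [e2, e3]
        split_ifs <;> ring
      · rw [if_neg h, if_neg (by omega), if_neg (by omega), add_zero]
    rw [sum_congr rfl h1, sum_add_distrib]
    have h2 : ∑ j ∈ range (n + 1), (if j ≤ a ∧ n + 1 - j ≤ c then tF N n a j *
        v N ^ (2 * ((a : ℤ) - j) + 2) * f [a - j, 0, c - (n + 1 - j)] else 0) =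
        ∑ j ∈ range (n + 2), (if j ≤ a ∧ n + 1 - j ≤ c then tF N n a j *
        v N ^ (2 * ((a : ℤ) - j) + 2) * f [a - j, 0, c - (n + 1 - j)] else 0) := by
      rw [sum_range_succ _ (n + 1)]
      have : tF N n a (n + 1) = 0 := by unfold tF; rw [qb_gt n (n + 1) (by omega), mul_zero]
      rw [this]; simp
    rw [h2, sum_range_succ' _ (n + 1), sum_range_succ' _ (n + 1), ← add_assoc,
      ← sum_add_distrib]
    congr 1
    · apply sum_congr rfl
      intro j hj
      rw [mem_range] at hj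
      have e4 : n + 1 - (j + 1) = n - j := by omega
      rw [e4]
      by_cases h : j + 1 ≤ a ∧ n - j ≤ c
      · rw [if_pos h, if_pos h, if_pos h]
        have hq : tF N n a j + tF N n a (j + 1) * v N ^ (2 * ((a : ℤ) - ((j + 1 : ℕ) : ℤ)) + 2) =
            tF N (n + 1) a (j + 1) := by
          unfold tF
          simp only [qb]
          have z1 : v N ^ (((n : ℤ) - j) * j + 2 * ((a : ℤ) - j + 1) * ((n : ℤ) - j)) =
              v N ^ ((((n + 1 : ℕ) : ℤ) - ((j + 1 : ℕ) : ℤ)) * ((j + 1 : ℕ) : ℤ) +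
                2 * ((a : ℤ) - ((j + 1 : ℕ) : ℤ) + 1) *
                (((n + 1 : ℕ) : ℤ) - ((j + 1 : ℕ) : ℤ))) * v N ^ ((n : ℤ) - j) := by
            rw [vz]; congr 1; push_cast; ring
          have z2 : v N ^ (((n : ℤ) - ((j + 1 : ℕ) : ℤ)) * ((j + 1 : ℕ) : ℤ) +
                2 * ((a : ℤ) - ((j + 1 : ℕ) : ℤ) + 1) * ((n : ℤ) - ((j + 1 : ℕ) : ℤ))) *
              v N ^ (2 * ((a : ℤ) - ((j + 1 : ℕ) : ℤ)) + 2) =
              v N ^ ((((n + 1 : ℕ) : ℤ) - ((j + 1 : ℕ) : ℤ)) * ((j + 1 : ℕ) : ℤ) +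
                2 * ((a : ℤ) - ((j + 1 : ℕ) : ℤ) + 1) *
                (((n + 1 : ℕ) : ℤ) - ((j + 1 : ℕ) : ℤ))) * v N ^ (-((j : ℤ) + 1)) := by
            rw [vz, vz]; congr 1; push_cast; ring
          linear_combination (qb N n j) * z1 + (qb N n (j + 1)) * z2
        rw [← hq]; ring
      · rw [if_neg h, if_neg h, if_neg h, add_zero]
    · have e5 : tF N n a 0 * v N ^ (2 * ((a : ℤ) - ((0 : ℕ) : ℤ)) + 2) = tF N (n + 1) a 0 := by
        unfold tF
        rw [qb_zero_right, qb_zero_right, mul_one, mul_one, vz]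
        congr 1; push_cast; ring
      rw [e5]

/-- the matrix of `F ^ n` on coordinates with middle letter `0` -/
noncomputable def TT (N n : ℕ) : Matrix (I2 N) (I2 N) ℂ := fun x y =>
  if (y.1 : ℕ) ≤ x.1 ∧ (y.2 : ℕ) ≤ x.2 ∧ ((x.1 : ℕ) - y.1) + (x.2 - y.2) = n then
    w2 N x.1 * w2 N x.2 / (w2 N y.1 * w2 N y.2) * tF N n x.1 (x.1 - y.1) else 0

lemma rhoS_F {N n : ℕ} (hN : 2 ≤ N) (hn : n ≤ N) (f : S3 N) :
    rhoS N ((FS N ^ n) f) = (TT N n).mulVec (rhoS N f) := by
  funext x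
  obtain ⟨⟨a, ha⟩, ⟨c, hc⟩⟩ := x
  show gg N ((FS N ^ n) f).1 a 0 c = _
  rw [FS_pow_coe]
  unfold gg
  rw [F_pow_mid hN n hn f.1 a c ha hc]
  unfold Matrix.mulVec dotProduct
  rw [Fintype.sum_prod_type]
  have hw0 : w2 N 0 = 1 := by simp [w2, qfac_zero]
  have hR : ∀ l : Fin N, ∑ c' : Fin N, TT N n (⟨a, ha⟩, ⟨c, hc⟩) (l, c') * rhoS N f (l, c') =
      if (l : ℕ) ≤ a then (if a - l ≤ n ∧ n - (a - l) ≤ c then w2 N a * w2 N c * tF N n a (a - l) *
        f.1 [l, 0, c - (n - (a - l))] else 0) else 0 := by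
    intro l
    by_cases hl : (l : ℕ) ≤ a
    · rw [if_pos hl]
      by_cases hc' : a - l ≤ n ∧ n - (a - l) ≤ c
      · have hlt : c - (n - (a - l)) < N := by omega
        rw [if_pos hc', sum_eq_single (⟨c - (n - (a - l)), hlt⟩ : Fin N)]
        · unfold TT
          rw [if_pos ⟨hl, by simp, by simp only; omega⟩]
          show w2 N a * w2 N c / (w2 N l * w2 N (c - (n - (a - l)))) * tF N n a (a - l) *
            (w2 N l * w2 N 0 * w2 N (c - (n - (a - l))) * f.1 [l, 0, c - (n - (a - l))]) = _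
          have h1 := w2_ne l.2
          have h2 := w2_ne hlt
          rw [hw0]
          field_simp
        · intro c' _ hne
          unfold TT
          rw [if_neg, zero_mul]
          rintro ⟨_, h2, h3⟩
          apply hne
          apply Fin.ext
          simp only at h2 h3 ⊢
          omega
        · intro h; exact absurd (mem_univ _) h
      · rw [if_neg hc']
        apply sum_eq_zero
        intro c' _
        unfold TT
        rw [if_neg, zero_mul]
        rintro ⟨_, h2, h3⟩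
        simp only at h2 h3
        omega
    · rw [if_neg hl]
      apply sum_eq_zero
      intro c' _
      unfold TT
      rw [if_neg, zero_mul]
      rintro ⟨h1, _⟩
      exact hl h1
  rw [sum_congr rfl (fun l _ => hR l)]
  rw [Fin.sum_univ_eq_sum_range (fun l => if l ≤ a then (if a - l ≤ n ∧ n - (a - l) ≤ c then
    w2 N a * w2 N c * tF N n a (a - l) * f.1 [l, 0, c - (n - (a - l))] else 0) else 0) N]
  have hsub : range (a + 1) ⊆ range N := by
    intro l hl; rw [mem_range] at *; omega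
  rw [← sum_subset hsub]
  · rw [mul_sum, ← sum_range_reflect (fun l => if l ≤ a then
      (if a - l ≤ n ∧ n - (a - l) ≤ c then
      w2 N a * w2 N c * tF N n a (a - l) * f.1 [l, 0, c - (n - (a - l))] else 0) else 0) (a + 1)]
    -- both sides as sums over j
    have hL : ∑ j ∈ range (n + 1), w2 N a * w2 N 0 * w2 N c *
        (if j ≤ a ∧ n - j ≤ c then tF N n a j * f.1 [a - j, 0, c - (n - j)] else 0) =
        ∑ j ∈ range (n + 1) ∩ range (a + 1), w2 N a * w2 N 0 * w2 N c *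
        (if j ≤ a ∧ n - j ≤ c then tF N n a j * f.1 [a - j, 0, c - (n - j)] else 0) := by
      symm
      apply sum_subset inter_subset_left
      intro j hj hj'
      rw [mem_inter, not_and] at hj'
      have := hj' hj
      rw [mem_range] at this
      rw [if_neg (by omega), mul_zero]
    rw [hL]
    have hR2 : ∑ j ∈ range (a + 1), (if a + 1 - 1 - j ≤ a then (if a - (a + 1 - 1 - j) ≤ n ∧
        n - (a - (a + 1 - 1 - j)) ≤ c then w2 N a * w2 N c * tF N n a (a - (a + 1 - 1 - j)) *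
        f.1 [a + 1 - 1 - j, 0, c - (n - (a - (a + 1 - 1 - j)))] else 0) else 0) =
        ∑ j ∈ range (n + 1) ∩ range (a + 1), (if a + 1 - 1 - j ≤ a then
        (if a - (a + 1 - 1 - j) ≤ n ∧
        n - (a - (a + 1 - 1 - j)) ≤ c then w2 N a * w2 N c * tF N n a (a - (a + 1 - 1 - j)) *
        f.1 [a + 1 - 1 - j, 0, c - (n - (a - (a + 1 - 1 - j)))] else 0) else 0) := by
      symm
      apply sum_subset inter_subset_right
      intro j hj hj'
      rw [mem_inter, not_and'] at hj'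
      have := hj' hj
      rw [mem_range] at this hj
      rw [if_pos (by omega), if_neg (by omega)]
    rw [hR2]
    apply sum_congr rfl
    intro j hj
    rw [mem_inter, mem_range, mem_range] at hj
    have e1 : a + 1 - 1 - j = a - j := by omega
    have e2 : a - (a - j) = j := by omega
    rw [e1, e2, if_pos (show a - j ≤ a by omega), hw0]
    by_cases h : n - j ≤ c
    · rw [if_pos ⟨by omega, h⟩, if_pos ⟨by omega, h⟩]; ring
    · rw [if_neg (by omega), if_neg (by omega), mul_zero]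
  · intro l _ hl
    rw [mem_range] at hl
    rw [if_neg (by omega)]

lemma TT_TT {N : ℕ} (hN : 2 ≤ N) {m n : ℕ} (h : m + n = N) (y : I2 N → ℂ) :
    (TT N m).mulVec ((TT N n).mulVec y) = 0 := by
  obtain ⟨f, _, rfl⟩ := rhoS_ker_surj hN y
  rw [← rhoS_F hN (by omega), ← rhoS_F hN (by omega), ← Module.End.mul_apply, ← pow_add, h]
  have : (FS N ^ N) f = 0 := by
    apply Subtype.ext
    rw [FS_pow_coe, FL_pow_N hN]; rfl
  rw [this, map_zero]

/-- supported on words of given total weight -/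
def WtS (N : ℕ) (μ : ℤ) (f : List ℕ → ℂ) : Prop := ∀ w, wtl N w ≠ μ → f w = 0

lemma WtS.F {N : ℕ} {μ : ℤ} {f : List ℕ → ℂ} (hf : WtS N μ f) : WtS N (μ - 2) (Fop N f) := by
  intro w hw
  have h1 := Fop_wtl (N := N) (fun y => if y = μ then 1 else 0) f w
  have h2 : (fun u => (fun y => if y = μ then (1 : ℂ) else 0) (wtl N u) * f u) = f := by
    funext u
    simp only
    split_ifs with h
    · rw [one_mul]
    · rw [hf u h, mul_zero]
  rw [h2] at h1
  rw [if_neg (fun h => hw (by omega))] at h1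
  rw [h1, zero_mul]

lemma E_F_pow {N : ℕ} (hN : 2 ≤ N) {μ : ℤ} {f : List ℕ → ℂ} (hs : Sup N 3 f)
    (hE : Eop N f = 0) (hw : WtS N μ f) (n : ℕ) :
    Sup N 3 ((FL N ^ n) f) ∧ WtS N (μ - 2 * n) ((FL N ^ n) f) ∧
    EL N ((FL N ^ (n + 1)) f) = (qi N (n + 1) * qi N (μ - n)) • (FL N ^ n) f := by
  have hvalid : ∀ g : List ℕ → ℂ, Sup N 3 g → ∀ w, (∃ x ∈ w, N ≤ x) → g w = 0 := by
    rintro g hg w ⟨x, hx, hx'⟩
    apply hg
    rintro ⟨_, h⟩
    have := h x hx
    omega
  induction n with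
  | zero =>
    refine ⟨hs, by simpa using hw, ?_⟩
    funext w
    have h1 := EF_comm hN f (hvalid f hs) w
    rw [hE] at h1
    have h2 : Fop N 0 w = 0 := Fop_zero_fun N w
    rw [h2, sub_zero] at h1
    rw [zero_add, pow_one]
    have h3 : EL N (FL N f) w = Eop N (Fop N f) w := rfl
    rw [h3, h1]
    simp only [pow_zero, Module.End.one_apply, Pi.smul_apply, smul_eq_mul, Nat.cast_zero,
      zero_add, sub_zero, qi_one hN, one_mul]
    by_cases h4 : wtl N w = μ
    · rw [h4]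
    · rw [hw w h4, mul_zero, mul_zero]
  | succ n ih =>
    obtain ⟨h1, h2, h3⟩ := ih
    have h1' : Sup N 3 ((FL N ^ (n + 1)) f) := by
      rw [pow_succ', Module.End.mul_apply]; exact h1.F
    have h2' : WtS N (μ - 2 * ((n + 1 : ℕ) : ℤ)) ((FL N ^ (n + 1)) f) := by
      rw [pow_succ', Module.End.mul_apply]
      have := h2.F
      have e : μ - 2 * (n : ℤ) - 2 = μ - 2 * ((n + 1 : ℕ) : ℤ) := by push_cast; ring
      rw [e] at this
      exact this
    refine ⟨h1', h2', ?_⟩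
    funext w
    rw [pow_succ' (FL N) (n + 1), Module.End.mul_apply]
    have h4 := EF_comm hN _ (hvalid _ h1') w
    have h5 : Fop N (Eop N ((FL N ^ (n + 1)) f)) w =
        (qi N (n + 1) * qi N (μ - n)) * (FL N ^ (n + 1)) f w := by
      have : Eop N ((FL N ^ (n + 1)) f) = (qi N (n + 1) * qi N (μ - n)) • (FL N ^ n) f := h3
      rw [this]
      have h6 : Fop N ((qi N (n + 1) * qi N (μ - n)) • (FL N ^ n) f) =
          (qi N (n + 1) * qi N (μ - n)) • Fop N ((FL N ^ n) f) :=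
        (FL N).map_smul _ _
      rw [h6, Pi.smul_apply, smul_eq_mul, pow_succ' (FL N) n, Module.End.mul_apply]
      rfl
    have h7 : qi N (wtl N w) * (FL N ^ (n + 1)) f w =
        qi N (μ - 2 * ((n + 1 : ℕ) : ℤ)) * (FL N ^ (n + 1)) f w := by
      by_cases h8 : wtl N w = μ - 2 * ((n + 1 : ℕ) : ℤ)
      · rw [h8]
      · rw [h2' w h8, mul_zero, mul_zero]
    rw [h7, h5] at h4
    have h9 : EL N (FL N ((FL N ^ (n + 1)) f)) w = Eop N (Fop N ((FL N ^ (n + 1)) f)) w := rfl
    rw [h9, Pi.smul_apply, smul_eq_mul]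
    have hq : qi N ((n : ℤ) + 1) * qi N (μ - n) + qi N (μ - 2 * ((n + 1 : ℕ) : ℤ)) =
        qi N (((n + 1 : ℕ) : ℤ) + 1) * qi N (μ - ((n + 1 : ℕ) : ℤ)) := by
      have hd := vd_ne hN
      have a1 := qi_mul_vd hN ((n : ℤ) + 1)
      have a2 := qi_mul_vd hN (μ - n)
      have a3 := qi_mul_vd hN (μ - 2 * ((n + 1 : ℕ) : ℤ))
      have a4 := qi_mul_vd hN (((n + 1 : ℕ) : ℤ) + 1)
      have a5 := qi_mul_vd hN (μ - ((n + 1 : ℕ) : ℤ))
      have key : (v N ^ ((n : ℤ) + 1) - v N ^ (-((n : ℤ) + 1))) * (v N ^ (μ - n) -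
          v N ^ (-(μ - n))) + (v N ^ (μ - 2 * ((n + 1 : ℕ) : ℤ)) -
          v N ^ (-(μ - 2 * ((n + 1 : ℕ) : ℤ)))) * (v N ^ (1 : ℤ) - v N ^ (-1 : ℤ)) =
          (v N ^ (((n + 1 : ℕ) : ℤ) + 1) - v N ^ (-(((n + 1 : ℕ) : ℤ) + 1))) *
          (v N ^ (μ - ((n + 1 : ℕ) : ℤ)) - v N ^ (-(μ - ((n + 1 : ℕ) : ℤ)))) := by
        simp only [sub_mul, mul_sub, vz]
        push_cast
        ring_nf
      have e1 : v N - (v N)⁻¹ = v N ^ (1 : ℤ) - v N ^ (-1 : ℤ) := by
        rw [zpow_one, zpow_neg_one]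
      apply mul_right_cancel₀ (mul_ne_zero hd hd)
      calc (qi N ((n : ℤ) + 1) * qi N (μ - n) + qi N (μ - 2 * ((n + 1 : ℕ) : ℤ))) *
            ((v N - (v N)⁻¹) * (v N - (v N)⁻¹))
          = (qi N ((n : ℤ) + 1) * (v N - (v N)⁻¹)) * (qi N (μ - n) * (v N - (v N)⁻¹)) +
            (qi N (μ - 2 * ((n + 1 : ℕ) : ℤ)) * (v N - (v N)⁻¹)) * (v N - (v N)⁻¹) := by ring
        _ = (qi N (((n + 1 : ℕ) : ℤ) + 1) * (v N - (v N)⁻¹)) *
            (qi N (μ - ((n + 1 : ℕ) : ℤ)) * (v N - (v N)⁻¹)) := by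
            rw [a1, a2, a3, a4, a5, e1, key]
        _ = _ := by ring
    rw [← hq]
    linear_combination h4

end Pool.Agent.Helper9.Kashaev

/-!
# Decomposition into levels
-/

namespace Pool.Agent.Helper9.Kashaev

open Finset Matrix

lemma sliceL_FL_pow {N : ℕ} (hN : 2 ≤ N) (p : Piece) (k n : ℕ) (f : List ℕ → ℂ) :
    slice N p k ((FL N ^ n) f) = (FL N ^ n) (slice N p k f) := by
  induction n generalizing f with
  | zero => rfl
  | succ n ih =>
    rw [pow_succ, Module.End.mul_apply, ih, Module.End.mul_apply]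
    have : slice N p k (FL N f) = FL N (slice N p k f) := slice_F hN p k f
    rw [this]

/-- level of an index -/
def lev {N : ℕ} (x : I2 N) : ℕ := x.1 + x.2

/-- highest weight vectors with given coordinates in one level -/
lemma exists_level {N : ℕ} (hN : 2 ≤ N) (k : ℕ) (Y : I2 N → ℂ) (hY : ∀ x, lev x ≠ k → Y x = 0) :
    ∃ f : S3 N, ES N f = 0 ∧ rhoS N f = Y ∧ WtS N (3 * ((N : ℤ) - 1) - 2 * k) f.1 := by
  obtain ⟨f0, hf0, hY0⟩ := rhoS_ker_surj hN Y
  set μ : ℤ := 3 * ((N : ℤ) - 1) - 2 * k with hμ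
  set φ : ℤ → ℂ := fun y => if y = μ then 1 else 0 with hφ
  have hs : Sup N 3 (fun u => φ (wtl N u) * f0.1 u) := by
    intro w hw
    show φ (wtl N w) * f0.1 w = 0
    rw [f0.2 w hw, mul_zero]
  refine ⟨⟨_, hs⟩, ?_, ?_, ?_⟩
  · apply Subtype.ext
    funext w
    show Eop N (fun u => φ (wtl N u) * f0.1 u) w = 0
    rw [Eop_wtl]
    have : Eop N f0.1 w = 0 := congrFun (congrArg Subtype.val hf0) w
    rw [this, mul_zero]
  · funext x
    show w2 N x.1 * w2 N 0 * w2 N x.2 * (φ (wtl N [(x.1 : ℕ), 0, (x.2 : ℕ)]) *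
      f0.1 [(x.1 : ℕ), 0, (x.2 : ℕ)]) = Y x
    have h1 : Y x = w2 N x.1 * w2 N 0 * w2 N x.2 * f0.1 [(x.1 : ℕ), 0, (x.2 : ℕ)] :=
      (congrFun hY0 x).symm
    by_cases h : lev x = k
    · have h2 : wtl N [(x.1 : ℕ), 0, (x.2 : ℕ)] = μ := by
        rw [hμ, ← h]
        simp only [wtl, wt, lev]
        push_cast; ring
      rw [h2, h1, hφ]
      simp
    · have h2 : wtl N [(x.1 : ℕ), 0, (x.2 : ℕ)] ≠ μ := by
        intro h3
        apply h
        rw [hμ] at h3
        simp only [wtl, wt] at h3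
        unfold lev
        push_cast at h3
        omega
      rw [hY x h, hφ]
      simp only
      rw [if_neg h2]; ring
  · intro w hw
    show φ (wtl N w) * f0.1 w = 0
    rw [hφ]
    simp only
    rw [if_neg hw, zero_mul]

lemma INT {N : ℕ} (hN : 2 ≤ N) (k n : ℕ) (hn : n + 1 ≤ N)
    (hq : qi N (3 * ((N : ℤ) - 1) - 2 * k - n) = 0)
    (Y : I2 N → ℂ) (hY : ∀ x, lev x ≠ k → Y x = 0) :
    (MA N).mulVec ((TT N (n + 1)).mulVec Y) = (TT N (n + 1)).mulVec ((MA N).mulVec Y) ∧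
    (MC N).mulVec ((TT N (n + 1)).mulVec Y) = (TT N (n + 1)).mulVec ((MC N).mulVec Y) := by
  obtain ⟨f, hf, rfl, hw⟩ := exists_level hN k Y hY
  have hE : Eop N f.1 = 0 := congrArg Subtype.val hf
  obtain ⟨_, _, h3⟩ := E_F_pow hN f.2 hE hw n
  rw [hq, mul_zero, zero_smul] at h3
  set g : S3 N := (FS N ^ (n + 1)) f with hg
  have hg1 : g.1 = (FL N ^ (n + 1)) f.1 := FS_pow_coe _ _
  have hgE : ES N g = 0 := by
    apply Subtype.ext
    show Eop N g.1 = 0
    rw [hg1]; exact h3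
  constructor
  · have h4 : Sup N 3 (slice N .pos 0 f.1) := f.2.pos 0
    have h5 : Sup N 3 (slice N .pos 0 g.1) := g.2.pos 0
    rw [← rhoS_F hN hn, ← rhoS_pos hN g ⟨_, h5⟩ hgE rfl, ← rhoS_pos hN f ⟨_, h4⟩ hf rfl,
      ← rhoS_F hN hn]
    congr 1
    exact Subtype.ext ((congrArg (slice N .pos 0) hg1).trans
      ((sliceL_FL_pow hN .pos 0 (n + 1) f.1).trans (FS_pow_coe (n + 1) ⟨_, h4⟩).symm))
  · have h4 : Sup N 3 (slice N .neg 1 f.1) := f.2.neg 1
    have h5 : Sup N 3 (slice N .neg 1 g.1) := g.2.neg 1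
    rw [← rhoS_F hN hn, ← rhoS_neg hN g ⟨_, h5⟩ hgE rfl, ← rhoS_neg hN f ⟨_, h4⟩ hf rfl,
      ← rhoS_F hN hn]
    congr 1
    exact Subtype.ext ((congrArg (slice N .neg 1) hg1).trans
      ((sliceL_FL_pow hN .neg 1 (n + 1) f.1).trans (FS_pow_coe (n + 1) ⟨_, h4⟩).symm))

/-! ### blocks -/

/-- indices of level `N - 1 - s` -/
def im (N s : ℕ) (a : Fin (N - s)) : I2 N :=
  (⟨a, by have := a.2; omega⟩, ⟨N - 1 - s - a, by have := a.2; omega⟩)

/-- indices of level `N - 1 + s` -/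
def ip (N s : ℕ) (a : Fin (N - s)) : I2 N :=
  (⟨a + s, by have := a.2; omega⟩, ⟨N - 1 - a, by have := a.2; omega⟩)

lemma im_inj (N s : ℕ) : Function.Injective (im N s) := by
  intro a b h
  have := congrArg (fun x : I2 N => (x.1 : ℕ)) h
  exact Fin.ext this

lemma ip_inj (N s : ℕ) : Function.Injective (ip N s) := by
  intro a b h
  have := congrArg (fun x : I2 N => (x.1 : ℕ)) h
  simp only [ip] at this
  exact Fin.ext (by omega)

lemma lev_im {N s : ℕ} (a : Fin (N - s)) : lev (im N s a) = N - 1 - s := by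
  have := a.2
  simp only [lev, im]; omega

lemma lev_ip {N s : ℕ} (a : Fin (N - s)) : lev (ip N s a) = N - 1 + s := by
  have := a.2
  simp only [lev, ip]; omega

lemma im_surj {N s : ℕ} (hs : s < N) (x : I2 N) (h : lev x = N - 1 - s) : ∃ a, im N s a = x := by
  obtain ⟨⟨a, ha⟩, ⟨c, hc⟩⟩ := x
  have h' : a + c = N - 1 - s := h
  refine ⟨⟨a, by omega⟩, ?_⟩
  simp only [im, Prod.mk.injEq, Fin.mk.injEq, true_and]
  omega

lemma ip_surj {N s : ℕ} (hs : s < N) (x : I2 N) (h : lev x = N - 1 + s) : ∃ a, ip N s a = x := by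
  obtain ⟨⟨a, ha⟩, ⟨c, hc⟩⟩ := x
  have h' : a + c = N - 1 + s := h
  refine ⟨⟨a - s, by omega⟩, ?_⟩
  simp only [ip, Prod.mk.injEq, Fin.mk.injEq]
  omega

lemma MA_lev {N : ℕ} {x y : I2 N} (h : MA N x y ≠ 0) : lev y = lev x := by
  unfold MA at h
  by_contra hne
  apply h
  rw [if_neg]
  rintro ⟨h1, h2⟩
  apply hne
  unfold lev; omega

lemma MC_lev {N : ℕ} {x y : I2 N} (h : MC N x y ≠ 0) : lev y = lev x := by
  unfold MC at h
  by_contra hne
  apply h
  rw [if_neg]
  rintro ⟨h1, h2⟩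
  apply hne
  unfold lev; omega

lemma TT_lev {N n : ℕ} {x y : I2 N} (h : TT N n x y ≠ 0) : lev y + n = lev x := by
  unfold TT at h
  by_contra hne
  apply h
  rw [if_neg]
  rintro ⟨h1, h2, h3⟩
  apply hne
  unfold lev; omega

/-- restriction of a matrix to a block -/
lemma block_mulVec {I J K : Type*} [Fintype I] [Fintype J] (M : Matrix I I ℂ) (r : K → I)
    (ι : J → I) (hι : Function.Injective ι) (h : ∀ a y, M (r a) y ≠ 0 → ∃ b, ι b = y)
    (Y : I → ℂ) (a : K) :
    (M.mulVec Y) (r a) = ((M.submatrix r ι).mulVec (Y ∘ ι)) a := by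
  unfold Matrix.mulVec dotProduct
  symm
  apply Fintype.sum_of_injective ι hι
  · intro y hy
    by_contra hne
    have : M (r a) y ≠ 0 := fun h0 => hne (by
      show M (r a) y * Y y = 0
      rw [h0, zero_mul])
    obtain ⟨b, hb⟩ := h a y this
    exact hy ⟨b, hb⟩
  · intro b; rfl

lemma block_mul {I J : Type*} [Fintype I] [Fintype J] (M M' : Matrix I I ℂ)
    (ι : J → I) (hι : Function.Injective ι) (h : ∀ a y, M (ι a) y ≠ 0 → ∃ b, ι b = y) :
    (M * M').submatrix ι ι = M.submatrix ι ι * M'.submatrix ι ι := by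
  ext a b
  simp only [Matrix.submatrix_apply, Matrix.mul_apply]
  symm
  apply Fintype.sum_of_injective ι hι
  · intro y hy
    by_contra hne
    have : M (ι a) y ≠ 0 := fun h0 => hne (by rw [h0, zero_mul])
    obtain ⟨b, hb⟩ := h a y this
    exact hy ⟨b, hb⟩
  · intro b; rfl

lemma block_pow {I J : Type*} [Fintype I] [Fintype J] [DecidableEq I] [DecidableEq J]
    (M : Matrix I I ℂ)
    (ι : J → I) (hι : Function.Injective ι) (h : ∀ a y, M (ι a) y ≠ 0 → ∃ b, ι b = y) (p : ℕ) :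
    (M ^ p).submatrix ι ι = (M.submatrix ι ι) ^ p := by
  induction p with
  | zero =>
    rw [pow_zero, pow_zero]
    exact Matrix.submatrix_one ι hι
  | succ p ih =>
    rw [pow_succ', pow_succ', block_mul M _ ι hι h, ih]

/-- The blocks. -/
noncomputable def Am (N s : ℕ) := (MA N).submatrix (im N s) (im N s)
noncomputable def Cm (N s : ℕ) := (MC N).submatrix (im N s) (im N s)
noncomputable def Ap (N s : ℕ) := (MA N).submatrix (ip N s) (ip N s)
noncomputable def Cp (N s : ℕ) := (MC N).submatrix (ip N s) (ip N s)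

lemma MA_im {N s : ℕ} (hs : s < N) (a : Fin (N - s)) (y : I2 N) (h : MA N (im N s a) y ≠ 0) :
    ∃ b, im N s b = y := im_surj hs y (by rw [MA_lev h, lev_im])

lemma MC_im {N s : ℕ} (hs : s < N) (a : Fin (N - s)) (y : I2 N) (h : MC N (im N s a) y ≠ 0) :
    ∃ b, im N s b = y := im_surj hs y (by rw [MC_lev h, lev_im])

lemma MA_ip {N s : ℕ} (hs : s < N) (a : Fin (N - s)) (y : I2 N) (h : MA N (ip N s a) y ≠ 0) :
    ∃ b, ip N s b = y := ip_surj hs y (by rw [MA_lev h, lev_ip])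

lemma MC_ip {N s : ℕ} (hs : s < N) (a : Fin (N - s)) (y : I2 N) (h : MC N (ip N s a) y ≠ 0) :
    ∃ b, ip N s b = y := ip_surj hs y (by rw [MC_lev h, lev_ip])

lemma MCA_lev {N : ℕ} {x y : I2 N} (h : (MC N * MA N) x y ≠ 0) : lev y = lev x := by
  rw [Matrix.mul_apply] at h
  obtain ⟨z, _, hz⟩ := Finset.exists_ne_zero_of_sum_ne_zero h
  rw [← MC_lev (left_ne_zero_of_mul hz), MA_lev (right_ne_zero_of_mul hz)]

lemma MCA_im_pow {N s : ℕ} (hs : s < N) (p : ℕ) :
    ((MC N * MA N) ^ p).submatrix (im N s) (im N s) = (Cm N s * Am N s) ^ p := by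
  rw [block_pow _ _ (im_inj N s), block_mul _ _ _ (im_inj N s) (MC_im hs)]
  · rfl
  · intro a y h
    exact im_surj hs y (by rw [MCA_lev h, lev_im])

lemma MCA_ip_pow {N s : ℕ} (hs : s < N) (p : ℕ) :
    ((MC N * MA N) ^ p).submatrix (ip N s) (ip N s) = (Cp N s * Ap N s) ^ p := by
  rw [block_pow _ _ (ip_inj N s), block_mul _ _ _ (ip_inj N s) (MC_ip hs)]
  · rfl
  · intro a y h
    exact ip_surj hs y (by rw [MCA_lev h, lev_ip])

lemma sum_levels {N : ℕ} (hN : 2 ≤ N) (g : I2 N → ℂ) :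
    ∑ x, g x = ∑ s ∈ range N, ∑ a, g (im N s a) +
      ∑ s ∈ range (N - 1), ∑ a, g (ip N (s + 1) a) := by
  have h1 : ∑ x, g x = ∑ k ∈ range (N + (N - 1)), ∑ x ∈ univ with lev x = k, g x := by
    rw [Finset.sum_fiberwise_of_maps_to]
    intro x _
    have h1 := x.1.2
    have h2 := x.2.2
    rw [mem_range]
    unfold lev; omega
  rw [h1, Finset.sum_range_add, ← Finset.sum_range_reflect (fun k => ∑ x ∈ univ with
    lev x = k, g x) N]
  congr 1
  · apply sum_congr rfl
    intro s hs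
    rw [mem_range] at hs
    rw [Finset.sum_filter]
    symm
    apply Fintype.sum_of_injective (im N s) (im_inj N s)
    · intro x hx
      rw [if_neg]
      intro h
      exact hx (im_surj hs x h)
    · intro a
      rw [if_pos (lev_im a)]
  · apply sum_congr rfl
    intro s hs
    rw [mem_range] at hs
    rw [Finset.sum_filter]
    symm
    apply Fintype.sum_of_injective (ip N (s + 1)) (ip_inj N (s + 1))
    · intro x hx
      rw [if_neg]
      intro h
      exact hx (ip_surj (by omega) x (by omega))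
    · intro a
      rw [if_pos (by rw [lev_ip]; omega)]

/-- the trace by levels -/
lemma trace_levels {N : ℕ} (hN : 2 ≤ N) (p : ℕ) :
    trace ((MC N * MA N) ^ p) = ∑ s ∈ range N, trace ((Cm N s * Am N s) ^ p) +
      ∑ s ∈ range (N - 1), trace ((Cp N (s + 1) * Ap N (s + 1)) ^ p) := by
  unfold Matrix.trace
  rw [sum_levels hN]
  congr 1
  · apply sum_congr rfl
    intro s hs
    rw [mem_range] at hs
    rw [← MCA_im_pow hs]
    rfl
  · apply sum_congr rfl
    intro s hs
    rw [mem_range] at hs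
    rw [← MCA_ip_pow (by omega)]
    rfl

end Pool.Agent.Helper9.Kashaev

/-!
# Adjoints of the blocks
-/

namespace Pool.Agent.Helper9.Kashaev

open Finset Matrix ComplexConjugate

lemma star_v_zpow (N : ℕ) (x : ℤ) : star (v N ^ x) = v N ^ (-x) := by
  rw [v_zpow, v_zpow, Complex.star_def, ← Complex.exp_conj]
  congr 1
  simp only [map_mul, map_div₀, Complex.conj_ofReal, Complex.conj_I, map_natCast, map_intCast]
  push_cast; ring

lemma star_tht (N a b : ℕ) : star (tht N a b) = (tht N a b)⁻¹ := by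
  unfold tht
  rw [← Complex.exp_neg, Complex.star_def, ← Complex.exp_conj]
  congr 1
  simp only [map_mul, map_div₀, Complex.conj_ofReal, Complex.conj_I, map_natCast, map_intCast,
    map_ofNat]
  ring

lemma norm_v_zpow (N : ℕ) (x : ℤ) : ‖v N ^ x‖ = 1 := by
  have h : star (v N ^ x) * v N ^ x = 1 := by
    rw [star_v_zpow, vz, neg_add_cancel, zpow_zero]
  have h2 : ‖v N ^ x‖ * ‖v N ^ x‖ = 1 := by
    have := congrArg norm h
    rwa [norm_mul, norm_star, norm_one] at this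
  nlinarith [norm_nonneg (v N ^ x)]

lemma norm_tht (N a b : ℕ) : ‖tht N a b‖ = 1 := by
  have h : star (tht N a b) * tht N a b = 1 := by
    rw [star_tht, inv_mul_cancel₀ (tht_ne N a b)]
  have h2 : ‖tht N a b‖ * ‖tht N a b‖ = 1 := by
    have := congrArg norm h
    rwa [norm_mul, norm_star, norm_one] at this
  nlinarith [norm_nonneg (tht N a b)]

/-- the real quantum factorial -/
noncomputable def rfac (N m : ℕ) : ℝ := ∏ t ∈ range m, (sn N ((t : ℤ) + 1) / sn N 1)

lemma qfac_real (N m : ℕ) : qfac N m = (rfac N m : ℂ) := by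
  unfold qfac rfac
  rw [Complex.ofReal_prod]
  apply prod_congr rfl
  intro t _
  rw [qint_eq, qi_real]
  push_cast; rfl

lemma rfac_pos {N m : ℕ} (hm : m < N) : 0 < rfac N m := by
  unfold rfac
  apply prod_pos
  intro t ht
  rw [mem_range] at ht
  exact div_pos (sn_pos (by positivity) (by omega)) (sn_pos (by norm_num) (by omega))

lemma star_qfac (N m : ℕ) : star (qfac N m) = qfac N m := by
  rw [qfac_real, Complex.star_def, Complex.conj_ofReal]

lemma star_w2 (N m : ℕ) : star (w2 N m) = w2 N m := by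
  unfold w2; rw [star_pow, star_qfac]

lemma star_qb {N n j : ℕ} (hn : n < N) (hj : j ≤ n) : star (qb N n j) = qb N n j := by
  rw [qb_eq_div hn hj, star_div₀, star_mul, star_qfac, star_qfac, star_qfac, mul_comm]

/-- the real q-binomial -/
noncomputable def rb (N n j : ℕ) : ℝ := rfac N n / (rfac N j * rfac N (n - j))

lemma qb_real {N n j : ℕ} (hn : n < N) (hj : j ≤ n) : qb N n j = (rb N n j : ℂ) := by
  rw [qb_eq_div hn hj, qfac_real, qfac_real, qfac_real]
  unfold rb; push_cast; rfl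

lemma rb_pos {N n j : ℕ} (hn : n < N) (hj : j ≤ n) : 0 < rb N n j := by
  unfold rb
  exact div_pos (rfac_pos hn) (mul_pos (rfac_pos (by omega)) (rfac_pos (by omega)))

lemma norm_qb {N n j : ℕ} (hn : n < N) (hj : j ≤ n) : ‖qb N n j‖ = rb N n j := by
  rw [qb_real hn hj, Complex.norm_real, Real.norm_eq_abs, abs_of_pos (rb_pos hn hj)]

lemma qfac_refl {N : ℕ} (hN : 2 ≤ N) (m : ℕ) (hm : m < N) :
    qfac N (N - 1 - m) * qfac N m = qfac N (N - 1) := by
  induction m with
  | zero => rw [qfac_zero, Nat.sub_zero, mul_one]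
  | succ m ih =>
    rw [← ih (by omega)]
    have e1 : N - 1 - m = N - 1 - (m + 1) + 1 := by omega
    rw [e1, qfac_succ, qfac_succ]
    have e2 : (((N - 1 - (m + 1) : ℕ) : ℤ) + 1) = (N : ℤ) - ((m : ℤ) + 1) := by omega
    rw [e2, qi_N_sub hN]
    ring

lemma qb_refl {N a l : ℕ} (hN : 2 ≤ N) (ha : a < N) (hl : l ≤ a) :
    qb N (N - 1 - l) (N - 1 - a) = qb N a l := by
  rw [qb_eq_div (by omega) (by omega), qb_eq_div ha hl]
  have h1 := qfac_refl hN l (by omega)
  have h2 := qfac_refl hN a ha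
  have e : N - 1 - l - (N - 1 - a) = a - l := by omega
  rw [e]
  have f1 : qfac N l ≠ 0 := qfac_ne (by omega)
  have f2 : qfac N (a - l) ≠ 0 := qfac_ne (by omega)
  have f3 : qfac N (N - 1 - a) ≠ 0 := qfac_ne (by omega)
  rw [div_eq_div_iff (mul_ne_zero f3 f2) (mul_ne_zero f1 f2)]
  linear_combination (qfac N (a - l)) * h1 - (qfac N (a - l)) * h2

lemma tht_mul {N : ℕ} (hN : 2 ≤ N) {l a : ℕ} (hl : l < N) :
    (tht N 0 (N - 1 - l))⁻¹ = v N ^ (((N : ℤ) - 1) * ((N : ℤ) - 1 - l - a)) *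
      (tht N a 0)⁻¹ := by
  rw [tht_symm N a 0]
  unfold tht
  rw [v_zpow, ← Complex.exp_neg, ← Complex.exp_neg, ← Complex.exp_add]
  congr 1
  have hN0 : (N : ℂ) ≠ 0 := by exact_mod_cast (by omega : N ≠ 0)
  have h1 : wt N (N - 1 - l) = - wt N l := by
    unfold wt
    have : ((N - 1 - l : ℕ) : ℤ) = (N : ℤ) - 1 - l := by omega
    rw [this]; ring
  rw [h1]
  unfold wt
  push_cast
  field_simp
  ring

lemma Cc_refl {N a l : ℕ} (hN : 2 ≤ N) (ha : a < N) (hl : l ≤ a) :
    Cc N (N - 1 - l) (N - 1 - a) = star (Ac N a (N - 1 - a) l) := by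
  unfold Cc Ac
  rw [star_mul, star_mul, star_v_zpow, star_tht, star_qb ha hl, qb_refl hN ha hl,
    tht_mul hN (show l < N by omega) (a := a)]
  have e1 : ((N - 1 - l : ℕ) : ℤ) = (N : ℤ) - 1 - l := by omega
  have e2 : ((N - 1 - a : ℕ) : ℤ) = (N : ℤ) - 1 - a := by omega
  rw [e1, e2]
  have z : v N ^ (((N : ℤ) - 1) * ((N : ℤ) - 1 - l - a)) *
      v N ^ (((N : ℤ) - 1 - a) ^ 2 - ((N : ℤ) - 1 - l) ^ 2 -
        ((N : ℤ) - 1 - l) * ((N : ℤ) - 1 - a)) =
      v N ^ (-(((a : ℤ) - l) * (2 * ((N : ℤ) - 1 - a) + ((a : ℤ) - l)) + (a : ℤ) * l)) := by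
    rw [vz]; congr 1; ring
  rw [← z]; ring

lemma Ac_shift {N a c c' l s : ℕ} (h : c' + s = c) :
    Ac N a c' l = v N ^ (-(2 * (s : ℤ) * ((a : ℤ) - l))) * Ac N a c l := by
  unfold Ac
  have z : v N ^ (((a : ℤ) - l) * (2 * c' + ((a : ℤ) - l)) + (a : ℤ) * l) =
      v N ^ (-(2 * (s : ℤ) * ((a : ℤ) - l))) *
      v N ^ (((a : ℤ) - l) * (2 * c + ((a : ℤ) - l)) + (a : ℤ) * l) := by
    rw [vz, ← h]; congr 1; push_cast; ring
  rw [z]; ring

/-! ### entries -/

lemma Am_apply {N s : ℕ} (a l : Fin (N - s)) :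
    Am N s a l = if (l : ℕ) ≤ a then Ac N a (N - 1 - s - a) l else 0 := by
  have h1 := a.2
  have h2 := l.2
  show MA N (im N s a) (im N s l) = _
  unfold MA im
  simp only
  by_cases h : (l : ℕ) ≤ a
  · rw [if_pos h, if_pos ⟨h, by omega⟩]
  · rw [if_neg h, if_neg (fun h' => h h'.1)]

lemma Cm_apply {N s : ℕ} (l a : Fin (N - s)) :
    Cm N s l a = if (l : ℕ) ≤ a then Cc N (N - 1 - s - l) (N - 1 - s - a) else 0 := by
  have h1 := a.2
  have h2 := l.2
  show MC N (im N s l) (im N s a) = _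
  unfold MC im
  simp only
  by_cases h : (l : ℕ) ≤ a
  · rw [if_pos h, if_pos (by omega)]
  · rw [if_neg h, if_neg (by omega)]

lemma Ap_apply {N s : ℕ} (a l : Fin (N - s)) :
    Ap N s a l = if (l : ℕ) ≤ a then Ac N (a + s) (N - 1 - a) (l + s) else 0 := by
  have h1 := a.2
  have h2 := l.2
  show MA N (ip N s a) (ip N s l) = _
  unfold MA ip
  simp only
  by_cases h : (l : ℕ) ≤ a
  · rw [if_pos h, if_pos (by omega)]
  · rw [if_neg h, if_neg (by omega)]

lemma Cp_apply {N s : ℕ} (l a : Fin (N - s)) :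
    Cp N s l a = if (l : ℕ) ≤ a then Cc N (N - 1 - l) (N - 1 - a) else 0 := by
  have h1 := a.2
  have h2 := l.2
  show MC N (ip N s l) (ip N s a) = _
  unfold MC ip
  simp only
  by_cases h : (l : ℕ) ≤ a
  · rw [if_pos h, if_pos (by omega)]
  · rw [if_neg h, if_neg (by omega)]

/-- diagonal phases -/
noncomputable def Xd (N s : ℕ) : Matrix (Fin (N - s)) (Fin (N - s)) ℂ :=
  diagonal (fun a => v N ^ (2 * (s : ℤ) * (a : ℕ)))

noncomputable def Xi (N s : ℕ) : Matrix (Fin (N - s)) (Fin (N - s)) ℂ :=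
  diagonal (fun a => v N ^ (-(2 * (s : ℤ) * (a : ℕ))))

lemma Xd_Xi (N s : ℕ) : Xd N s * Xi N s = 1 := by
  unfold Xd Xi
  rw [diagonal_mul_diagonal]
  ext i j
  rw [diagonal_apply, one_apply]
  split_ifs
  · rw [vz, add_neg_cancel, zpow_zero]
  · rfl

lemma Xi_Xd (N s : ℕ) : Xi N s * Xd N s = 1 := by
  unfold Xd Xi
  rw [diagonal_mul_diagonal]
  ext i j
  rw [diagonal_apply, one_apply]
  split_ifs
  · rw [vz, neg_add_cancel, zpow_zero]
  · rfl

lemma Xd_H (N s : ℕ) : (Xd N s)ᴴ = Xi N s := by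
  unfold Xd Xi
  rw [diagonal_conjTranspose]
  congr 1
  funext a
  exact star_v_zpow _ _

lemma Xi_H (N s : ℕ) : (Xi N s)ᴴ = Xd N s := by
  rw [← Xd_H, conjTranspose_conjTranspose]

lemma Cm_eq {N s : ℕ} (hN : 2 ≤ N) : Cm N s = Xi N s * (Ap N s)ᴴ * Xd N s := by
  ext l a
  have h1 := a.2
  have h2 := l.2
  unfold Xi Xd
  rw [mul_diagonal, diagonal_mul, conjTranspose_apply, Cm_apply, Ap_apply]
  by_cases h : (l : ℕ) ≤ a
  · rw [if_pos h, if_pos h]
    have e1 : N - 1 - s - l = N - 1 - (l + s) := by omega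
    have e2 : N - 1 - s - a = N - 1 - (a + s) := by omega
    rw [e1, e2, Cc_refl hN (by omega) (by omega),
      Ac_shift (c := N - 1 - a) (s := s) (by omega), star_mul, star_v_zpow]
    have z : v N ^ (- -(2 * (s : ℤ) * (((a + s : ℕ) : ℤ) - ((l + s : ℕ) : ℤ)))) =
        v N ^ (-(2 * (s : ℤ) * ((l : ℕ) : ℤ))) * v N ^ (2 * (s : ℤ) * ((a : ℕ) : ℤ)) := by
      rw [vz]; congr 1; push_cast; ring
    rw [z]; ring
  · rw [if_neg h, if_neg h, star_zero]; ring

lemma Am_eq {N s : ℕ} (hN : 2 ≤ N) : Am N s = Xi N s * (Cp N s)ᴴ * Xd N s := by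
  ext a l
  have h1 := a.2
  have h2 := l.2
  unfold Xi Xd
  rw [mul_diagonal, diagonal_mul, conjTranspose_apply, Am_apply, Cp_apply]
  by_cases h : (l : ℕ) ≤ a
  · rw [if_pos h, if_pos h, Cc_refl hN (by omega) h, star_star,
      Ac_shift (c := N - 1 - a) (s := s) (by omega)]
    have z : v N ^ (-(2 * (s : ℤ) * (((a : ℕ) : ℤ) - ((l : ℕ) : ℤ)))) =
        v N ^ (-(2 * (s : ℤ) * ((a : ℕ) : ℤ))) * v N ^ (2 * (s : ℤ) * ((l : ℕ) : ℤ)) := by
      rw [vz]; congr 1; ring
    rw [z]; ring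
  · rw [if_neg h, if_neg h, star_zero]; ring

lemma Am_H {N s : ℕ} (hN : 2 ≤ N) : (Am N s)ᴴ = Xi N s * Cp N s * Xd N s := by
  rw [Am_eq hN, conjTranspose_mul, conjTranspose_mul, conjTranspose_conjTranspose, Xd_H, Xi_H,
    Matrix.mul_assoc]

lemma Cm_H {N s : ℕ} (hN : 2 ≤ N) : (Cm N s)ᴴ = Xi N s * Ap N s * Xd N s := by
  rw [Cm_eq hN, conjTranspose_mul, conjTranspose_mul, conjTranspose_conjTranspose, Xd_H, Xi_H,
    Matrix.mul_assoc]

/-- the two families of blocks have conjugate traces -/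
lemma trace_ip {N s : ℕ} (hN : 2 ≤ N) (p : ℕ) :
    trace ((Cp N s * Ap N s) ^ p) = star (trace ((Cm N s * Am N s) ^ p)) := by
  rw [← trace_conjTranspose, conjTranspose_pow, conjTranspose_mul, Am_H hN, Cm_H hN]
  have h1 : Xi N s * Cp N s * Xd N s * (Xi N s * Ap N s * Xd N s) =
      Xi N s * (Cp N s * Ap N s) * Xd N s := by
    calc Xi N s * Cp N s * Xd N s * (Xi N s * Ap N s * Xd N s)
        = Xi N s * Cp N s * (Xd N s * Xi N s) * Ap N s * Xd N s := by
          simp only [Matrix.mul_assoc]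
      _ = _ := by rw [Xd_Xi, Matrix.mul_one]; simp only [Matrix.mul_assoc]
  have h2 : ∀ p : ℕ, (Xi N s * (Cp N s * Ap N s) * Xd N s) ^ p =
      Xi N s * (Cp N s * Ap N s) ^ p * Xd N s := by
    intro p
    induction p with
    | zero => rw [pow_zero, pow_zero, Matrix.mul_one, Xi_Xd]
    | succ p ih =>
      rw [pow_succ, ih, pow_succ]
      calc Xi N s * (Cp N s * Ap N s) ^ p * Xd N s * (Xi N s * (Cp N s * Ap N s) * Xd N s)
          = Xi N s * (Cp N s * Ap N s) ^ p * (Xd N s * Xi N s) * (Cp N s * Ap N s) *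
            Xd N s := by simp only [Matrix.mul_assoc]
        _ = _ := by rw [Xd_Xi, Matrix.mul_one]; simp only [Matrix.mul_assoc]
  rw [h1, h2, trace_mul_comm, ← Matrix.mul_assoc, Xd_Xi, Matrix.one_mul]

/-- real part of the trace by levels -/
lemma trace_re {N : ℕ} (hN : 2 ≤ N) (p : ℕ) :
    (trace ((MC N * MA N) ^ p)).re = (trace ((Cm N 0 * Am N 0) ^ p)).re +
      2 * ∑ s ∈ range (N - 1), (trace ((Cm N (s + 1) * Am N (s + 1)) ^ p)).re := by
  rw [trace_levels hN]
  obtain ⟨M, rfl⟩ : ∃ M, N = M + 1 := ⟨N - 1, by omega⟩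
  rw [sum_range_succ', Nat.add_sub_cancel]
  simp only [Complex.add_re, Complex.re_sum]
  have h : ∀ s ∈ range M, (trace ((Cp (M + 1) (s + 1) * Ap (M + 1) (s + 1)) ^ p)).re =
      (trace ((Cm (M + 1) (s + 1) * Am (M + 1) (s + 1)) ^ p)).re := by
    intro s _
    rw [trace_ip hN]; rfl
  rw [sum_congr rfl h]
  ring

end Pool.Agent.Helper9.Kashaev

/-!
# The invariant form on highest weight vectors is a Gram matrix
-/

namespace Pool.Agent.Helper9.Kashaev

open Finset
open scoped Matrix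

/-- the balanced q-binomial theorem -/
lemma prod_formula (N : ℕ) (n : ℕ) : ∀ z : ℂ, ∏ t ∈ range n, (1 + v N ^ (2 * (t : ℤ) + 1 - n) * z) =
    ∑ j ∈ range (n + 1), qb N n j * z ^ j := by
  induction n with
  | zero => intro z; simp [qb]
  | succ n ih =>
    intro z
    have hv := v_ne N
    rw [prod_range_succ]
    have h1 : ∏ t ∈ range n, (1 + v N ^ (2 * (t : ℤ) + 1 - ((n + 1 : ℕ) : ℤ)) * z) =
        ∏ t ∈ range n, (1 + v N ^ (2 * (t : ℤ) + 1 - (n : ℤ)) * (v N ^ (-1 : ℤ) * z)) := by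
      apply prod_congr rfl
      intro t _
      rw [← mul_assoc, vz]
      congr 3; push_cast; ring
    have h2 : v N ^ (2 * (n : ℤ) + 1 - ((n + 1 : ℕ) : ℤ)) = v N ^ (n : ℤ) := by
      congr 1; push_cast; ring
    rw [h1, ih, h2, mul_add, mul_one, sum_range_succ' _ (n + 1)]
    have h3 : ∀ j ∈ range (n + 1), qb N (n + 1) (j + 1) * z ^ (j + 1) =
        qb N n (j + 1) * (v N ^ (-1 : ℤ) * z) ^ (j + 1) +
        qb N n j * (v N ^ (-1 : ℤ) * z) ^ j * (v N ^ (n : ℤ) * z) := by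
      intro j _
      simp only [qb]
      rw [mul_pow, mul_pow]
      have e1 : (v N ^ (-1 : ℤ)) ^ (j + 1) = v N ^ (-((j : ℤ) + 1)) := by
        rw [← zpow_natCast, ← zpow_mul]; congr 1; push_cast; ring
      have e3 : (v N ^ (-1 : ℤ)) ^ j = v N ^ (-(j : ℤ)) := by
        rw [← zpow_natCast, ← zpow_mul]; congr 1; push_cast; ring
      have e2 : v N ^ ((n : ℤ) - j) = v N ^ (-(j : ℤ)) * v N ^ (n : ℤ) := by
        rw [vz]; congr 1; ring
      rw [e3]
      rw [e1, e2]; ring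
    rw [sum_congr rfl h3, sum_add_distrib, sum_mul]
    have h4 : ∑ j ∈ range (n + 1), qb N n j * (v N ^ (-1 : ℤ) * z) ^ j =
        ∑ j ∈ range (n + 1), qb N n (j + 1) * (v N ^ (-1 : ℤ) * z) ^ (j + 1) +
        qb N n 0 * (v N ^ (-1 : ℤ) * z) ^ 0 := by
      rw [← sum_range_succ' (fun j => qb N n j * (v N ^ (-1 : ℤ) * z) ^ j), sum_range_succ _ (n + 1),
        qb_gt n (n + 1) (by omega)]
      ring
    rw [h4, qb_zero_right, qb_zero_right]
    ring

/-- the nodes -/
noncomputable def zr (N r : ℕ) : ℂ := - v N ^ (2 * (r : ℤ) + 1)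

lemma zr_ne (N r : ℕ) : zr N r ≠ 0 := neg_ne_zero.mpr (vz_ne _ _)

lemma star_zr_zpow (N r : ℕ) (m : ℤ) : star (zr N r ^ m) = zr N r ^ (-m) := by
  have h : star (zr N r) = (zr N r)⁻¹ := by
    unfold zr
    rw [star_neg, star_v_zpow, inv_neg, ← zpow_neg]
  rw [star_zpow₀, h, inv_zpow']

lemma zr_zpow (N r : ℕ) (m : ℤ) : zr N r ^ m = (-1) ^ m * v N ^ m * (v N ^ (2 * m)) ^ r := by
  unfold zr
  rw [← neg_one_mul, mul_zpow, ← zpow_natCast, ← zpow_mul, ← zpow_mul, mul_assoc, vz]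
  congr 2; ring

lemma v_sq_ne_one {N : ℕ} {m : ℤ} (h0 : 0 < m) (h1 : m < N) : v N ^ (2 * m) ≠ 1 := by
  intro h
  have h2 : v N ^ m - v N ^ (-m) = 0 := by
    have : v N ^ (-m) * v N ^ (2 * m) = v N ^ m := by rw [vz]; congr 1; ring
    rw [← this, h, mul_one, sub_self]
  rw [v_sub_eq] at h2
  have h3 := sn_pos h0 h1
  have h4 : ((sn N m : ℝ) : ℂ) ≠ 0 := by exact_mod_cast h3.ne'
  exact mul_ne_zero Complex.I_ne_zero h4 h2

lemma v_pow_two_N {N : ℕ} (hN : 2 ≤ N) (m : ℤ) : (v N ^ (2 * m)) ^ N = 1 := by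
  rw [← zpow_natCast, ← zpow_mul, show 2 * m * (N : ℤ) = (N : ℤ) * 2 * m by ring, zpow_mul,
    zpow_mul, v_zpow_self hN]
  norm_num

/-- orthogonality of the nodes -/
lemma sum_zr {N : ℕ} (hN : 2 ≤ N) {m : ℤ} (h1 : -(N : ℤ) < m) (h2 : m < N) :
    ∑ r ∈ range N, zr N r ^ m = if m = 0 then (N : ℂ) else 0 := by
  split_ifs with h0
  · rw [h0]; simp
  · have h3 : v N ^ (2 * m) ≠ 1 := by
      rcases lt_or_gt_of_ne h0 with h | h
      · intro h4
        have h5 : v N ^ (2 * (-m)) ≠ 1 := v_sq_ne_one (by omega) (by omega)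
        apply h5
        rw [show 2 * (-m) = -(2 * m) by ring, zpow_neg, h4, inv_one]
      · exact v_sq_ne_one h h2
    have h4 : ∑ r ∈ range N, zr N r ^ m = (-1) ^ m * v N ^ m *
        ∑ r ∈ range N, (v N ^ (2 * m)) ^ r := by
      rw [mul_sum]
      apply sum_congr rfl
      intro r _
      exact zr_zpow N r m
    rw [h4, geom_sum_eq h3, v_pow_two_N hN, sub_self, zero_div, mul_zero]

/-- the weights of the quadrature -/
noncomputable def fR (N s r : ℕ) : ℝ := ∏ t ∈ range (2 * s), sn N ((t : ℤ) - s + r + 1)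

lemma sn_zero (N : ℕ) : sn N 0 = 0 := by simp [sn]

lemma sn_N {N : ℕ} (hN : 2 ≤ N) : sn N N = 0 := by
  unfold sn
  have : (N : ℝ) ≠ 0 := by positivity
  have h : Real.pi * ((N : ℤ) : ℝ) / N = Real.pi := by push_cast; field_simp
  rw [h, Real.sin_pi, mul_zero]

lemma fR_pos {N s r : ℕ} (h1 : s ≤ r) (h2 : r + s < N) : 0 < fR N s r := by
  unfold fR
  apply prod_pos
  intro t ht
  rw [mem_range] at ht
  exact sn_pos (by omega) (by omega)

lemma fR_zero_left {N s r : ℕ} (h1 : r < s) : fR N s r = 0 := by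
  unfold fR
  apply prod_eq_zero (i := s - r - 1)
  · rw [mem_range]; omega
  · have : (((s - r - 1 : ℕ) : ℤ) - s + r + 1) = 0 := by omega
    rw [this, sn_zero]

lemma fR_zero_right {N s r : ℕ} (hN : 2 ≤ N) (hr : r < N) (h1 : N ≤ r + s) : fR N s r = 0 := by
  unfold fR
  apply prod_eq_zero (i := N + s - r - 1)
  · rw [mem_range]; omega
  · have : (((N + s - r - 1 : ℕ) : ℤ) - s + r + 1) = N := by omega
    rw [this, sn_N hN]

lemma prod_v_even (N : ℕ) (s : ℕ) (c : ℤ) : ∏ t ∈ range (2 * s), v N ^ ((t : ℤ) + c) =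
    v N ^ ((s : ℤ) * (2 * s - 1) + 2 * s * c) := by
  induction s with
  | zero => simp
  | succ s ih =>
    rw [show 2 * (s + 1) = 2 * s + 1 + 1 by ring, prod_range_succ, prod_range_succ, ih, vz, vz]
    congr 1; push_cast; ring

lemma symbol_eq (N s r : ℕ) :
    ∑ j ∈ range (2 * s + 1), qb N (2 * s) j * zr N r ^ ((j : ℤ) - s) = (fR N s r : ℂ) := by
  have hz := zr_ne N r
  have h1 : ∑ j ∈ range (2 * s + 1), qb N (2 * s) j * zr N r ^ ((j : ℤ) - s) =
      zr N r ^ (-(s : ℤ)) * ∑ j ∈ range (2 * s + 1), qb N (2 * s) j * zr N r ^ j := by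
    rw [mul_sum]
    apply sum_congr rfl
    intro j _
    rw [sub_eq_add_neg, zpow_add₀ hz, zpow_natCast]; ring
  rw [h1, ← prod_formula]
  have h2 : ∀ t ∈ range (2 * s), 1 + v N ^ (2 * (t : ℤ) + 1 - ((2 * s : ℕ) : ℤ)) * zr N r =
      (-Complex.I) * v N ^ ((t : ℤ) + ((r : ℤ) + 1 - s)) * (sn N ((t : ℤ) - s + r + 1) : ℂ) := by
    intro t _
    have h3 := v_sub_eq N ((t : ℤ) - s + r + 1)
    have h4 : v N ^ (2 * (t : ℤ) + 1 - ((2 * s : ℕ) : ℤ)) * zr N r =
        - (v N ^ ((t : ℤ) + ((r : ℤ) + 1 - s)) * v N ^ ((t : ℤ) - s + r + 1)) := by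
      unfold zr
      rw [mul_neg, vz, vz]
      congr 2; push_cast; ring
    have h5 : v N ^ ((t : ℤ) + ((r : ℤ) + 1 - s)) * v N ^ (-((t : ℤ) - s + r + 1)) = 1 := by
      rw [vz, show (t : ℤ) + ((r : ℤ) + 1 - s) + -((t : ℤ) - s + r + 1) = 0 by ring, zpow_zero]
    rw [h4]
    linear_combination (-v N ^ ((t : ℤ) + ((r : ℤ) + 1 - s))) * h3 - h5
  rw [prod_congr rfl h2, prod_mul_distrib, prod_mul_distrib, prod_const, card_range, prod_v_even]
  have h6 : (-Complex.I) ^ (2 * s) = (-1) ^ s := by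
    rw [pow_mul, neg_sq, Complex.I_sq]
  have h7 : zr N r ^ (-(s : ℤ)) = (-1) ^ s * v N ^ (-((s : ℤ) * (2 * r + 1))) := by
    unfold zr
    rw [← neg_one_mul, mul_zpow, ← zpow_mul]
    congr 1
    · rw [zpow_neg, zpow_natCast, ← inv_pow]; norm_num
    · congr 1; ring
  have h8 : v N ^ (-((s : ℤ) * (2 * r + 1))) *
      v N ^ ((s : ℤ) * (2 * s - 1) + 2 * s * ((r : ℤ) + 1 - s)) = 1 := by
    rw [vz, show -((s : ℤ) * (2 * r + 1)) + ((s : ℤ) * (2 * s - 1) + 2 * s * ((r : ℤ) + 1 - s)) = 0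
      by ring, zpow_zero]
  have h9 : ((-1 : ℂ)) ^ s * (-1) ^ s = 1 := by rw [← mul_pow]; norm_num
  have h10 : (fR N s r : ℂ) = ∏ t ∈ range (2 * s), (sn N ((t : ℤ) - s + r + 1) : ℂ) := by
    unfold fR; rw [Complex.ofReal_prod]
  rw [h6, h7, h10]
  linear_combination ((-1) ^ s * (-1) ^ s * ∏ t ∈ range (2 * s),
    (sn N ((t : ℤ) - s + r + 1) : ℂ)) * h8 +
    (∏ t ∈ range (2 * s), (sn N ((t : ℤ) - s + r + 1) : ℂ)) * h9

/-- the quadrature formula for the entries of the Toeplitz matrix -/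
lemma toep_quad {N s a l : ℕ} (hN : 2 ≤ N) (hs : s < N) (ha : a < N - s) (hl : l < N - s) :
    (if l ≤ a + s ∧ a ≤ l + s then qb N (2 * s) (a + s - l) else 0) =
      ∑ r ∈ range N, (fR N s r : ℂ) / N * zr N r ^ ((l : ℤ) - a) := by
  have hN0 : (N : ℂ) ≠ 0 := by exact_mod_cast (by omega : N ≠ 0)
  have h1 : ∀ r ∈ range N, (fR N s r : ℂ) / N * zr N r ^ ((l : ℤ) - a) =
      ∑ j ∈ range (2 * s + 1), qb N (2 * s) j / N * zr N r ^ ((j : ℤ) - s + (l - a)) := by
    intro r _
    rw [← symbol_eq, sum_div, sum_mul]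
    apply sum_congr rfl
    intro j _
    rw [zpow_add₀ (zr_ne N r) ((j : ℤ) - s)]; ring
  rw [sum_congr rfl h1, sum_comm]
  have h2 : ∀ j ∈ range (2 * s + 1), ∑ r ∈ range N, qb N (2 * s) j / N *
      zr N r ^ ((j : ℤ) - s + (l - a)) = if (j : ℤ) - s + (l - a) = 0 then qb N (2 * s) j else 0 := by
    intro j hj
    rw [mem_range] at hj
    rw [← mul_sum, sum_zr hN (by omega) (by omega)]
    split_ifs
    · field_simp
    · rw [mul_zero]
  rw [sum_congr rfl h2]
  by_cases h : l ≤ a + s ∧ a ≤ l + s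
  · rw [if_pos h, sum_eq_single (a + s - l)]
    · rw [if_pos (by omega)]
    · intro j _ hj
      rw [if_neg (by omega)]
    · intro h'
      rw [mem_range] at h'
      omega
  · rw [if_neg h]
    symm
    apply sum_eq_zero
    intro j hj
    rw [mem_range] at hj
    rw [if_neg (by omega)]

/-- the same with the vanishing terms removed -/
lemma toep_quad' {N s a l : ℕ} (hN : 2 ≤ N) (hs : 2 * s ≤ N) (hs' : s < N) (ha : a < N - s)
    (hl : l < N - s) :
    (if l ≤ a + s ∧ a ≤ l + s then qb N (2 * s) (a + s - l) else 0) =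
      ∑ i ∈ range (N - 2 * s), (fR N s (s + i) : ℂ) / N * zr N (s + i) ^ ((l : ℤ) - a) := by
  rw [toep_quad hN hs' ha hl]
  have h1 : range N = Ico 0 N := by rw [range_eq_Ico]
  have h2 : Ico s (N - s) ⊆ range N := by
    intro r hr
    rw [mem_Ico] at hr
    rw [mem_range]; omega
  rw [← sum_subset h2, sum_Ico_eq_sum_range]
  · congr 2; omega
  · intro r hr hr'
    rw [mem_range] at hr
    rw [mem_Ico] at hr'
    by_cases h3 : r < s
    · rw [fR_zero_left h3]; simp
    · rw [fR_zero_right hN hr (by omega)]; simp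

/-- scaling factors -/
noncomputable def zz (N s l : ℕ) : ℂ :=
  v N ^ ((l : ℤ) ^ 2 + 2 * l + 2 * s * l) * (w2 N (l + s) / w2 N l)

lemma zz_ne {N s l : ℕ} (h : l < N - s) : zz N s l ≠ 0 := by
  unfold zz
  exact mul_ne_zero (vz_ne _ _) (div_ne_zero (w2_ne (by omega)) (w2_ne (by omega)))

lemma star_zz (N s l : ℕ) : star (zz N s l) =
    v N ^ (-((l : ℤ) ^ 2 + 2 * l + 2 * s * l)) * (w2 N (l + s) / w2 N l) := by
  unfold zz
  rw [star_mul, star_v_zpow, star_div₀, star_w2, star_w2]; ring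

/-- the Gram factor -/
noncomputable def Mw (N s : ℕ) : Matrix (Fin (N - 2 * s)) (Fin (N - s)) ℂ := fun i l =>
  (Real.sqrt (fR N s (s + i) / N) : ℂ) * zr N (s + i) ^ ((l : ℕ) : ℤ) * zz N s l

lemma w2_refl {N m : ℕ} (hN : 2 ≤ N) (hm : m < N) : w2 N (N - 1 - m) = w2 N (N - 1) / w2 N m := by
  have h := qfac_refl hN m hm
  have h2 : qfac N m ≠ 0 := qfac_ne hm
  unfold w2
  rw [eq_div_iff (pow_ne_zero _ h2), ← mul_pow, h]

/-- the intertwiner between the levels `N - 1 - s` and `N - 1 + s` -/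
noncomputable def Tm (N s : ℕ) : Matrix (Fin (N - s)) (Fin (N - s)) ℂ :=
  (TT N (2 * s)).submatrix (ip N s) (im N s)

lemma Tm_apply {N s : ℕ} (hN : 2 ≤ N) (a l : Fin (N - s)) :
    Tm N s a l = v N ^ ((s : ℤ) ^ 2 + 2 * s) * (v N ^ (2 * (s : ℤ) * (a : ℕ)) *
      (star (zz N s a) * (if (l : ℕ) ≤ a + s ∧ (a : ℕ) ≤ l + s then
        qb N (2 * s) (a + s - l) else 0) * zz N s l)) := by
  have h1 := a.2
  have h2 := l.2
  show TT N (2 * s) (ip N s a) (im N s l) = _
  unfold TT ip im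
  simp only
  by_cases h : (l : ℕ) ≤ a + s ∧ (a : ℕ) ≤ l + s
  · rw [if_pos h, if_pos ⟨h.1, by omega, by omega⟩, star_zz]
    unfold zz tF
    have e1 : N - 1 - s - (l : ℕ) = N - 1 - (l + s) := by omega
    rw [e1, w2_refl hN (show (a : ℕ) < N by omega), w2_refl hN (show (l : ℕ) + s < N by omega)]
    have f1 : w2 N a ≠ 0 := w2_ne (by omega)
    have f2 : w2 N l ≠ 0 := w2_ne (by omega)
    have f3 : w2 N (l + s) ≠ 0 := w2_ne (by omega)
    have f4 : w2 N (N - 1) ≠ 0 := w2_ne (by omega)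
    have f5 : w2 N (a + s) ≠ 0 := w2_ne (by omega)
    have e2 : (((a : ℕ) + s - l : ℕ) : ℤ) = (a : ℕ) + s - (l : ℕ) := by
      push_cast [Nat.cast_sub h.1]; ring
    have z : v N ^ ((((2 * s : ℕ) : ℤ) - (((a : ℕ) + s - l : ℕ) : ℤ)) *
        (((a : ℕ) + s - l : ℕ) : ℤ) + 2 * ((((a : ℕ) + s : ℕ) : ℤ) -
        (((a : ℕ) + s - l : ℕ) : ℤ) + 1) * (((2 * s : ℕ) : ℤ) -
        (((a : ℕ) + s - l : ℕ) : ℤ))) =
        v N ^ ((s : ℤ) ^ 2 + 2 * s) * v N ^ (2 * (s : ℤ) * (a : ℕ)) *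
        v N ^ (-(((a : ℕ) : ℤ) ^ 2 + 2 * (a : ℕ) + 2 * s * (a : ℕ))) *
        v N ^ (((l : ℕ) : ℤ) ^ 2 + 2 * (l : ℕ) + 2 * s * (l : ℕ)) := by
      rw [vz, vz, vz, e2]; congr 1; push_cast; ring
    rw [z]
    field_simp
  · rw [if_neg h, if_neg (by omega)]; ring

lemma Mw_gram {N s : ℕ} (hN : 2 ≤ N) (hs : 2 * s ≤ N) (a l : Fin (N - s)) :
    ((Mw N s)ᴴ * Mw N s) a l = star (zz N s a) * (if (l : ℕ) ≤ a + s ∧ (a : ℕ) ≤ l + s then
        qb N (2 * s) (a + s - l) else 0) * zz N s l := by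
  have h1 := a.2
  have h2 := l.2
  rw [Matrix.mul_apply, toep_quad' hN hs (by omega) h1 h2, mul_sum, sum_mul,
    ← Fin.sum_univ_eq_sum_range (fun i => star (zz N s a) *
      ((fR N s (s + i) : ℂ) / N * zr N (s + i) ^ (((l : ℕ) : ℤ) - (a : ℕ))) * zz N s l)]
  apply sum_congr rfl
  intro i _
  have hi := i.2
  rw [Matrix.conjTranspose_apply]
  unfold Mw
  rw [star_mul, star_mul, star_zr_zpow]
  have h3 : star ((Real.sqrt (fR N s (s + i) / N) : ℝ) : ℂ) =
      (Real.sqrt (fR N s (s + i) / N) : ℂ) := by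
    rw [Complex.star_def, Complex.conj_ofReal]
  have h4 : (Real.sqrt (fR N s (s + i) / N) : ℂ) * (Real.sqrt (fR N s (s + i) / N) : ℂ) =
      (fR N s (s + i) : ℂ) / N := by
    rw [← Complex.ofReal_mul, Real.mul_self_sqrt]
    · push_cast; rfl
    · exact div_nonneg (fR_pos (by omega) (by omega)).le (by positivity)
  have h5 : zr N (s + i) ^ (((l : ℕ) : ℤ) - (a : ℕ)) =
      zr N (s + i) ^ (-((a : ℕ) : ℤ)) * zr N (s + i) ^ ((l : ℕ) : ℤ) := by
    rw [← zpow_add₀ (zr_ne _ _)]; congr 1; ring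
  rw [h3, h5, ← h4]; ring

lemma Tm_eq {N s : ℕ} (hN : 2 ≤ N) (hs : 2 * s ≤ N) :
    Tm N s = v N ^ ((s : ℤ) ^ 2 + 2 * s) • (Xd N s * ((Mw N s)ᴴ * Mw N s)) := by
  ext a l
  rw [Tm_apply hN, Matrix.smul_apply, smul_eq_mul]
  unfold Xd
  rw [Matrix.diagonal_mul, Mw_gram hN hs]

/-- intertwining by blocks -/
lemma Tm_Cm {N s : ℕ} (hN : 2 ≤ N) (hs0 : 1 ≤ s) (hs : 2 * s ≤ N) :
    Tm N s * Cm N s = Cp N s * Tm N s := by
  have hsN : s < N := by omega
  obtain ⟨n, hn⟩ : ∃ n, 2 * s = n + 1 := ⟨2 * s - 1, by omega⟩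
  apply (Matrix.toLin').injective
  apply LinearMap.ext
  intro y
  rw [Matrix.toLin'_apply, Matrix.toLin'_apply, ← Matrix.mulVec_mulVec, ← Matrix.mulVec_mulVec]
  set Y : I2 N → ℂ := Function.extend (im N s) y 0 with hY
  have hYy : Y ∘ im N s = y := by
    funext a
    exact (im_inj N s).extend_apply _ _ a
  have hY0 : ∀ x, lev x ≠ N - 1 - s → Y x = 0 := by
    intro x hx
    rw [hY, Function.extend_apply']
    · rfl
    · rintro ⟨a, rfl⟩
      exact hx (lev_im a)
  have hq : qi N (3 * ((N : ℤ) - 1) - 2 * ((N - 1 - s : ℕ) : ℤ) - n) = 0 := by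
    have e : (3 * ((N : ℤ) - 1) - 2 * ((N - 1 - s : ℕ) : ℤ) - n) = N := by omega
    rw [e, qi_N hN]
  have hint := (INT hN (N - 1 - s) n (by omega) hq Y hY0).2
  rw [← hn] at hint
  funext a
  have h1 := congrFun hint (ip N s a)
  have hTT : ∀ (a : Fin (N - s)) y, TT N (2 * s) (ip N s a) y ≠ 0 → ∃ b, im N s b = y := by
    intro a y hy
    exact im_surj hsN y (by have := TT_lev hy; rw [lev_ip] at this; omega)
  rw [block_mulVec _ _ _ (ip_inj N s) (MC_ip hsN), block_mulVec _ _ _ (im_inj N s) hTT] at h1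
  have h2 : (TT N (2 * s)).mulVec Y ∘ ip N s = (Tm N s).mulVec y := by
    funext b
    show (TT N (2 * s)).mulVec Y (ip N s b) = _
    rw [block_mulVec _ _ _ (im_inj N s) hTT, hYy]
    rfl
  have h3 : (MC N).mulVec Y ∘ im N s = (Cm N s).mulVec y := by
    funext b
    show (MC N).mulVec Y (im N s b) = _
    rw [block_mulVec _ _ _ (im_inj N s) (MC_im hsN), hYy]
    rfl
  rw [h2, h3] at h1
  exact h1.symm

/-- the form is compatible with the crossings -/
lemma gram_rel {N s : ℕ} (hN : 2 ≤ N) (hs0 : 1 ≤ s) (hs : 2 * s ≤ N) :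
    ((Mw N s)ᴴ * Mw N s) * Cm N s = (Am N s)ᴴ * ((Mw N s)ᴴ * Mw N s) := by
  have h := Tm_Cm hN hs0 hs
  rw [Tm_eq hN hs, Matrix.smul_mul, Matrix.mul_smul] at h
  have hk : v N ^ ((s : ℤ) ^ 2 + 2 * s) ≠ 0 := vz_ne _ _
  have h2 : Xd N s * ((Mw N s)ᴴ * Mw N s) * Cm N s =
      Cp N s * (Xd N s * ((Mw N s)ᴴ * Mw N s)) := smul_right_injective _ hk h
  calc ((Mw N s)ᴴ * Mw N s) * Cm N s
      = Xi N s * (Xd N s * ((Mw N s)ᴴ * Mw N s) * Cm N s) := by
        simp only [← Matrix.mul_assoc]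
        rw [Xi_Xd, Matrix.one_mul]
    _ = (Am N s)ᴴ * ((Mw N s)ᴴ * Mw N s) := by
        rw [h2, Am_H hN]; simp only [Matrix.mul_assoc]

end Pool.Agent.Helper9.Kashaev

/-!
# Pairing of the levels `s` and `N - s`
-/

namespace Pool.Agent.Helper9.Kashaev

open Finset
open scoped Matrix ComplexOrder

/-- the intertwiner between the levels `s - 1` and `N - 1 - s` -/
noncomputable def Jm (N s : ℕ) : Matrix (Fin (N - s)) (Fin (N - (N - s))) ℂ :=
  (TT N (N - 2 * s)).submatrix (im N s) (im N (N - s))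

lemma TT_im {N s : ℕ} (hs : 2 * s < N) (hs0 : 1 ≤ s) (a : Fin (N - s)) (y : I2 N)
    (h : TT N (N - 2 * s) (im N s a) y ≠ 0) : ∃ b, im N (N - s) b = y := by
  apply im_surj (by omega)
  have := TT_lev h
  rw [lev_im] at this
  omega

lemma Jm_comm_aux {N s : ℕ} (hs0 : 1 ≤ s) (hs : 2 * s < N)
    (M : Matrix (I2 N) (I2 N) ℂ) (hM : ∀ x y, M x y ≠ 0 → lev y = lev x)
    (hI : ∀ Y : I2 N → ℂ, (∀ x, lev x ≠ s - 1 → Y x = 0) →
      M.mulVec ((TT N (N - 2 * s)).mulVec Y) = (TT N (N - 2 * s)).mulVec (M.mulVec Y)) :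
    M.submatrix (im N s) (im N s) * Jm N s =
      Jm N s * M.submatrix (im N (N - s)) (im N (N - s)) := by
  apply (Matrix.toLin').injective
  apply LinearMap.ext
  intro y
  rw [Matrix.toLin'_apply, Matrix.toLin'_apply, ← Matrix.mulVec_mulVec, ← Matrix.mulVec_mulVec]
  set Y : I2 N → ℂ := Function.extend (im N (N - s)) y 0 with hY
  have hYy : Y ∘ im N (N - s) = y := by
    funext a
    exact (im_inj N (N - s)).extend_apply _ _ a
  have hY0 : ∀ x, lev x ≠ s - 1 → Y x = 0 := by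
    intro x hx
    rw [hY, Function.extend_apply']
    · rfl
    · rintro ⟨a, rfl⟩
      apply hx
      rw [lev_im a]; omega
  have hint := hI Y hY0
  have hM1 : ∀ (a : Fin (N - s)) x, M (im N s a) x ≠ 0 → ∃ b, im N s b = x := fun a x h =>
    im_surj (by omega) x (by rw [hM _ _ h, lev_im])
  have hM2 : ∀ (a : Fin (N - (N - s))) x, M (im N (N - s) a) x ≠ 0 →
      ∃ b, im N (N - s) b = x := fun a x h =>
    im_surj (by omega) x (by rw [hM _ _ h, lev_im])
  funext a
  have h1 := congrFun hint (im N s a)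
  rw [block_mulVec _ _ _ (im_inj N s) hM1,
    block_mulVec _ _ _ (im_inj N (N - s)) (TT_im hs hs0)] at h1
  have h2 : (TT N (N - 2 * s)).mulVec Y ∘ im N s = (Jm N s).mulVec y := by
    funext b
    show (TT N (N - 2 * s)).mulVec Y (im N s b) = _
    rw [block_mulVec _ _ _ (im_inj N (N - s)) (TT_im hs hs0), hYy]
    rfl
  have h3 : M.mulVec Y ∘ im N (N - s) =
      (M.submatrix (im N (N - s)) (im N (N - s))).mulVec y := by
    funext b
    show M.mulVec Y (im N (N - s) b) = _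
    rw [block_mulVec _ _ _ (im_inj N (N - s)) hM2, hYy]
  rw [h2, h3] at h1
  exact h1

lemma Jm_comm {N s : ℕ} (hN : 2 ≤ N) (hs0 : 1 ≤ s) (hs : 2 * s < N) :
    Am N s * Jm N s = Jm N s * Am N (N - s) ∧ Cm N s * Jm N s = Jm N s * Cm N (N - s) := by
  obtain ⟨n, hn⟩ : ∃ n, N - 2 * s = n + 1 := ⟨N - 2 * s - 1, by omega⟩
  have hq : qi N (3 * ((N : ℤ) - 1) - 2 * ((s - 1 : ℕ) : ℤ) - n) = 0 := by
    have e : (3 * ((N : ℤ) - 1) - 2 * ((s - 1 : ℕ) : ℤ) - n) = N + N := by omega
    rw [e, qi_N_add hN, qi_N hN, neg_zero]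
  constructor
  · apply Jm_comm_aux hs0 hs (MA N) (fun x y h => MA_lev h)
    intro Y hY
    rw [hn]
    exact (INT hN (s - 1) n (by omega) hq Y hY).1
  · apply Jm_comm_aux hs0 hs (MC N) (fun x y h => MC_lev h)
    intro Y hY
    rw [hn]
    exact (INT hN (s - 1) n (by omega) hq Y hY).2

lemma Jm_zero {N s : ℕ} (a : Fin (N - s)) (b : Fin (N - (N - s))) (h : (a : ℕ) < b) :
    Jm N s a b = 0 := by
  show TT N (N - 2 * s) (im N s a) (im N (N - s) b) = 0
  unfold TT im
  rw [if_neg]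
  rintro ⟨h1, _⟩
  simp only at h1
  omega

lemma tF_ne {N n a j : ℕ} (hn : n < N) (hj : j ≤ n) : tF N n a j ≠ 0 := by
  unfold tF
  apply mul_ne_zero (vz_ne _ _)
  rw [qb_real hn hj]
  exact_mod_cast (rb_pos hn hj).ne'

lemma Jm_diag {N s : ℕ} (hs0 : 1 ≤ s) (hs : 2 * s < N) (a : Fin (N - s))
    (b : Fin (N - (N - s))) (h : (a : ℕ) = b) : Jm N s a b ≠ 0 := by
  show TT N (N - 2 * s) (im N s a) (im N (N - s) b) ≠ 0
  have h1 := a.2
  have h2 := b.2
  unfold TT im
  simp only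
  rw [if_pos (by omega)]
  apply mul_ne_zero
  · apply div_ne_zero
    · exact mul_ne_zero (w2_ne (by omega)) (w2_ne (by omega))
    · exact mul_ne_zero (w2_ne (by omega)) (w2_ne (by omega))
  · exact tF_ne (by omega) (by omega)

lemma Jm_inj {N s : ℕ} (hs0 : 1 ≤ s) (hs : 2 * s < N) (u : Fin (N - (N - s)) → ℂ)
    (hu : (Jm N s).mulVec u = 0) : u = 0 := by
  have key : ∀ k : ℕ, ∀ b : Fin (N - (N - s)), (b : ℕ) = k → u b = 0 := by
    intro k
    induction k using Nat.strong_induction_on with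
    | _ k ih =>
      intro b hb
      have hb2 := b.2
      have h1 := congrFun hu (⟨b, by omega⟩ : Fin (N - s))
      have h1 : ∑ b', Jm N s ⟨b, by omega⟩ b' * u b' = 0 := h1
      rw [sum_eq_single b] at h1
      · rcases mul_eq_zero.mp h1 with h | h
        · exact absurd h (Jm_diag hs0 hs _ b rfl)
        · exact h
      · intro b' _ hne
        rcases lt_or_gt_of_ne (fun h => hne (Fin.ext h)) with h | h
        · rw [ih (b' : ℕ) (by omega) b' rfl, mul_zero]
        · rw [Jm_zero _ _ (show ((⟨b, by omega⟩ : Fin (N - s)) : ℕ) < b' from h), zero_mul]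
      · intro h; exact absurd (mem_univ _) h
  funext b
  exact key b b rfl

lemma Tm_Jm {N s : ℕ} (hN : 2 ≤ N) (hs0 : 1 ≤ s) (hs : 2 * s < N) : Tm N s * Jm N s = 0 := by
  apply (Matrix.toLin').injective
  apply LinearMap.ext
  intro y
  rw [Matrix.toLin'_apply, Matrix.toLin'_apply, ← Matrix.mulVec_mulVec, Matrix.zero_mulVec]
  set Y : I2 N → ℂ := Function.extend (im N (N - s)) y 0 with hY
  have hYy : Y ∘ im N (N - s) = y := by
    funext a
    exact (im_inj N (N - s)).extend_apply _ _ a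
  have hint := TT_TT hN (m := 2 * s) (n := N - 2 * s) (by omega) Y
  have hTT : ∀ (a : Fin (N - s)) y, TT N (2 * s) (ip N s a) y ≠ 0 → ∃ b, im N s b = y := by
    intro a y hy
    exact im_surj (by omega) y (by have := TT_lev hy; rw [lev_ip] at this; omega)
  funext a
  have h1 := congrFun hint (ip N s a)
  rw [block_mulVec _ _ _ (im_inj N s) hTT] at h1
  have h2 : (TT N (N - 2 * s)).mulVec Y ∘ im N s = (Jm N s).mulVec y := by
    funext b
    show (TT N (N - 2 * s)).mulVec Y (im N s b) = _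
    rw [block_mulVec _ _ _ (im_inj N (N - s)) (TT_im hs hs0), hYy]
    rfl
  rw [h2] at h1
  exact h1

lemma Mw_Jm {N s : ℕ} (hN : 2 ≤ N) (hs0 : 1 ≤ s) (hs : 2 * s < N) : Mw N s * Jm N s = 0 := by
  rw [← Matrix.conjTranspose_mul_self_mul_eq_zero]
  have h := Tm_Jm hN hs0 hs
  rw [Tm_eq hN hs.le, Matrix.smul_mul] at h
  have h2 : Xd N s * ((Mw N s)ᴴ * Mw N s) * Jm N s = 0 := by
    rcases smul_eq_zero.mp h with h3 | h3
    · exact absurd h3 (vz_ne _ _)
    · exact h3
  calc (Mw N s)ᴴ * Mw N s * Jm N s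
      = Xi N s * (Xd N s * ((Mw N s)ᴴ * Mw N s) * Jm N s) := by
        simp only [← Matrix.mul_assoc]
        rw [Xi_Xd, Matrix.one_mul]
    _ = 0 := by rw [h2, Matrix.mul_zero]

lemma zr_injOn {N s : ℕ} : Function.Injective
    (fun i : Fin (N - 2 * s) => zr N (s + i)) := by
  have key : ∀ i j : Fin (N - 2 * s), (i : ℕ) < j → zr N (s + i) ≠ zr N (s + j) := by
    intro i j hij h
    have hj := j.2
    unfold zr at h
    have h1 := neg_injective h
    have h2 : v N ^ (2 * ((s + j : ℕ) : ℤ) + 1) =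
        v N ^ (2 * ((s + i : ℕ) : ℤ) + 1) * v N ^ (2 * (((j : ℕ) : ℤ) - (i : ℕ))) := by
      rw [vz]; congr 1; push_cast; ring
    rw [h2] at h1
    have h3 : v N ^ (2 * (((j : ℕ) : ℤ) - (i : ℕ))) = 1 := by
      have h4 := vz_ne N (2 * ((s + i : ℕ) : ℤ) + 1)
      have h5 : v N ^ (2 * ((s + i : ℕ) : ℤ) + 1) * 1 =
          v N ^ (2 * ((s + i : ℕ) : ℤ) + 1) * v N ^ (2 * (((j : ℕ) : ℤ) - (i : ℕ))) := by
        rw [mul_one]; exact h1
      exact (mul_left_cancel₀ h4 h5).symm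
    exact v_sq_ne_one (N := N) (m := ((j : ℕ) : ℤ) - (i : ℕ)) (by omega) (by omega) h3
  intro i j h
  rcases lt_trichotomy (i : ℕ) (j : ℕ) with h1 | h1 | h1
  · exact absurd h (key i j h1)
  · exact Fin.ext h1
  · exact absurd h.symm (key j i h1)

lemma Mw_surj {N s : ℕ} (hN : 2 ≤ N) (y : Fin (N - 2 * s) → ℂ) :
    ∃ x, (Mw N s).mulVec x = y := by
  set z : Fin (N - 2 * s) → ℂ := fun i => zr N (s + i) with hz
  have hdet : IsUnit (Matrix.vandermonde z) := by
    rw [Matrix.isUnit_iff_isUnit_det, isUnit_iff_ne_zero]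
    exact Matrix.det_vandermonde_ne_zero_iff.mpr zr_injOn
  set c : Fin (N - 2 * s) → ℂ := fun i => (Real.sqrt (fR N s (s + i) / N) : ℂ) with hc
  have hc0 : ∀ i, c i ≠ 0 := by
    intro i
    have hi := i.2
    simp only [hc]
    have : 0 < Real.sqrt (fR N s (s + i) / N) := by
      apply Real.sqrt_pos.mpr
      exact div_pos (fR_pos (by omega) (by omega)) (by positivity)
    exact_mod_cast this.ne'
  obtain ⟨x', hx'⟩ : ∃ x', (Matrix.vandermonde z).mulVec x' = fun i => y i / c i := by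
    have := (Matrix.mulVec_surjective_iff_isUnit).mpr hdet
    exact this _
  set ι : Fin (N - 2 * s) → Fin (N - s) := fun i => ⟨i, by have := i.2; omega⟩ with hι
  have hιinj : Function.Injective ι := by
    intro a b h
    have := congrArg (fun t : Fin (N - s) => (t : ℕ)) h
    exact Fin.ext this
  set x : Fin (N - s) → ℂ := Function.extend ι (fun i => x' i / zz N s i) 0 with hx
  refine ⟨x, ?_⟩
  funext i
  unfold Matrix.mulVec dotProduct
  have h1 : ∑ l, Mw N s i l * x l = ∑ j, Mw N s i (ι j) * x (ι j) := by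
    symm
    apply Fintype.sum_of_injective ι hιinj
    · intro l hl
      rw [hx, Function.extend_apply']
      · simp
      · rintro ⟨a, ha⟩
        exact hl ⟨a, ha⟩
    · intro j; rfl
  rw [h1]
  have h2 : ∀ j, Mw N s i (ι j) * x (ι j) = c i * (Matrix.vandermonde z i j * x' j) := by
    intro j
    rw [hx, hιinj.extend_apply, Matrix.vandermonde_apply]
    have hj := j.2
    have h3 : zz N s (j : ℕ) ≠ 0 := zz_ne (by omega)
    show (Real.sqrt (fR N s (s + i) / N) : ℂ) * zr N (s + i) ^ ((j : ℕ) : ℤ) * zz N s (j : ℕ) *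
      (x' j / zz N s (j : ℕ)) = _
    rw [zpow_natCast]
    show (Real.sqrt (fR N s (s + i) / N) : ℂ) * zr N (s + i) ^ (j : ℕ) * zz N s (j : ℕ) *
      (x' j / zz N s (j : ℕ)) = (Real.sqrt (fR N s (s + i) / N) : ℂ) *
      (zr N (s + i) ^ (j : ℕ) * x' j)
    field_simp
  rw [sum_congr rfl (fun j _ => h2 j), ← mul_sum]
  have h3 := congrFun hx' i
  unfold Matrix.mulVec dotProduct at h3
  rw [h3]
  field_simp [hc0 i]

/-- comparison of the contributions of the levels `s` and `N - s` -/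
lemma pair_le {N s : ℕ} (hN : 2 ≤ N) (hs0 : 1 ≤ s) (hs : 2 * s < N) (p : ℕ) :
    (Matrix.trace ((Cm N (N - s) * Am N (N - s)) ^ p)).re ≤
      (Matrix.trace ((Cm N s * Am N s) ^ p)).re := by
  apply Lin.psd_trace (Am N s) (Cm N s) (Am N (N - s)) (Cm N (N - s)) (Mw N s) (Jm N s)
    (gram_rel hN hs0 hs.le) (Jm_comm hN hs0 hs).1 (Jm_comm hN hs0 hs).2 (Mw_Jm hN hs0 hs)
    (Jm_inj hs0 hs) (Mw_surj hN)
  simp only [Fintype.card_fin]
  omega

end Pool.Agent.Helper9.Kashaev

/-!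
# Bounds for the trace
-/

namespace Pool.Agent.Helper9.Kashaev

open Finset
open scoped Matrix

lemma norm_Ac {N a c l : ℕ} (ha : a < N) (hl : l ≤ a) : ‖Ac N a c l‖ = rb N a l := by
  unfold Ac
  rw [norm_mul, norm_mul, norm_tht, norm_v_zpow, norm_qb ha hl, one_mul, one_mul]

lemma norm_Cc {N c l : ℕ} (hc : c < N) (hl : l ≤ c) : ‖Cc N c l‖ = rb N c l := by
  unfold Cc
  rw [norm_mul, norm_mul, norm_inv, norm_tht, norm_v_zpow, norm_qb hc hl, inv_one, one_mul,
    one_mul]

lemma norm_pow_entry {n : Type*} [Fintype n] [DecidableEq n] (C A : Matrix n n ℂ) (K : ℕ)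
    (hcard : Fintype.card n ≤ K) (hK : 1 ≤ K) (μ : ℝ) (hμ : 0 ≤ μ) (hC : ∀ i j, ‖C i j‖ ≤ μ)
    (hA : ∀ i j, ‖A i j‖ ≤ μ) (p : ℕ) (i j : n) :
    ‖((C * A) ^ p) i j‖ ≤ ((K : ℝ) ^ 2 * μ ^ 2) ^ p := by
  have hcardR : (Fintype.card n : ℝ) ≤ K := by exact_mod_cast hcard
  have hKR : (1 : ℝ) ≤ K := by exact_mod_cast hK
  have h1 : ∀ i j, ‖(C * A) i j‖ ≤ K * μ ^ 2 := by
    intro i j
    rw [Matrix.mul_apply]
    calc ‖∑ k, C i k * A k j‖ ≤ ∑ k : n, μ * μ := by
          refine (norm_sum_le _ _).trans (sum_le_sum fun k _ => ?_)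
          rw [norm_mul]
          exact mul_le_mul (hC i k) (hA k j) (norm_nonneg _) hμ
      _ = Fintype.card n * (μ * μ) := by rw [sum_const, card_univ, nsmul_eq_mul]
      _ ≤ K * μ ^ 2 := by rw [sq]; exact mul_le_mul_of_nonneg_right hcardR (by positivity)
  induction p generalizing i j with
  | zero =>
    rw [pow_zero, pow_zero, Matrix.one_apply]
    split_ifs <;> simp
  | succ p ih =>
    rw [pow_succ, Matrix.mul_apply]
    calc ‖∑ k, ((C * A) ^ p) i k * (C * A) k j‖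
        ≤ ∑ k : n, ((K : ℝ) ^ 2 * μ ^ 2) ^ p * (K * μ ^ 2) := by
          refine (norm_sum_le _ _).trans (sum_le_sum fun k _ => ?_)
          rw [norm_mul]
          exact mul_le_mul (ih i k) (h1 k j) (norm_nonneg _) (by positivity)
      _ = Fintype.card n * (((K : ℝ) ^ 2 * μ ^ 2) ^ p * (K * μ ^ 2)) := by
          rw [sum_const, card_univ, nsmul_eq_mul]
      _ ≤ K * (((K : ℝ) ^ 2 * μ ^ 2) ^ p * (K * μ ^ 2)) :=
          mul_le_mul_of_nonneg_right hcardR (by positivity)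
      _ = ((K : ℝ) ^ 2 * μ ^ 2) ^ (p + 1) := by ring

lemma norm_trace_pow_le {n : Type*} [Fintype n] [DecidableEq n] (C A : Matrix n n ℂ) (K : ℕ)
    (hcard : Fintype.card n ≤ K) (hK : 1 ≤ K) (μ : ℝ) (hμ : 0 ≤ μ) (hC : ∀ i j, ‖C i j‖ ≤ μ)
    (hA : ∀ i j, ‖A i j‖ ≤ μ) (p : ℕ) :
    ‖Matrix.trace ((C * A) ^ p)‖ ≤ K * ((K : ℝ) ^ 2 * μ ^ 2) ^ p := by
  have hcardR : (Fintype.card n : ℝ) ≤ K := by exact_mod_cast hcard
  unfold Matrix.trace
  calc ‖∑ i, Matrix.diag ((C * A) ^ p) i‖ ≤ ∑ i : n, ((K : ℝ) ^ 2 * μ ^ 2) ^ p := by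
        refine (norm_sum_le _ _).trans (sum_le_sum fun k _ => ?_)
        exact norm_pow_entry C A K hcard hK μ hμ hC hA p k k
    _ = Fintype.card n * ((K : ℝ) ^ 2 * μ ^ 2) ^ p := by
        rw [sum_const, card_univ, nsmul_eq_mul]
    _ ≤ _ := mul_le_mul_of_nonneg_right hcardR (by positivity)

/-- bound for the trace of one level -/
lemma level_bound {N s : ℕ} (hN : 2 ≤ N) (hs : s < N) (μ : ℝ)
    (hμ : ∀ a l, a < N - s → l ≤ a → rb N a l ≤ μ) (p : ℕ) :
    ‖Matrix.trace ((Cm N s * Am N s) ^ p)‖ ≤ N * ((N : ℝ) ^ 2 * μ ^ 2) ^ p := by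
  have hμ0 : 0 ≤ μ := (rb_pos (by omega) le_rfl).le.trans (hμ 0 0 (by omega) le_rfl)
  apply norm_trace_pow_le _ _ N _ (by omega) μ hμ0
  · intro l a
    have h1 := a.2
    have h2 := l.2
    rw [Cm_apply]
    split_ifs with h
    · rw [norm_Cc (by omega) (by omega)]
      exact hμ _ _ (by omega) (by omega)
    · rw [norm_zero]; exact hμ0
  · intro a l
    have h1 := a.2
    rw [Am_apply]
    split_ifs with h
    · rw [norm_Ac (by omega) h]
      exact hμ _ _ h1 h
    · rw [norm_zero]; exact hμ0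
  · rw [Fintype.card_fin]; omega

/-- bound for the whole trace -/
lemma total_bound {N : ℕ} (hN : 2 ≤ N) (μ : ℝ)
    (hμ : ∀ a l, a < N → l ≤ a → rb N a l ≤ μ) (p : ℕ) :
    ‖Matrix.trace ((MC N * MA N) ^ p)‖ ≤ (N : ℝ) ^ 2 * ((N : ℝ) ^ 4 * μ ^ 2) ^ p := by
  have hμ0 : 0 ≤ μ := (rb_pos (by omega) le_rfl).le.trans (hμ 0 0 (by omega) le_rfl)
  have h := norm_trace_pow_le (MC N) (MA N) (N ^ 2) (by
    rw [Fintype.card_prod, Fintype.card_fin, sq]) (Nat.one_le_pow _ _ (by omega)) μ hμ0 (by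
    intro x y
    unfold MC
    split_ifs with h
    · rw [norm_Cc x.2.2 h.1]
      exact hμ _ _ x.2.2 h.1
    · rw [norm_zero]; exact hμ0) (by
    intro x y
    unfold MA
    split_ifs with h
    · rw [norm_Ac x.1.2 h.1]
      exact hμ _ _ x.1.2 h.1
    · rw [norm_zero]; exact hμ0) p
  push_cast at h
  rw [← pow_mul] at h
  exact h

/-- the middle level is a Gram matrix -/
lemma level_zero {N : ℕ} (hN : 2 ≤ N) (p a l : ℕ) (ha : a < N) (hl : l ≤ a) :
    rb N a l ^ (2 * p) ≤ (Matrix.trace ((Cm N 0 * Am N 0) ^ p)).re := by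
  have h1 : Cm N 0 = (Am N 0)ᴴ := by
    rw [Cm_eq hN]
    have hX : Xi N 0 = 1 := by
      unfold Xi
      rw [← Matrix.diagonal_one]
      congr 1
      funext a
      simp
    have hX' : Xd N 0 = 1 := by
      unfold Xd
      rw [← Matrix.diagonal_one]
      congr 1
      funext a
      simp
    have hA : Ap N 0 = Am N 0 := by
      ext a l
      rw [Ap_apply, Am_apply]
      rfl
    rw [hX, hX', hA, Matrix.one_mul, Matrix.mul_one]
  rw [h1]
  have h2 := Lin.gram_trace_pow (Am N 0) ⟨a, by omega⟩ ⟨l, by omega⟩ p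
  rw [Am_apply] at h2
  simp only at h2
  rw [if_pos hl, norm_Ac ha hl] at h2
  exact h2

/-- lower bound for the trace -/
lemma trace_lower {N : ℕ} (hN : 2 ≤ N) (p : ℕ) {a l : ℕ} (ha : a < N) (hl : l ≤ a) (μ : ℝ)
    (hμ : ∀ a l, 2 * a ≤ N → a < N → l ≤ a → rb N a l ≤ μ) :
    rb N a l ^ (2 * p) - 2 * N * (N * ((N : ℝ) ^ 2 * μ ^ 2) ^ p) ≤
      ‖Matrix.trace ((MC N * MA N) ^ p)‖ := by
  set B : ℝ := N * ((N : ℝ) ^ 2 * μ ^ 2) ^ p with hB
  set g : ℕ → ℝ := fun s => (Matrix.trace ((Cm N s * Am N s) ^ p)).re with hg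
  have hB0 : 0 ≤ B := by
    have h := level_bound hN (show N - 1 < N by omega) μ
      (fun a l ha hl => hμ a l (by omega) (by omega) hl) p
    exact (norm_nonneg _).trans h
  have hsmall : ∀ s, s < N → N ≤ 2 * s → -B ≤ g s := by
    intro s hs hs2
    have h := level_bound hN hs μ (fun a l ha hl => hμ a l (by omega) (by omega) hl) p
    have h2 := Complex.abs_re_le_norm (Matrix.trace ((Cm N s * Am N s) ^ p))
    have h3 := neg_abs_le (Matrix.trace ((Cm N s * Am N s) ^ p)).re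
    simp only [hg]
    linarith
  have hpair : ∀ s, 1 ≤ s → s < N → -(2 * B) ≤ g s + g (N - s) := by
    intro s h1 h2
    rcases lt_trichotomy (2 * s) N with h | h | h
    · have h3 : g (N - s) ≤ g s := pair_le hN h1 h p
      have h4 := hsmall (N - s) (by omega) (by omega)
      linarith
    · have h3 := hsmall s h2 (by omega)
      have h4 : N - s = s := by omega
      rw [h4]; linarith
    · have h3 : g (N - (N - s)) ≤ g (N - s) := pair_le hN (by omega) (by omega) p
      have h4 : N - (N - s) = s := by omega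
      rw [h4] at h3
      have h5 := hsmall s h2 (by omega)
      linarith
  have hsum : -(N * B) ≤ ∑ s ∈ range (N - 1), g (s + 1) := by
    have h1 : ∑ s ∈ range (N - 1), g (s + 1) = ∑ s ∈ range (N - 1), g (N - (s + 1)) := by
      rw [← sum_range_reflect]
      apply sum_congr rfl
      intro s hs
      rw [mem_range] at hs
      congr 1; omega
    have h2 : ∑ s ∈ range (N - 1), -(2 * B) ≤
        ∑ s ∈ range (N - 1), (g (s + 1) + g (N - (s + 1))) := by
      apply sum_le_sum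
      intro s hs
      rw [mem_range] at hs
      exact hpair (s + 1) (by omega) (by omega)
    rw [sum_add_distrib, ← h1, sum_const, card_range, nsmul_eq_mul] at h2
    have h3 : ((N - 1 : ℕ) : ℝ) ≤ N := by exact_mod_cast Nat.sub_le N 1
    nlinarith
  have h0 : rb N a l ^ (2 * p) ≤ g 0 := level_zero hN p a l ha hl
  have hre := trace_re hN p
  have hle := Complex.re_le_norm (Matrix.trace ((MC N * MA N) ^ p))
  have hre2 : (Matrix.trace ((MC N * MA N) ^ p)).re = g 0 + 2 * ∑ s ∈ range (N - 1), g (s + 1) :=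
    hre
  linarith

end Pool.Agent.Helper9.Kashaev

/-!
# The largest q-binomial coefficient
-/

namespace Pool.Agent.Helper9.Kashaev

open Finset

lemma sn_refl {N : ℕ} (hN : 0 < N) (x : ℤ) : sn N (N - x) = sn N x := by
  unfold sn
  have hN0 : (N : ℝ) ≠ 0 := by positivity
  have h : Real.pi * (((N : ℤ) - x : ℤ) : ℝ) / N = Real.pi - Real.pi * x / N := by
    push_cast; field_simp
  rw [h, Real.sin_pi_sub]

lemma sn_le {N : ℕ} {a b : ℤ} (hN : 0 < N) (h0 : 0 ≤ a) (hab : a ≤ b) (hs : a + b ≤ N) :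
    sn N a ≤ sn N b := by
  unfold sn
  have hNR : (0 : ℝ) < N := by exact_mod_cast hN
  have h1 := Real.sin_sub_sin (Real.pi * b / N) (Real.pi * a / N)
  have ha : (0 : ℝ) ≤ a := by exact_mod_cast h0
  have hab' : (a : ℝ) ≤ b := by exact_mod_cast hab
  have hs' : (a : ℝ) + b ≤ N := by exact_mod_cast hs
  have hpi := Real.pi_pos
  have h2 : 0 ≤ Real.sin ((Real.pi * b / N - Real.pi * a / N) / 2) := by
    apply Real.sin_nonneg_of_nonneg_of_le_pi
    · have : Real.pi * a / N ≤ Real.pi * b / N := by gcongr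
      linarith
    · have h3 : 0 ≤ Real.pi * a / N := by positivity
      have h4 : Real.pi * b / N ≤ Real.pi * N / N := by gcongr; linarith
      rw [mul_div_cancel_right₀ _ hNR.ne'] at h4
      linarith
  have h5 : 0 ≤ Real.cos ((Real.pi * b / N + Real.pi * a / N) / 2) := by
    apply Real.cos_nonneg_of_mem_Icc
    constructor
    · have h3 : 0 ≤ Real.pi * a / N := by positivity
      have h4 : 0 ≤ Real.pi * b / N := by
        have : (0 : ℝ) ≤ b := ha.trans hab'
        positivity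
      linarith
    · have h6 : Real.pi * b / N + Real.pi * a / N = Real.pi * (a + b) / N := by ring
      have h4 : Real.pi * (a + b) / N ≤ Real.pi * N / N := by gcongr
      rw [mul_div_cancel_right₀ _ hNR.ne'] at h4
      rw [h6]
      linarith
  nlinarith [mul_nonneg h2 h5]

lemma sn_ge {N : ℕ} {a b : ℤ} (hN : 0 < N) (hab : a ≤ b) (hb : b ≤ N) (hs : N ≤ a + b) :
    sn N b ≤ sn N a := by
  rw [← sn_refl hN b]
  exact sn_le hN (by omega) (by omega) (by omega)

lemma rfac_succ (N m : ℕ) : rfac N (m + 1) = rfac N m * (sn N (m + 1) / sn N 1) := by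
  unfold rfac
  rw [prod_range_succ]

lemma rb_symm {N n j : ℕ} (hj : j ≤ n) : rb N n (n - j) = rb N n j := by
  unfold rb
  have : n - (n - j) = j := by omega
  rw [this, mul_comm (rfac N (n - j))]

lemma rb_ratio {N n d : ℕ} (hn : n < N) (hd : d < n) :
    rb N n (d + 1) * sn N (d + 1) = rb N n d * sn N ((n : ℤ) - d) := by
  unfold rb
  obtain ⟨e, rfl⟩ : ∃ e, n = d + 1 + e := ⟨n - (d + 1), by omega⟩
  have e1 : d + 1 + e - (d + 1) = e := by omega
  have e2 : d + 1 + e - d = e + 1 := by omega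
  have e3 : (((d + 1 + e : ℕ) : ℤ) - d) = (e : ℤ) + 1 := by push_cast; ring
  rw [e1, e2, e3, rfac_succ N e, rfac_succ N d]
  have f1 := (rfac_pos (N := N) (m := d) (by omega)).ne'
  have f2 := (rfac_pos (N := N) (m := e) (by omega)).ne'
  have f3 := (sn_pos (N := N) (x := 1) (by norm_num) (by omega)).ne'
  have f4 := (sn_pos (N := N) (x := (d : ℤ) + 1) (by omega) (by omega)).ne'
  have f5 := (sn_pos (N := N) (x := (e : ℤ) + 1) (by omega) (by omega)).ne'
  field_simp

lemma rb_ratio' {N n d : ℕ} (hn : n + 1 < N) (hd : d ≤ n) :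
    rb N (n + 1) d * sn N ((n : ℤ) + 1 - d) = rb N n d * sn N (n + 1) := by
  unfold rb
  obtain ⟨e, rfl⟩ : ∃ e, n = d + e := ⟨n - d, by omega⟩
  have e1 : d + e + 1 - d = e + 1 := by omega
  have e2 : d + e - d = e := by omega
  have e3 : (((d + e : ℕ) : ℤ) + 1 - d) = (e : ℤ) + 1 := by push_cast; ring
  rw [e1, e2, e3, rfac_succ N e, rfac_succ N (d + e)]
  have f1 := (rfac_pos (N := N) (m := d) (by omega)).ne'
  have f2 := (rfac_pos (N := N) (m := e) (by omega)).ne'
  have f3 := (sn_pos (N := N) (x := 1) (by norm_num) (by omega)).ne'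
  have f5 := (sn_pos (N := N) (x := (e : ℤ) + 1) (by omega) (by omega)).ne'
  field_simp

/-- central coefficients -/
noncomputable def cb (N n : ℕ) : ℝ := rb N n (n / 2)

lemma cb_pos {N n : ℕ} (hn : n < N) : 0 < cb N n := rb_pos hn (by omega)

lemma rb_le_cb {N n d : ℕ} (hn : n < N) (hd : d ≤ n) : rb N n d ≤ cb N n := by
  have key : ∀ j ≤ n / 2, rb N n (n / 2 - j) ≤ rb N n (n / 2) := by
    intro j
    induction j with
    | zero => intro _; exact le_rfl
    | succ j ih =>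
      intro hj
      refine le_trans ?_ (ih (by omega))
      obtain ⟨d, hd⟩ : ∃ d, d = n / 2 - (j + 1) := ⟨_, rfl⟩
      have e1 : n / 2 - j = d + 1 := by omega
      rw [← hd, e1]
      have h1 := rb_ratio hn (show d < n by omega)
      have h2 : sn N ((d : ℤ) + 1) ≤ sn N ((n : ℤ) - d) :=
        sn_le (by omega) (by omega) (by omega) (by omega)
      have h3 := sn_pos (N := N) (x := (d : ℤ) + 1) (by omega) (by omega)
      have h4 := rb_pos hn (show d ≤ n by omega)
      have h5 : rb N n d * sn N ((d : ℤ) + 1) ≤ rb N n (d + 1) * sn N ((d : ℤ) + 1) := by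
        rw [h1]
        exact mul_le_mul_of_nonneg_left h2 h4.le
      exact le_of_mul_le_mul_right h5 h3
  unfold cb
  by_cases h : d ≤ n / 2
  · have := key (n / 2 - d) (by omega)
    rwa [show n / 2 - (n / 2 - d) = d by omega] at this
  · rw [← rb_symm hd]
    have := key (n / 2 - (n - d)) (by omega)
    rwa [show n / 2 - (n / 2 - (n - d)) = n - d by omega] at this

lemma cb_even_succ {N d : ℕ} (h : 2 * d + 1 < N) :
    cb N (2 * d + 1) * sn N (d + 1) = cb N (2 * d) * sn N (2 * d + 1) := by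
  unfold cb
  have h1 := rb_ratio' h (show d ≤ 2 * d by omega)
  rw [show (2 * d + 1) / 2 = d by omega, show 2 * d / 2 = d by omega]
  have e : (((2 * d : ℕ) : ℤ) + 1 - d) = (d : ℤ) + 1 := by push_cast; ring
  rw [e] at h1
  push_cast at h1
  exact h1

lemma cb_odd_succ {N d : ℕ} (h : 2 * d + 2 < N) :
    cb N (2 * d + 2) * sn N (d + 1) = cb N (2 * d + 1) * sn N (2 * d + 2) := by
  unfold cb
  have h1 := rb_ratio' (n := 2 * d + 1) h (show d + 1 ≤ 2 * d + 1 by omega)
  have h2 := rb_symm (N := N) (n := 2 * d + 1) (j := d) (by omega)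
  rw [show 2 * d + 1 - d = d + 1 by omega] at h2
  rw [show (2 * d + 2) / 2 = d + 1 by omega, show (2 * d + 1) / 2 = d by omega, ← h2]
  have e : (((2 * d + 1 : ℕ) : ℤ) + 1 - ((d + 1 : ℕ) : ℤ)) = (d : ℤ) + 1 := by push_cast; ring
  have e2 : (((2 * d + 1 : ℕ) : ℤ) + 1) = 2 * (d : ℤ) + 2 := by push_cast; ring
  rw [e, e2] at h1
  exact h1

lemma cb_up {N n : ℕ} (h : n + 1 ≤ 2 * (N / 3)) : cb N n ≤ cb N (n + 1) := by
  have hn : n + 1 < N := by omega
  rcases Nat.even_or_odd' n with ⟨d, rfl | rfl⟩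
  · have h1 := cb_even_succ (N := N) (d := d) (by omega)
    have h2 : sn N ((d : ℤ) + 1) ≤ sn N (2 * (d : ℤ) + 1) :=
      sn_le (by omega) (by omega) (by omega) (by omega)
    have h3 := sn_pos (N := N) (x := (d : ℤ) + 1) (by omega) (by omega)
    have h4 := cb_pos (N := N) (n := 2 * d) (by omega)
    have h5 : cb N (2 * d) * sn N ((d : ℤ) + 1) ≤ cb N (2 * d + 1) * sn N ((d : ℤ) + 1) := by
      rw [h1]
      exact mul_le_mul_of_nonneg_left h2 h4.le
    exact le_of_mul_le_mul_right h5 h3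
  · have h1 := cb_odd_succ (N := N) (d := d) (by omega)
    have h2 : sn N ((d : ℤ) + 1) ≤ sn N (2 * (d : ℤ) + 2) :=
      sn_le (by omega) (by omega) (by omega) (by omega)
    have h3 := sn_pos (N := N) (x := (d : ℤ) + 1) (by omega) (by omega)
    have h4 := cb_pos (N := N) (n := 2 * d + 1) (by omega)
    have h5 : cb N (2 * d + 1) * sn N ((d : ℤ) + 1) ≤ cb N (2 * d + 2) * sn N ((d : ℤ) + 1) := by
      rw [h1]
      exact mul_le_mul_of_nonneg_left h2 h4.le
    exact le_of_mul_le_mul_right h5 h3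

lemma cb_down {N n : ℕ} (h : 2 * (N / 3) ≤ n) (hn : n + 1 < N) : cb N (n + 1) ≤ cb N n := by
  rcases Nat.even_or_odd' n with ⟨d, rfl | rfl⟩
  · have h1 := cb_even_succ (N := N) (d := d) (by omega)
    have h2 : sn N (2 * (d : ℤ) + 1) ≤ sn N ((d : ℤ) + 1) :=
      sn_ge (by omega) (by omega) (by omega) (by omega)
    have h3 := sn_pos (N := N) (x := (d : ℤ) + 1) (by omega) (by omega)
    have h4 := cb_pos (N := N) (n := 2 * d) (by omega)
    have h5 : cb N (2 * d + 1) * sn N ((d : ℤ) + 1) ≤ cb N (2 * d) * sn N ((d : ℤ) + 1) := by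
      rw [h1]
      exact mul_le_mul_of_nonneg_left h2 h4.le
    exact le_of_mul_le_mul_right h5 h3
  · have h1 := cb_odd_succ (N := N) (d := d) (by omega)
    have h2 : sn N (2 * (d : ℤ) + 2) ≤ sn N ((d : ℤ) + 1) :=
      sn_ge (by omega) (by omega) (by omega) (by omega)
    have h3 := sn_pos (N := N) (x := (d : ℤ) + 1) (by omega) (by omega)
    have h4 := cb_pos (N := N) (n := 2 * d + 1) (by omega)
    have h5 : cb N (2 * d + 2) * sn N ((d : ℤ) + 1) ≤ cb N (2 * d + 1) * sn N ((d : ℤ) + 1) := by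
      rw [h1]
      exact mul_le_mul_of_nonneg_left h2 h4.le
    exact le_of_mul_le_mul_right h5 h3

lemma cb_mono {N n k : ℕ} (h : n ≤ k) (hk : k ≤ 2 * (N / 3)) : cb N n ≤ cb N k := by
  induction k, h using Nat.le_induction with
  | base => exact le_rfl
  | succ k h ih => exact (ih (by omega)).trans (cb_up hk)

lemma cb_anti {N k : ℕ} (h : 2 * (N / 3) ≤ k) (hk : k < N) : cb N k ≤ cb N (2 * (N / 3)) := by
  induction k, h using Nat.le_induction with
  | base => exact le_rfl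
  | succ k h ih => exact (cb_down h hk).trans (ih (by omega))

/-- the largest q-binomial coefficient -/
lemma rb_le_max {N a l : ℕ} (ha : a < N) (hl : l ≤ a) : rb N a l ≤ cb N (2 * (N / 3)) := by
  refine (rb_le_cb ha hl).trans ?_
  rcases le_total a (2 * (N / 3)) with h | h
  · exact cb_mono h le_rfl
  · exact cb_anti h ha

lemma rb_le_half {N a l : ℕ} (hN : 12 ≤ N) (ha2 : 2 * a ≤ N) (hl : l ≤ a) :
    rb N a l ≤ cb N (2 * (N / 4 + 1)) :=
  (rb_le_cb (by omega) hl).trans (cb_mono (by omega) (by omega))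

/-- the growth factor -/
noncomputable def cc : ℝ := 2 * Real.cos (7 * Real.pi / 24)

lemma cc_gt : 1 < cc := by
  unfold cc
  have h : Real.cos (Real.pi / 3) < Real.cos (7 * Real.pi / 24) := by
    apply Real.cos_lt_cos_of_nonneg_of_le_pi_div_two
    · positivity
    · linarith [Real.pi_pos]
    · linarith [Real.pi_pos]
  rw [Real.cos_pi_div_three] at h
  linarith

lemma cb_grow {N d : ℕ} (h : 24 * (d + 1) ≤ 7 * N) (hd : d + 1 ≤ N / 3) :
    cc * cb N (2 * d) ≤ cb N (2 * (d + 1)) := by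
  have hN : 0 < N := by omega
  have hNR : (0 : ℝ) < N := by exact_mod_cast hN
  have h1 : cb N (2 * d) ≤ cb N (2 * d + 1) := cb_up (by omega)
  have h2 := cb_odd_succ (N := N) (d := d) (by omega)
  have h3 := sn_pos (N := N) (x := (d : ℤ) + 1) (by omega) (by omega)
  have h4 : sn N (2 * (d : ℤ) + 2) = 2 * Real.cos (Real.pi * ((d : ℝ) + 1) / N) *
      sn N ((d : ℤ) + 1) := by
    unfold sn
    have e : Real.pi * ((2 * (d : ℤ) + 2 : ℤ) : ℝ) / N =
        2 * (Real.pi * ((d : ℝ) + 1) / N) := by push_cast; ring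
    rw [e, Real.sin_two_mul]
    push_cast; ring
  have h5 : cc ≤ 2 * Real.cos (Real.pi * ((d : ℝ) + 1) / N) := by
    unfold cc
    have : Real.cos (7 * Real.pi / 24) ≤ Real.cos (Real.pi * ((d : ℝ) + 1) / N) := by
      apply Real.cos_le_cos_of_nonneg_of_le_pi
      · positivity
      · linarith [Real.pi_pos]
      · rw [div_le_div_iff₀ hNR (by norm_num)]
        have h' : 24 * ((d : ℝ) + 1) ≤ 7 * N := by exact_mod_cast h
        nlinarith [Real.pi_pos]
    linarith
  have h6 := cb_pos (N := N) (n := 2 * d) (by omega)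
  have h7 : (cc * cb N (2 * d)) * sn N ((d : ℤ) + 1) ≤
      cb N (2 * (d + 1)) * sn N ((d : ℤ) + 1) := by
    rw [show 2 * (d + 1) = 2 * d + 2 by ring, h2, h4]
    have h8 : cc * cb N (2 * d) ≤ 2 * Real.cos (Real.pi * ((d : ℝ) + 1) / N) *
        cb N (2 * d + 1) := by
      apply mul_le_mul h5 h1 h6.le
      linarith [cc_gt]
    calc (cc * cb N (2 * d)) * sn N ((d : ℤ) + 1)
        ≤ (2 * Real.cos (Real.pi * ((d : ℝ) + 1) / N) * cb N (2 * d + 1)) *
          sn N ((d : ℤ) + 1) := mul_le_mul_of_nonneg_right h8 h3.le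
      _ = _ := by ring
  exact le_of_mul_le_mul_right h7 h3

lemma cb_grow_pow {N q : ℕ} (r : ℕ) (h : 24 * (q + r) ≤ 7 * N) (hd : q + r ≤ N / 3) :
    cc ^ r * cb N (2 * q) ≤ cb N (2 * (q + r)) := by
  induction r with
  | zero => simp
  | succ r ih =>
    have h1 := ih (by omega) (by omega)
    have h2 := cb_grow (N := N) (d := q + r) (by omega) (by omega)
    calc cc ^ (r + 1) * cb N (2 * q) = cc * (cc ^ r * cb N (2 * q)) := by ring
      _ ≤ cc * cb N (2 * (q + r)) := mul_le_mul_of_nonneg_left h1 (by linarith [cc_gt])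
      _ ≤ cb N (2 * (q + r + 1)) := h2

/-- the coefficients of the lower half are exponentially smaller -/
lemma half_small {N : ℕ} (hN : 24 ≤ N) :
    cc ^ (N / 24 - 1) * cb N (2 * (N / 4 + 1)) ≤ cb N (2 * (N / 3)) :=
  (cb_grow_pow (N / 24 - 1) (by omega) (by omega)).trans (cb_mono (by omega) le_rfl)

end Pool.Agent.Helper9.Kashaev

/-!
# Growth rate of products of sines
-/

namespace Pool.Agent.Helper9.Kashaev

open Finset Filter Topology MeasureTheory

/-- logarithm of the product of sines -/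
noncomputable def logS (N m : ℕ) : ℝ := ∑ t ∈ range m, Real.log (sn N ((t : ℤ) + 1))

lemma log_rfac {N m : ℕ} (hm : m < N) :
    Real.log (rfac N m) = logS N m - m * Real.log (sn N 1) := by
  unfold rfac logS
  rw [Real.log_prod]
  · have h : ∀ t ∈ range m, Real.log (sn N ((t : ℤ) + 1) / sn N 1) =
        Real.log (sn N ((t : ℤ) + 1)) - Real.log (sn N 1) := by
      intro t ht
      rw [mem_range] at ht
      rw [Real.log_div (sn_pos (by omega) (by omega)).ne' (sn_pos (by omega) (by omega)).ne']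
    rw [sum_congr rfl h, sum_sub_distrib, sum_const, card_range, nsmul_eq_mul]
  · intro t ht
    rw [mem_range] at ht
    exact (div_pos (sn_pos (by omega) (by omega)) (sn_pos (by omega) (by omega))).ne'

lemma norm_one_sub_v (N k : ℕ) : ‖1 - (v N ^ 2) ^ k‖ = |sn N k| := by
  have h1 := v_sub_eq N k
  have h2 : 1 - (v N ^ 2) ^ k = -(v N ^ (k : ℤ) * (v N ^ (k : ℤ) - v N ^ (-(k : ℤ)))) := by
    rw [mul_sub, vz, vz, add_neg_cancel, zpow_zero, ← zpow_natCast, ← zpow_natCast, ← zpow_mul]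
    have : ((2 : ℕ) : ℤ) * (k : ℤ) = (k : ℤ) + k := by push_cast; ring
    rw [this]; ring
  rw [h2, h1, norm_neg, norm_mul, norm_mul, norm_v_zpow, Complex.norm_I, Complex.norm_real,
    one_mul, one_mul, Real.norm_eq_abs]

lemma prod_sn {N : ℕ} (hN : 2 ≤ N) : ∏ t ∈ range (N - 1), sn N ((t : ℤ) + 1) = N := by
  have hprim : IsPrimitiveRoot (v N ^ 2) N := by
    have : v N ^ 2 = Complex.exp (2 * Real.pi * Complex.I / N) := by
      unfold v
      rw [← Complex.exp_nat_mul]
      congr 1; push_cast; ring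
    rw [this]
    exact Complex.isPrimitiveRoot_exp N (by omega)
  obtain ⟨M, rfl⟩ : ∃ M, N = M + 1 := ⟨N - 1, by omega⟩
  have h := hprim.prod_one_sub_pow_eq_order
  have h2 := congrArg norm h
  rw [norm_prod] at h2
  rw [Nat.add_sub_cancel]
  have h3 : ∀ t ∈ range M, ‖1 - (v (M + 1) ^ 2) ^ (t + 1)‖ = sn (M + 1) ((t : ℤ) + 1) := by
    intro t ht
    rw [mem_range] at ht
    rw [norm_one_sub_v, abs_of_pos]
    · push_cast; rfl
    · push_cast
      exact sn_pos (by omega) (by push_cast; omega)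
  rw [prod_congr rfl h3] at h2
  rw [h2]
  have : ((M : ℂ) + 1) = ((M + 1 : ℕ) : ℂ) := by push_cast; rfl
  rw [this, Complex.norm_natCast]

lemma logS_last {N : ℕ} (hN : 2 ≤ N) : logS N (N - 1) = Real.log N := by
  rw [← prod_sn hN, Real.log_prod]
  · rfl
  · intro t ht
    rw [mem_range] at ht
    exact (sn_pos (by omega) (by omega)).ne'

lemma logS_refl {N : ℕ} (m : ℕ) (hm : m < N) :
    logS N (N - 1 - m) + logS N m = logS N (N - 1) := by
  induction m with
  | zero => simp [logS]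
  | succ m ih =>
    rw [← ih (by omega)]
    have e1 : N - 1 - m = N - 1 - (m + 1) + 1 := by omega
    rw [e1]
    unfold logS
    rw [sum_range_succ, sum_range_succ]
    have e2 : (((N - 1 - (m + 1) : ℕ) : ℤ) + 1) = (N : ℤ) - ((m : ℤ) + 1) := by omega
    rw [e2, sn_refl (by omega)]
    ring

lemma log_cb {N : ℕ} (hN : 3 ≤ N) : Real.log (cb N (2 * (N / 3))) =
    Real.log N - logS N (N - 1 - 2 * (N / 3)) - 2 * logS N (N / 3) := by
  unfold cb
  rw [show 2 * (N / 3) / 2 = N / 3 by omega]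
  unfold rb
  rw [show 2 * (N / 3) - N / 3 = N / 3 by omega]
  have h1 := (rfac_pos (N := N) (m := N / 3) (by omega)).ne'
  have h2 := (rfac_pos (N := N) (m := 2 * (N / 3)) (by omega)).ne'
  rw [Real.log_div h2 (mul_ne_zero h1 h1), Real.log_mul h1 h1, log_rfac (by omega),
    log_rfac (by omega)]
  have h3 := logS_refl (N := N) (2 * (N / 3)) (by omega)
  rw [logS_last (by omega)] at h3
  push_cast
  linarith

/-! ### the integral -/

lemma integrable_h (a b : ℝ) :
    IntervalIntegrable (fun t => Real.log |2 * Real.sin t|) volume a b := by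
  have h : MeromorphicOn (fun t : ℝ => 2 * Real.sin t) (Set.uIcc a b) := by
    intro x _
    apply AnalyticAt.meromorphicAt
    fun_prop
  have h2 := h.intervalIntegrable_log
  have h3 : (Real.log ∘ fun t : ℝ => 2 * Real.sin t) = fun t => Real.log |2 * Real.sin t| := by
    funext t
    exact (Real.log_abs _).symm
  rw [h3] at h2
  exact h2

/-- primitive of `log |2 sin|` -/
noncomputable def HH (x : ℝ) : ℝ := ∫ t in (0 : ℝ)..x, Real.log |2 * Real.sin t|

lemma HH_cont : Continuous HH :=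
  intervalIntegral.continuous_primitive (fun a b => integrable_h a b) 0

lemma HH_zero : HH 0 = 0 := by simp [HH]

lemma HH_loba (x : ℝ) : lobachevsky x = - HH x := rfl

lemma integral_scaled {N : ℕ} (hN : 0 < N) (a b : ℝ) :
    ∫ x in a..b, Real.log |2 * Real.sin (Real.pi / N * x)| =
      N / Real.pi * (HH (Real.pi / N * b) - HH (Real.pi / N * a)) := by
  have hNR : (0 : ℝ) < N := by exact_mod_cast hN
  have hc : (Real.pi / N : ℝ) ≠ 0 := (div_pos Real.pi_pos hNR).ne'
  rw [intervalIntegral.integral_comp_mul_left (fun t => Real.log |2 * Real.sin t|) hc]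
  unfold HH
  rw [intervalIntegral.integral_interval_sub_left (integrable_h _ _) (integrable_h _ _),
    smul_eq_mul, inv_div]

lemma mono_f {N : ℕ} (hN : 0 < N) {b : ℝ} (hb : 2 * b ≤ N) :
    MonotoneOn (fun x : ℝ => Real.log |2 * Real.sin (Real.pi / N * x)|) (Set.Icc 1 b) := by
  have hNR : (0 : ℝ) < N := by exact_mod_cast hN
  have hpi := Real.pi_pos
  intro x hx y hy hxy
  have h1 : 0 < Real.pi / N * x := mul_pos (div_pos hpi hNR) (by linarith [hx.1])
  have h2 : Real.pi / N * y ≤ Real.pi / 2 := by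
    rw [div_mul_eq_mul_div, div_le_div_iff₀ hNR (by norm_num)]
    have := hy.2
    nlinarith
  have h3 : Real.pi / N * x ≤ Real.pi / N * y :=
    mul_le_mul_of_nonneg_left hxy (div_pos hpi hNR).le
  have h4 : Real.sin (Real.pi / N * x) ≤ Real.sin (Real.pi / N * y) :=
    Real.sin_le_sin_of_le_of_le_pi_div_two (by linarith) h2 h3
  have h5 : 0 < Real.sin (Real.pi / N * x) := Real.sin_pos_of_pos_of_lt_pi h1 (by linarith)
  simp only
  rw [abs_of_pos (by linarith), abs_of_pos (by linarith)]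
  exact Real.log_le_log (by linarith) (by linarith)

lemma log_sn_eq {N : ℕ} {t : ℕ} (h1 : 0 < t) (h2 : t < N) :
    Real.log (sn N t) = Real.log |2 * Real.sin (Real.pi / N * t)| := by
  have h := sn_pos (N := N) (x := t) (by omega) (by omega)
  have e : sn N t = 2 * Real.sin (Real.pi / N * t) := by
    unfold sn; congr 2; push_cast; ring
  rw [e] at h ⊢
  rw [abs_of_pos h]

lemma logS_upper {N m : ℕ} (h : 2 * (m + 1) ≤ N) :
    logS N m ≤ N / Real.pi * (HH (Real.pi / N * (1 + m)) - HH (Real.pi / N * 1)) := by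
  have hN : 0 < N := by omega
  have hm : MonotoneOn (fun x : ℝ => Real.log |2 * Real.sin (Real.pi / N * x)|)
      (Set.Icc 1 (1 + (m : ℝ))) := mono_f hN (by
    have : (2 * ((m : ℝ) + 1)) ≤ N := by exact_mod_cast h
    linarith)
  have h1 := hm.sum_le_integral
  rw [integral_scaled hN] at h1
  refine le_trans (le_of_eq ?_) h1
  unfold logS
  apply sum_congr rfl
  intro t ht
  rw [mem_range] at ht
  have h2 := log_sn_eq (N := N) (t := t + 1) (by omega) (by omega)
  push_cast at h2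
  rw [h2, add_comm (t : ℝ) 1]

lemma logS_lower {N m : ℕ} (hm : 1 ≤ m) (h : 2 * m ≤ N) :
    Real.log (sn N 1) + N / Real.pi * (HH (Real.pi / N * m) - HH (Real.pi / N * 1)) ≤
      logS N m := by
  have hN : 0 < N := by omega
  obtain ⟨k, rfl⟩ : ∃ k, m = k + 1 := ⟨m - 1, by omega⟩
  have hk : MonotoneOn (fun x : ℝ => Real.log |2 * Real.sin (Real.pi / N * x)|)
      (Set.Icc 1 (1 + (k : ℝ))) := mono_f hN (by
    have : (2 * ((k : ℝ) + 1)) ≤ N := by exact_mod_cast h
    linarith)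
  have h1 := hk.integral_le_sum
  rw [integral_scaled hN] at h1
  unfold logS
  rw [sum_range_succ']
  have h2 : ∑ i ∈ range k, Real.log |2 * Real.sin (Real.pi / N * (1 + ((i + 1 : ℕ) : ℝ)))| =
      ∑ i ∈ range k, Real.log (sn N (((i + 1 : ℕ) : ℤ) + 1)) := by
    apply sum_congr rfl
    intro t ht
    rw [mem_range] at ht
    have h2 := log_sn_eq (N := N) (t := t + 1 + 1) (by omega) (by omega)
    push_cast at h2 ⊢
    rw [h2, add_comm (1 : ℝ) ((t : ℝ) + 1)]
  rw [h2] at h1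
  have h3 : ((k + 1 : ℕ) : ℝ) = 1 + (k : ℝ) := by push_cast; ring
  rw [h3]
  simp only [Nat.cast_zero, zero_add]
  linarith

lemma sn_one_bounds {N : ℕ} (hN : 2 ≤ N) : |Real.log (sn N 1)| ≤ Real.log N := by
  have hNR : (2 : ℝ) ≤ N := by exact_mod_cast hN
  have hpi := Real.pi_pos
  have h1 : 1 / (N : ℝ) ≤ sn N 1 := by
    unfold sn
    have h2 := Real.mul_le_sin (x := Real.pi * ((1 : ℤ) : ℝ) / N) (by positivity) (by
      push_cast
      rw [mul_one]
      gcongr)
    have h3 : 2 / Real.pi * (Real.pi * ((1 : ℤ) : ℝ) / N) = 2 / N := by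
      push_cast; field_simp
    rw [h3] at h2
    have h4 : 1 / (N : ℝ) ≤ 2 * (2 / N) := by
      rw [mul_div_assoc', div_le_div_iff_of_pos_right (by linarith)]; norm_num
    linarith
  have h2 : sn N 1 ≤ N := by
    unfold sn
    have := Real.sin_le_one (Real.pi * ((1 : ℤ) : ℝ) / N)
    linarith
  have h3 : 0 < 1 / (N : ℝ) := by positivity
  rw [abs_le]
  constructor
  · have := Real.log_le_log h3 h1
    rwa [one_div, Real.log_inv] at this
  · exact Real.log_le_log (h3.trans_le h1) h2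

lemma tendsto_log_div : Tendsto (fun N : ℕ => Real.log N / N) atTop (𝓝 0) := by
  have h := Real.isLittleO_log_id_atTop.tendsto_div_nhds_zero
  exact h.comp tendsto_natCast_atTop_atTop

lemma tendsto_sn_one : Tendsto (fun N : ℕ => Real.log (sn N 1) / N) atTop (𝓝 0) := by
  apply squeeze_zero_norm' _ tendsto_log_div
  filter_upwards [eventually_ge_atTop 2] with N hN
  rw [norm_div, Real.norm_eq_abs, Real.norm_eq_abs, Nat.abs_cast]
  gcongr
  exact sn_one_bounds hN

/-- Riemann sums -/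
lemma logS_tendsto {m : ℕ → ℕ} {α : ℝ} (hα0 : 0 < α) (hα : α < 1 / 2)
    (hm : Tendsto (fun N => (m N : ℝ) / N) atTop (𝓝 α)) :
    Tendsto (fun N => logS N (m N) / N) atTop (𝓝 (HH (Real.pi * α) / Real.pi)) := by
  have hpi := Real.pi_pos
  have hinv : Tendsto (fun N : ℕ => (1 : ℝ) / N) atTop (𝓝 0) := tendsto_one_div_atTop_nhds_zero_nat
  have hm1 : Tendsto (fun N : ℕ => Real.pi / N * (m N : ℝ)) atTop (𝓝 (Real.pi * α)) := by
    have := hm.const_mul Real.pi
    refine this.congr fun N => ?_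
    ring
  have hm2 : Tendsto (fun N : ℕ => Real.pi / N * (1 + (m N : ℝ))) atTop (𝓝 (Real.pi * α)) := by
    have := (hinv.const_mul Real.pi).add hm1
    rw [mul_zero, zero_add] at this
    refine this.congr fun N => ?_
    ring
  have hm3 : Tendsto (fun N : ℕ => Real.pi / N * (1 : ℝ)) atTop (𝓝 0) := by
    have := hinv.const_mul Real.pi
    rw [mul_zero] at this
    refine this.congr fun N => ?_
    ring
  have c1 := (HH_cont.tendsto _).comp hm1
  have c2 := (HH_cont.tendsto _).comp hm2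
  have c3 := (HH_cont.tendsto _).comp hm3
  rw [HH_zero] at c3
  have lo : Tendsto (fun N : ℕ => Real.log (sn N 1) / N + (HH (Real.pi / N * (m N : ℝ)) -
      HH (Real.pi / N * 1)) / Real.pi) atTop (𝓝 (HH (Real.pi * α) / Real.pi)) := by
    have := tendsto_sn_one.add ((c1.sub c3).div_const Real.pi)
    simpa using this
  have hi : Tendsto (fun N : ℕ => (HH (Real.pi / N * (1 + (m N : ℝ))) -
      HH (Real.pi / N * 1)) / Real.pi) atTop (𝓝 (HH (Real.pi * α) / Real.pi)) := by
    have := (c2.sub c3).div_const Real.pi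
    simpa using this
  -- the range of `m`
  have hr1 : ∀ᶠ N in atTop, 0 < (m N : ℝ) / N := hm.eventually_const_lt hα0
  have hm4 : Tendsto (fun N : ℕ => ((m N : ℝ) + 1) / N) atTop (𝓝 α) := by
    have := hm.add hinv
    rw [add_zero] at this
    refine this.congr fun N => ?_
    ring
  have hr2 : ∀ᶠ N in atTop, ((m N : ℝ) + 1) / N < 1 / 2 := hm4.eventually_lt_const hα
  apply tendsto_of_tendsto_of_tendsto_of_le_of_le' lo hi
  · filter_upwards [hr1, hr2, eventually_ge_atTop 2] with N h1 h2 hN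
    have hNR : (0 : ℝ) < N := by positivity
    have h3 : 1 ≤ m N := by
      by_contra h
      have : m N = 0 := by omega
      rw [this] at h1
      simp at h1
    have h4 : 2 * (m N + 1) ≤ N := by
      rw [div_lt_div_iff₀ hNR (by norm_num)] at h2
      have : (2 * ((m N : ℝ) + 1)) ≤ N := by linarith
      exact_mod_cast this
    have h5 := logS_lower h3 (show 2 * m N ≤ N by omega)
    rw [le_div_iff₀ hNR]
    refine le_trans (le_of_eq ?_) h5
    field_simp
  · filter_upwards [hr1, hr2, eventually_ge_atTop 2] with N h1 h2 hN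
    have hNR : (0 : ℝ) < N := by positivity
    have h4 : 2 * (m N + 1) ≤ N := by
      rw [div_lt_div_iff₀ hNR (by norm_num)] at h2
      have : (2 * ((m N : ℝ) + 1)) ≤ N := by linarith
      exact_mod_cast this
    have h5 := logS_upper h4
    rw [div_le_iff₀ hNR]
    refine h5.trans (le_of_eq ?_)
    field_simp

lemma tendsto_third : Tendsto (fun N : ℕ => ((N / 3 : ℕ) : ℝ) / N) atTop (𝓝 (1 / 3)) := by
  have hinv : Tendsto (fun N : ℕ => (1 : ℝ) / N) atTop (𝓝 0) := tendsto_one_div_atTop_nhds_zero_nat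
  have lo : Tendsto (fun N : ℕ => (1 : ℝ) / 3 - 1 / N) atTop (𝓝 (1 / 3)) := by
    simpa using tendsto_const_nhds.sub hinv
  apply tendsto_of_tendsto_of_tendsto_of_le_of_le' lo tendsto_const_nhds
  · filter_upwards [eventually_ge_atTop 2] with N hN
    have hNR : (0 : ℝ) < N := by positivity
    have h : N ≤ 3 * (N / 3) + 3 := by omega
    have h' : (N : ℝ) ≤ 3 * ((N / 3 : ℕ) : ℝ) + 3 := by exact_mod_cast h
    rw [le_div_iff₀ hNR, sub_mul, one_div_mul_cancel hNR.ne']
    linarith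
  · filter_upwards [eventually_ge_atTop 2] with N hN
    have hNR : (0 : ℝ) < N := by positivity
    have h : 3 * (N / 3) ≤ N := by omega
    have h' : 3 * ((N / 3 : ℕ) : ℝ) ≤ N := by exact_mod_cast h
    rw [div_le_iff₀ hNR]
    linarith

lemma tendsto_third' :
    Tendsto (fun N : ℕ => ((N - 1 - 2 * (N / 3) : ℕ) : ℝ) / N) atTop (𝓝 (1 / 3)) := by
  have hinv : Tendsto (fun N : ℕ => (1 : ℝ) / N) atTop (𝓝 0) := tendsto_one_div_atTop_nhds_zero_nat
  have h1 : Tendsto (fun N : ℕ => 1 - 1 / (N : ℝ) - 2 * (((N / 3 : ℕ) : ℝ) / N)) atTop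
      (𝓝 (1 / 3)) := by
    have := (tendsto_const_nhds (x := (1 : ℝ))).sub hinv |>.sub (tendsto_third.const_mul 2)
    convert this using 2
    norm_num
  apply h1.congr'
  filter_upwards [eventually_ge_atTop 3] with N hN
  have hNR : (N : ℝ) ≠ 0 := by positivity
  have h2 : ((N - 1 - 2 * (N / 3) : ℕ) : ℝ) = (N : ℝ) - 1 - 2 * ((N / 3 : ℕ) : ℝ) := by
    rw [Nat.cast_sub (by omega), Nat.cast_sub (by omega)]
    push_cast; ring
  rw [h2]
  field_simp

/-- growth rate of the largest q-binomial coefficient -/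
lemma log_cb_tendsto : Tendsto (fun N : ℕ => Real.log (cb N (2 * (N / 3))) / N) atTop
    (𝓝 (3 * lobachevsky (Real.pi / 3) / Real.pi)) := by
  have h1 := logS_tendsto (by norm_num) (by norm_num) tendsto_third
  have h2 := logS_tendsto (by norm_num) (by norm_num) tendsto_third'
  have h3 := (tendsto_log_div.sub h2).sub (h1.const_mul 2)
  have e : 0 - HH (Real.pi * (1 / 3)) / Real.pi - 2 * (HH (Real.pi * (1 / 3)) / Real.pi) =
      3 * lobachevsky (Real.pi / 3) / Real.pi := by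
    rw [HH_loba, mul_one_div]; ring
  rw [e] at h3
  apply h3.congr'
  filter_upwards [eventually_ge_atTop 3] with N hN
  rw [log_cb hN]; ring

end Pool.Agent.Helper9.Kashaev
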