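import Pool.Agent.Helper9.RTDefs

namespace Pool.Agent.Helper9.Kashaev

open Finset

lemma v_ne (N : ℕ) : v N ≠ 0 := Complex.exp_ne_zero _

lemma v_pow_self {N : ℕ} (hN : 2 ≤ N) : v N ^ N = -1 := by
  unfold v
  rw [← Complex.exp_nat_mul]
  have h : (N : ℂ) * (Real.pi * Complex.I / N) = Real.pi * Complex.I := by
    have : (N : ℂ) ≠ 0 := by exact_mod_cast (by omega : N ≠ 0)
    field_simp
  rw [h, Complex.exp_pi_mul_I]

lemma v_zpow_self {N : ℕ} (hN : 2 ≤ N) : v N ^ (N : ℤ) = -1 := by
  rw [zpow_natCast]; exact v_pow_self hN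

/-- powers of `v` as exponentials -/
lemma v_zpow (N : ℕ) (x : ℤ) : v N ^ x = Complex.exp ((x : ℂ) * (Real.pi * Complex.I / N)) := by
  unfold v
  rw [← Complex.exp_int_mul]

lemma v_zpow_sub_inv (N : ℕ) (x : ℤ) :
    v N ^ x - v N ^ (-x) = 2 * Complex.I * (Real.sin (Real.pi * x / N) : ℝ) := by
  rw [v_zpow, v_zpow]
  have h1 : ((x : ℤ) : ℂ) * (Real.pi * Complex.I / N) = ((Real.pi * x / N : ℝ) : ℂ) * Complex.I := by
    push_cast; ring
  have h2 : ((-x : ℤ) : ℂ) * (Real.pi * Complex.I / N)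
      = -((Real.pi * x / N : ℝ) : ℂ) * Complex.I := by
    push_cast; ring
  rw [h1, h2, Complex.ofReal_sin, Complex.sin]
  have := Complex.I_sq
  linear_combination (-1 : ℂ) * (Complex.exp (-((Real.pi * x / N : ℝ) : ℂ) * Complex.I) -
    Complex.exp (((Real.pi * x / N : ℝ) : ℂ) * Complex.I)) * this

/-- the real number `2 sin (π x / N)` -/
noncomputable def sn (N : ℕ) (x : ℤ) : ℝ := 2 * Real.sin (Real.pi * x / N)

lemma v_sub_eq (N : ℕ) (x : ℤ) : v N ^ x - v N ^ (-x) = Complex.I * (sn N x : ℝ) := by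
  rw [v_zpow_sub_inv]; unfold sn; push_cast; ring

lemma v_sub_one (N : ℕ) : v N - (v N)⁻¹ = Complex.I * (sn N 1 : ℝ) := by
  have := v_sub_eq N 1
  simpa using this

lemma sn_pos {N : ℕ} {x : ℤ} (h0 : 0 < x) (h1 : x < N) : 0 < sn N x := by
  unfold sn
  have hN : (0 : ℝ) < N := by exact_mod_cast (by omega : (0 : ℤ) < N)
  have hx0 : (0 : ℝ) < x := by exact_mod_cast h0
  have hx1 : (x : ℝ) < N := by exact_mod_cast h1
  have : 0 < Real.sin (Real.pi * x / N) := by
    apply Real.sin_pos_of_pos_of_lt_pi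
    · positivity
    · rw [div_lt_iff₀ hN]
      exact mul_lt_mul_of_pos_left hx1 Real.pi_pos
  linarith

lemma vd_ne {N : ℕ} (hN : 2 ≤ N) : v N - (v N)⁻¹ ≠ 0 := by
  rw [v_sub_one]
  have := sn_pos (N := N) (x := 1) (by norm_num) (by exact_mod_cast hN)
  exact mul_ne_zero Complex.I_ne_zero (by exact_mod_cast this.ne')

/-- the quantum integer at an integer argument -/
noncomputable def qi (N : ℕ) (x : ℤ) : ℂ := (v N ^ x - v N ^ (-x)) / (v N - (v N)⁻¹)

lemma qint_eq (N m : ℕ) : qint N m = qi N m := by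
  unfold qint qi
  rw [zpow_neg, zpow_natCast, inv_pow]

lemma qi_zero (N : ℕ) : qi N 0 = 0 := by simp [qi]

lemma qi_one {N : ℕ} (hN : 2 ≤ N) : qi N 1 = 1 := by
  unfold qi
  simp only [zpow_one, zpow_neg]
  exact div_self (vd_ne hN)

lemma qi_neg (N : ℕ) (x : ℤ) : qi N (-x) = - qi N x := by
  unfold qi; rw [neg_neg]; ring

lemma qi_N_sub {N : ℕ} (hN : 2 ≤ N) (x : ℤ) : qi N (N - x) = qi N x := by
  unfold qi
  have hv := v_ne N
  rw [zpow_sub₀ hv, neg_sub, zpow_sub₀ hv, v_zpow_self hN, zpow_neg]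
  ring

lemma qi_N_add {N : ℕ} (hN : 2 ≤ N) (x : ℤ) : qi N (N + x) = - qi N x := by
  rw [← qi_neg, ← qi_N_sub hN (-x)]; congr 1; ring

lemma qi_N {N : ℕ} (hN : 2 ≤ N) : qi N N = 0 := by
  have := qi_N_sub hN 0
  simpa [qi_zero] using this

lemma qi_real {N : ℕ} (x : ℤ) : qi N x = ((sn N x / sn N 1 : ℝ) : ℂ) := by
  unfold qi
  rw [v_sub_eq, v_sub_one]
  push_cast
  exact mul_div_mul_left _ _ Complex.I_ne_zero

lemma qi_ne {N : ℕ} {x : ℤ} (h0 : 0 < x) (h1 : x < N) : qi N x ≠ 0 := by
  rw [qi_real]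
  have h2 := sn_pos h0 h1
  have h3 : 0 < sn N 1 := sn_pos (by norm_num) (by omega)
  exact_mod_cast (div_pos h2 h3).ne'

lemma qi_mul_vd {N : ℕ} (hN : 2 ≤ N) (x : ℤ) :
    qi N x * (v N - (v N)⁻¹) = v N ^ x - v N ^ (-x) := by
  unfold qi; exact div_mul_cancel₀ _ (vd_ne hN)

lemma qi_sq_sub {N : ℕ} (hN : 2 ≤ N) (x y : ℤ) :
    qi N x ^ 2 - qi N y ^ 2 = qi N (x - y) * qi N (x + y) := by
  have hv := v_ne N
  have hd := vd_ne hN
  have hx : v N ^ x ≠ 0 := zpow_ne_zero _ hv
  have hy : v N ^ y ≠ 0 := zpow_ne_zero _ hv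
  have key : (v N ^ x - v N ^ (-x)) ^ 2 - (v N ^ y - v N ^ (-y)) ^ 2 =
      (v N ^ (x - y) - v N ^ (-(x - y))) * (v N ^ (x + y) - v N ^ (-(x + y))) := by
    rw [neg_sub, neg_add, zpow_sub₀ hv, zpow_sub₀ hv, zpow_add₀ hv, zpow_add₀ hv, zpow_neg,
      zpow_neg]
    field_simp
    ring
  unfold qi
  rw [div_pow, div_pow, ← sub_div, key]
  field_simp

lemma ecoef_eq {N x : ℕ} (hN : 2 ≤ N) (hx : x ≤ N) : ecoef N x = qi N x ^ 2 := by
  unfold ecoef
  rw [qint_eq, qint_eq, Nat.cast_sub hx, qi_N_sub hN]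
  ring

lemma ecoef_zero (N : ℕ) : ecoef N 0 = 0 := by
  unfold ecoef; rw [qint_eq]; simp [qi_zero]

lemma ecoef_ge {N x : ℕ} (hx : N ≤ x) : ecoef N x = 0 := by
  unfold ecoef
  rw [Nat.sub_eq_zero_of_le hx, qint_eq N 0]; simp [qi_zero]

lemma ecoef_ne {N x : ℕ} (h0 : 0 < x) (h1 : x < N) : ecoef N x ≠ 0 := by
  rw [ecoef_eq (by omega) h1.le]
  exact pow_ne_zero _ (qi_ne (by exact_mod_cast h0) (by exact_mod_cast h1))

lemma qfac_zero (N : ℕ) : qfac N 0 = 1 := by simp [qfac]

lemma qfac_succ (N m : ℕ) : qfac N (m + 1) = qfac N m * qi N (m + 1) := by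
  unfold qfac; rw [prod_range_succ, qint_eq]; push_cast; rfl

lemma qfac_ne {N m : ℕ} (hm : m < N) : qfac N m ≠ 0 := by
  unfold qfac
  rw [Finset.prod_ne_zero_iff]
  intro t ht
  rw [mem_range] at ht
  rw [qint_eq]
  exact qi_ne (by positivity) (by push_cast; omega)

/-- `v ^ (wt i)` -/
lemma v_wt {N : ℕ} (hN : 2 ≤ N) (i : ℕ) : v N ^ (wt N i) = - v N ^ (-1 - 2 * (i : ℤ)) := by
  have hv := v_ne N
  unfold wt
  rw [show (N : ℤ) - 1 - 2 * i = N + (-1 - 2 * (i : ℤ)) by ring, zpow_add₀ hv, v_zpow_self hN]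
  ring

lemma v_neg_wt {N : ℕ} (hN : 2 ≤ N) (i : ℕ) : v N ^ (-wt N i) = - v N ^ (1 + 2 * (i : ℤ)) := by
  rw [zpow_neg, v_wt hN, inv_neg, ← zpow_neg]; congr 2; ring

/-- the factor `v ^ (m (m - 1) / 2) (v - v⁻¹) ^ m / [m]!` -/
noncomputable def kap (N m : ℕ) : ℂ :=
  v N ^ (m * (m - 1) / 2) * ((v N - (v N)⁻¹) ^ m / qfac N m)

lemma kap_zero (N : ℕ) : kap N 0 = 1 := by simp [kap, qfac_zero]

lemma kap_succ {N : ℕ} (m : ℕ) (hm : m + 1 < N) :
    kap N (m + 1) * qi N (m + 1) = kap N m * (v N ^ m * (v N - (v N)⁻¹)) := by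
  unfold kap
  have h1 : (m + 1) * (m + 1 - 1) / 2 = m * (m - 1) / 2 + m := by
    have h2 : m * (m - 1) % 2 = 0 := by
      rcases Nat.even_or_odd m with h | h
      · obtain ⟨k, rfl⟩ := h
        rw [show (k + k) * (k + k - 1) = 2 * (k * (k + k - 1)) by ring]; omega
      · obtain ⟨k, rfl⟩ := h
        rw [show (2 * k + 1) * (2 * k + 1 - 1) = 2 * (k * (2 * k + 1)) by
          rw [show 2 * k + 1 - 1 = 2 * k by omega]; ring]; omega
    have h3 : (m + 1) * (m + 1 - 1) = m * (m - 1) + 2 * m := by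
      rw [Nat.add_sub_cancel]
      rcases m with _ | m
      · rfl
      · rw [Nat.add_sub_cancel]; ring
    rw [h3]; omega
  have h4 : qfac N m ≠ 0 := qfac_ne (by omega)
  have h5 : qi N (m + 1) ≠ 0 := qi_ne (by positivity) (by exact_mod_cast hm)
  rw [h1, qfac_succ, pow_add, pow_succ]
  field_simp

/-- the phase `v ^ (wt a * wt b / 2)` -/
noncomputable def tht (N a b : ℕ) : ℂ :=
  Complex.exp (Real.pi * Complex.I * (wt N a * wt N b : ℤ) / (2 * N))

lemma tht_symm (N a b : ℕ) : tht N a b = tht N b a := by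
  unfold tht; rw [mul_comm (wt N a)]

lemma tht_succ {N : ℕ} (hN : 2 ≤ N) (a b : ℕ) : tht N (a + 1) b = tht N a b * v N ^ (-wt N b) := by
  unfold tht
  rw [v_zpow, ← Complex.exp_add]
  congr 1
  have : (N : ℂ) ≠ 0 := by exact_mod_cast (by omega : N ≠ 0)
  unfold wt
  push_cast
  field_simp
  ring

lemma tht_succ_right {N : ℕ} (hN : 2 ≤ N) (a b : ℕ) :
    tht N a (b + 1) = tht N a b * v N ^ (-wt N a) := by
  rw [tht_symm, tht_succ hN, tht_symm]

lemma tht_ne (N a b : ℕ) : tht N a b ≠ 0 := Complex.exp_ne_zero _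

/-- the product `ecoef (b+1) ⋯ ecoef (b+m)` -/
noncomputable def eta (N b m : ℕ) : ℂ := ∏ t ∈ range m, ecoef N (b + 1 + t)

lemma eta_zero (N b : ℕ) : eta N b 0 = 1 := by simp [eta]

lemma eta_succ (N b m : ℕ) : eta N b (m + 1) = eta N b m * ecoef N (b + m + 1) := by
  unfold eta; rw [prod_range_succ]; congr 2; ring

lemma eta_succ' (N b m : ℕ) : eta N b (m + 1) = ecoef N (b + 1) * eta N (b + 1) m := by
  unfold eta
  rw [prod_range_succ', mul_comm]
  congr 1
  apply prod_congr rfl
  intro t _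
  congr 1; ring

lemma eta_eq_zero {N b m : ℕ} (hb : b < N) (h : N ≤ b + m) : eta N b m = 0 := by
  unfold eta
  apply prod_eq_zero (i := N - b - 1)
  · rw [mem_range]; omega
  · rw [show b + 1 + (N - b - 1) = N by omega]; exact ecoef_ge le_rfl

/-- The coefficient in `R` of the output `e_a ⊗ e_b` from the input `e_{b+m} ⊗ e_{a-m}`. -/
noncomputable def rho (N a b m : ℕ) : ℂ := tht N a b * kap N m * eta N b m

lemma posC_eq {N a b m : ℕ} (h : m ≤ a) : posC N (b + m) (a - m) m = rho N a b m := by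
  unfold posC rho tht kap eta
  rw [Nat.add_sub_cancel, Nat.sub_add_cancel h, mul_comm (wt N b)]
  have : ∏ t ∈ range m, ecoef N (b + m - t) = ∏ t ∈ range m, ecoef N (b + 1 + t) := by
    rw [← prod_range_reflect]
    apply prod_congr rfl
    intro t ht
    rw [mem_range] at ht
    congr 1; omega
  rw [this]; ring

end Pool.Agent.Helper9.Kashaev

/-!
# The elementary pieces commute with the generators `E` and `F`
-/

namespace Pool.Agent.Helper9.Kashaev

open Finset

/-! ### linearity -/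

lemma piece_add (N : ℕ) (p : Piece) (f g : List ℕ → ℂ) (w : List ℕ) :
    piece N p (fun u => f u + g u) w = piece N p f w + piece N p g w := by
  cases p with
  | cup =>
    rcases w with _ | ⟨a, _ | ⟨b, w⟩⟩ <;> simp only [piece, add_zero]
    split_ifs <;> ring
  | cap =>
    simp only [piece, mul_add, sum_add_distrib]
  | pos =>
    rcases w with _ | ⟨a, _ | ⟨b, w⟩⟩ <;> simp only [piece, add_zero]
    rw [← sum_add_distrib]
    apply sum_congr rfl
    intro m _
    split_ifs <;> ring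
  | neg =>
    rcases w with _ | ⟨a, _ | ⟨b, w⟩⟩ <;> simp only [piece, add_zero]
    rw [← sum_add_distrib]
    apply sum_congr rfl
    intro m _
    split_ifs <;> ring

lemma piece_smul (N : ℕ) (p : Piece) (c : ℂ) (f : List ℕ → ℂ) (w : List ℕ) :
    piece N p (fun u => c * f u) w = c * piece N p f w := by
  cases p with
  | cup =>
    rcases w with _ | ⟨a, _ | ⟨b, w⟩⟩ <;> simp only [piece, mul_zero]
    split_ifs <;> ring
  | cap =>
    simp only [piece, mul_sum]
    apply sum_congr rfl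
    intro m _
    ring
  | pos =>
    rcases w with _ | ⟨a, _ | ⟨b, w⟩⟩ <;> simp only [piece, mul_zero]
    rw [mul_sum]
    apply sum_congr rfl
    intro m _
    split_ifs <;> ring
  | neg =>
    rcases w with _ | ⟨a, _ | ⟨b, w⟩⟩ <;> simp only [piece, mul_zero]
    rw [mul_sum]
    apply sum_congr rfl
    intro m _
    split_ifs <;> ring

lemma slice_add (N : ℕ) (p : Piece) (k : ℕ) (f g : List ℕ → ℂ) (w : List ℕ) :
    slice N p k (fun u => f u + g u) w = slice N p k f w + slice N p k g w := by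
  induction k generalizing f g w with
  | zero => exact piece_add N p f g w
  | succ k ih =>
    rcases w with _ | ⟨x, w⟩
    · simp [slice]
    · simp only [slice]; exact ih _ _ _

lemma slice_smul (N : ℕ) (p : Piece) (k : ℕ) (c : ℂ) (f : List ℕ → ℂ) (w : List ℕ) :
    slice N p k (fun u => c * f u) w = c * slice N p k f w := by
  induction k generalizing f w with
  | zero => exact piece_smul N p c f w
  | succ k ih =>
    rcases w with _ | ⟨x, w⟩
    · simp [slice]
    · simp only [slice]; exact ih _ _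

/-- slices as linear maps -/
noncomputable def sliceL (N : ℕ) (p : Piece) (k : ℕ) : (List ℕ → ℂ) →ₗ[ℂ] (List ℕ → ℂ) where
  toFun := slice N p k
  map_add' f g := by funext w; exact slice_add N p k f g w
  map_smul' c f := by funext w; exact slice_smul N p k c f w

lemma sliceL_apply (N : ℕ) (p : Piece) (k : ℕ) (f : List ℕ → ℂ) :
    sliceL N p k f = slice N p k f := rfl

/-- the operator of a diagram as a linear map -/
noncomputable def RTL (N : ℕ) : Diagram → (List ℕ → ℂ) →ₗ[ℂ] (List ℕ → ℂ)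
  | [] => LinearMap.id
  | s :: D => RTL N D ∘ₗ sliceL N s.2 s.1

lemma RTL_apply (N : ℕ) (D : Diagram) (f : List ℕ → ℂ) : RTL N D f = RT N D f := by
  induction D generalizing f with
  | nil => rfl
  | cons s D ih => simp only [RTL, RT, LinearMap.comp_apply, ih]; rfl

lemma RT_append (N : ℕ) (D D' : Diagram) (f : List ℕ → ℂ) :
    RT N (D ++ D') f = RT N D' (RT N D f) := by
  induction D generalizing f with
  | nil => rfl
  | cons s D ih => simp only [List.cons_append, RT, ih]

lemma slice_zero_fun (N : ℕ) (p : Piece) (k : ℕ) : slice N p k (fun _ => 0) = fun _ => 0 :=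
  (sliceL N p k).map_zero

/-! ### the generators -/

/-- total weight of a word -/
def wtl (N : ℕ) : List ℕ → ℤ
  | [] => 0
  | x :: w => wt N x + wtl N w

/-- the generator `F` on coordinates -/
noncomputable def Fop (N : ℕ) : (List ℕ → ℂ) → List ℕ → ℂ
  | _, [] => 0
  | f, x :: w => (if 1 ≤ x ∧ x < N then f ((x - 1) :: w) else 0) +
      v N ^ (-wt N x) * Fop N (fun u => f (x :: u)) w

/-- the generator `E` on coordinates -/
noncomputable def Eop (N : ℕ) : (List ℕ → ℂ) → List ℕ → ℂ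
  | _, [] => 0
  | f, x :: w => ecoef N (x + 1) * v N ^ (wtl N w) * f ((x + 1) :: w) +
      Eop N (fun u => f (x :: u)) w

lemma Fop_add (N : ℕ) (f g : List ℕ → ℂ) (w : List ℕ) :
    Fop N (fun u => f u + g u) w = Fop N f w + Fop N g w := by
  induction w generalizing f g with
  | nil => simp [Fop]
  | cons x w ih =>
    simp only [Fop]
    rw [ih]
    split_ifs <;> ring

lemma Fop_smul (N : ℕ) (c : ℂ) (f : List ℕ → ℂ) (w : List ℕ) :
    Fop N (fun u => c * f u) w = c * Fop N f w := by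
  induction w generalizing f with
  | nil => simp [Fop]
  | cons x w ih =>
    simp only [Fop]
    rw [ih]
    split_ifs <;> ring

lemma Eop_add (N : ℕ) (f g : List ℕ → ℂ) (w : List ℕ) :
    Eop N (fun u => f u + g u) w = Eop N f w + Eop N g w := by
  induction w generalizing f g with
  | nil => simp [Eop]
  | cons x w ih =>
    simp only [Eop]
    rw [ih]
    ring

lemma Eop_smul (N : ℕ) (c : ℂ) (f : List ℕ → ℂ) (w : List ℕ) :
    Eop N (fun u => c * f u) w = c * Eop N f w := by
  induction w generalizing f with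
  | nil => simp [Eop]
  | cons x w ih =>
    simp only [Eop]
    rw [ih]
    ring

/-- `F` as a linear map -/
noncomputable def FL (N : ℕ) : (List ℕ → ℂ) →ₗ[ℂ] (List ℕ → ℂ) where
  toFun := Fop N
  map_add' f g := by funext w; exact Fop_add N f g w
  map_smul' c f := by funext w; exact Fop_smul N c f w

/-- `E` as a linear map -/
noncomputable def EL (N : ℕ) : (List ℕ → ℂ) →ₗ[ℂ] (List ℕ → ℂ) where
  toFun := Eop N
  map_add' f g := by funext w; exact Eop_add N f g w
  map_smul' c f := by funext w; exact Eop_smul N c f w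

lemma FL_apply (N : ℕ) (f : List ℕ → ℂ) : FL N f = Fop N f := rfl
lemma EL_apply (N : ℕ) (f : List ℕ → ℂ) : EL N f = Eop N f := rfl

lemma Fop_sum {ι : Type*} (N : ℕ) (s : Finset ι) (f : ι → List ℕ → ℂ) (w : List ℕ) :
    Fop N (fun u => ∑ i ∈ s, f i u) w = ∑ i ∈ s, Fop N (f i) w := by
  have h := map_sum (FL N) f s
  have h2 := congrFun h w
  simp only [FL_apply, Finset.sum_apply] at h2
  rw [← h2]
  congr 1
  funext u
  rw [Finset.sum_apply]

lemma Eop_sum {ι : Type*} (N : ℕ) (s : Finset ι) (f : ι → List ℕ → ℂ) (w : List ℕ) :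
    Eop N (fun u => ∑ i ∈ s, f i u) w = ∑ i ∈ s, Eop N (f i) w := by
  have h := map_sum (EL N) f s
  have h2 := congrFun h w
  simp only [EL_apply, Finset.sum_apply] at h2
  rw [← h2]
  congr 1
  funext u
  rw [Finset.sum_apply]

lemma Fop_zero_fun (N : ℕ) (w : List ℕ) : Fop N (fun _ => 0) w = 0 :=
  congrFun (FL N).map_zero w

lemma Eop_zero_fun (N : ℕ) (w : List ℕ) : Eop N (fun _ => 0) w = 0 :=
  congrFun (EL N).map_zero w

/-! ### crossings in a convenient form -/

lemma pos_apply {N a b : ℕ} (ha : a < N) (hb : b < N) (f : List ℕ → ℂ) (w : List ℕ) :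
    piece N .pos f (a :: b :: w) =
      ∑ m ∈ range (a + 1), rho N a b m * f ((b + m) :: (a - m) :: w) := by
  simp only [piece]
  have h1 : range (a + 1) ⊆ range N := by
    intro m hm; rw [mem_range] at *; omega
  rw [← sum_subset h1]
  · apply sum_congr rfl
    intro m hm
    rw [mem_range] at hm
    by_cases h : b + m < N
    · rw [if_pos ⟨by omega, ha, h⟩, posC_eq (by omega)]
    · rw [if_neg (by omega)]
      unfold rho
      rw [eta_eq_zero hb (by omega)]; ring
  · intro m _ hm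
    rw [mem_range] at hm
    rw [if_neg (by omega)]

lemma pos_apply_zero {N a b : ℕ} (h : ¬ (a < N ∧ b < N)) (f : List ℕ → ℂ) (w : List ℕ) :
    piece N .pos f (a :: b :: w) = 0 := by
  simp only [piece]
  apply sum_eq_zero
  intro m _
  rw [if_neg]
  rintro ⟨_, h2, h3⟩
  exact h ⟨h2, by omega⟩

/-- the factor `(-1)^m v ^ (-m (m - 1) / 2) (v - v⁻¹) ^ m / [m]!` -/
noncomputable def kab (N m : ℕ) : ℂ :=
  (-1) ^ m * (v N)⁻¹ ^ (m * (m - 1) / 2) * ((v N - (v N)⁻¹) ^ m / qfac N m)

lemma kab_zero (N : ℕ) : kab N 0 = 1 := by simp [kab, qfac_zero]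

lemma kab_succ {N : ℕ} (m : ℕ) (hm : m + 1 < N) :
    kab N (m + 1) * qi N (m + 1) = - kab N m * (v N ^ (-(m : ℤ)) * (v N - (v N)⁻¹)) := by
  have hk := kap_succ m hm
  have hv := v_ne N
  have e1 : ∀ j, kab N j = (-1) ^ j * ((v N)⁻¹ ^ (j * (j - 1) / 2)) ^ 2 * kap N j := by
    intro j
    unfold kab kap
    have : (v N)⁻¹ ^ (j * (j - 1) / 2) * v N ^ (j * (j - 1) / 2) = 1 := by
      rw [inv_pow, inv_mul_cancel₀ (pow_ne_zero _ hv)]
    linear_combination (-(-1) ^ j * (v N)⁻¹ ^ (j * (j - 1) / 2) *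
      ((v N - (v N)⁻¹) ^ j / qfac N j)) * this
  have h1 : (m + 1) * (m + 1 - 1) / 2 = m * (m - 1) / 2 + m := by
    have h2 : m * (m - 1) % 2 = 0 := by
      rcases Nat.even_or_odd m with h | h
      · obtain ⟨k, rfl⟩ := h
        rw [show (k + k) * (k + k - 1) = 2 * (k * (k + k - 1)) by ring]; omega
      · obtain ⟨k, rfl⟩ := h
        rw [show (2 * k + 1) * (2 * k + 1 - 1) = 2 * (k * (2 * k + 1)) by
          rw [show 2 * k + 1 - 1 = 2 * k by omega]; ring]; omega
    have h3 : (m + 1) * (m + 1 - 1) = m * (m - 1) + 2 * m := by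
      rw [Nat.add_sub_cancel]
      rcases m with _ | m
      · rfl
      · rw [Nat.add_sub_cancel]; ring
    rw [h3]; omega
  have h4 : (v N)⁻¹ ^ m * v N ^ m = 1 := by
    rw [inv_pow, inv_mul_cancel₀ (pow_ne_zero _ hv)]
  have h5 : v N ^ (-(m : ℤ)) = (v N)⁻¹ ^ m := by rw [zpow_neg, zpow_natCast, inv_pow]
  rw [e1, e1, h1, h5, pow_add, pow_succ]
  linear_combination ((-1) ^ m * (-1) * ((v N)⁻¹ ^ (m * (m - 1) / 2) * (v N)⁻¹ ^ m) ^ 2) * hk -
    ((-1) ^ m * ((v N)⁻¹ ^ (m * (m - 1) / 2)) ^ 2 * kap N m * (v N)⁻¹ ^ m *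
      (v N - (v N)⁻¹)) * h4

/-- The coefficient in `R⁻¹` of the output `e_a ⊗ e_b` from the input `e_{b-m} ⊗ e_{a+m}`. -/
noncomputable def nu (N a b m : ℕ) : ℂ :=
  (tht N a b)⁻¹ * v N ^ ((m : ℤ) * (wt N b - wt N a) + 2 * m ^ 2) * kab N m * eta N a m

lemma negC_eq {N a b m : ℕ} (hN : 2 ≤ N) (h : m ≤ b) :
    negC N (b - m) (a + m) m = nu N a b m := by
  unfold negC nu kab eta
  have h1 : ∏ t ∈ range m, ecoef N (a + m - t) = ∏ t ∈ range m, ecoef N (a + 1 + t) := by
    rw [← prod_range_reflect]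
    apply prod_congr rfl
    intro t ht
    rw [mem_range] at ht
    congr 1; omega
  have h2 : Complex.exp (-(Real.pi * Complex.I * (wt N (b - m) * wt N (a + m) : ℤ) / (2 * N))) =
      (tht N a b)⁻¹ * v N ^ ((m : ℤ) * (wt N b - wt N a) + 2 * m ^ 2) := by
    unfold tht
    rw [v_zpow, ← Complex.exp_neg, ← Complex.exp_add]
    congr 1
    have hN0 : (N : ℂ) ≠ 0 := by exact_mod_cast (by omega : N ≠ 0)
    have hb : (wt N (b - m) : ℤ) = wt N b + 2 * m := by
      unfold wt; push_cast [Nat.cast_sub h]; ring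
    have ha : (wt N (a + m) : ℤ) = wt N a - 2 * m := by
      unfold wt; push_cast; ring
    rw [hb, ha]
    push_cast
    field_simp
    ring
  rw [h1, h2]; ring

lemma neg_apply {N a b : ℕ} (ha : a < N) (hb : b < N) (hN : 2 ≤ N) (f : List ℕ → ℂ)
    (w : List ℕ) :
    piece N .neg f (a :: b :: w) =
      ∑ m ∈ range (b + 1), nu N a b m * f ((b - m) :: (a + m) :: w) := by
  simp only [piece]
  have h1 : range (b + 1) ⊆ range N := by
    intro m hm; rw [mem_range] at *; omega
  rw [← sum_subset h1]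
  · apply sum_congr rfl
    intro m hm
    rw [mem_range] at hm
    by_cases h : a + m < N
    · rw [if_pos ⟨by omega, hb, h⟩, negC_eq hN (by omega)]
    · rw [if_neg (by omega)]
      unfold nu
      rw [eta_eq_zero ha (by omega)]; ring
  · intro m _ hm
    rw [mem_range] at hm
    rw [if_neg (by omega)]

lemma neg_apply_zero {N a b : ℕ} (h : ¬ (a < N ∧ b < N)) (f : List ℕ → ℂ) (w : List ℕ) :
    piece N .neg f (a :: b :: w) = 0 := by
  simp only [piece]
  apply sum_eq_zero
  intro m _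
  rw [if_neg]
  rintro ⟨_, h2, h3⟩
  exact h ⟨by omega, h2⟩

end Pool.Agent.Helper9.Kashaev

/-!
# The elementary pieces commute with the generators `E` and `F` (continued)
-/

namespace Pool.Agent.Helper9.Kashaev

open Finset

lemma vz (N : ℕ) (x y : ℤ) : v N ^ x * v N ^ y = v N ^ (x + y) := (zpow_add₀ (v_ne N) x y).symm

lemma vz_ne (N : ℕ) (x : ℤ) : v N ^ x ≠ 0 := zpow_ne_zero _ (v_ne N)

/-! ### scalar identities for the positive crossing -/

lemma kap_F {N b m : ℕ} (hN : 2 ≤ N) (hm : m + 1 < N) (hb : b + m + 1 ≤ N) :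
    kap N (m + 1) * (ecoef N (b + m + 1) - ecoef N b) =
      kap N m * (v N ^ (wt N b) - v N ^ (-wt N (b + m))) := by
  rw [ecoef_eq hN hb, ecoef_eq hN (by omega), qi_sq_sub hN, v_wt hN, v_neg_wt hN]
  have h1 : (((b + m + 1 : ℕ) : ℤ) - (b : ℤ)) = ((m : ℤ) + 1) := by push_cast; ring
  have h2 : (((b + m + 1 : ℕ) : ℤ) + (b : ℤ)) = 2 * (b : ℤ) + m + 1 := by push_cast; ring
  rw [h1, h2, ← mul_assoc]
  have h3 := kap_succ m hm
  rw [h3]
  have h4 := qi_mul_vd hN (2 * (b : ℤ) + m + 1)
  have h5 : v N ^ m = v N ^ (m : ℤ) := (zpow_natCast _ _).symm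
  have e1 : v N ^ (m : ℤ) * v N ^ (2 * (b : ℤ) + m + 1) = v N ^ (1 + 2 * ((b + m : ℕ) : ℤ)) := by
    rw [vz]; congr 1; push_cast; ring
  have e2 : v N ^ (m : ℤ) * v N ^ (-(2 * (b : ℤ) + m + 1)) = v N ^ (-1 - 2 * (b : ℤ)) := by
    rw [vz]; congr 1; ring
  rw [h5]
  linear_combination (kap N m * v N ^ (m : ℤ)) * h4 + kap N m * e1 - kap N m * e2

lemma kap_E {N a m : ℕ} (hN : 2 ≤ N) (hm : m + 1 < N) (ha : a + 1 ≤ N) (hma : m ≤ a) :
    kap N (m + 1) * (ecoef N (a + 1) - ecoef N (a - m)) =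
      kap N m * (v N ^ (wt N (a - m)) - v N ^ (-wt N a)) := by
  rw [ecoef_eq hN ha, ecoef_eq hN (by omega), qi_sq_sub hN, v_wt hN, v_neg_wt hN]
  have h1 : (((a + 1 : ℕ) : ℤ) - ((a - m : ℕ) : ℤ)) = ((m : ℤ) + 1) := by
    push_cast [Nat.cast_sub hma]; ring
  have h2 : (((a + 1 : ℕ) : ℤ) + ((a - m : ℕ) : ℤ)) = 2 * (a : ℤ) - m + 1 := by
    push_cast [Nat.cast_sub hma]; ring
  rw [h1, h2, ← mul_assoc, kap_succ m hm]
  have h4 := qi_mul_vd hN (2 * (a : ℤ) - m + 1)
  have h5 : v N ^ m = v N ^ (m : ℤ) := (zpow_natCast _ _).symm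
  have e1 : v N ^ (m : ℤ) * v N ^ (2 * (a : ℤ) - m + 1) = v N ^ (1 + 2 * (a : ℤ)) := by
    rw [vz]; congr 1; ring
  have e2 : v N ^ (m : ℤ) * v N ^ (-(2 * (a : ℤ) - m + 1)) =
      v N ^ (-1 - 2 * ((a - m : ℕ) : ℤ)) := by
    rw [vz]; congr 1; push_cast [Nat.cast_sub hma]; ring
  rw [h5]
  linear_combination (kap N m * v N ^ (m : ℤ)) * h4 + kap N m * e1 - kap N m * e2

lemma kab_F {N a m : ℕ} (hN : 2 ≤ N) (hm : m + 1 < N) (ha : a + m + 1 ≤ N) :
    kab N (m + 1) * (ecoef N (a + m + 1) - ecoef N a) * v N ^ (-wt N a + 2 * (m : ℤ)) =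
      kab N m * (v N ^ (-2 * wt N a + 2 * (m : ℤ)) - 1) := by
  rw [ecoef_eq hN ha, ecoef_eq hN (by omega), qi_sq_sub hN]
  have h1 : (((a + m + 1 : ℕ) : ℤ) - (a : ℤ)) = ((m : ℤ) + 1) := by push_cast; ring
  have h2 : (((a + m + 1 : ℕ) : ℤ) + (a : ℤ)) = 2 * (a : ℤ) + m + 1 := by push_cast; ring
  have h6 : v N ^ (-wt N a + 2 * (m : ℤ)) = - v N ^ (1 + 2 * (a : ℤ) + 2 * m) := by
    rw [← vz, v_neg_wt hN, neg_mul, vz]
  have h7 : v N ^ (-2 * wt N a + 2 * (m : ℤ)) = v N ^ (2 + 4 * (a : ℤ) + 2 * m) := by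
    rw [show -2 * wt N a + 2 * (m : ℤ) = -wt N a + (-wt N a + 2 * (m : ℤ)) by ring, ← vz, h6,
      v_neg_wt hN, neg_mul_neg, vz]
    congr 1; ring
  rw [h1, h2, h6, h7, ← mul_assoc, kab_succ m hm]
  have h4 := qi_mul_vd hN (2 * (a : ℤ) + m + 1)
  have e1 : v N ^ (-(m : ℤ)) * v N ^ (2 * (a : ℤ) + m + 1) * v N ^ (1 + 2 * (a : ℤ) + 2 * m) =
      v N ^ (2 + 4 * (a : ℤ) + 2 * m) := by
    rw [vz, vz]; congr 1; ring
  have e2 : v N ^ (-(m : ℤ)) * v N ^ (-(2 * (a : ℤ) + m + 1)) * v N ^ (1 + 2 * (a : ℤ) + 2 * m)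
      = 1 := by
    rw [vz, vz, show -(m : ℤ) + -(2 * (a : ℤ) + m + 1) + (1 + 2 * (a : ℤ) + 2 * m) = 0 by ring,
      zpow_zero]
  linear_combination (kab N m * v N ^ (-(m : ℤ)) * v N ^ (1 + 2 * (a : ℤ) + 2 * m)) * h4 +
    kab N m * e1 - kab N m * e2

lemma kab_E {N b m : ℕ} (hN : 2 ≤ N) (hm : m + 1 < N) (hb : b + 1 ≤ N) (hmb : m ≤ b) :
    kab N (m + 1) * (ecoef N (b + 1) - ecoef N (b - m)) * v N ^ (wt N b + 2 * (m : ℤ)) =
      kab N m * (1 - v N ^ (2 * wt N b + 2 * (m : ℤ))) := by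
  rw [ecoef_eq hN hb, ecoef_eq hN (by omega), qi_sq_sub hN]
  have h1 : (((b + 1 : ℕ) : ℤ) - ((b - m : ℕ) : ℤ)) = ((m : ℤ) + 1) := by
    push_cast [Nat.cast_sub hmb]; ring
  have h2 : (((b + 1 : ℕ) : ℤ) + ((b - m : ℕ) : ℤ)) = 2 * (b : ℤ) - m + 1 := by
    push_cast [Nat.cast_sub hmb]; ring
  have h6 : v N ^ (wt N b + 2 * (m : ℤ)) = - v N ^ (-1 - 2 * (b : ℤ) + 2 * m) := by
    rw [← vz, v_wt hN, neg_mul, vz]
  have h7 : v N ^ (2 * wt N b + 2 * (m : ℤ)) = v N ^ (-2 - 4 * (b : ℤ) + 2 * m) := by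
    rw [show 2 * wt N b + 2 * (m : ℤ) = wt N b + (wt N b + 2 * (m : ℤ)) by ring, ← vz, h6,
      v_wt hN, neg_mul_neg, vz]
    congr 1; ring
  rw [h1, h2, h6, h7, ← mul_assoc, kab_succ m hm]
  have h4 := qi_mul_vd hN (2 * (b : ℤ) - m + 1)
  have e1 : v N ^ (-(m : ℤ)) * v N ^ (2 * (b : ℤ) - m + 1) * v N ^ (-1 - 2 * (b : ℤ) + 2 * m)
      = 1 := by
    rw [vz, vz, show -(m : ℤ) + (2 * (b : ℤ) - m + 1) + (-1 - 2 * (b : ℤ) + 2 * m) = 0 by ring,
      zpow_zero]
  have e2 : v N ^ (-(m : ℤ)) * v N ^ (-(2 * (b : ℤ) - m + 1)) *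
      v N ^ (-1 - 2 * (b : ℤ) + 2 * m) = v N ^ (-2 - 4 * (b : ℤ) + 2 * m) := by
    rw [vz, vz]; congr 1; ring
  linear_combination (kab N m * v N ^ (-(m : ℤ)) * v N ^ (-1 - 2 * (b : ℤ) + 2 * m)) * h4 +
    kab N m * e1 - kab N m * e2

/-! ### the same for the coefficients of the crossings -/

lemma rho_F {N a b m : ℕ} (hN : 2 ≤ N) (ha : a + 1 < N) (hb : b < N) (hm : m ≤ a) :
    rho N (a + 1) b (m + 1) + rho N (a + 1) b m * v N ^ (-wt N (b + m)) =
      rho N a b m + (if 1 ≤ b ∧ b < N then v N ^ (-wt N (a + 1)) * rho N (a + 1) (b - 1) (m + 1)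
        else 0) := by
  have key : (if 1 ≤ b ∧ b < N then v N ^ (-wt N (a + 1)) * rho N (a + 1) (b - 1) (m + 1)
        else 0) = tht N (a + 1) b * kap N (m + 1) * (ecoef N b * eta N b m) := by
    rcases b with _ | b
    · rw [if_neg (by omega), ecoef_zero]; ring
    · rw [if_pos ⟨by omega, hb⟩]
      unfold rho
      rw [Nat.add_sub_cancel, eta_succ', tht_succ_right hN (a + 1) b]
      ring
  rw [key]
  have ht : tht N a b = tht N (a + 1) b * v N ^ (wt N b) := by
    rw [tht_succ hN, mul_assoc, vz, neg_add_cancel, zpow_zero, mul_one]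
  unfold rho
  rw [ht, eta_succ]
  by_cases h : b + m < N
  · have := kap_F (b := b) hN (show m + 1 < N by omega) (by omega)
    linear_combination (tht N (a + 1) b * eta N b m) * this
  · rw [eta_eq_zero hb (by omega)]; ring

lemma rho_E {N a b m : ℕ} (hN : 2 ≤ N) (ha : a < N) (hb : b < N) (hm : m ≤ a) :
    ecoef N (a - m) * rho N a b (m + 1) + ecoef N (b + m + 1) * v N ^ (wt N (a - m)) * rho N a b m
      = ecoef N (a + 1) * v N ^ (wt N b) * rho N (a + 1) b (m + 1) +
        ecoef N (b + 1) * rho N a (b + 1) m := by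
  unfold rho
  rw [tht_succ hN a b, tht_succ_right hN a b]
  have h1 : eta N b (m + 1) = ecoef N (b + 1) * eta N (b + 1) m := eta_succ' N b m
  have h2 : eta N b (m + 1) = eta N b m * ecoef N (b + m + 1) := eta_succ N b m
  have h0 : v N ^ (wt N b) * v N ^ (-wt N b) = 1 := by rw [vz, add_neg_cancel, zpow_zero]
  by_cases h : b + (m + 1) < N
  · have := kap_E (m := m) hN (show m + 1 < N by omega) (show a + 1 ≤ N by omega) hm
    linear_combination (-tht N a b * eta N b (m + 1)) * this -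
      (tht N a b * kap N m * v N ^ (wt N (a - m))) * h2 +
      (tht N a b * kap N m * v N ^ (-wt N a)) * h1 -
      (ecoef N (a + 1) * tht N a b * kap N (m + 1) * eta N b (m + 1)) * h0
  · have h3 : eta N b (m + 1) = 0 := eta_eq_zero hb (by omega)
    rw [h3] at h1 h2 ⊢
    linear_combination (- tht N a b * kap N m * v N ^ (wt N (a - m))) * h2 +
      (tht N a b * kap N m * v N ^ (-wt N a)) * h1

lemma rho_E_zero {N a b : ℕ} (hN : 2 ≤ N) :
    ecoef N (a + 1) * rho N a b 0 =
      ecoef N (a + 1) * v N ^ (wt N b) * rho N (a + 1) b 0 := by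
  unfold rho
  rw [tht_succ hN a b, eta_zero, kap_zero]
  have h0 : v N ^ (wt N b) * v N ^ (-wt N b) = 1 := by rw [vz, add_neg_cancel, zpow_zero]
  linear_combination (-ecoef N (a + 1) * tht N a b) * h0

lemma nu_F {N a b m : ℕ} (hN : 2 ≤ N) (ha : a < N) (hb : b + 1 < N) (hm : m ≤ b) :
    nu N a (b + 1) m + v N ^ (-wt N (b - m)) * nu N a (b + 1) (m + 1) =
      (if 1 ≤ a ∧ a < N then nu N (a - 1) (b + 1) (m + 1) else 0) +
        v N ^ (-wt N a) * nu N a b m := by
  have hwb : wt N (b + 1) = wt N b - 2 := by unfold wt; push_cast; ring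
  have hwbm : wt N (b - m) = wt N b + 2 * m := by
    unfold wt; push_cast [Nat.cast_sub hm]; ring
  have key : (if 1 ≤ a ∧ a < N then nu N (a - 1) (b + 1) (m + 1) else 0) =
      (tht N a (b + 1))⁻¹ * v N ^ (-wt N (b + 1)) *
        v N ^ (((m + 1 : ℕ) : ℤ) * (wt N (b + 1) - wt N a - 2) + 2 * ((m + 1 : ℕ) : ℤ) ^ 2) *
        kab N (m + 1) * (ecoef N a * eta N a m) := by
    rcases a with _ | a
    · rw [if_neg (by omega), ecoef_zero]; ring
    · rw [if_pos ⟨by omega, ha⟩]
      unfold nu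
      have hwa : wt N (a + 1) = wt N a - 2 := by unfold wt; push_cast; ring
      rw [Nat.add_sub_cancel, eta_succ', tht_succ hN a (b + 1), hwa, mul_inv]
      have h8 : (v N ^ (-wt N (b + 1)))⁻¹ * v N ^ (-wt N (b + 1)) = 1 :=
        inv_mul_cancel₀ (vz_ne _ _)
      have h9 : wt N (b + 1) - (wt N a - 2) - 2 = wt N (b + 1) - wt N a := by ring
      rw [h9]
      linear_combination (-(tht N a (b + 1))⁻¹ *
        v N ^ (((m + 1 : ℕ) : ℤ) * (wt N (b + 1) - wt N a) + 2 * ((m + 1 : ℕ) : ℤ) ^ 2) *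
        kab N (m + 1) * (ecoef N (a + 1) * eta N (a + 1) m)) * h8
  rw [key]
  have ht : (tht N a b)⁻¹ = (tht N a (b + 1))⁻¹ * v N ^ (-wt N a) := by
    rw [tht_succ_right hN a b, mul_inv, mul_assoc, inv_mul_cancel₀ (vz_ne _ _), mul_one]
  unfold nu
  rw [ht, eta_succ, hwb, hwbm]
  -- common factor
  set Y := v N ^ ((m : ℤ) * (wt N b - 2 - wt N a) + 2 * (m : ℤ) ^ 2) with hY
  have e1 : v N ^ (-(wt N b + 2 * (m : ℤ))) *
      v N ^ (((m + 1 : ℕ) : ℤ) * (wt N b - 2 - wt N a) + 2 * ((m + 1 : ℕ) : ℤ) ^ 2) =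
      Y * v N ^ (-wt N a + 2 * (m : ℤ)) := by
    rw [hY, vz, vz]; congr 1; push_cast; ring
  have e2 : v N ^ (-(wt N b - 2)) *
      v N ^ (((m + 1 : ℕ) : ℤ) * (wt N b - 2 - wt N a - 2) + 2 * ((m + 1 : ℕ) : ℤ) ^ 2) =
      Y * v N ^ (-wt N a + 2 * (m : ℤ)) := by
    rw [hY, vz, vz]; congr 1; push_cast; ring
  have e3 : v N ^ (-wt N a) * (v N ^ (-wt N a) *
      v N ^ ((m : ℤ) * (wt N b - wt N a) + 2 * (m : ℤ) ^ 2)) =
      Y * v N ^ (-2 * wt N a + 2 * (m : ℤ)) := by
    rw [hY, vz, vz, vz]; congr 1; ring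
  by_cases h : a + m < N
  · have := kab_F (a := a) hN (show m + 1 < N by omega) (by omega)
    linear_combination (kab N (m + 1) * (tht N a (b + 1))⁻¹ * eta N a m *
        ecoef N (a + m + 1)) * e1 -
      ((tht N a (b + 1))⁻¹ * kab N (m + 1) * (ecoef N a * eta N a m)) * e2 -
      ((tht N a (b + 1))⁻¹ * kab N m * eta N a m) * e3 +
      (Y * (tht N a (b + 1))⁻¹ * eta N a m) * this
  · rw [eta_eq_zero ha (by omega)]; ring

lemma nu_F_zero {N a b : ℕ} (hN : 2 ≤ N) (h : 1 ≤ a) :
    v N ^ (-wt N b) * nu N a b 0 = nu N (a - 1) b 0 := by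
  obtain ⟨a, rfl⟩ : ∃ a', a = a' + 1 := ⟨a - 1, by omega⟩
  unfold nu
  rw [Nat.add_sub_cancel, tht_succ hN a b, mul_inv]
  simp only [Nat.cast_zero, zero_mul, ne_eq, OfNat.ofNat_ne_zero, not_false_eq_true, zero_pow,
    mul_zero, add_zero, zpow_zero, mul_one, kab_zero, eta_zero]
  have h8 : v N ^ (-wt N b) * (v N ^ (-wt N b))⁻¹ = 1 := mul_inv_cancel₀ (vz_ne _ _)
  linear_combination (tht N a b)⁻¹ * h8

lemma nu_E {N a b m : ℕ} (hN : 2 ≤ N) (ha : a < N) (hb : b < N) (hm : m ≤ b) :
    ecoef N (b - m) * v N ^ (wt N (a + m + 1)) * nu N a b (m + 1) +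
        ecoef N (a + m + 1) * nu N a b m =
      ecoef N (a + 1) * v N ^ (wt N b) * nu N (a + 1) b m +
        ecoef N (b + 1) * nu N a (b + 1) (m + 1) := by
  have hwb : wt N (b + 1) = wt N b - 2 := by unfold wt; push_cast; ring
  have hwa : wt N (a + 1) = wt N a - 2 := by unfold wt; push_cast; ring
  have hwam : wt N (a + m + 1) = wt N a - 2 * m - 2 := by unfold wt; push_cast; ring
  have h1 : eta N a (m + 1) = ecoef N (a + 1) * eta N (a + 1) m := eta_succ' N a m
  have h2 : eta N a (m + 1) = eta N a m * ecoef N (a + m + 1) := eta_succ N a m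
  have ht1 : (tht N (a + 1) b)⁻¹ = (tht N a b)⁻¹ * v N ^ (wt N b) := by
    rw [tht_succ hN a b, mul_inv, ← zpow_neg, neg_neg]
  have ht2 : (tht N a (b + 1))⁻¹ = (tht N a b)⁻¹ * v N ^ (wt N a) := by
    rw [tht_succ_right hN a b, mul_inv, ← zpow_neg, neg_neg]
  unfold nu
  rw [ht1, ht2, hwb, hwa, hwam]
  set Y := v N ^ ((m : ℤ) * (wt N b - wt N a) + 2 * (m : ℤ) ^ 2) with hY
  have e1 : v N ^ (wt N a - 2 * (m : ℤ) - 2) *
      v N ^ (((m + 1 : ℕ) : ℤ) * (wt N b - wt N a) + 2 * ((m + 1 : ℕ) : ℤ) ^ 2) =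
      Y * v N ^ (wt N b + 2 * (m : ℤ)) := by
    rw [hY, vz, vz]; congr 1; push_cast; ring
  have e2 : v N ^ (wt N b) * (v N ^ (wt N b) *
      v N ^ ((m : ℤ) * (wt N b - (wt N a - 2)) + 2 * (m : ℤ) ^ 2)) =
      Y * v N ^ (2 * wt N b + 2 * (m : ℤ)) := by
    rw [hY, vz, vz, vz]; congr 1; ring
  have e3 : v N ^ (wt N a) *
      v N ^ (((m + 1 : ℕ) : ℤ) * (wt N b - 2 - wt N a) + 2 * ((m + 1 : ℕ) : ℤ) ^ 2) =
      Y * v N ^ (wt N b + 2 * (m : ℤ)) := by
    rw [hY, vz, vz]; congr 1; push_cast; ring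
  by_cases h : a + (m + 1) < N
  · have := kab_E (b := b) (m := m) hN (by omega) (by omega) hm
    linear_combination (ecoef N (b - m) * (tht N a b)⁻¹ * kab N (m + 1) * eta N a (m + 1)) * e1 -
      ((tht N a b)⁻¹ * kab N m * (ecoef N (a + 1) * eta N (a + 1) m)) * e2 -
      (ecoef N (b + 1) * (tht N a b)⁻¹ * kab N (m + 1) * eta N a (m + 1)) * e3 -
      (Y * (tht N a b)⁻¹ * eta N a (m + 1)) * this +
      (Y * (tht N a b)⁻¹ * kab N m * v N ^ (2 * wt N b + 2 * (m : ℤ))) * h1 -
      (Y * (tht N a b)⁻¹ * kab N m) * h2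
  · have h3 : eta N a (m + 1) = 0 := eta_eq_zero ha (by omega)
    rw [h3] at h1 h2 ⊢
    linear_combination (-((tht N a b)⁻¹ * Y * kab N m)) * h2 +
      ((tht N a b)⁻¹ * v N ^ (wt N b) * (v N ^ (wt N b) *
      v N ^ ((m : ℤ) * (wt N b - (wt N a - 2)) + 2 * (m : ℤ) ^ 2)) * kab N m) * h1

lemma nu_E_zero {N a b : ℕ} (hN : 2 ≤ N) :
    ecoef N (b + 1) * v N ^ (wt N a) * nu N a b 0 = ecoef N (b + 1) * nu N a (b + 1) 0 := by
  unfold nu
  rw [tht_succ_right hN a b, mul_inv, ← zpow_neg, neg_neg]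
  simp only [Nat.cast_zero, zero_mul, ne_eq, OfNat.ofNat_ne_zero, not_false_eq_true, zero_pow,
    mul_zero, add_zero, zpow_zero, mul_one, kab_zero, eta_zero]
  ring

end Pool.Agent.Helper9.Kashaev

/-!
# The elementary pieces commute with the generators `E` and `F` (end)
-/

namespace Pool.Agent.Helper9.Kashaev

open Finset

lemma piece_pos_F {N : ℕ} (hN : 2 ≤ N) (f : List ℕ → ℂ) (w : List ℕ) :
    piece N .pos (Fop N f) w = Fop N (piece N .pos f) w := by
  rcases w with _ | ⟨a, _ | ⟨b, w⟩⟩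
  · simp [piece, Fop]
  · simp [piece, Fop]
  by_cases hv : a < N ∧ b < N
  · obtain ⟨ha, hb⟩ := hv
    rw [pos_apply ha hb]
    simp only [Fop]
    have h3 : Fop N (fun u => piece N .pos f (a :: b :: u)) w =
        ∑ m ∈ range (a + 1), rho N a b m * Fop N (fun u => f ((b + m) :: (a - m) :: u)) w := by
      have : (fun u => piece N .pos f (a :: b :: u)) =
          fun u => ∑ m ∈ range (a + 1), rho N a b m * f ((b + m) :: (a - m) :: u) := by
        funext u; exact pos_apply ha hb f u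
      rw [this, Fop_sum]
      apply sum_congr rfl
      intro m _
      exact Fop_smul N _ _ w
    rw [h3]
    -- the third terms agree
    have hw : ∀ m ∈ range (a + 1), v N ^ (-wt N (b + m)) * v N ^ (-wt N (a - m)) =
        v N ^ (-wt N a) * v N ^ (-wt N b) := by
      intro m hm
      rw [mem_range] at hm
      rw [vz, vz]
      congr 1
      unfold wt
      push_cast [Nat.cast_sub (show m ≤ a by omega)]
      ring
    have hthird : ∑ m ∈ range (a + 1), rho N a b m * (v N ^ (-wt N (b + m)) *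
        (v N ^ (-wt N (a - m)) * Fop N (fun u => f ((b + m) :: (a - m) :: u)) w)) =
        v N ^ (-wt N a) * (v N ^ (-wt N b) * ∑ m ∈ range (a + 1), rho N a b m *
          Fop N (fun u => f ((b + m) :: (a - m) :: u)) w) := by
      rw [mul_sum, mul_sum]
      apply sum_congr rfl
      intro m hm
      linear_combination (rho N a b m * Fop N (fun u => f ((b + m) :: (a - m) :: u)) w) * hw m hm
    have hsplit : ∑ m ∈ range (a + 1), rho N a b m *
        ((if 1 ≤ b + m ∧ b + m < N then f ((b + m - 1) :: (a - m) :: w) else 0) +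
          v N ^ (-wt N (b + m)) *
            ((if 1 ≤ a - m ∧ a - m < N then f ((b + m) :: (a - m - 1) :: w) else 0) +
              v N ^ (-wt N (a - m)) * Fop N (fun u => f ((b + m) :: (a - m) :: u)) w)) =
        ∑ m ∈ range (a + 1), rho N a b m *
          (if 1 ≤ b + m ∧ b + m < N then f ((b + m - 1) :: (a - m) :: w) else 0) +
        ∑ m ∈ range (a + 1), rho N a b m * v N ^ (-wt N (b + m)) *
            (if 1 ≤ a - m ∧ a - m < N then f ((b + m) :: (a - m - 1) :: w) else 0) +
        ∑ m ∈ range (a + 1), rho N a b m * (v N ^ (-wt N (b + m)) *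
        (v N ^ (-wt N (a - m)) * Fop N (fun u => f ((b + m) :: (a - m) :: u)) w)) := by
      rw [← sum_add_distrib, ← sum_add_distrib]
      apply sum_congr rfl
      intro m _
      ring
    rw [hsplit, hthird]
    -- the first two terms
    have hS1 : ∀ m ∈ range (a + 1), rho N a b m *
          (if 1 ≤ b + m ∧ b + m < N then f ((b + m - 1) :: (a - m) :: w) else 0) =
          if 1 ≤ b + m then rho N a b m * f ((b + m - 1) :: (a - m) :: w) else 0 := by
      intro m _
      by_cases h1 : b + m < N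
      · by_cases h2 : 1 ≤ b + m
        · rw [if_pos ⟨h2, h1⟩, if_pos h2]
        · rw [if_neg (by omega), if_neg h2, mul_zero]
      · rw [if_neg (by omega)]
        have : rho N a b m = 0 := by unfold rho; rw [eta_eq_zero hb (by omega)]; ring
        rw [this]; simp
    rw [sum_congr rfl hS1]
    rcases a with _ | a
    · simp only [zero_add, range_one, sum_singleton, Nat.add_zero, Nat.sub_zero]
      rw [if_neg (show ¬ (1 ≤ 0 ∧ 0 < N) by omega), if_neg (show ¬ (1 ≤ 0 ∧ 0 < N) by omega)]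
      by_cases hb1 : 1 ≤ b
      · rw [if_pos hb1, if_pos ⟨hb1, hb⟩, pos_apply ha (by omega)]
        simp only [zero_add, range_one, sum_singleton, Nat.add_zero, Nat.sub_zero]
        obtain ⟨b', rfl⟩ : ∃ b', b = b' + 1 := ⟨b - 1, by omega⟩
        unfold rho
        rw [Nat.add_sub_cancel, tht_succ_right hN 0 b', eta_zero, eta_zero]
        ring
      · rw [if_neg hb1, if_neg (by omega)]; ring
    · rw [if_pos (show 1 ≤ a + 1 ∧ a + 1 < N from ⟨by omega, ha⟩), Nat.add_sub_cancel,
        pos_apply (by omega) hb, sum_range_succ' (fun m => if 1 ≤ b + m then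
          rho N (a + 1) b m * f ((b + m - 1) :: (a + 1 - m) :: w) else 0),
        sum_range_succ (fun m => rho N (a + 1) b m * v N ^ (-wt N (b + m)) *
            (if 1 ≤ a + 1 - m ∧ a + 1 - m < N then f ((b + m) :: (a + 1 - m - 1) :: w) else 0))]
      have hlast : (if 1 ≤ a + 1 - (a + 1) ∧ a + 1 - (a + 1) < N then
          f ((b + (a + 1)) :: (a + 1 - (a + 1) - 1) :: w) else 0) = 0 := by
        rw [if_neg (by omega)]
      rw [hlast, mul_zero, add_zero]
      have hR2 : (if 1 ≤ b ∧ b < N then piece N .pos f ((a + 1) :: (b - 1) :: w) else 0) =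
          ∑ m ∈ range (a + 1), (if 1 ≤ b ∧ b < N then rho N (a + 1) (b - 1) (m + 1) else 0) *
            f ((b + m) :: (a - m) :: w) +
          (if 1 ≤ b then rho N (a + 1) (b - 1) 0 * f ((b - 1) :: (a + 1) :: w) else 0) := by
        by_cases hb1 : 1 ≤ b
        · rw [if_pos ⟨hb1, hb⟩, pos_apply ha (by omega), sum_range_succ', if_pos hb1]
          congr 1
          apply sum_congr rfl
          intro m hm
          rw [mem_range] at hm
          rw [if_pos ⟨hb1, hb⟩]
          congr 3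
          · omega
          · congr 1
            omega
        · rw [if_neg (by omega), if_neg hb1]
          symm
          rw [add_zero]
          apply sum_eq_zero
          intro m _
          rw [if_neg (by omega), zero_mul]
      rw [hR2]
      have hzero : (if 1 ≤ b then rho N (a + 1) b 0 *
          f ((b - 1) :: (a + 1 - 0) :: w) else 0) = v N ^ (-wt N (a + 1)) *
          (if 1 ≤ b then rho N (a + 1) (b - 1) 0 * f ((b - 1) :: (a + 1) :: w) else 0) := by
        by_cases hb1 : 1 ≤ b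
        · rw [if_pos hb1, if_pos hb1]
          obtain ⟨b', rfl⟩ : ∃ b', b = b' + 1 := ⟨b - 1, by omega⟩
          unfold rho
          rw [Nat.add_sub_cancel, tht_succ_right hN (a + 1) b', eta_zero, eta_zero]
          simp only [Nat.add_zero, Nat.sub_zero, Nat.add_sub_cancel]
          ring
        · rw [if_neg hb1, if_neg hb1]; ring
      rw [hzero]
      have hmain : ∑ m ∈ range (a + 1), (if 1 ≤ b + (m + 1) then rho N (a + 1) b (m + 1) *
            f ((b + (m + 1) - 1) :: (a + 1 - (m + 1)) :: w) else 0) +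
          ∑ m ∈ range (a + 1), rho N (a + 1) b m * v N ^ (-wt N (b + m)) *
            (if 1 ≤ a + 1 - m ∧ a + 1 - m < N then f ((b + m) :: (a + 1 - m - 1) :: w) else 0) =
          ∑ m ∈ range (a + 1), rho N a b m * f ((b + m) :: (a - m) :: w) +
          v N ^ (-wt N (a + 1)) * ∑ m ∈ range (a + 1),
            (if 1 ≤ b ∧ b < N then rho N (a + 1) (b - 1) (m + 1) else 0) *
            f ((b + m) :: (a - m) :: w) := by
        rw [mul_sum, ← sum_add_distrib, ← sum_add_distrib]
        apply sum_congr rfl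
        intro m hm
        rw [mem_range] at hm
        rw [if_pos (by omega), if_pos ⟨by omega, by omega⟩]
        have e1 : b + (m + 1) - 1 = b + m := by omega
        have e2 : a + 1 - (m + 1) = a - m := by omega
        have e3 : a + 1 - m - 1 = a - m := by omega
        rw [e1, e2, e3]
        have := rho_F (m := m) hN ha hb (by omega)
        by_cases hb1 : 1 ≤ b ∧ b < N
        · rw [if_pos hb1] at this ⊢
          linear_combination f ((b + m) :: (a - m) :: w) * this
        · rw [if_neg hb1] at this ⊢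
          linear_combination f ((b + m) :: (a - m) :: w) * this
      linear_combination hmain
  · rw [pos_apply_zero hv]
    simp only [Fop]
    have h3 : (fun u => piece N .pos f (a :: b :: u)) = fun _ => 0 := by
      funext u; exact pos_apply_zero hv f u
    rw [h3, Fop_zero_fun]
    have h1 : (if 1 ≤ a ∧ a < N then piece N .pos f ((a - 1) :: b :: w) else 0) = 0 := by
      split_ifs with h
      · exact pos_apply_zero (by omega) f w
      · rfl
    have h2 : (if 1 ≤ b ∧ b < N then piece N .pos f (a :: (b - 1) :: w) else 0) = 0 := by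
      split_ifs with h
      · exact pos_apply_zero (by omega) f w
      · rfl
    rw [h1, h2]; ring

lemma piece_pos_E {N : ℕ} (hN : 2 ≤ N) (f : List ℕ → ℂ) (w : List ℕ) :
    piece N .pos (Eop N f) w = Eop N (piece N .pos f) w := by
  rcases w with _ | ⟨a, _ | ⟨b, w⟩⟩
  · simp [piece, Eop]
  · simp [piece, Eop]
  by_cases hv : a < N ∧ b < N
  · obtain ⟨ha, hb⟩ := hv
    rw [pos_apply ha hb]
    simp only [Eop, wtl]
    have h3 : Eop N (fun u => piece N .pos f (a :: b :: u)) w =
        ∑ m ∈ range (a + 1), rho N a b m * Eop N (fun u => f ((b + m) :: (a - m) :: u)) w := by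
      have : (fun u => piece N .pos f (a :: b :: u)) =
          fun u => ∑ m ∈ range (a + 1), rho N a b m * f ((b + m) :: (a - m) :: u) := by
        funext u; exact pos_apply ha hb f u
      rw [this, Eop_sum]
      apply sum_congr rfl
      intro m _
      exact Eop_smul N _ _ w
    rw [h3]
    have hP1 : ecoef N (a + 1) * piece N .pos f ((a + 1) :: b :: w) =
        ecoef N (a + 1) * ∑ m ∈ range (a + 2), rho N (a + 1) b m *
          f ((b + m) :: (a + 1 - m) :: w) := by
      by_cases h : a + 1 < N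
      · rw [pos_apply h hb]
      · rw [ecoef_ge (by omega)]; ring
    have hP2 : ecoef N (b + 1) * piece N .pos f (a :: (b + 1) :: w) =
        ecoef N (b + 1) * ∑ m ∈ range (a + 1), rho N a (b + 1) m *
          f ((b + 1 + m) :: (a - m) :: w) := by
      by_cases h : b + 1 < N
      · rw [pos_apply ha h]
      · rw [ecoef_ge (by omega)]; ring
    have hA : ∑ m ∈ range (a + 1), rho N a b m *
        (ecoef N (b + m + 1) * v N ^ (wt N (a - m) + wtl N w) * f ((b + m + 1) :: (a - m) :: w) +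
          (ecoef N (a - m + 1) * v N ^ (wtl N w) * f ((b + m) :: (a - m + 1) :: w) +
            Eop N (fun u => f ((b + m) :: (a - m) :: u)) w)) =
        v N ^ (wtl N w) * (∑ m ∈ range (a + 1), (ecoef N (b + m + 1) * v N ^ (wt N (a - m)) *
          rho N a b m) * f ((b + 1 + m) :: (a - m) :: w)) +
        v N ^ (wtl N w) * (∑ m ∈ range (a + 1), (ecoef N (a + 1 - m) * rho N a b m) *
          f ((b + m) :: (a + 1 - m) :: w)) +
        ∑ m ∈ range (a + 1), rho N a b m * Eop N (fun u => f ((b + m) :: (a - m) :: u)) w := by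
      rw [mul_sum, mul_sum, ← sum_add_distrib, ← sum_add_distrib]
      apply sum_congr rfl
      intro m hm
      rw [mem_range] at hm
      have e1 : a - m + 1 = a + 1 - m := by omega
      have e2 : b + m + 1 = b + 1 + m := by ring
      rw [e1, ← vz, e2]
      ring
    rw [hA]
    -- rewrite the sums with the index shifted
    have hB : ∑ m ∈ range (a + 2), (ecoef N (a + 1) * v N ^ (wt N b) * rho N (a + 1) b m) *
          f ((b + m) :: (a + 1 - m) :: w) +
        ∑ m ∈ range (a + 1), (ecoef N (b + 1) * rho N a (b + 1) m) *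
          f ((b + 1 + m) :: (a - m) :: w) =
        ∑ m ∈ range (a + 1), (ecoef N (b + m + 1) * v N ^ (wt N (a - m)) *
          rho N a b m) * f ((b + 1 + m) :: (a - m) :: w) +
        ∑ m ∈ range (a + 1), (ecoef N (a + 1 - m) * rho N a b m) *
          f ((b + m) :: (a + 1 - m) :: w) := by
      have e3 : ∑ m ∈ range (a + 1), (ecoef N (a + 1 - m) * rho N a b m) *
          f ((b + m) :: (a + 1 - m) :: w) = ∑ m ∈ range (a + 2),
          (ecoef N (a + 1 - m) * rho N a b m) * f ((b + m) :: (a + 1 - m) :: w) := by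
        rw [sum_range_succ _ (a + 1), Nat.sub_self, ecoef_zero]; ring
      rw [e3, sum_range_succ' _ (a + 1), sum_range_succ' _ (a + 1)]
      have e4 : ecoef N (a + 1) * v N ^ (wt N b) * rho N (a + 1) b 0 * f ((b + 0) ::
          (a + 1 - 0) :: w) = ecoef N (a + 1 - 0) * rho N a b 0 *
          f ((b + 0) :: (a + 1 - 0) :: w) := by
        rw [Nat.sub_zero, ← rho_E_zero hN]
      rw [e4]
      have e5 : ∑ m ∈ range (a + 1), (ecoef N (a + 1) * v N ^ (wt N b) *
            rho N (a + 1) b (m + 1)) * f ((b + (m + 1)) :: (a + 1 - (m + 1)) :: w) +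
          ∑ m ∈ range (a + 1), (ecoef N (b + 1) * rho N a (b + 1) m) *
          f ((b + 1 + m) :: (a - m) :: w) =
          ∑ m ∈ range (a + 1), (ecoef N (b + m + 1) * v N ^ (wt N (a - m)) *
          rho N a b m) * f ((b + 1 + m) :: (a - m) :: w) +
          ∑ m ∈ range (a + 1), (ecoef N (a + 1 - (m + 1)) * rho N a b (m + 1)) *
          f ((b + (m + 1)) :: (a + 1 - (m + 1)) :: w) := by
        rw [← sum_add_distrib, ← sum_add_distrib]
        apply sum_congr rfl
        intro m hm
        rw [mem_range] at hm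
        have e6 : a + 1 - (m + 1) = a - m := by omega
        have e7 : b + (m + 1) = b + 1 + m := by ring
        rw [e6, e7]
        have := rho_E (m := m) hN ha hb (by omega)
        linear_combination (- f ((b + 1 + m) :: (a - m) :: w)) * this
      linear_combination e5
    have hC1 : ∑ m ∈ range (a + 2), (ecoef N (a + 1) * v N ^ (wt N b) * rho N (a + 1) b m) *
          f ((b + m) :: (a + 1 - m) :: w) = v N ^ (wt N b) * (ecoef N (a + 1) *
          ∑ m ∈ range (a + 2), rho N (a + 1) b m * f ((b + m) :: (a + 1 - m) :: w)) := by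
      rw [mul_sum, mul_sum]
      apply sum_congr rfl
      intro m _; ring
    have hC2 : ∑ m ∈ range (a + 1), (ecoef N (b + 1) * rho N a (b + 1) m) *
          f ((b + 1 + m) :: (a - m) :: w) = ecoef N (b + 1) *
          ∑ m ∈ range (a + 1), rho N a (b + 1) m * f ((b + 1 + m) :: (a - m) :: w) := by
      rw [mul_sum]
      apply sum_congr rfl
      intro m _; ring
    rw [hC1, hC2, ← hP1, ← hP2] at hB
    rw [← vz]
    linear_combination (- v N ^ (wtl N w)) * hB
  · rw [pos_apply_zero hv]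
    simp only [Eop]
    have h3 : (fun u => piece N .pos f (a :: b :: u)) = fun _ => 0 := by
      funext u; exact pos_apply_zero hv f u
    rw [h3, Eop_zero_fun, pos_apply_zero (show ¬ (a + 1 < N ∧ b < N) by omega),
      pos_apply_zero (show ¬ (a < N ∧ b + 1 < N) by omega)]
    ring

end Pool.Agent.Helper9.Kashaev

/-!
# The negative crossing, the cup and the cap commute with the generators
-/

namespace Pool.Agent.Helper9.Kashaev

open Finset

lemma nu_zero_of_ge {N a b m : ℕ} (ha : a < N) (h : N ≤ a + m) : nu N a b m = 0 := by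
  unfold nu; rw [eta_eq_zero ha h]; ring

lemma piece_neg_F {N : ℕ} (hN : 2 ≤ N) (f : List ℕ → ℂ) (w : List ℕ) :
    piece N .neg (Fop N f) w = Fop N (piece N .neg f) w := by
  rcases w with _ | ⟨a, _ | ⟨b, w⟩⟩
  · simp [piece, Fop]
  · simp [piece, Fop]
  by_cases hv : a < N ∧ b < N
  · obtain ⟨ha, hb⟩ := hv
    rw [neg_apply ha hb hN]
    simp only [Fop]
    have h3 : Fop N (fun u => piece N .neg f (a :: b :: u)) w =
        ∑ m ∈ range (b + 1), nu N a b m * Fop N (fun u => f ((b - m) :: (a + m) :: u)) w := by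
      have : (fun u => piece N .neg f (a :: b :: u)) =
          fun u => ∑ m ∈ range (b + 1), nu N a b m * f ((b - m) :: (a + m) :: u) := by
        funext u; exact neg_apply ha hb hN f u
      rw [this, Fop_sum]
      apply sum_congr rfl
      intro m _
      exact Fop_smul N _ _ w
    rw [h3]
    have hw : ∀ m ∈ range (b + 1), v N ^ (-wt N (b - m)) * v N ^ (-wt N (a + m)) =
        v N ^ (-wt N a) * v N ^ (-wt N b) := by
      intro m hm
      rw [mem_range] at hm
      rw [vz, vz]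
      congr 1
      unfold wt
      push_cast [Nat.cast_sub (show m ≤ b by omega)]
      ring
    have hthird : ∑ m ∈ range (b + 1), nu N a b m * (v N ^ (-wt N (b - m)) *
        (v N ^ (-wt N (a + m)) * Fop N (fun u => f ((b - m) :: (a + m) :: u)) w)) =
        v N ^ (-wt N a) * (v N ^ (-wt N b) * ∑ m ∈ range (b + 1), nu N a b m *
          Fop N (fun u => f ((b - m) :: (a + m) :: u)) w) := by
      rw [mul_sum, mul_sum]
      apply sum_congr rfl
      intro m hm
      linear_combination (nu N a b m * Fop N (fun u => f ((b - m) :: (a + m) :: u)) w) * hw m hm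
    have hsplit : ∑ m ∈ range (b + 1), nu N a b m *
        ((if 1 ≤ b - m ∧ b - m < N then f ((b - m - 1) :: (a + m) :: w) else 0) +
          v N ^ (-wt N (b - m)) *
            ((if 1 ≤ a + m ∧ a + m < N then f ((b - m) :: (a + m - 1) :: w) else 0) +
              v N ^ (-wt N (a + m)) * Fop N (fun u => f ((b - m) :: (a + m) :: u)) w)) =
        ∑ m ∈ range (b + 1), nu N a b m *
          (if 1 ≤ b - m ∧ b - m < N then f ((b - m - 1) :: (a + m) :: w) else 0) +
        ∑ m ∈ range (b + 1), nu N a b m * v N ^ (-wt N (b - m)) *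
            (if 1 ≤ a + m ∧ a + m < N then f ((b - m) :: (a + m - 1) :: w) else 0) +
        ∑ m ∈ range (b + 1), nu N a b m * (v N ^ (-wt N (b - m)) *
        (v N ^ (-wt N (a + m)) * Fop N (fun u => f ((b - m) :: (a + m) :: u)) w)) := by
      rw [← sum_add_distrib, ← sum_add_distrib]
      apply sum_congr rfl
      intro m _
      ring
    rw [hsplit, hthird]
    have hS2 : ∀ m ∈ range (b + 1), nu N a b m * v N ^ (-wt N (b - m)) *
          (if 1 ≤ a + m ∧ a + m < N then f ((b - m) :: (a + m - 1) :: w) else 0) =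
          if 1 ≤ a + m then nu N a b m * v N ^ (-wt N (b - m)) *
            f ((b - m) :: (a + m - 1) :: w) else 0 := by
      intro m _
      by_cases h1 : a + m < N
      · by_cases h2 : 1 ≤ a + m
        · rw [if_pos ⟨h2, h1⟩, if_pos h2]
        · rw [if_neg (by omega), if_neg h2, mul_zero]
      · rw [if_neg (by omega), nu_zero_of_ge ha (by omega)]; simp
    rw [sum_congr rfl hS2]
    rcases b with _ | b
    · simp only [zero_add, range_one, sum_singleton, Nat.add_zero, Nat.sub_zero]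
      rw [if_neg (show ¬ (1 ≤ 0 ∧ 0 < N) by omega), if_neg (show ¬ (1 ≤ 0 ∧ 0 < N) by omega)]
      by_cases ha1 : 1 ≤ a
      · rw [if_pos ha1, if_pos ⟨ha1, ha⟩, neg_apply (by omega) hb hN]
        simp only [zero_add, range_one, sum_singleton, Nat.add_zero, Nat.sub_zero]
        rw [← nu_F_zero hN ha1]
        ring
      · rw [if_neg ha1, if_neg (by omega)]; ring
    · rw [if_pos (show 1 ≤ b + 1 ∧ b + 1 < N from ⟨by omega, hb⟩), Nat.add_sub_cancel,
        neg_apply ha (by omega) hN, sum_range_succ' (fun m => if 1 ≤ a + m then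
          nu N a (b + 1) m * v N ^ (-wt N (b + 1 - m)) *
            f ((b + 1 - m) :: (a + m - 1) :: w) else 0),
        sum_range_succ (fun m => nu N a (b + 1) m *
          (if 1 ≤ b + 1 - m ∧ b + 1 - m < N then f ((b + 1 - m - 1) :: (a + m) :: w) else 0))]
      have hlast : (if 1 ≤ b + 1 - (b + 1) ∧ b + 1 - (b + 1) < N then
          f ((b + 1 - (b + 1) - 1) :: (a + (b + 1)) :: w) else 0) = 0 := by
        rw [if_neg (by omega)]
      rw [hlast, mul_zero, add_zero]
      have hR1 : (if 1 ≤ a ∧ a < N then piece N .neg f ((a - 1) :: (b + 1) :: w) else 0) =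
          ∑ m ∈ range (b + 1), (if 1 ≤ a ∧ a < N then nu N (a - 1) (b + 1) (m + 1) else 0) *
            f ((b - m) :: (a + m) :: w) +
          (if 1 ≤ a then nu N (a - 1) (b + 1) 0 * f ((b + 1) :: (a - 1) :: w) else 0) := by
        by_cases ha1 : 1 ≤ a
        · rw [if_pos ⟨ha1, ha⟩, neg_apply (by omega) hb hN, sum_range_succ', if_pos ha1]
          congr 1
          apply sum_congr rfl
          intro m hm
          rw [mem_range] at hm
          rw [if_pos ⟨ha1, ha⟩]
          congr 3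
          · omega
          · congr 1
            omega
        · rw [if_neg (by omega), if_neg ha1]
          symm
          rw [add_zero]
          apply sum_eq_zero
          intro m _
          rw [if_neg (by omega), zero_mul]
      rw [hR1]
      have hzero : (if 1 ≤ a + 0 then nu N a (b + 1) 0 * v N ^ (-wt N (b + 1 - 0)) *
          f ((b + 1 - 0) :: (a + 0 - 1) :: w) else 0) =
          (if 1 ≤ a then nu N (a - 1) (b + 1) 0 * f ((b + 1) :: (a - 1) :: w) else 0) := by
        by_cases ha1 : 1 ≤ a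
        · rw [if_pos (show 1 ≤ a + 0 from ha1), if_pos ha1, ← nu_F_zero hN ha1, Nat.sub_zero,
            Nat.add_zero]
          ring
        · rw [if_neg (show ¬ 1 ≤ a + 0 from ha1), if_neg ha1]
      rw [hzero]
      have hmain : ∑ m ∈ range (b + 1), (if 1 ≤ a + (m + 1) then nu N a (b + 1) (m + 1) *
            v N ^ (-wt N (b + 1 - (m + 1))) *
            f ((b + 1 - (m + 1)) :: (a + (m + 1) - 1) :: w) else 0) +
          ∑ m ∈ range (b + 1), nu N a (b + 1) m *
            (if 1 ≤ b + 1 - m ∧ b + 1 - m < N then f ((b + 1 - m - 1) :: (a + m) :: w) else 0) =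
          v N ^ (-wt N a) * ∑ m ∈ range (b + 1), nu N a b m * f ((b - m) :: (a + m) :: w) +
          ∑ m ∈ range (b + 1),
            (if 1 ≤ a ∧ a < N then nu N (a - 1) (b + 1) (m + 1) else 0) *
            f ((b - m) :: (a + m) :: w) := by
        rw [mul_sum, ← sum_add_distrib, ← sum_add_distrib]
        apply sum_congr rfl
        intro m hm
        rw [mem_range] at hm
        rw [if_pos (by omega), if_pos ⟨by omega, by omega⟩]
        have e1 : a + (m + 1) - 1 = a + m := by omega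
        have e2 : b + 1 - (m + 1) = b - m := by omega
        have e3 : b + 1 - m - 1 = b - m := by omega
        rw [e1, e2, e3]
        have := nu_F (m := m) hN ha hb (by omega)
        by_cases ha1 : 1 ≤ a ∧ a < N
        · rw [if_pos ha1] at this ⊢
          linear_combination f ((b - m) :: (a + m) :: w) * this
        · rw [if_neg ha1] at this ⊢
          linear_combination f ((b - m) :: (a + m) :: w) * this
      linear_combination hmain
  · rw [neg_apply_zero hv]
    simp only [Fop]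
    have h3 : (fun u => piece N .neg f (a :: b :: u)) = fun _ => 0 := by
      funext u; exact neg_apply_zero hv f u
    rw [h3, Fop_zero_fun]
    have h1 : (if 1 ≤ a ∧ a < N then piece N .neg f ((a - 1) :: b :: w) else 0) = 0 := by
      split_ifs with h
      · exact neg_apply_zero (by omega) f w
      · rfl
    have h2 : (if 1 ≤ b ∧ b < N then piece N .neg f (a :: (b - 1) :: w) else 0) = 0 := by
      split_ifs with h
      · exact neg_apply_zero (by omega) f w
      · rfl
    rw [h1, h2]; ring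

lemma piece_neg_E {N : ℕ} (hN : 2 ≤ N) (f : List ℕ → ℂ) (w : List ℕ) :
    piece N .neg (Eop N f) w = Eop N (piece N .neg f) w := by
  rcases w with _ | ⟨a, _ | ⟨b, w⟩⟩
  · simp [piece, Eop]
  · simp [piece, Eop]
  by_cases hv : a < N ∧ b < N
  · obtain ⟨ha, hb⟩ := hv
    rw [neg_apply ha hb hN]
    simp only [Eop, wtl]
    have h3 : Eop N (fun u => piece N .neg f (a :: b :: u)) w =
        ∑ m ∈ range (b + 1), nu N a b m * Eop N (fun u => f ((b - m) :: (a + m) :: u)) w := by
      have : (fun u => piece N .neg f (a :: b :: u)) =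
          fun u => ∑ m ∈ range (b + 1), nu N a b m * f ((b - m) :: (a + m) :: u) := by
        funext u; exact neg_apply ha hb hN f u
      rw [this, Eop_sum]
      apply sum_congr rfl
      intro m _
      exact Eop_smul N _ _ w
    rw [h3]
    have hP1 : ecoef N (a + 1) * piece N .neg f ((a + 1) :: b :: w) =
        ecoef N (a + 1) * ∑ m ∈ range (b + 1), nu N (a + 1) b m *
          f ((b - m) :: (a + 1 + m) :: w) := by
      by_cases h : a + 1 < N
      · rw [neg_apply h hb hN]
      · rw [ecoef_ge (by omega)]; ring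
    have hP2 : ecoef N (b + 1) * piece N .neg f (a :: (b + 1) :: w) =
        ecoef N (b + 1) * ∑ m ∈ range (b + 2), nu N a (b + 1) m *
          f ((b + 1 - m) :: (a + m) :: w) := by
      by_cases h : b + 1 < N
      · rw [neg_apply ha h hN]
      · rw [ecoef_ge (by omega)]; ring
    have hA : ∑ m ∈ range (b + 1), nu N a b m *
        (ecoef N (b - m + 1) * v N ^ (wt N (a + m) + wtl N w) * f ((b - m + 1) :: (a + m) :: w) +
          (ecoef N (a + m + 1) * v N ^ (wtl N w) * f ((b - m) :: (a + m + 1) :: w) +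
            Eop N (fun u => f ((b - m) :: (a + m) :: u)) w)) =
        v N ^ (wtl N w) * (∑ m ∈ range (b + 1), (ecoef N (b + 1 - m) * v N ^ (wt N (a + m)) *
          nu N a b m) * f ((b + 1 - m) :: (a + m) :: w)) +
        v N ^ (wtl N w) * (∑ m ∈ range (b + 1), (ecoef N (a + m + 1) * nu N a b m) *
          f ((b - m) :: (a + 1 + m) :: w)) +
        ∑ m ∈ range (b + 1), nu N a b m * Eop N (fun u => f ((b - m) :: (a + m) :: u)) w := by
      rw [mul_sum, mul_sum, ← sum_add_distrib, ← sum_add_distrib]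
      apply sum_congr rfl
      intro m hm
      rw [mem_range] at hm
      have e1 : b - m + 1 = b + 1 - m := by omega
      have e2 : a + 1 + m = a + m + 1 := by ring
      rw [e1, ← vz, e2]
      ring
    rw [hA]
    have hB : ∑ m ∈ range (b + 1), (ecoef N (a + 1) * v N ^ (wt N b) * nu N (a + 1) b m) *
          f ((b - m) :: (a + 1 + m) :: w) +
        ∑ m ∈ range (b + 2), (ecoef N (b + 1) * nu N a (b + 1) m) *
          f ((b + 1 - m) :: (a + m) :: w) =
        ∑ m ∈ range (b + 1), (ecoef N (b + 1 - m) * v N ^ (wt N (a + m)) *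
          nu N a b m) * f ((b + 1 - m) :: (a + m) :: w) +
        ∑ m ∈ range (b + 1), (ecoef N (a + m + 1) * nu N a b m) *
          f ((b - m) :: (a + 1 + m) :: w) := by
      have e3 : ∑ m ∈ range (b + 1), (ecoef N (b + 1 - m) * v N ^ (wt N (a + m)) *
          nu N a b m) * f ((b + 1 - m) :: (a + m) :: w) = ∑ m ∈ range (b + 2),
          (ecoef N (b + 1 - m) * v N ^ (wt N (a + m)) *
          nu N a b m) * f ((b + 1 - m) :: (a + m) :: w) := by
        rw [sum_range_succ _ (b + 1), Nat.sub_self, ecoef_zero]; ring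
      rw [e3, sum_range_succ' _ (b + 1), sum_range_succ' _ (b + 1)]
      have e4 : ecoef N (b + 1) * nu N a (b + 1) 0 * f ((b + 1 - 0) ::
          (a + 0) :: w) = ecoef N (b + 1 - 0) * v N ^ (wt N (a + 0)) * nu N a b 0 *
          f ((b + 1 - 0) :: (a + 0) :: w) := by
        rw [Nat.sub_zero, ← nu_E_zero hN]
        rfl
      rw [e4]
      have e5 : ∑ m ∈ range (b + 1), (ecoef N (a + 1) * v N ^ (wt N b) * nu N (a + 1) b m) *
            f ((b - m) :: (a + 1 + m) :: w) +
          ∑ m ∈ range (b + 1), (ecoef N (b + 1) * nu N a (b + 1) (m + 1)) *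
            f ((b + 1 - (m + 1)) :: (a + (m + 1)) :: w) =
          ∑ m ∈ range (b + 1), (ecoef N (b + 1 - (m + 1)) * v N ^ (wt N (a + (m + 1))) *
            nu N a b (m + 1)) * f ((b + 1 - (m + 1)) :: (a + (m + 1)) :: w) +
          ∑ m ∈ range (b + 1), (ecoef N (a + m + 1) * nu N a b m) *
            f ((b - m) :: (a + 1 + m) :: w) := by
        rw [← sum_add_distrib, ← sum_add_distrib]
        apply sum_congr rfl
        intro m hm
        rw [mem_range] at hm
        have e6 : b + 1 - (m + 1) = b - m := by omega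
        have e7 : a + (m + 1) = a + m + 1 := by ring
        have e8 : a + 1 + m = a + m + 1 := by ring
        rw [e6, e7, e8]
        have := nu_E (m := m) hN ha hb (by omega)
        linear_combination (- f ((b - m) :: (a + m + 1) :: w)) * this
      linear_combination e5
    have hC1 : ∑ m ∈ range (b + 1), (ecoef N (a + 1) * v N ^ (wt N b) * nu N (a + 1) b m) *
          f ((b - m) :: (a + 1 + m) :: w) = v N ^ (wt N b) * (ecoef N (a + 1) *
          ∑ m ∈ range (b + 1), nu N (a + 1) b m * f ((b - m) :: (a + 1 + m) :: w)) := by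
      rw [mul_sum, mul_sum]
      apply sum_congr rfl
      intro m _; ring
    have hC2 : ∑ m ∈ range (b + 2), (ecoef N (b + 1) * nu N a (b + 1) m) *
          f ((b + 1 - m) :: (a + m) :: w) = ecoef N (b + 1) *
          ∑ m ∈ range (b + 2), nu N a (b + 1) m * f ((b + 1 - m) :: (a + m) :: w) := by
      rw [mul_sum]
      apply sum_congr rfl
      intro m _; ring
    rw [hC1, hC2, ← hP1, ← hP2] at hB
    rw [← vz]
    linear_combination (- v N ^ (wtl N w)) * hB
  · rw [neg_apply_zero hv]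
    simp only [Eop]
    have h3 : (fun u => piece N .neg f (a :: b :: u)) = fun _ => 0 := by
      funext u; exact neg_apply_zero hv f u
    rw [h3, Eop_zero_fun, neg_apply_zero (show ¬ (a + 1 < N ∧ b < N) by omega),
      neg_apply_zero (show ¬ (a < N ∧ b + 1 < N) by omega)]
    ring

/-! ### cup and cap -/

lemma cupC_succ {N : ℕ} (i : ℕ) : cupC N (i + 1) = - v N ^ (wt N (i + 1)) * cupC N i := by
  unfold cupC
  have : v N ^ (((i + 1 : ℕ) : ℤ) * ((N : ℤ) - 2 - ((i + 1 : ℕ) : ℤ))) =
      v N ^ (wt N (i + 1)) * v N ^ ((i : ℤ) * ((N : ℤ) - 2 - i)) := by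
    rw [vz]; congr 1; unfold wt; push_cast; ring
  rw [this, pow_succ]; ring

lemma cupC_ne (N i : ℕ) : cupC N i ≠ 0 := by
  unfold cupC
  exact mul_ne_zero (pow_ne_zero _ (by norm_num)) (vz_ne _ _)

lemma capC_succ {N i : ℕ} (h : i + 1 < N) : capC N (i + 1) = - v N ^ (-wt N i) * capC N i := by
  unfold capC
  obtain ⟨j, hj⟩ : ∃ j, N - 1 - i = j + 1 := ⟨N - 1 - i - 1, by omega⟩
  have hj' : N - 1 - (i + 1) = j := by omega
  rw [hj, hj', cupC_succ]
  have h1 : wt N (j + 1) = - wt N i := by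
    unfold wt
    have : ((j + 1 : ℕ) : ℤ) = (N : ℤ) - 1 - i := by omega
    rw [this]; ring
  have h2 := cupC_ne N j
  have h3 := vz_ne N (-wt N i)
  rw [h1]
  field_simp

lemma wt_add_wt {N a b : ℕ} (h : a + b + 1 = N) : wt N a + wt N b = 0 := by
  unfold wt; subst h; push_cast; ring

lemma piece_cup_F {N : ℕ} (f : List ℕ → ℂ) (w : List ℕ) :
    piece N .cup (Fop N f) w = Fop N (piece N .cup f) w := by
  rcases w with _ | ⟨a, _ | ⟨b, w⟩⟩
  · simp [piece, Fop]
  · simp [piece, Fop]
  simp only [piece, Fop]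
  by_cases h : a + b + 1 = N
  · have h3 : Fop N (fun u => if a + b + 1 = N then cupC N a * f u else 0) w =
        cupC N a * Fop N f w := by
      have : (fun u => if a + b + 1 = N then cupC N a * f u else 0) =
          fun u => cupC N a * f u := by funext u; rw [if_pos h]
      rw [this, Fop_smul]
    have h0 : v N ^ (-wt N a) * v N ^ (-wt N b) = 1 := by
      rw [vz, ← neg_add, wt_add_wt h, neg_zero, zpow_zero]
    rw [if_pos h, h3]
    have h1 : (if 1 ≤ a ∧ a < N then (if a - 1 + b + 1 = N then cupC N (a - 1) * f w else 0)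
        else 0) = 0 := by
      split_ifs <;> first | rfl | omega
    have h2 : (if 1 ≤ b ∧ b < N then (if a + (b - 1) + 1 = N then cupC N a * f w else 0)
        else 0) = 0 := by
      split_ifs <;> first | rfl | omega
    rw [h1, h2]
    linear_combination (-cupC N a * Fop N f w) * h0
  · have h3 : Fop N (fun u => if a + b + 1 = N then cupC N a * f u else 0) w = 0 := by
      have : (fun u => if a + b + 1 = N then cupC N a * f u else 0) = fun _ => 0 := by
        funext u; rw [if_neg h]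
      rw [this, Fop_zero_fun]
    rw [if_neg h, h3]
    by_cases h' : a + b = N ∧ 1 ≤ a ∧ 1 ≤ b
    · obtain ⟨h1, h2, h4⟩ := h'
      rw [if_pos (show 1 ≤ a ∧ a < N by omega), if_pos (show a - 1 + b + 1 = N by omega),
        if_pos (show 1 ≤ b ∧ b < N by omega), if_pos (show a + (b - 1) + 1 = N by omega)]
      obtain ⟨i, rfl⟩ : ∃ i, a = i + 1 := ⟨a - 1, by omega⟩
      rw [Nat.add_sub_cancel, cupC_succ]
      have h5 : v N ^ (-wt N (i + 1)) * v N ^ (wt N (i + 1)) = 1 := by
        rw [vz, neg_add_cancel, zpow_zero]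
      linear_combination (cupC N i * f w) * h5
    · have h1 : (if 1 ≤ a ∧ a < N then (if a - 1 + b + 1 = N then cupC N (a - 1) * f w else 0)
          else 0) = 0 := by
        split_ifs <;> first | rfl | omega
      have h2 : (if 1 ≤ b ∧ b < N then (if a + (b - 1) + 1 = N then cupC N a * f w else 0)
          else 0) = 0 := by
        split_ifs <;> first | rfl | omega
      rw [h1, h2]; ring

lemma piece_cap_F {N : ℕ} (hN : 2 ≤ N) (f : List ℕ → ℂ) (w : List ℕ) :
    piece N .cap (Fop N f) w = Fop N (piece N .cap f) w := by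
  obtain ⟨M, rfl⟩ : ∃ M, N = M + 1 := ⟨N - 1, by omega⟩
  have hR : Fop (M + 1) (piece (M + 1) .cap f) w = ∑ a ∈ range (M + 1), capC (M + 1) a *
      Fop (M + 1) (fun u => f (a :: (M - a) :: u)) w := by
    have : piece (M + 1) .cap f = fun u => ∑ a ∈ range (M + 1), capC (M + 1) a *
        f (a :: (M - a) :: u) := by
      funext u; simp only [piece, Nat.add_sub_cancel]
    rw [this, Fop_sum]
    apply sum_congr rfl
    intro a _
    exact Fop_smul _ _ _ _
  rw [hR]
  simp only [piece, Fop, Nat.add_sub_cancel]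
  have hw : ∀ a ∈ range (M + 1), v (M + 1) ^ (-wt (M + 1) a) *
      v (M + 1) ^ (-wt (M + 1) (M - a)) = 1 := by
    intro a ha
    rw [mem_range] at ha
    rw [vz, ← neg_add, wt_add_wt (by omega), neg_zero, zpow_zero]
  have h1 : ∑ a ∈ range (M + 1), capC (M + 1) a *
      ((if 1 ≤ a ∧ a < M + 1 then f ((a - 1) :: (M - a) :: w) else 0) +
        v (M + 1) ^ (-wt (M + 1) a) *
          ((if 1 ≤ M - a ∧ M - a < M + 1 then f (a :: (M - a - 1) :: w) else 0) +
            v (M + 1) ^ (-wt (M + 1) (M - a)) *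
              Fop (M + 1) (fun u => f (a :: (M - a) :: u)) w)) =
      ∑ a ∈ range (M + 1), capC (M + 1) a *
        (if 1 ≤ a ∧ a < M + 1 then f ((a - 1) :: (M - a) :: w) else 0) +
      ∑ a ∈ range (M + 1), capC (M + 1) a * v (M + 1) ^ (-wt (M + 1) a) *
        (if 1 ≤ M - a ∧ M - a < M + 1 then f (a :: (M - a - 1) :: w) else 0) +
      ∑ a ∈ range (M + 1), capC (M + 1) a *
        Fop (M + 1) (fun u => f (a :: (M - a) :: u)) w := by
    rw [← sum_add_distrib, ← sum_add_distrib]
    apply sum_congr rfl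
    intro a ha
    linear_combination (capC (M + 1) a * Fop (M + 1) (fun u => f (a :: (M - a) :: u)) w) *
      hw a ha
  rw [h1, sum_range_succ' (fun a => capC (M + 1) a *
        (if 1 ≤ a ∧ a < M + 1 then f ((a - 1) :: (M - a) :: w) else 0)),
    sum_range_succ (fun a => capC (M + 1) a * v (M + 1) ^ (-wt (M + 1) a) *
        (if 1 ≤ M - a ∧ M - a < M + 1 then f (a :: (M - a - 1) :: w) else 0))]
  rw [if_neg (show ¬ (1 ≤ 0 ∧ 0 < M + 1) by omega),
    if_neg (show ¬ (1 ≤ M - M ∧ M - M < M + 1) by omega)]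
  have h2 : ∑ a ∈ range M, capC (M + 1) (a + 1) *
        (if 1 ≤ a + 1 ∧ a + 1 < M + 1 then f ((a + 1 - 1) :: (M - (a + 1)) :: w) else 0) +
      ∑ a ∈ range M, capC (M + 1) a * v (M + 1) ^ (-wt (M + 1) a) *
        (if 1 ≤ M - a ∧ M - a < M + 1 then f (a :: (M - a - 1) :: w) else 0) = 0 := by
    rw [← sum_add_distrib]
    apply sum_eq_zero
    intro a ha
    rw [mem_range] at ha
    rw [if_pos (by omega), if_pos (by omega), capC_succ (by omega), Nat.add_sub_cancel]
    have e1 : M - (a + 1) = M - a - 1 := by omega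
    rw [e1]; ring
  linear_combination h2

lemma piece_F {N : ℕ} (hN : 2 ≤ N) (p : Piece) (f : List ℕ → ℂ) (w : List ℕ) :
    piece N p (Fop N f) w = Fop N (piece N p f) w := by
  cases p with
  | cup => exact piece_cup_F f w
  | cap => exact piece_cap_F hN f w
  | pos => exact piece_pos_F hN f w
  | neg => exact piece_neg_F hN f w

lemma slice_F {N : ℕ} (hN : 2 ≤ N) (p : Piece) (k : ℕ) (f : List ℕ → ℂ) :
    slice N p k (Fop N f) = Fop N (slice N p k f) := by
  induction k generalizing f with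
  | zero => funext w; exact piece_F hN p f w
  | succ k ih =>
    funext w
    rcases w with _ | ⟨x, w⟩
    · simp [slice, Fop]
    · simp only [slice, Fop]
      have h1 : (fun u => (if 1 ≤ x ∧ x < N then f ((x - 1) :: u) else 0) +
          v N ^ (-wt N x) * Fop N (fun u => f (x :: u)) u) =
          fun u => (fun u => if 1 ≤ x ∧ x < N then f ((x - 1) :: u) else 0) u +
            (fun u => v N ^ (-wt N x) * Fop N (fun u => f (x :: u)) u) u := rfl
      rw [h1, slice_add, slice_smul, ih]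
      congr 1
      split_ifs with h
      · rfl
      · exact congrFun (slice_zero_fun N p k) w

/-- The operator of a diagram commutes with `F`. -/
lemma RT_F {N : ℕ} (hN : 2 ≤ N) (D : Diagram) (f : List ℕ → ℂ) :
    RT N D (Fop N f) = Fop N (RT N D f) := by
  induction D generalizing f with
  | nil => rfl
  | cons s D ih => simp only [RT]; rw [slice_F hN, ih]

end Pool.Agent.Helper9.Kashaev

/-!
# Weights, the commutator of `E` and `F`, and nilpotency
-/

namespace Pool.Agent.Helper9.Kashaev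

open Finset

lemma piece_wtl {N : ℕ} (p : Piece) (φ : ℤ → ℂ) (g : List ℕ → ℂ) (w : List ℕ) :
    piece N p (fun u => φ (wtl N u) * g u) w = φ (wtl N w) * piece N p g w := by
  cases p with
  | cup =>
    rcases w with _ | ⟨a, _ | ⟨b, w⟩⟩
    · simp [piece]
    · simp [piece]
    simp only [piece]
    split_ifs with h
    · have : wtl N (a :: b :: w) = wtl N w := by
        simp only [wtl]; have := wt_add_wt h; linarith
      rw [this]; ring
    · ring
  | cap =>
    simp only [piece, mul_sum]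
    apply sum_congr rfl
    intro a ha
    rw [mem_range] at ha
    have : wtl N (a :: (N - 1 - a) :: w) = wtl N w := by
      simp only [wtl]
      have := wt_add_wt (N := N) (a := a) (b := N - 1 - a) (by omega)
      linarith
    rw [this]; ring
  | pos =>
    rcases w with _ | ⟨a, _ | ⟨b, w⟩⟩
    · simp [piece]
    · simp [piece]
    simp only [piece, mul_sum]
    apply sum_congr rfl
    intro m _
    split_ifs with h
    · have : wtl N ((b + m) :: (a - m) :: w) = wtl N (a :: b :: w) := by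
        simp only [wtl, wt]
        push_cast [Nat.cast_sub h.1]
        ring
      rw [this]; ring
    · ring
  | neg =>
    rcases w with _ | ⟨a, _ | ⟨b, w⟩⟩
    · simp [piece]
    · simp [piece]
    simp only [piece, mul_sum]
    apply sum_congr rfl
    intro m _
    split_ifs with h
    · have : wtl N ((b - m) :: (a + m) :: w) = wtl N (a :: b :: w) := by
        simp only [wtl, wt]
        push_cast [Nat.cast_sub h.1]
        ring
      rw [this]; ring
    · ring

lemma slice_wtl {N : ℕ} (p : Piece) (k : ℕ) (φ : ℤ → ℂ) (g : List ℕ → ℂ) (w : List ℕ) :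
    slice N p k (fun u => φ (wtl N u) * g u) w = φ (wtl N w) * slice N p k g w := by
  induction k generalizing φ g w with
  | zero => exact piece_wtl p φ g w
  | succ k ih =>
    rcases w with _ | ⟨x, w⟩
    · simp [slice]
    · simp only [slice, wtl]
      exact ih (fun y => φ (wt N x + y)) _ _

lemma piece_cup_E {N : ℕ} (f : List ℕ → ℂ) (w : List ℕ) :
    piece N .cup (Eop N f) w = Eop N (piece N .cup f) w := by
  rcases w with _ | ⟨a, _ | ⟨b, w⟩⟩
  · simp [piece, Eop]
  · simp [piece, Eop]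
  simp only [piece, Eop, wtl]
  have h3 : Eop N (fun u => if a + b + 1 = N then cupC N a * f u else 0) w =
      if a + b + 1 = N then cupC N a * Eop N f w else 0 := by
    split_ifs with h
    · exact Eop_smul _ _ _ _
    · exact Eop_zero_fun _ _
  rw [h3]
  by_cases h : a + b + 2 = N
  · rw [if_neg (show ¬ a + b + 1 = N by omega), if_pos (show a + 1 + b + 1 = N by omega),
      if_pos (show a + (b + 1) + 1 = N by omega), cupC_succ]
    have h1 : ecoef N (a + 1) = ecoef N (b + 1) := by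
      unfold ecoef
      rw [show N - (a + 1) = b + 1 by omega, show N - (b + 1) = a + 1 by omega]; ring
    have h2 : v N ^ (wt N b + wtl N w) * v N ^ (wt N (a + 1)) = v N ^ (wtl N w) := by
      rw [vz]; congr 1
      have := wt_add_wt (N := N) (a := a + 1) (b := b) (by omega)
      linarith
    rw [h1]
    linear_combination (ecoef N (b + 1) * cupC N a * f w) * h2
  · rw [if_neg (show ¬ a + 1 + b + 1 = N by omega), if_neg (show ¬ a + (b + 1) + 1 = N by omega)]
    ring

lemma piece_cap_E {N : ℕ} (hN : 2 ≤ N) (f : List ℕ → ℂ) (w : List ℕ) :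
    piece N .cap (Eop N f) w = Eop N (piece N .cap f) w := by
  obtain ⟨M, rfl⟩ : ∃ M, N = M + 1 := ⟨N - 1, by omega⟩
  have hR : Eop (M + 1) (piece (M + 1) .cap f) w = ∑ a ∈ range (M + 1), capC (M + 1) a *
      Eop (M + 1) (fun u => f (a :: (M - a) :: u)) w := by
    have : piece (M + 1) .cap f = fun u => ∑ a ∈ range (M + 1), capC (M + 1) a *
        f (a :: (M - a) :: u) := by
      funext u; simp only [piece, Nat.add_sub_cancel]
    rw [this, Eop_sum]
    apply sum_congr rfl
    intro a _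
    exact Eop_smul _ _ _ _
  rw [hR]
  simp only [piece, Eop, wtl, Nat.add_sub_cancel]
  have h1 : ∑ a ∈ range (M + 1), capC (M + 1) a *
      (ecoef (M + 1) (a + 1) * v (M + 1) ^ (wt (M + 1) (M - a) + wtl (M + 1) w) *
          f ((a + 1) :: (M - a) :: w) +
        (ecoef (M + 1) (M - a + 1) * v (M + 1) ^ (wtl (M + 1) w) *
          f (a :: (M - a + 1) :: w) +
            Eop (M + 1) (fun u => f (a :: (M - a) :: u)) w)) =
      ∑ a ∈ range (M + 1), capC (M + 1) a *
        (ecoef (M + 1) (a + 1) * v (M + 1) ^ (wt (M + 1) (M - a) + wtl (M + 1) w) *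
          f ((a + 1) :: (M - a) :: w)) +
      ∑ a ∈ range (M + 1), capC (M + 1) a *
        (ecoef (M + 1) (M - a + 1) * v (M + 1) ^ (wtl (M + 1) w) *
          f (a :: (M - a + 1) :: w)) +
      ∑ a ∈ range (M + 1), capC (M + 1) a *
        Eop (M + 1) (fun u => f (a :: (M - a) :: u)) w := by
    rw [← sum_add_distrib, ← sum_add_distrib]
    apply sum_congr rfl
    intro a _
    ring
  rw [h1, sum_range_succ (fun a => capC (M + 1) a *
        (ecoef (M + 1) (a + 1) * v (M + 1) ^ (wt (M + 1) (M - a) + wtl (M + 1) w) *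
          f ((a + 1) :: (M - a) :: w))),
    sum_range_succ' (fun a => capC (M + 1) a *
        (ecoef (M + 1) (M - a + 1) * v (M + 1) ^ (wtl (M + 1) w) *
          f (a :: (M - a + 1) :: w)))]
  rw [ecoef_ge (le_refl (M + 1)), ecoef_ge (show M + 1 ≤ M - 0 + 1 by omega)]
  have h2 : ∑ a ∈ range M, capC (M + 1) a *
        (ecoef (M + 1) (a + 1) * v (M + 1) ^ (wt (M + 1) (M - a) + wtl (M + 1) w) *
          f ((a + 1) :: (M - a) :: w)) +
      ∑ a ∈ range M, capC (M + 1) (a + 1) *
        (ecoef (M + 1) (M - (a + 1) + 1) * v (M + 1) ^ (wtl (M + 1) w) *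
          f ((a + 1) :: (M - (a + 1) + 1) :: w)) = 0 := by
    rw [← sum_add_distrib]
    apply sum_eq_zero
    intro a ha
    rw [mem_range] at ha
    rw [capC_succ (show a + 1 < M + 1 by omega)]
    have e1 : M - (a + 1) + 1 = M - a := by omega
    rw [e1]
    have e2 : ecoef (M + 1) (M - a) = ecoef (M + 1) (a + 1) := by
      unfold ecoef
      rw [show M + 1 - (M - a) = a + 1 by omega, show M + 1 - (a + 1) = M - a by omega]; ring
    have e3 : wt (M + 1) (M - a) = - wt (M + 1) a := by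
      have := wt_add_wt (N := M + 1) (a := a) (b := M - a) (by omega)
      linarith
    rw [e2, e3, ← vz]
    ring
  linear_combination h2

lemma piece_E {N : ℕ} (hN : 2 ≤ N) (p : Piece) (f : List ℕ → ℂ) (w : List ℕ) :
    piece N p (Eop N f) w = Eop N (piece N p f) w := by
  cases p with
  | cup => exact piece_cup_E f w
  | cap => exact piece_cap_E hN f w
  | pos => exact piece_pos_E hN f w
  | neg => exact piece_neg_E hN f w

lemma slice_E {N : ℕ} (hN : 2 ≤ N) (p : Piece) (k : ℕ) (f : List ℕ → ℂ) :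
    slice N p k (Eop N f) = Eop N (slice N p k f) := by
  induction k generalizing f with
  | zero => funext w; exact piece_E hN p f w
  | succ k ih =>
    funext w
    rcases w with _ | ⟨x, w⟩
    · simp [slice, Eop]
    · simp only [slice, Eop]
      have h1 : (fun u => ecoef N (x + 1) * v N ^ (wtl N u) * f ((x + 1) :: u) +
          Eop N (fun u => f (x :: u)) u) =
          fun u => (fun u => (fun y => ecoef N (x + 1) * v N ^ y) (wtl N u) *
            (fun u => f ((x + 1) :: u)) u) u + (fun u => Eop N (fun u => f (x :: u)) u) u := rfl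
      rw [h1, slice_add]
      exact congrArg₂ (· + ·) (slice_wtl (N := N) p k (fun y => ecoef N (x + 1) * v N ^ y)
        (fun u => f ((x + 1) :: u)) w) (congrFun (ih _) w)

lemma RT_E {N : ℕ} (hN : 2 ≤ N) (D : Diagram) (f : List ℕ → ℂ) :
    RT N D (Eop N f) = Eop N (RT N D f) := by
  induction D generalizing f with
  | nil => rfl
  | cons s D ih => simp only [RT]; rw [slice_E hN, ih]

lemma RT_wtl {N : ℕ} (D : Diagram) (φ : ℤ → ℂ) (g : List ℕ → ℂ) :
    RT N D (fun u => φ (wtl N u) * g u) = fun w => φ (wtl N w) * RT N D g w := by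
  induction D generalizing g with
  | nil => rfl
  | cons s D ih =>
    simp only [RT]
    have : slice N s.2 s.1 (fun u => φ (wtl N u) * g u) =
        fun w => φ (wtl N w) * slice N s.2 s.1 g w := by
      funext w; exact slice_wtl _ _ _ _ _
    rw [this, ih]

/-! ### the generators change the weight -/

lemma Eop_wtl {N : ℕ} (φ : ℤ → ℂ) (g : List ℕ → ℂ) (w : List ℕ) :
    Eop N (fun u => φ (wtl N u) * g u) w = φ (wtl N w - 2) * Eop N g w := by
  induction w generalizing φ g with
  | nil => simp [Eop]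
  | cons x w ih =>
    simp only [Eop, wtl]
    rw [ih (fun y => φ (wt N x + y)) (fun u => g (x :: u))]
    have e1 : wt N (x + 1) + wtl N w = wt N x + wtl N w - 2 := by unfold wt; push_cast; ring
    have e2 : wt N x + (wtl N w - 2) = wt N x + wtl N w - 2 := by ring
    rw [e1, e2]; ring

lemma Fop_wtl {N : ℕ} (φ : ℤ → ℂ) (g : List ℕ → ℂ) (w : List ℕ) :
    Fop N (fun u => φ (wtl N u) * g u) w = φ (wtl N w + 2) * Fop N g w := by
  induction w generalizing φ g with
  | nil => simp [Fop]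
  | cons x w ih =>
    simp only [Fop, wtl]
    rw [ih (fun y => φ (wt N x + y)) (fun u => g (x :: u))]
    have e2 : wt N x + (wtl N w + 2) = wt N x + wtl N w + 2 := by ring
    rw [e2]
    split_ifs with h
    · have e1 : wt N (x - 1) + wtl N w = wt N x + wtl N w + 2 := by
        unfold wt; push_cast [Nat.cast_sub h.1]; ring
      rw [e1]; ring
    · ring

/-- the commutator of `E` and `F` -/
lemma EF_comm {N : ℕ} (hN : 2 ≤ N) (f : List ℕ → ℂ)
    (hf : ∀ w, (∃ x ∈ w, N ≤ x) → f w = 0) (w : List ℕ) :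
    Eop N (Fop N f) w - Fop N (Eop N f) w = qi N (wtl N w) * f w := by
  induction w generalizing f with
  | nil => simp [Eop, Fop, wtl, qi_zero]
  | cons x w ih =>
    simp only [Eop, Fop, wtl]
    have ih' := ih (fun u => f (x :: u)) (by
      rintro u ⟨y, hy, hy'⟩
      exact hf _ ⟨y, List.mem_cons_of_mem _ hy, hy'⟩)
    have h1 : Eop N (fun u => (if 1 ≤ x ∧ x < N then f ((x - 1) :: u) else 0) +
        v N ^ (-wt N x) * Fop N (fun u => f (x :: u)) u) w =
        (if 1 ≤ x ∧ x < N then Eop N (fun u => f ((x - 1) :: u)) w else 0) +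
        v N ^ (-wt N x) * Eop N (Fop N (fun u => f (x :: u))) w := by
      rw [Eop_add N (fun u => if 1 ≤ x ∧ x < N then f ((x - 1) :: u) else 0)
        (fun u => v N ^ (-wt N x) * Fop N (fun u => f (x :: u)) u), Eop_smul]
      congr 1
      split_ifs
      · rfl
      · exact Eop_zero_fun _ _
    have h2 : Fop N (fun u => ecoef N (x + 1) * v N ^ (wtl N u) * f ((x + 1) :: u) +
        Eop N (fun u => f (x :: u)) u) w =
        ecoef N (x + 1) * v N ^ (wtl N w + 2) * Fop N (fun u => f ((x + 1) :: u)) w +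
        Fop N (Eop N (fun u => f (x :: u))) w := by
      rw [Fop_add N (fun u => ecoef N (x + 1) * v N ^ (wtl N u) * f ((x + 1) :: u))
        (fun u => Eop N (fun u => f (x :: u)) u)]
      congr 1
      exact Fop_wtl (fun y => ecoef N (x + 1) * v N ^ y) (fun u => f ((x + 1) :: u)) w
    rw [h1, h2]
    -- now algebra
    have e1 : v N ^ (wtl N w) * v N ^ (-wt N (x + 1)) =
        v N ^ (-wt N x) * v N ^ (wtl N w + 2) := by
      rw [vz, vz]; congr 1; unfold wt; push_cast; ring
    have hq : qi N (wt N x + wtl N w) =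
        qi N (wt N x) * v N ^ (wtl N w) + v N ^ (-wt N x) * qi N (wtl N w) := by
      unfold qi
      rw [neg_add, ← vz, ← vz]
      field_simp
      ring
    have hA : ecoef N (x + 1) * (if 1 ≤ x + 1 ∧ x + 1 < N then f ((x + 1 - 1) :: w) else 0) -
        (if 1 ≤ x ∧ x < N then ecoef N (x - 1 + 1) * f ((x - 1 + 1) :: w) else 0) =
        qi N (wt N x) * f (x :: w) := by
      by_cases hx : x < N
      · have hec : ecoef N (x + 1) - ecoef N x = qi N (wt N x) := by
          rw [ecoef_eq hN (by omega), ecoef_eq hN hx.le, qi_sq_sub hN]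
          have e3 : ((x + 1 : ℕ) : ℤ) - (x : ℤ) = 1 := by push_cast; ring
          have e4 : ((x + 1 : ℕ) : ℤ) + (x : ℤ) = (N : ℤ) - wt N x := by
            unfold wt; push_cast; ring
          rw [e3, e4, qi_one hN, qi_N_sub hN, one_mul]
        have hB : (if 1 ≤ x ∧ x < N then ecoef N (x - 1 + 1) * f ((x - 1 + 1) :: w) else 0) =
            ecoef N x * f (x :: w) := by
          by_cases h0 : 1 ≤ x
          · rw [if_pos ⟨h0, hx⟩, Nat.sub_add_cancel h0]
          · rw [if_neg (by omega), show x = 0 by omega, ecoef_zero, zero_mul]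
        have hC : ecoef N (x + 1) *
            (if 1 ≤ x + 1 ∧ x + 1 < N then f ((x + 1 - 1) :: w) else 0) =
            ecoef N (x + 1) * f (x :: w) := by
          by_cases h0 : x + 1 < N
          · rw [if_pos ⟨by omega, h0⟩, Nat.add_sub_cancel]
          · rw [ecoef_ge (by omega)]; ring
        rw [hB, hC, ← hec]; ring
      · rw [if_neg (by omega), if_neg (by omega), hf (x :: w) ⟨x, by simp, by omega⟩]; ring
    have hif : (if 1 ≤ x ∧ x < N then ecoef N (x - 1 + 1) * v N ^ (wtl N w) *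
        f ((x - 1 + 1) :: w) + Eop N (fun u => f ((x - 1) :: u)) w else 0) =
        v N ^ (wtl N w) * (if 1 ≤ x ∧ x < N then ecoef N (x - 1 + 1) * f ((x - 1 + 1) :: w)
          else 0) + (if 1 ≤ x ∧ x < N then Eop N (fun u => f ((x - 1) :: u)) w else 0) := by
      split_ifs <;> ring
    rw [hif, hq]
    linear_combination (v N ^ (wtl N w)) * hA + (v N ^ (-wt N x)) * ih' +
      (ecoef N (x + 1) * Fop N (fun u => f ((x + 1) :: u)) w) * e1

end Pool.Agent.Helper9.Kashaev

/-!
# Balanced q-binomials and nilpotency of the generators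
-/

namespace Pool.Agent.Helper9.Kashaev

open Finset

/-- balanced q-binomial coefficients -/
noncomputable def qb (N : ℕ) : ℕ → ℕ → ℂ
  | _, 0 => 1
  | 0, _ + 1 => 0
  | n + 1, j + 1 => v N ^ (-((j : ℤ) + 1)) * qb N n (j + 1) + v N ^ ((n : ℤ) - j) * qb N n j

lemma qb_zero_right (N n : ℕ) : qb N n 0 = 1 := by cases n <;> simp [qb]

lemma qb_gt {N : ℕ} (n : ℕ) : ∀ j, n < j → qb N n j = 0 := by
  induction n with
  | zero =>
    intro j hj
    obtain ⟨i, rfl⟩ : ∃ i, j = i + 1 := ⟨j - 1, by omega⟩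
    simp [qb]
  | succ n ih =>
    intro j hj
    obtain ⟨i, rfl⟩ : ∃ i, j = i + 1 := ⟨j - 1, by omega⟩
    simp only [qb]
    rw [ih (i + 1) (by omega), ih i (by omega)]; ring

lemma qb_self (N n : ℕ) : qb N n n = 1 := by
  induction n with
  | zero => simp [qb]
  | succ n ih =>
    simp only [qb]
    rw [qb_gt n (n + 1) (by omega), ih]; simp

lemma qi_add_mul {N : ℕ} (x y : ℤ) :
    v N ^ (-x) * qi N y + v N ^ y * qi N x = qi N (x + y) := by
  unfold qi
  have h1 : v N ^ (-x) * v N ^ y = v N ^ y * v N ^ (-x) := mul_comm _ _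
  rw [neg_add, ← vz, ← vz]
  ring

lemma qb_mul {N : ℕ} (n : ℕ) : ∀ j ≤ n, qb N n j * (qfac N j * qfac N (n - j)) = qfac N n := by
  induction n with
  | zero =>
    intro j hj
    obtain rfl : j = 0 := by omega
    simp [qb, qfac_zero]
  | succ n ih =>
    intro j hj
    rcases j with _ | j
    · rw [qb_zero_right, qfac_zero, Nat.sub_zero]; ring
    · simp only [qb]
      rcases Nat.lt_or_ge n (j + 1) with h | h
      · obtain rfl : j = n := by omega
        rw [qb_gt j (j + 1) (by omega), qb_self, Nat.sub_self, qfac_zero]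
        simp
      · have h1 := ih (j + 1) h
        have h2 := ih j (by omega)
        have e1 : n + 1 - (j + 1) = n - (j + 1) + 1 := by omega
        have e2 : n - j = n - (j + 1) + 1 := by omega
        rw [e2] at h2
        rw [e1]
        have e3 : (((n - (j + 1) : ℕ) : ℤ) + 1) = (n : ℤ) - j := by
          push_cast [Nat.cast_sub h]; ring
        have q1 := qfac_succ N (n - (j + 1))
        have q2 := qfac_succ N j
        have q3 := qfac_succ N n
        rw [e3] at q1
        have q4 := qi_add_mul (N := N) ((j : ℤ) + 1) ((n : ℤ) - j)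
        rw [show (j : ℤ) + 1 + ((n : ℤ) - j) = (n : ℤ) + 1 by ring] at q4
        rw [q1] at h2
        rw [q2] at h1
        rw [q1, q2, q3]
        linear_combination (v N ^ (-((j : ℤ) + 1)) * qi N ((n : ℤ) - j)) * h1 +
          (v N ^ ((n : ℤ) - j) * qi N ((j : ℤ) + 1)) * h2 + qfac N n * q4

lemma qb_ratio {N n j : ℕ} (hn : n < N) (hj : j ≤ n) :
    qb N n (j + 1) * qi N (j + 1) = qb N n j * qi N ((n : ℤ) - j) := by
  rcases Nat.lt_or_ge n (j + 1) with h | h
  · obtain rfl : j = n := by omega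
    rw [qb_gt j (j + 1) (by omega), sub_self, qi_zero]; ring
  · have h1 := qb_mul (N := N) n (j + 1) h
    have h2 := qb_mul (N := N) n j hj
    have e2 : n - j = n - (j + 1) + 1 := by omega
    have e3 : (((n - (j + 1) : ℕ) : ℤ) + 1) = (n : ℤ) - j := by
      push_cast [Nat.cast_sub h]; ring
    have q1 := qfac_succ N (n - (j + 1))
    rw [e3] at q1
    rw [e2, q1] at h2
    rw [qfac_succ] at h1
    have f1 : qfac N j ≠ 0 := qfac_ne (by omega)
    have f2 : qfac N (n - (j + 1)) ≠ 0 := qfac_ne (by omega)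
    have := h1.trans h2.symm
    have h3 : (qb N n (j + 1) * qi N (j + 1) - qb N n j * qi N ((n : ℤ) - j)) *
        (qfac N j * qfac N (n - (j + 1))) = 0 := by linear_combination this
    rcases mul_eq_zero.mp h3 with h4 | h4
    · exact sub_eq_zero.mp h4
    · exact absurd h4 (mul_ne_zero f1 f2)

/-- the other Pascal rule -/
lemma qb_succ' {N n : ℕ} (hN : 2 ≤ N) (hn : n < N) (j : ℕ) :
    qb N (n + 1) (j + 1) =
      v N ^ ((j : ℤ) + 1) * qb N n (j + 1) + v N ^ (-((n : ℤ) - j)) * qb N n j := by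
  simp only [qb]
  rcases Nat.lt_or_ge n j with h | h
  · rw [qb_gt n (j + 1) (by omega), qb_gt n j h]; ring
  · have h1 := qb_ratio hn h
    have h2 := qi_mul_vd hN ((j : ℤ) + 1)
    have h3 := qi_mul_vd hN ((n : ℤ) - j)
    linear_combination (-(v N - (v N)⁻¹)) * h1 + qb N n (j + 1) * h2 - qb N n j * h3

/-- both Pascal rules at once -/
lemma qb_pascal {N n : ℕ} (hN : 2 ≤ N) (hn : n < N) (j : ℕ) {u : ℂ}
    (hu : u = v N ∨ u = (v N)⁻¹) :
    qb N (n + 1) (j + 1) =
      u ^ (-((j : ℤ) + 1)) * qb N n (j + 1) + u ^ ((n : ℤ) - j) * qb N n j := by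
  rcases hu with rfl | rfl
  · simp only [qb]
  · rw [qb_succ' hN hn, inv_zpow', inv_zpow', neg_neg]

/-- the noncommutative binomial theorem -/
lemma q_binomial {R : Type*} [Ring R] [Algebra ℂ R] {N : ℕ} (hN : 2 ≤ N) {u : ℂ}
    (hu : u = v N ∨ u = (v N)⁻¹) (P Q : R) (hQP : Q * P = u ^ (-2 : ℤ) • (P * Q)) :
    ∀ n ≤ N, (P + Q) ^ n = ∑ j ∈ range (n + 1),
      (u ^ (-((j : ℤ) * ((n : ℤ) - j))) * qb N n j) • (P ^ j * Q ^ (n - j)) := by
  have hu0 : u ≠ 0 := by
    rcases hu with rfl | rfl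
    · exact v_ne N
    · exact inv_ne_zero (v_ne N)
  have hQPj : ∀ j : ℕ, Q * P ^ j = u ^ (-2 * (j : ℤ)) • (P ^ j * Q) := by
    intro j
    induction j with
    | zero => simp
    | succ j ih =>
      rw [pow_succ, ← mul_assoc, ih, smul_mul_assoc, mul_assoc, hQP, mul_smul_comm, smul_smul,
        ← mul_assoc, ← zpow_add₀ hu0]
      congr 2
      push_cast; ring
  intro n
  induction n with
  | zero => intro _; simp [qb]
  | succ n ih =>
    intro hn
    rw [pow_succ', ih (by omega), add_mul, mul_sum, mul_sum]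
    have e1 : ∑ j ∈ range (n + 1), P * ((u ^ (-((j : ℤ) * ((n : ℤ) - j))) * qb N n j) •
        (P ^ j * Q ^ (n - j))) = ∑ j ∈ range (n + 1),
        (u ^ (-((j : ℤ) * ((n : ℤ) - j))) * qb N n j) • (P ^ (j + 1) * Q ^ (n - j)) := by
      apply sum_congr rfl
      intro j _
      rw [mul_smul_comm, ← mul_assoc, pow_succ']
    have e2 : ∑ j ∈ range (n + 1), Q * ((u ^ (-((j : ℤ) * ((n : ℤ) - j))) * qb N n j) •
        (P ^ j * Q ^ (n - j))) = ∑ j ∈ range (n + 1),
        (u ^ (-((j : ℤ) * ((n : ℤ) - j))) * qb N n j * u ^ (-2 * (j : ℤ))) •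
          (P ^ j * Q ^ (n + 1 - j)) := by
      apply sum_congr rfl
      intro j hj
      rw [mem_range] at hj
      rw [mul_smul_comm, ← mul_assoc, hQPj, smul_mul_assoc, smul_smul, mul_assoc (P ^ j),
        ← pow_succ']
      congr 3
      omega
    have e3 : ∑ j ∈ range (n + 1),
        (u ^ (-((j : ℤ) * ((n : ℤ) - j))) * qb N n j * u ^ (-2 * (j : ℤ))) •
          (P ^ j * Q ^ (n + 1 - j)) = ∑ j ∈ range (n + 2),
        (u ^ (-((j : ℤ) * ((n : ℤ) - j))) * qb N n j * u ^ (-2 * (j : ℤ))) •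
          (P ^ j * Q ^ (n + 1 - j)) := by
      rw [sum_range_succ _ (n + 1), qb_gt n (n + 1) (by omega)]
      simp
    rw [e1, e2, e3, sum_range_succ' _ (n + 1), sum_range_succ' _ (n + 1), ← add_assoc,
      ← sum_add_distrib]
    congr 1
    · apply sum_congr rfl
      intro j hj
      rw [mem_range] at hj
      have e4 : n + 1 - (j + 1) = n - j := by omega
      rw [e4, ← add_smul, qb_pascal hN (by omega) j hu]
      congr 1
      have z1 : u ^ (-((((j + 1 : ℕ) : ℤ)) * (((n + 1 : ℕ) : ℤ) - ((j + 1 : ℕ) : ℤ)))) *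
          u ^ (-((j : ℤ) + 1)) = u ^ (-((((j + 1 : ℕ) : ℤ)) * ((n : ℤ) - ((j + 1 : ℕ) : ℤ)))) *
          u ^ (-2 * ((j + 1 : ℕ) : ℤ)) := by
        rw [← zpow_add₀ hu0, ← zpow_add₀ hu0]; congr 1; push_cast; ring
      have z2 : u ^ (-((((j + 1 : ℕ) : ℤ)) * (((n + 1 : ℕ) : ℤ) - ((j + 1 : ℕ) : ℤ)))) *
          u ^ ((n : ℤ) - j) = u ^ (-((j : ℤ) * ((n : ℤ) - j))) := by
        rw [← zpow_add₀ hu0]; congr 1; push_cast; ring
      linear_combination (-qb N n (j + 1)) * z1 - (qb N n j) * z2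
    · simp [qb_zero_right]

lemma qb_N {N j : ℕ} (hN : 2 ≤ N) (h0 : 0 < j) (h1 : j < N) : qb N N j = 0 := by
  have h := qb_mul (N := N) N j h1.le
  have h2 : qfac N N = 0 := by
    obtain ⟨M, rfl⟩ : ∃ M, N = M + 1 := ⟨N - 1, by omega⟩
    rw [qfac_succ]
    have := qi_N hN
    push_cast at this ⊢
    rw [this, mul_zero]
  rw [h2] at h
  rcases mul_eq_zero.mp h with h3 | h3
  · exact h3
  · exact absurd h3 (mul_ne_zero (qfac_ne h1) (qfac_ne (by omega)))

lemma q_binomial_N {R : Type*} [Ring R] [Algebra ℂ R] {N : ℕ} (hN : 2 ≤ N) {u : ℂ}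
    (hu : u = v N ∨ u = (v N)⁻¹) (P Q : R) (hQP : Q * P = u ^ (-2 : ℤ) • (P * Q)) :
    (P + Q) ^ N = P ^ N + Q ^ N := by
  rw [q_binomial hN hu P Q hQP N le_rfl]
  obtain ⟨M, rfl⟩ : ∃ M, N = M + 1 := ⟨N - 1, by omega⟩
  rw [sum_range_succ, sum_range_succ', sum_eq_zero]
  · rw [qb_self, qb_zero_right]; simp [add_comm]
  · intro j hj
    rw [mem_range] at hj
    rw [qb_N hN (by omega) (by omega)]
    simp

/-! ### nilpotency -/

/-- the part of `E` acting on the first letter -/
noncomputable def EP (N : ℕ) : (List ℕ → ℂ) →ₗ[ℂ] (List ℕ → ℂ) where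
  toFun f := fun w => match w with
    | [] => 0
    | x :: w => ecoef N (x + 1) * v N ^ (wtl N w) * f ((x + 1) :: w)
  map_add' f g := by
    funext w; rcases w with _ | ⟨x, w⟩ <;> simp [mul_add]
  map_smul' c f := by
    funext w; rcases w with _ | ⟨x, w⟩
    · simp
    · simp only [Pi.smul_apply, smul_eq_mul, RingHom.id_apply]; ring

/-- the part of `E` acting on the other letters -/
noncomputable def EQ (N : ℕ) : (List ℕ → ℂ) →ₗ[ℂ] (List ℕ → ℂ) where
  toFun f := fun w => match w with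
    | [] => 0
    | x :: w => Eop N (fun u => f (x :: u)) w
  map_add' f g := by
    funext w; rcases w with _ | ⟨x, w⟩
    · simp
    · exact Eop_add N _ _ w
  map_smul' c f := by
    funext w; rcases w with _ | ⟨x, w⟩
    · simp
    · exact Eop_smul N c _ w

lemma EL_eq (N : ℕ) : EL N = EP N + EQ N := by
  ext f w
  rcases w with _ | ⟨x, w⟩
  · simp [EL, Eop, EP, EQ]
  · simp [EL, Eop, EP, EQ]

lemma EQ_EP {N : ℕ} : EQ N * EP N = v N ^ (-2 : ℤ) • (EP N * EQ N) := by
  ext f w
  rcases w with _ | ⟨x, w⟩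
  · simp [EP, EQ]
  · simp only [Module.End.mul_apply, LinearMap.smul_apply, Pi.smul_apply, smul_eq_mul]
    show Eop N (fun u => ecoef N (x + 1) * v N ^ (wtl N u) * f ((x + 1) :: u)) w =
      v N ^ (-2 : ℤ) * (ecoef N (x + 1) * v N ^ (wtl N w) * Eop N (fun u => f ((x + 1) :: u)) w)
    have h := Eop_wtl (N := N) (fun y => ecoef N (x + 1) * v N ^ y) (fun u => f ((x + 1) :: u)) w
    rw [h, show wtl N w - 2 = wtl N w + (-2) by ring, ← vz]
    ring

lemma EP_pow {N : ℕ} (f : List ℕ → ℂ) (j x : ℕ) (w : List ℕ) :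
    (EP N ^ j) f (x :: w) = eta N x j * v N ^ ((j : ℤ) * wtl N w) * f ((x + j) :: w) := by
  induction j generalizing f with
  | zero => simp [eta_zero]
  | succ j ih =>
    rw [pow_succ, Module.End.mul_apply, ih]
    show eta N x j * v N ^ ((j : ℤ) * wtl N w) *
      (ecoef N (x + j + 1) * v N ^ (wtl N w) * f ((x + j + 1) :: w)) = _
    rw [eta_succ, show x + (j + 1) = x + j + 1 by ring]
    have : v N ^ (((j + 1 : ℕ) : ℤ) * wtl N w) = v N ^ ((j : ℤ) * wtl N w) * v N ^ (wtl N w) := by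
      rw [vz]; congr 1; push_cast; ring
    rw [this]; ring

lemma EQ_pow {N : ℕ} (f : List ℕ → ℂ) (j x : ℕ) (w : List ℕ) :
    (EQ N ^ j) f (x :: w) = (EL N ^ j) (fun u => f (x :: u)) w := by
  induction j generalizing f with
  | zero => simp
  | succ j ih =>
    rw [pow_succ, Module.End.mul_apply, ih, pow_succ, Module.End.mul_apply]
    rfl

/-- `E ^ N = 0` -/
lemma EL_pow_N {N : ℕ} (hN : 2 ≤ N) (f : List ℕ → ℂ) : (EL N ^ N) f = 0 := by
  have key : ∀ (w : List ℕ) (f : List ℕ → ℂ), (EL N ^ N) f w = 0 := by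
    intro w
    induction w with
    | nil =>
      intro f
      obtain ⟨M, hM⟩ : ∃ M, N = M + 1 := ⟨N - 1, by omega⟩
      have : (EL N ^ (M + 1)) f [] = 0 := by
        rw [pow_succ', Module.End.mul_apply]
        rfl
      rwa [← hM] at this
    | cons x w ih =>
      intro f
      rw [EL_eq, q_binomial_N hN (Or.inl rfl) (EP N) (EQ N) EQ_EP, LinearMap.add_apply,
        Pi.add_apply, EQ_pow, ih, EP_pow]
      have : eta N x N = 0 := by
        rcases Nat.lt_or_ge x N with h | h
        · exact eta_eq_zero h (by omega)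
        · unfold eta
          apply prod_eq_zero (i := 0)
          · rw [mem_range]; omega
          · exact ecoef_ge (by omega)
      rw [this]; ring
  funext w
  exact key w f

/-- the part of `F` acting on the first letter -/
noncomputable def FP (N : ℕ) : (List ℕ → ℂ) →ₗ[ℂ] (List ℕ → ℂ) where
  toFun f := fun w => match w with
    | [] => 0
    | x :: w => if 1 ≤ x ∧ x < N then f ((x - 1) :: w) else 0
  map_add' f g := by
    funext w; rcases w with _ | ⟨x, w⟩
    · simp
    · simp only [Pi.add_apply]; split_ifs <;> ring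
  map_smul' c f := by
    funext w; rcases w with _ | ⟨x, w⟩
    · simp
    · simp only [Pi.smul_apply, smul_eq_mul, RingHom.id_apply]; split_ifs <;> ring

/-- the part of `F` acting on the other letters -/
noncomputable def FQ (N : ℕ) : (List ℕ → ℂ) →ₗ[ℂ] (List ℕ → ℂ) where
  toFun f := fun w => match w with
    | [] => 0
    | x :: w => v N ^ (-wt N x) * Fop N (fun u => f (x :: u)) w
  map_add' f g := by
    funext w; rcases w with _ | ⟨x, w⟩
    · simp
    · show v N ^ (-wt N x) * Fop N (fun u => f (x :: u) + g (x :: u)) w = _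
      rw [Fop_add N (fun u => f (x :: u)) (fun u => g (x :: u))]
      simp only [Pi.add_apply]; ring
  map_smul' c f := by
    funext w; rcases w with _ | ⟨x, w⟩
    · simp
    · show v N ^ (-wt N x) * Fop N (fun u => c * f (x :: u)) w = _
      rw [Fop_smul]
      simp only [Pi.smul_apply, smul_eq_mul, RingHom.id_apply]; ring

lemma FL_eq (N : ℕ) : FL N = FP N + FQ N := by
  ext f w
  rcases w with _ | ⟨x, w⟩
  · simp [FL, Fop, FP, FQ]
  · simp [FL, Fop, FP, FQ]

lemma FQ_FP {N : ℕ} : FQ N * FP N = (v N)⁻¹ ^ (-2 : ℤ) • (FP N * FQ N) := by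
  ext f w
  rcases w with _ | ⟨x, w⟩
  · simp [FP, FQ]
  · simp only [Module.End.mul_apply, LinearMap.smul_apply, Pi.smul_apply, smul_eq_mul]
    show v N ^ (-wt N x) * Fop N (fun u => if 1 ≤ x ∧ x < N then f ((x - 1) :: u) else 0) w =
      (v N)⁻¹ ^ (-2 : ℤ) * (if 1 ≤ x ∧ x < N then
        v N ^ (-wt N (x - 1)) * Fop N (fun u => f ((x - 1) :: u)) w else 0)
    split_ifs with h
    · rw [inv_zpow', ← mul_assoc, vz]
      congr 2
      unfold wt; push_cast [Nat.cast_sub h.1]; ring
    · rw [Fop_zero_fun]; ring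

lemma FP_pow {N : ℕ} (f : List ℕ → ℂ) (j x : ℕ) (w : List ℕ) :
    (FP N ^ (j + 1)) f (x :: w) = if j + 1 ≤ x ∧ x < N then f ((x - (j + 1)) :: w) else 0 := by
  induction j generalizing f with
  | zero =>
    rw [zero_add, pow_one]
    rfl
  | succ j ih =>
    rw [pow_succ, Module.End.mul_apply, ih]
    show (if j + 1 ≤ x ∧ x < N then (if 1 ≤ x - (j + 1) ∧ x - (j + 1) < N then
      f ((x - (j + 1) - 1) :: w) else 0) else 0) = _
    by_cases h : j + 1 + 1 ≤ x ∧ x < N
    · rw [if_pos (by omega), if_pos (by omega), if_pos h]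
      congr 2
    · rw [if_neg h]
      split_ifs <;> first | rfl | omega

lemma FQ_pow {N : ℕ} (f : List ℕ → ℂ) (j x : ℕ) (w : List ℕ) :
    (FQ N ^ j) f (x :: w) = v N ^ (-((j : ℤ) * wt N x)) * (FL N ^ j) (fun u => f (x :: u)) w := by
  induction j generalizing f with
  | zero => simp
  | succ j ih =>
    rw [pow_succ, Module.End.mul_apply, ih, pow_succ, Module.End.mul_apply]
    have : (fun u => (FQ N) f (x :: u)) = v N ^ (-wt N x) • (FL N (fun u => f (x :: u))) := by
      funext u; rfl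
    rw [this, map_smul, Pi.smul_apply, smul_eq_mul, ← mul_assoc, vz]
    congr 2
    push_cast; ring

/-- `F ^ N = 0` -/
lemma FL_pow_N {N : ℕ} (hN : 2 ≤ N) (f : List ℕ → ℂ) : (FL N ^ N) f = 0 := by
  obtain ⟨M, hM⟩ : ∃ M, N = M + 1 := ⟨N - 1, by omega⟩
  have key : ∀ (w : List ℕ) (f : List ℕ → ℂ), (FL N ^ N) f w = 0 := by
    intro w
    induction w with
    | nil =>
      intro f
      have : (FL N ^ (M + 1)) f [] = 0 := by
        rw [pow_succ', Module.End.mul_apply]
        rfl
      rwa [← hM] at this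
    | cons x w ih =>
      intro f
      rw [FL_eq, q_binomial_N hN (Or.inr rfl) (FP N) (FQ N) FQ_FP, LinearMap.add_apply,
        Pi.add_apply, FQ_pow, ih]
      have : (FP N ^ N) f (x :: w) = 0 := by
        have h := FP_pow (N := N) f M x w
        rw [← hM] at h
        rw [h, if_neg (by omega)]
      rw [this]; ring
  funext w
  exact key w f

end Pool.Agent.Helper9.Kashaev

/-!
# Highest weight vectors in the third tensor power, and the action of the crossings
-/

namespace Pool.Agent.Helper9.Kashaev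

open Finset

lemma tri_succ (m : ℕ) : (m + 1) * (m + 1 - 1) / 2 = m * (m - 1) / 2 + m := by
  have h2 : m * (m - 1) % 2 = 0 := by
    rcases Nat.even_or_odd m with h | h
    · obtain ⟨k, rfl⟩ := h
      rw [show (k + k) * (k + k - 1) = 2 * (k * (k + k - 1)) by ring]; omega
    · obtain ⟨k, rfl⟩ := h
      rw [show (2 * k + 1) * (2 * k + 1 - 1) = 2 * (k * (2 * k + 1)) by
        rw [show 2 * k + 1 - 1 = 2 * k by omega]; ring]; omega
  have h3 : (m + 1) * (m + 1 - 1) = m * (m - 1) + 2 * m := by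
    rw [Nat.add_sub_cancel]
    rcases m with _ | m
    · rfl
    · rw [Nat.add_sub_cancel]; ring
  rw [h3]; omega

/-- `∏ (u ^ (a - t) - u ^ (t - a))` -/
noncomputable def Pm (u : ℂ) (a : ℤ) (m : ℕ) : ℂ :=
  ∏ t ∈ range m, (u ^ (a - t) - u ^ (-(a - t)))

/-- the summand of the Gauss identity -/
noncomputable def gt (N : ℕ) (u : ℂ) (a : ℤ) (l m : ℕ) : ℂ :=
  qb N l m * Pm u a m * u ^ (m * (m - 1) / 2) * u ^ (-(((l : ℤ) - m) * (a - m)))

lemma gauss {N : ℕ} (hN : 2 ≤ N) {u : ℂ} (hu : u = v N ∨ u = (v N)⁻¹) (a : ℤ) (l : ℕ)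
    (hl : l < N) : ∑ m ∈ range (l + 1), gt N u a l m = u ^ (a * l) := by
  have hu0 : u ≠ 0 := by
    rcases hu with rfl | rfl
    · exact v_ne N
    · exact inv_ne_zero (v_ne N)
  have hu' : u⁻¹ = v N ∨ u⁻¹ = (v N)⁻¹ := by
    rcases hu with rfl | rfl
    · exact Or.inr rfl
    · exact Or.inl (inv_inv _)
  induction l with
  | zero => simp [gt, Pm, qb]
  | succ l ih =>
    have ih' := ih (by omega)
    have hterm : ∀ m, gt N u a (l + 1) (m + 1) =
        u ^ (2 * ((m : ℤ) + 1) - a) * gt N u a l (m + 1) +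
        (u ^ a - u ^ (2 * (m : ℤ) - a)) * gt N u a l m := by
      intro m
      unfold gt
      rw [qb_pascal hN (show l < N by omega) m hu']
      have hP : Pm u a (m + 1) = Pm u a m * (u ^ (a - m) - u ^ (-(a - m))) := by
        unfold Pm; rw [prod_range_succ]
      have e0 : u ^ ((m + 1) * (m + 1 - 1) / 2) = u ^ (m * (m - 1) / 2) * u ^ (m : ℤ) := by
        rw [tri_succ, pow_add, zpow_natCast]
      have e1 : (u⁻¹) ^ (-((m : ℤ) + 1)) * u ^ (-((((l + 1 : ℕ) : ℤ) - ((m + 1 : ℕ) : ℤ)) *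
          (a - ((m + 1 : ℕ) : ℤ)))) = u ^ (2 * ((m : ℤ) + 1) - a) *
          u ^ (-(((l : ℤ) - ((m + 1 : ℕ) : ℤ)) * (a - ((m + 1 : ℕ) : ℤ)))) := by
        rw [inv_zpow', ← zpow_add₀ hu0, ← zpow_add₀ hu0]
        congr 1; push_cast; ring
      have e2 : (u⁻¹) ^ ((l : ℤ) - m) * u ^ (-((((l + 1 : ℕ) : ℤ) - ((m + 1 : ℕ) : ℤ)) *
          (a - ((m + 1 : ℕ) : ℤ)))) * u ^ (m : ℤ) * (u ^ (a - m) - u ^ (-(a - m))) =
          (u ^ a - u ^ (2 * (m : ℤ) - a)) * u ^ (-(((l : ℤ) - m) * (a - m))) := by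
        have e2a : (u⁻¹) ^ ((l : ℤ) - m) * u ^ (-((((l + 1 : ℕ) : ℤ) - ((m + 1 : ℕ) : ℤ)) *
            (a - ((m + 1 : ℕ) : ℤ)))) * u ^ (m : ℤ) * u ^ (a - m) =
            u ^ a * u ^ (-(((l : ℤ) - m) * (a - m))) := by
          rw [inv_zpow', ← zpow_add₀ hu0, ← zpow_add₀ hu0, ← zpow_add₀ hu0, ← zpow_add₀ hu0]
          congr 1; push_cast; ring
        have e2b : (u⁻¹) ^ ((l : ℤ) - m) * u ^ (-((((l + 1 : ℕ) : ℤ) - ((m + 1 : ℕ) : ℤ)) *
            (a - ((m + 1 : ℕ) : ℤ)))) * u ^ (m : ℤ) * u ^ (-(a - m)) =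
            u ^ (2 * (m : ℤ) - a) * u ^ (-(((l : ℤ) - m) * (a - m))) := by
          rw [inv_zpow', ← zpow_add₀ hu0, ← zpow_add₀ hu0, ← zpow_add₀ hu0, ← zpow_add₀ hu0]
          congr 1; push_cast; ring
        linear_combination e2a - e2b
      rw [e0]
      calc (u⁻¹ ^ (-((m : ℤ) + 1)) * qb N l (m + 1) + u⁻¹ ^ ((l : ℤ) - m) * qb N l m) *
            Pm u a (m + 1) * (u ^ (m * (m - 1) / 2) * u ^ (m : ℤ)) *
            u ^ (-((((l + 1 : ℕ) : ℤ) - ((m + 1 : ℕ) : ℤ)) * (a - ((m + 1 : ℕ) : ℤ))))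
          = (u⁻¹ ^ (-((m : ℤ) + 1)) * u ^ (-((((l + 1 : ℕ) : ℤ) - ((m + 1 : ℕ) : ℤ)) *
            (a - ((m + 1 : ℕ) : ℤ))))) * (qb N l (m + 1) * Pm u a (m + 1) *
            (u ^ (m * (m - 1) / 2) * u ^ (m : ℤ))) +
            (u⁻¹ ^ ((l : ℤ) - m) * u ^ (-((((l + 1 : ℕ) : ℤ) - ((m + 1 : ℕ) : ℤ)) *
            (a - ((m + 1 : ℕ) : ℤ)))) * u ^ (m : ℤ) * (u ^ (a - m) - u ^ (-(a - m)))) *
            (qb N l m * Pm u a m * u ^ (m * (m - 1) / 2)) := by rw [hP]; ring
        _ = _ := by rw [e1, e2]; ring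
    rw [sum_range_succ' _ (l + 1), sum_congr rfl (fun m _ => hterm m), sum_add_distrib]
    have h0 : gt N u a (l + 1) 0 = u ^ (2 * ((0 : ℕ) : ℤ) - a) * gt N u a l 0 := by
      unfold gt
      rw [qb_zero_right, qb_zero_right]
      have : u ^ (-((((l + 1 : ℕ) : ℤ) - ((0 : ℕ) : ℤ)) * (a - ((0 : ℕ) : ℤ)))) =
          u ^ (2 * ((0 : ℕ) : ℤ) - a) * u ^ (-(((l : ℤ) - ((0 : ℕ) : ℤ)) *
          (a - ((0 : ℕ) : ℤ)))) := by
        rw [← zpow_add₀ hu0]; congr 1; push_cast; ring
      rw [this]; ring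
    rw [h0]
    have h1 : ∑ m ∈ range (l + 1), u ^ (2 * ((m : ℤ) + 1) - a) * gt N u a l (m + 1) +
        u ^ (2 * ((0 : ℕ) : ℤ) - a) * gt N u a l 0 =
        ∑ m ∈ range (l + 1), u ^ (2 * (m : ℤ) - a) * gt N u a l m := by
      have := sum_range_succ' (fun m : ℕ => u ^ (2 * (m : ℤ) - a) * gt N u a l m) (l + 1)
      push_cast at this ⊢
      rw [← this, sum_range_succ]
      have hz : gt N u a l (l + 1) = 0 := by
        unfold gt; rw [qb_gt l (l + 1) (by omega)]; ring
      rw [hz]; ring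
    have h2 : ∑ m ∈ range (l + 1), (u ^ a - u ^ (2 * (m : ℤ) - a)) * gt N u a l m =
        u ^ a * ∑ m ∈ range (l + 1), gt N u a l m -
        ∑ m ∈ range (l + 1), u ^ (2 * (m : ℤ) - a) * gt N u a l m := by
      rw [mul_sum, ← sum_sub_distrib]
      apply sum_congr rfl
      intro m _; ring
    have h3 : u ^ (a * ((l + 1 : ℕ) : ℤ)) = u ^ a * u ^ (a * (l : ℤ)) := by
      rw [← zpow_add₀ hu0]; congr 1; push_cast; ring
    rw [h3, ← ih']
    linear_combination h1 + h2

/-! ### the weights `[a]!²` -/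

/-- `[a]!²` -/
noncomputable def w2 (N a : ℕ) : ℂ := qfac N a ^ 2

lemma w2_ne {N a : ℕ} (h : a < N) : w2 N a ≠ 0 := pow_ne_zero _ (qfac_ne h)

lemma w2_succ {N a : ℕ} (hN : 2 ≤ N) (h : a + 1 ≤ N) : w2 N (a + 1) = w2 N a * ecoef N (a + 1) := by
  unfold w2
  rw [qfac_succ, ecoef_eq hN h]; push_cast; ring

lemma eta_zero_left {N m : ℕ} (hN : 2 ≤ N) (hm : m ≤ N) : eta N 0 m = w2 N m := by
  induction m with
  | zero => simp [eta, w2, qfac_zero]
  | succ m ih =>
    rw [eta_succ, ih (by omega), w2_succ hN hm, Nat.zero_add]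

/-- functions supported on words of three letters `< N` -/
def Sup3 (N : ℕ) (f : List ℕ → ℂ) : Prop :=
  ∀ w, ¬ (∃ a b c, w = [a, b, c] ∧ a < N ∧ b < N ∧ c < N) → f w = 0

lemma Sup3.zero {N : ℕ} {f : List ℕ → ℂ} (hf : Sup3 N f) {a b c : ℕ}
    (h : ¬ (a < N ∧ b < N ∧ c < N)) : f [a, b, c] = 0 := by
  apply hf
  rintro ⟨a', b', c', h1, h2⟩
  simp only [List.cons.injEq, and_true] at h1
  obtain ⟨rfl, rfl, rfl⟩ := h1
  exact h h2

/-- renormalised coordinates -/
noncomputable def gg (N : ℕ) (f : List ℕ → ℂ) (a b c : ℕ) : ℂ :=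
  w2 N a * w2 N b * w2 N c * f [a, b, c]

lemma gg_E {N : ℕ} (hN : 2 ≤ N) {f : List ℕ → ℂ} (hf : Sup3 N f) (a b c : ℕ) :
    gg N (Eop N f) a b c = v N ^ (wt N b + wt N c) * gg N f (a + 1) b c +
      v N ^ (wt N c) * gg N f a (b + 1) c + gg N f a b (c + 1) := by
  unfold gg
  simp only [Eop, wtl, add_zero, zpow_zero, mul_one]
  have h1 : w2 N a * (ecoef N (a + 1) * f [a + 1, b, c]) = w2 N (a + 1) * f [a + 1, b, c] := by
    by_cases h : a + 1 ≤ N
    · rw [w2_succ hN h]; ring
    · rw [hf.zero (by omega)]; ring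
  have h2 : w2 N b * (ecoef N (b + 1) * f [a, b + 1, c]) = w2 N (b + 1) * f [a, b + 1, c] := by
    by_cases h : b + 1 ≤ N
    · rw [w2_succ hN h]; ring
    · rw [hf.zero (by omega)]; ring
  have h3 : w2 N c * (ecoef N (c + 1) * f [a, b, c + 1]) = w2 N (c + 1) * f [a, b, c + 1] := by
    by_cases h : c + 1 ≤ N
    · rw [w2_succ hN h]; ring
    · rw [hf.zero (by omega)]; ring
  linear_combination (w2 N b * w2 N c * v N ^ (wt N b + wt N c)) * h1 +
    (w2 N a * w2 N c * v N ^ (wt N c)) * h2 + (w2 N a * w2 N b) * h3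

/-- the exponent in the solution of `E f = 0` -/
def ex3 (b c i : ℕ) : ℤ := -((i : ℤ) * b) + ((b : ℤ) - i) * (2 * c + ((b : ℤ) - i))

/-- A vector killed by `E` is determined by its coordinates with middle letter `0`. -/
lemma ker_sol {N : ℕ} (hN : 2 ≤ N) {f : List ℕ → ℂ} (hf : Sup3 N f) (hE : Eop N f = 0)
    (b : ℕ) (hb : b < N) : ∀ m c, gg N f m b c =
      ∑ i ∈ range (b + 1), qb N b i * v N ^ (ex3 b c i) * gg N f (m + i) 0 (c + (b - i)) := by
  induction b with
  | zero => intro m c; simp [qb, ex3]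
  | succ b ih =>
    intro m c
    have ih1 := ih (by omega) (m + 1) c
    have ih2 := ih (by omega) m (c + 1)
    have hrec := gg_E hN hf m b c
    rw [hE] at hrec
    have hz : gg N 0 m b c = 0 := by simp [gg]
    rw [hz] at hrec
    have hrec2 : gg N f m (b + 1) c = v N ^ (-1 - 2 * (b : ℤ)) * gg N f (m + 1) b c +
        v N ^ (1 + 2 * (c : ℤ)) * gg N f m b (c + 1) := by
      have h1 : v N ^ (-wt N c) * v N ^ (wt N c) = 1 := by rw [vz, neg_add_cancel, zpow_zero]
      have h2 : v N ^ (-wt N c) * v N ^ (wt N b + wt N c) = - v N ^ (-1 - 2 * (b : ℤ)) := by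
        rw [vz, ← v_wt hN]; congr 1; ring
      have h3 := v_neg_wt hN c
      linear_combination (-v N ^ (-wt N c)) * hrec - gg N f m (b + 1) c * h1 -
        gg N f (m + 1) b c * h2 - gg N f m b (c + 1) * h3
    rw [hrec2, ih1, ih2, sum_range_succ' _ (b + 1)]
    have hterm : ∀ i ∈ range (b + 1), qb N (b + 1) (i + 1) * v N ^ (ex3 (b + 1) c (i + 1)) *
        gg N f (m + (i + 1)) 0 (c + (b + 1 - (i + 1))) =
        v N ^ (-1 - 2 * (b : ℤ)) * (qb N b i * v N ^ (ex3 b c i) *
          gg N f (m + 1 + i) 0 (c + (b - i))) +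
        v N ^ (1 + 2 * (c : ℤ)) * (qb N b (i + 1) * v N ^ (ex3 b (c + 1) (i + 1)) *
          gg N f (m + (i + 1)) 0 (c + (b - i))) := by
      intro i hi
      rw [mem_range] at hi
      have e1 : b + 1 - (i + 1) = b - i := by omega
      have e2 : m + 1 + i = m + (i + 1) := by ring
      rw [e1, e2, qb_succ' hN (show b < N by omega) i]
      have z1 : v N ^ (-((b : ℤ) - i)) * v N ^ (ex3 (b + 1) c (i + 1)) =
          v N ^ (-1 - 2 * (b : ℤ)) * v N ^ (ex3 b c i) := by
        rw [vz, vz]; congr 1; unfold ex3; push_cast; ring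
      have z2 : v N ^ ((i : ℤ) + 1) * v N ^ (ex3 (b + 1) c (i + 1)) =
          v N ^ (1 + 2 * (c : ℤ)) * v N ^ (ex3 b (c + 1) (i + 1)) := by
        rw [vz, vz]; congr 1; unfold ex3; push_cast; ring
      linear_combination (qb N b i * gg N f (m + (i + 1)) 0 (c + (b - i))) * z1 +
        (qb N b (i + 1) * gg N f (m + (i + 1)) 0 (c + (b - i))) * z2
    rw [sum_congr rfl hterm, sum_add_distrib, ← mul_sum, ← mul_sum, add_assoc]
    congr 1
    have hlast := sum_range_succ' (fun i => qb N b i * v N ^ (ex3 b (c + 1) i) *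
      gg N f (m + i) 0 (c + 1 + (b - i))) b
    -- first replace c + (b - i) by c + 1 + (b - (i+1)) for i < b
    have h4 : ∑ i ∈ range (b + 1), (qb N b (i + 1) * v N ^ (ex3 b (c + 1) (i + 1)) *
          gg N f (m + (i + 1)) 0 (c + (b - i))) = ∑ i ∈ range b,
          (qb N b (i + 1) * v N ^ (ex3 b (c + 1) (i + 1)) *
          gg N f (m + (i + 1)) 0 (c + 1 + (b - (i + 1)))) := by
      rw [sum_range_succ, qb_gt b (b + 1) (by omega)]
      simp only [zero_mul, add_zero]
      apply sum_congr rfl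
      intro i hi
      rw [mem_range] at hi
      have : c + (b - i) = c + 1 + (b - (i + 1)) := by omega
      rw [this]
    rw [h4, hlast, mul_add]
    congr 1
    rw [qb_zero_right, qb_zero_right, Nat.sub_zero, Nat.sub_zero, Nat.add_zero]
    have z3 : v N ^ (ex3 (b + 1) c 0) = v N ^ (1 + 2 * (c : ℤ)) * v N ^ (ex3 b (c + 1) 0) := by
      rw [vz]; congr 1; unfold ex3; push_cast; ring
    rw [z3, show c + (b + 1) = c + 1 + b by ring]
    ring

end Pool.Agent.Helper9.Kashaev

/-!
# The matrices of the crossings on highest weight vectors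
-/

namespace Pool.Agent.Helper9.Kashaev

open Finset

lemma qb_eq_div {N n j : ℕ} (hn : n < N) (hj : j ≤ n) :
    qb N n j = qfac N n / (qfac N j * qfac N (n - j)) := by
  rw [eq_div_iff (mul_ne_zero (qfac_ne (by omega)) (qfac_ne (by omega)))]
  exact qb_mul n j hj

lemma Pm_mul {N : ℕ} (hN : 2 ≤ N) {u : ℂ} (hu : u = v N ∨ u = (v N)⁻¹) (a : ℕ) (m : ℕ)
    (hm : m ≤ a) : Pm u a m * qfac N (a - m) = (u - u⁻¹) ^ m * qfac N a := by
  have hq : ∀ x : ℤ, qi N x * (u - u⁻¹) = u ^ x - u ^ (-x) := by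
    intro x
    rcases hu with rfl | rfl
    · exact qi_mul_vd hN x
    · have := qi_mul_vd hN x
      rw [inv_zpow', inv_zpow', neg_neg, inv_inv]
      linear_combination -this
  induction m with
  | zero => simp [Pm]
  | succ m ih =>
    have ih' := ih (by omega)
    have hP : Pm u a (m + 1) = Pm u a m * (u ^ ((a : ℤ) - m) - u ^ (-((a : ℤ) - m))) := by
      unfold Pm; rw [prod_range_succ]
    have e1 : a - m = a - (m + 1) + 1 := by omega
    rw [e1, qfac_succ] at ih'
    have e2 : (((a - (m + 1) : ℕ) : ℤ) + 1) = (a : ℤ) - m := by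
      push_cast [Nat.cast_sub hm]; ring
    rw [e2] at ih'
    rw [hP, ← hq, pow_succ]
    linear_combination (u - u⁻¹) * ih'

lemma kap_gt {N : ℕ} (hN : 2 ≤ N) {a l m : ℕ} (ha : a < N) (hl : l ≤ a) (hm : m ≤ l) :
    kap N m * (w2 N a / w2 N (a - m)) * qb N (a - m) (l - m) =
      qb N a l * (qb N l m * Pm (v N) a m * v N ^ (m * (m - 1) / 2)) := by
  have hP := Pm_mul hN (Or.inl rfl) a m (by omega)
  have f1 : qfac N (a - m) ≠ 0 := qfac_ne (by omega)
  have f2 : qfac N (l - m) ≠ 0 := qfac_ne (by omega)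
  have f3 : qfac N (a - l) ≠ 0 := qfac_ne (by omega)
  have f4 : qfac N m ≠ 0 := qfac_ne (by omega)
  have f5 : qfac N l ≠ 0 := qfac_ne (by omega)
  have f6 : qfac N a ≠ 0 := qfac_ne (by omega)
  have hP' : Pm (v N) a m = (v N - (v N)⁻¹) ^ m * qfac N a / qfac N (a - m) := by
    rw [eq_div_iff f1]; exact hP
  have e1 : a - m - (l - m) = a - l := by omega
  rw [qb_eq_div (by omega) (show l - m ≤ a - m by omega), qb_eq_div ha hl,
    qb_eq_div (by omega) hm, hP', e1]
  unfold kap w2
  field_simp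

lemma kab_gt {N : ℕ} (hN : 2 ≤ N) {a l m : ℕ} (ha : a < N) (hl : l ≤ a) (hm : m ≤ l) :
    kab N m * (w2 N a / w2 N (a - m)) * qb N (a - m) (a - l) =
      qb N a l * (qb N l m * Pm (v N)⁻¹ a m * (v N)⁻¹ ^ (m * (m - 1) / 2)) := by
  have hP := Pm_mul hN (Or.inr rfl) a m (by omega)
  have f1 : qfac N (a - m) ≠ 0 := qfac_ne (by omega)
  have f2 : qfac N (l - m) ≠ 0 := qfac_ne (by omega)
  have f3 : qfac N (a - l) ≠ 0 := qfac_ne (by omega)
  have f4 : qfac N m ≠ 0 := qfac_ne (by omega)
  have f5 : qfac N l ≠ 0 := qfac_ne (by omega)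
  have f6 : qfac N a ≠ 0 := qfac_ne (by omega)
  have hP' : Pm (v N)⁻¹ a m = (-1) ^ m * (v N - (v N)⁻¹) ^ m * qfac N a / qfac N (a - m) := by
    rw [eq_div_iff f1, hP, ← mul_pow, inv_inv]
    congr 2; ring
  have e1 : a - m - (a - l) = l - m := by omega
  rw [qb_eq_div (by omega) (show a - l ≤ a - m by omega), qb_eq_div ha hl,
    qb_eq_div (by omega) hm, hP', e1]
  unfold kab w2
  field_simp

/-- coefficients of the positive crossing -/
noncomputable def Ac (N a c l : ℕ) : ℂ :=
  tht N a 0 * v N ^ (((a : ℤ) - l) * (2 * c + ((a : ℤ) - l)) + (a : ℤ) * l) * qb N a l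

/-- coefficients of the negative crossing -/
noncomputable def Cc (N c l : ℕ) : ℂ :=
  (tht N 0 c)⁻¹ * v N ^ ((l : ℤ) ^ 2 - (c : ℤ) ^ 2 - (c : ℤ) * l) * qb N c l

lemma A_action {N : ℕ} (hN : 2 ≤ N) {f : List ℕ → ℂ} (hf : Sup3 N f) (hE : Eop N f = 0)
    {a c : ℕ} (ha : a < N) :
    gg N (slice N .pos 0 f) a 0 c =
      ∑ l ∈ range (a + 1), Ac N a c l * gg N f l 0 (c + (a - l)) := by
  have h0 : (0 : ℕ) < N := by omega
  have hw0 : w2 N 0 = 1 := by simp [w2, qfac_zero]
  unfold gg
  simp only [slice]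
  rw [pos_apply ha h0, mul_sum]
  have h1 : ∀ m ∈ range (a + 1), w2 N a * w2 N 0 * w2 N c *
      (rho N a 0 m * f [0 + m, a - m, c]) = ∑ l ∈ Ico m (a + 1),
        tht N a 0 * v N ^ (((a : ℤ) - l) * (2 * c + ((a : ℤ) - l))) *
        (qb N a l * gt N (v N) a l m) * gg N f l 0 (c + (a - l)) := by
    intro m hm
    rw [mem_range] at hm
    have hs := ker_sol hN hf hE (a - m) (by omega) m c
    have hwm : w2 N (a - m) ≠ 0 := w2_ne (by omega)
    have h2 : w2 N a * w2 N 0 * w2 N c * (rho N a 0 m * f [0 + m, a - m, c]) =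
        tht N a 0 * kap N m * (w2 N a / w2 N (a - m)) * gg N f m (a - m) c := by
      unfold rho gg
      rw [eta_zero_left hN (by omega), hw0, Nat.zero_add]
      field_simp
    rw [h2, hs, mul_sum, sum_Ico_eq_sum_range]
    have e0 : a + 1 - m = a - m + 1 := by omega
    rw [e0]
    apply sum_congr rfl
    intro i hi
    rw [mem_range] at hi
    have hk := kap_gt hN (a := a) (l := m + i) (m := m) ha (by omega) (by omega)
    have e1 : m + i - m = i := by omega
    have e2 : a - m - i = a - (m + i) := by omega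
    rw [e1] at hk
    rw [e2]
    unfold gt
    have z1 : v N ^ (ex3 (a - m) c i) = v N ^ (((a : ℤ) - ((m + i : ℕ) : ℤ)) *
        (2 * c + ((a : ℤ) - ((m + i : ℕ) : ℤ)))) *
        v N ^ (-((((m + i : ℕ) : ℤ) - m) * ((a : ℤ) - m))) := by
      rw [vz]; congr 1; unfold ex3; push_cast [Nat.cast_sub (show m ≤ a by omega)]; ring
    rw [z1]
    linear_combination (tht N a 0 * v N ^ (((a : ℤ) - ((m + i : ℕ) : ℤ)) *
        (2 * c + ((a : ℤ) - ((m + i : ℕ) : ℤ)))) *
        v N ^ (-((((m + i : ℕ) : ℤ) - m) * ((a : ℤ) - m))) *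
        gg N f (m + i) 0 (c + (a - (m + i)))) * hk
  rw [sum_congr rfl h1, sum_comm' (t' := range (a + 1)) (s' := fun l => range (l + 1))]
  · apply sum_congr rfl
    intro l hl
    rw [mem_range] at hl
    rw [← sum_mul, ← mul_sum, ← mul_sum, gauss hN (Or.inl rfl) a l (by omega)]
    unfold Ac gg
    rw [← vz]; ring
  · intro m l
    simp only [mem_range, mem_Ico]
    omega

lemma C_action {N : ℕ} (hN : 2 ≤ N) {f : List ℕ → ℂ} (hf : Sup3 N f) (hE : Eop N f = 0)
    {a c : ℕ} (hc : c < N) :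
    gg N (slice N .neg 1 f) a 0 c =
      ∑ l ∈ range (c + 1), Cc N c l * gg N f (a + (c - l)) 0 l := by
  have h0 : (0 : ℕ) < N := by omega
  have hw0 : w2 N 0 = 1 := by simp [w2, qfac_zero]
  have hg : gg N (slice N .neg 1 f) a 0 c = w2 N a * w2 N 0 * w2 N c *
      ∑ m ∈ range (c + 1), nu N 0 c m * f [a, c - m, 0 + m] := by
    unfold gg
    simp only [slice]
    rw [neg_apply h0 hc hN]
  rw [hg, mul_sum]
  have h1 : ∀ m ∈ range (c + 1), w2 N a * w2 N 0 * w2 N c *
      (nu N 0 c m * f [a, c - m, 0 + m]) = ∑ l ∈ Ico m (c + 1),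
        (tht N 0 c)⁻¹ * v N ^ ((l : ℤ) ^ 2 - (c : ℤ) ^ 2) *
        (qb N c l * gt N (v N)⁻¹ c l m) * gg N f (a + (c - l)) 0 l := by
    intro m hm
    rw [mem_range] at hm
    have hs := ker_sol hN hf hE (c - m) (by omega) a m
    have hwm : w2 N (c - m) ≠ 0 := w2_ne (by omega)
    have h2 : w2 N a * w2 N 0 * w2 N c * (nu N 0 c m * f [a, c - m, 0 + m]) =
        (tht N 0 c)⁻¹ * v N ^ ((m : ℤ) * (wt N c - wt N 0) + 2 * m ^ 2) * kab N m *
        (w2 N c / w2 N (c - m)) * gg N f a (c - m) m := by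
      unfold nu gg
      rw [eta_zero_left hN (by omega), hw0, Nat.zero_add]
      field_simp
    -- reindex by i = c - l
    have hre : ∑ i ∈ range (c - m + 1), qb N (c - m) i * v N ^ (ex3 (c - m) m i) *
        gg N f (a + i) 0 (m + (c - m - i)) = ∑ l ∈ Ico m (c + 1),
        qb N (c - m) (c - l) * v N ^ (ex3 (c - m) m (c - l)) *
        gg N f (a + (c - l)) 0 l := by
      rw [sum_Ico_eq_sum_range, ← sum_range_reflect]
      have e0 : c + 1 - m = c - m + 1 := by omega
      rw [e0]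
      apply sum_congr rfl
      intro i hi
      rw [mem_range] at hi
      have e1 : c - m + 1 - 1 - i = c - (m + i) := by omega
      have e2 : m + (c - m - (c - (m + i))) = m + i := by omega
      rw [e1, e2]
    rw [h2, hs, hre, mul_sum]
    apply sum_congr rfl
    intro l hl
    rw [mem_Ico] at hl
    have hk := kab_gt hN (a := c) (l := l) (m := m) hc (by omega) (by omega)
    unfold gt
    have hwt : wt N c - wt N 0 = -2 * c := by unfold wt; push_cast; ring
    have z1 : v N ^ ((m : ℤ) * (wt N c - wt N 0) + 2 * (m : ℤ) ^ 2) *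
        v N ^ (ex3 (c - m) m (c - l)) = v N ^ ((l : ℤ) ^ 2 - (c : ℤ) ^ 2) *
        (v N)⁻¹ ^ (-((((l : ℤ) - m)) * ((c : ℤ) - m))) := by
      rw [hwt, inv_zpow', vz, vz]; congr 1; unfold ex3
      push_cast [Nat.cast_sub (show m ≤ c by omega), Nat.cast_sub (show l ≤ c by omega)]; ring
    linear_combination ((tht N 0 c)⁻¹ * v N ^ ((m : ℤ) * (wt N c - wt N 0) + 2 * (m : ℤ) ^ 2) *
        v N ^ (ex3 (c - m) m (c - l)) * gg N f (a + (c - l)) 0 l) * hk +
      ((tht N 0 c)⁻¹ * (qb N c l * (qb N l m * Pm (v N)⁻¹ c m *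
        (v N)⁻¹ ^ (m * (m - 1) / 2))) * gg N f (a + (c - l)) 0 l) * z1
  rw [sum_congr rfl h1, sum_comm' (t' := range (c + 1)) (s' := fun l => range (l + 1))]
  · apply sum_congr rfl
    intro l hl
    rw [mem_range] at hl
    rw [← sum_mul, ← mul_sum, ← mul_sum, gauss hN (Or.inr rfl) c l (by omega)]
    unfold Cc
    have z2 : v N ^ ((l : ℤ) ^ 2 - (c : ℤ) ^ 2 - (c : ℤ) * l) =
        v N ^ ((l : ℤ) ^ 2 - (c : ℤ) ^ 2) * (v N)⁻¹ ^ ((c : ℤ) * l) := by
      rw [inv_zpow', vz]; congr 1
    rw [z2]; ring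
  · intro m l
    simp only [mem_range, mem_Ico]
    omega

end Pool.Agent.Helper9.Kashaev

/-!
# Supports
-/

namespace Pool.Agent.Helper9.Kashaev

open Finset

/-- functions supported on words of `n` letters `< N` -/
def Sup (N n : ℕ) (f : List ℕ → ℂ) : Prop :=
  ∀ w, ¬ (w.length = n ∧ ∀ x ∈ w, x < N) → f w = 0

lemma Sup.cons {N n : ℕ} {f : List ℕ → ℂ} (hf : Sup N (n + 1) f) (x : ℕ) :
    Sup N n (fun u => f (x :: u)) := by
  intro w hw
  apply hf
  rintro ⟨h1, h2⟩
  apply hw
  refine ⟨by simpa using h1, fun y hy => h2 y (List.mem_cons_of_mem _ hy)⟩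

lemma Sup.cons_zero {N n : ℕ} {f : List ℕ → ℂ} (hf : Sup N n f) {x : ℕ} (hx : N ≤ x) :
    (fun u => f (x :: u)) = fun _ => 0 := by
  funext w
  apply hf
  rintro ⟨_, h2⟩
  have := h2 x (by simp)
  omega

lemma Sup.cons_zero' {N : ℕ} {f : List ℕ → ℂ} (hf : Sup N 0 f) (x : ℕ) :
    (fun u => f (x :: u)) = fun _ => 0 := by
  funext w
  apply hf
  rintro ⟨h1, _⟩
  simp at h1

lemma Sup_E {N : ℕ} : ∀ (w : List ℕ) (n : ℕ) (f : List ℕ → ℂ), Sup N n f →
    ¬ (w.length = n ∧ ∀ x ∈ w, x < N) → Eop N f w = 0 := by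
  intro w
  induction w with
  | nil => intro n f _ _; simp [Eop]
  | cons x w ih =>
    intro n f hf hw
    simp only [Eop]
    have h1 : f ((x + 1) :: w) = 0 := by
      apply hf
      rintro ⟨h1, h2⟩
      apply hw
      refine ⟨by simpa using h1, ?_⟩
      intro y hy
      rcases List.mem_cons.mp hy with rfl | hy
      · have := h2 (y + 1) (by simp); omega
      · exact h2 y (List.mem_cons_of_mem _ hy)
    have h2 : Eop N (fun u => f (x :: u)) w = 0 := by
      rcases n with _ | n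
      · rw [hf.cons_zero', Eop_zero_fun]
      · by_cases hx : x < N
        · apply ih n _ (hf.cons x)
          rintro ⟨h1, h2⟩
          apply hw
          refine ⟨by simp [h1], ?_⟩
          intro y hy
          rcases List.mem_cons.mp hy with rfl | hy
          · exact hx
          · exact h2 y hy
        · rw [hf.cons_zero (by omega), Eop_zero_fun]
    rw [h1, h2]; ring

lemma Sup.E {N n : ℕ} {f : List ℕ → ℂ} (hf : Sup N n f) : Sup N n (Eop N f) :=
  fun w hw => Sup_E w n f hf hw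

lemma Sup_F {N : ℕ} : ∀ (w : List ℕ) (n : ℕ) (f : List ℕ → ℂ), Sup N n f →
    ¬ (w.length = n ∧ ∀ x ∈ w, x < N) → Fop N f w = 0 := by
  intro w
  induction w with
  | nil => intro n f _ _; simp [Fop]
  | cons x w ih =>
    intro n f hf hw
    simp only [Fop]
    have h1 : (if 1 ≤ x ∧ x < N then f ((x - 1) :: w) else 0) = 0 := by
      split_ifs with hx
      · apply hf
        rintro ⟨h1, h2⟩
        apply hw
        refine ⟨by simpa using h1, ?_⟩
        intro y hy
        rcases List.mem_cons.mp hy with rfl | hy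
        · exact hx.2
        · exact h2 y (List.mem_cons_of_mem _ hy)
      · rfl
    have h2 : Fop N (fun u => f (x :: u)) w = 0 := by
      rcases n with _ | n
      · rw [hf.cons_zero', Fop_zero_fun]
      · by_cases hx : x < N
        · apply ih n _ (hf.cons x)
          rintro ⟨h1, h2⟩
          apply hw
          refine ⟨by simp [h1], ?_⟩
          intro y hy
          rcases List.mem_cons.mp hy with rfl | hy
          · exact hx
          · exact h2 y hy
        · rw [hf.cons_zero (by omega), Fop_zero_fun]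
    rw [h1, h2]; ring

lemma Sup.F {N n : ℕ} {f : List ℕ → ℂ} (hf : Sup N n f) : Sup N n (Fop N f) :=
  fun w hw => Sup_F w n f hf hw

lemma slice_pos_Sup {N : ℕ} (k : ℕ) : ∀ (w : List ℕ) (n : ℕ) (f : List ℕ → ℂ), Sup N n f →
    ¬ (w.length = n ∧ ∀ x ∈ w, x < N) → slice N .pos k f w = 0 := by
  induction k with
  | zero =>
    intro w n f hf hw
    rcases w with _ | ⟨a, _ | ⟨b, w⟩⟩
    · simp [slice, piece]
    · simp [slice, piece]
    simp only [slice, piece]
    apply sum_eq_zero
    intro m _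
    split_ifs with h
    · have : f ((b + m) :: (a - m) :: w) = 0 := by
        apply hf
        rintro ⟨h1, h2⟩
        apply hw
        refine ⟨by simpa using h1, ?_⟩
        intro y hy
        simp only [List.mem_cons] at hy h2
        rcases hy with rfl | rfl | hy
        · exact h.2.1
        · omega
        · exact h2 y (Or.inr (Or.inr hy))
      rw [this, mul_zero]
    · rfl
  | succ k ih =>
    intro w n f hf hw
    rcases w with _ | ⟨x, w⟩
    · simp [slice]
    simp only [slice]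
    rcases n with _ | n
    · rw [hf.cons_zero']; exact congrFun (slice_zero_fun _ _ _) w
    · by_cases hx : x < N
      · apply ih w n _ (hf.cons x)
        rintro ⟨h1, h2⟩
        apply hw
        refine ⟨by simp [h1], ?_⟩
        intro y hy
        rcases List.mem_cons.mp hy with rfl | hy
        · exact hx
        · exact h2 y hy
      · rw [hf.cons_zero (by omega)]; exact congrFun (slice_zero_fun _ _ _) w

lemma slice_neg_Sup {N : ℕ} (k : ℕ) : ∀ (w : List ℕ) (n : ℕ) (f : List ℕ → ℂ), Sup N n f →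
    ¬ (w.length = n ∧ ∀ x ∈ w, x < N) → slice N .neg k f w = 0 := by
  induction k with
  | zero =>
    intro w n f hf hw
    rcases w with _ | ⟨a, _ | ⟨b, w⟩⟩
    · simp [slice, piece]
    · simp [slice, piece]
    simp only [slice, piece]
    apply sum_eq_zero
    intro m _
    split_ifs with h
    · have : f ((b - m) :: (a + m) :: w) = 0 := by
        apply hf
        rintro ⟨h1, h2⟩
        apply hw
        refine ⟨by simpa using h1, ?_⟩
        intro y hy
        simp only [List.mem_cons] at hy h2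
        rcases hy with rfl | rfl | hy
        · omega
        · exact h.2.1
        · exact h2 y (Or.inr (Or.inr hy))
      rw [this, mul_zero]
    · rfl
  | succ k ih =>
    intro w n f hf hw
    rcases w with _ | ⟨x, w⟩
    · simp [slice]
    simp only [slice]
    rcases n with _ | n
    · rw [hf.cons_zero']; exact congrFun (slice_zero_fun _ _ _) w
    · by_cases hx : x < N
      · apply ih w n _ (hf.cons x)
        rintro ⟨h1, h2⟩
        apply hw
        refine ⟨by simp [h1], ?_⟩
        intro y hy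
        rcases List.mem_cons.mp hy with rfl | hy
        · exact hx
        · exact h2 y hy
      · rw [hf.cons_zero (by omega)]; exact congrFun (slice_zero_fun _ _ _) w

lemma slice_cup_Sup {N : ℕ} (k : ℕ) : ∀ (w : List ℕ) (n : ℕ) (f : List ℕ → ℂ), Sup N n f →
    ¬ (w.length = n + 2 ∧ ∀ x ∈ w, x < N) → slice N .cup k f w = 0 := by
  induction k with
  | zero =>
    intro w n f hf hw
    rcases w with _ | ⟨a, _ | ⟨b, w⟩⟩
    · simp [slice, piece]
    · simp [slice, piece]
    simp only [slice, piece]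
    split_ifs with h
    · have : f w = 0 := by
        apply hf
        rintro ⟨h1, h2⟩
        apply hw
        refine ⟨by simpa using h1, ?_⟩
        intro y hy
        simp only [List.mem_cons] at hy
        rcases hy with rfl | rfl | hy
        · omega
        · omega
        · exact h2 y hy
      rw [this, mul_zero]
    · rfl
  | succ k ih =>
    intro w n f hf hw
    rcases w with _ | ⟨x, w⟩
    · simp [slice]
    simp only [slice]
    rcases n with _ | n
    · rw [hf.cons_zero']; exact congrFun (slice_zero_fun _ _ _) w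
    · by_cases hx : x < N
      · apply ih w n _ (hf.cons x)
        rintro ⟨h1, h2⟩
        apply hw
        refine ⟨by simp [h1], ?_⟩
        intro y hy
        rcases List.mem_cons.mp hy with rfl | hy
        · exact hx
        · exact h2 y hy
      · rw [hf.cons_zero (by omega)]; exact congrFun (slice_zero_fun _ _ _) w

lemma slice_cap_Sup {N : ℕ} (k : ℕ) : ∀ (w : List ℕ) (n : ℕ) (f : List ℕ → ℂ), Sup N n f →
    ¬ (w.length + 2 = n ∧ ∀ x ∈ w, x < N) → slice N .cap k f w = 0 := by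
  induction k with
  | zero =>
    intro w n f hf hw
    simp only [slice, piece]
    apply sum_eq_zero
    intro a ha
    have : f (a :: (N - 1 - a) :: w) = 0 := by
      apply hf
      rintro ⟨h1, h2⟩
      apply hw
      simp only [List.length_cons, List.mem_cons] at h1 h2
      exact ⟨by omega, fun y hy => h2 y (Or.inr (Or.inr hy))⟩
    rw [this, mul_zero]
  | succ k ih =>
    intro w n f hf hw
    rcases w with _ | ⟨x, w⟩
    · simp [slice]
    simp only [slice]
    rcases n with _ | n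
    · rw [hf.cons_zero']; exact congrFun (slice_zero_fun _ _ _) w
    · by_cases hx : x < N
      · apply ih w n _ (hf.cons x)
        rintro ⟨h1, h2⟩
        apply hw
        simp only [List.length_cons]
        refine ⟨by omega, ?_⟩
        intro y hy
        rcases List.mem_cons.mp hy with rfl | hy
        · exact hx
        · exact h2 y hy
      · rw [hf.cons_zero (by omega)]; exact congrFun (slice_zero_fun _ _ _) w

lemma Sup.pos {N n : ℕ} {f : List ℕ → ℂ} (hf : Sup N n f) (k : ℕ) :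
    Sup N n (slice N .pos k f) := fun w hw => slice_pos_Sup k w n f hf hw

lemma Sup.neg {N n : ℕ} {f : List ℕ → ℂ} (hf : Sup N n f) (k : ℕ) :
    Sup N n (slice N .neg k f) := fun w hw => slice_neg_Sup k w n f hf hw

lemma Sup.cup {N n : ℕ} {f : List ℕ → ℂ} (hf : Sup N n f) (k : ℕ) :
    Sup N (n + 2) (slice N .cup k f) := fun w hw => slice_cup_Sup k w n f hf hw

lemma Sup.cap {N n : ℕ} {f : List ℕ → ℂ} (hf : Sup N (n + 2) f) (k : ℕ) :
    Sup N n (slice N .cap k f) := fun w hw =>
  slice_cap_Sup k w (n + 2) f hf (fun h => hw ⟨by omega, h.2⟩)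

lemma Sup_ket {N : ℕ} {w : List ℕ} (hw : ∀ x ∈ w, x < N) : Sup N w.length (ket w) := by
  intro u hu
  unfold ket
  rw [if_neg]
  rintro rfl
  exact hu ⟨rfl, hw⟩

lemma Sup3_iff {N : ℕ} {f : List ℕ → ℂ} : Sup N 3 f ↔ Sup3 N f := by
  constructor
  · intro h w hw
    apply h
    rintro ⟨h1, h2⟩
    apply hw
    rcases w with _ | ⟨a, _ | ⟨b, _ | ⟨c, _ | ⟨d, w⟩⟩⟩⟩
    · simp at h1
    · simp at h1
    · simp at h1
    · refine ⟨a, b, c, rfl, h2 a (by simp), h2 b (by simp), h2 c (by simp)⟩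
    · simp at h1
  · intro h w hw
    apply h
    rintro ⟨a, b, c, rfl, ha, hb, hc⟩
    apply hw
    refine ⟨rfl, ?_⟩
    intro x hx
    simp only [List.mem_cons, List.not_mem_nil, or_false] at hx
    rcases hx with rfl | rfl | rfl <;> assumption

/-- `RT D (ket [0])` is a multiple of `ket [0]` if `D` preserves one-letter functions -/
lemma RT_ket_zero {N : ℕ} (D : Diagram) (hD : Sup N 1 (RT N D (ket [0]))) :
    RT N D (ket [0]) = fun w => RT N D (ket [0]) [0] * ket [0] w := by
  have hφ : ∀ φ : ℤ → ℂ, ∀ w, φ (wtl N w) * RT N D (ket [0]) w =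
      φ (wt N 0) * RT N D (ket [0]) w := by
    intro φ w
    have h1 := congrFun (RT_wtl (N := N) D φ (ket [0])) w
    have h2 : (fun u => φ (wtl N u) * ket [0] u) = φ (wt N 0) • ket [0] := by
      funext u
      simp only [ket, Pi.smul_apply, smul_eq_mul]
      split_ifs with h
      · rw [h]; simp [wtl]
      · simp
    rw [h2, ← RTL_apply, map_smul, RTL_apply] at h1
    simpa using h1.symm
  funext w
  by_cases hw : w = [0]
  · subst hw; simp [ket]
  · unfold ket
    rw [if_neg hw, mul_zero]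
    by_cases h1 : w.length = 1 ∧ ∀ x ∈ w, x < N
    · obtain ⟨x, rfl⟩ := List.length_eq_one_iff.mp h1.1
      have hx : x ≠ 0 := fun h => hw (by rw [h])
      have := hφ (fun y => if y = wt N 0 then 1 else 0) [x]
      have h3 : wtl N [x] ≠ wt N 0 := by
        simp only [wtl, wt]; push_cast; omega
      rw [if_neg h3, if_pos rfl] at this
      unfold ket at this
      linear_combination -this
    · exact hD w h1

lemma Fop_ket_nil (N : ℕ) (w : List ℕ) : Fop N (ket []) w = 0 := by
  rcases w with _ | ⟨x, w⟩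
  · simp [Fop]
  · simp only [Fop]
    have h1 : (fun u => ket [] (x :: u)) = fun _ => 0 := by
      funext u; simp [ket]
    rw [h1, Fop_zero_fun]
    simp [ket]

lemma Fop_ket {N i : ℕ} (hi : i + 1 < N) : Fop N (ket [i]) = ket [i + 1] := by
  funext w
  rcases w with _ | ⟨x, w⟩
  · simp [Fop, ket]
  · simp only [Fop]
    have h1 : Fop N (fun u => ket [i] (x :: u)) w = 0 := by
      by_cases hx : x = i
      · have : (fun u => ket [i] (x :: u)) = ket [] := by
          funext u; simp [ket, hx]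
        rw [this, Fop_ket_nil]
      · have : (fun u => ket [i] (x :: u)) = fun _ => 0 := by
          funext u; simp [ket, hx]
        rw [this, Fop_zero_fun]
    rw [h1]
    simp only [ket, List.cons.injEq, mul_zero, add_zero]
    by_cases hx : x = i + 1
    · subst hx
      rw [if_pos ⟨by omega, hi⟩, Nat.add_sub_cancel]
      simp
    · by_cases h2 : 1 ≤ x ∧ x < N
      · rw [if_pos h2, if_neg (by omega), if_neg (by omega)]
      · rw [if_neg h2, if_neg (by omega)]

/-- A diagram that maps one-letter functions to one-letter functions acts as a scalar. -/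
lemma isKashaev_of_Sup {N : ℕ} (hN : 2 ≤ N) (D : Diagram) (hD : Sup N 1 (RT N D (ket [0]))) :
    IsKashaev N D (RT N D (ket [0]) [0]) := by
  intro i
  induction i with
  | zero => intro _; exact RT_ket_zero D hD
  | succ i ih =>
    intro hi
    have ih' := ih (by omega)
    rw [← Fop_ket hi, RT_F hN, ih']
    funext w
    exact Fop_smul N _ _ w

end Pool.Agent.Helper9.Kashaev
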