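import Pool.Agent.Helper9.Asym

/-!
# Uniform estimates for products of sines
-/

namespace Pool.Agent.Helper9.Kashaev

open Finset Filter Topology MeasureTheory

lemma log_two_sin_ge {t : ℝ} (h0 : 0 ≤ t) (h1 : t ≤ Real.pi / 2) :
    Real.log (4 / Real.pi * t) ≤ Real.log |2 * Real.sin t| := by
  rcases h0.eq_or_lt with rfl | h0
  · simp
  · have h2 := Real.mul_le_sin h0.le h1
    have h3 : 0 < 4 / Real.pi * t := by positivity
    have h4 : 4 / Real.pi * t ≤ 2 * Real.sin t := by
      have : 4 / Real.pi * t = 2 * (2 / Real.pi * t) := by ring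
      rw [this]; linarith only [h2]
    rw [abs_of_pos (by linarith only [h4, h3])]
    exact Real.log_le_log h3 h4

lemma log_two_sin_le (t : ℝ) : Real.log |2 * Real.sin t| ≤ Real.log 2 := by
  by_cases h : 2 * Real.sin t = 0
  · rw [h]; simp; positivity
  · apply Real.log_le_log (abs_pos.mpr h)
    rw [abs_mul, abs_two]
    have := Real.abs_sin_le_one t
    linarith

lemma HH_upper {x : ℝ} (h0 : 0 ≤ x) : HH x ≤ x * Real.log 2 := by
  unfold HH
  have h := intervalIntegral.integral_mono_on h0 (integrable_h 0 x)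
    (intervalIntegrable_const (c := Real.log 2)) (fun t _ => log_two_sin_le t)
  rw [intervalIntegral.integral_const, sub_zero, smul_eq_mul] at h
  exact h

lemma HH_lower {x : ℝ} (h0 : 0 < x) (h1 : x ≤ Real.pi / 2) :
    x * Real.log (4 / Real.pi * x) - x ≤ HH x := by
  unfold HH
  have hc : (4 / Real.pi : ℝ) ≠ 0 := by positivity
  have hint : IntervalIntegrable (fun t => Real.log (4 / Real.pi * t)) volume 0 x := by
    have := (intervalIntegral.intervalIntegrable_log' (a := 4 / Real.pi * 0)
      (b := 4 / Real.pi * x)).comp_mul_left (c := 4 / Real.pi)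
    have e1 : 4 / Real.pi * 0 / (4 / Real.pi) = 0 := by simp
    have e2 : 4 / Real.pi * x / (4 / Real.pi) = x := by field_simp
    rw [e1, e2] at this
    exact this
  have h := intervalIntegral.integral_mono_on h0.le hint (integrable_h 0 x)
    (fun t ht => log_two_sin_ge ht.1 (ht.2.trans h1))
  rw [intervalIntegral.integral_comp_mul_left (fun t => Real.log t) hc, integral_log] at h
  simp only [mul_zero, zero_mul, sub_zero, add_zero, smul_eq_mul] at h
  have e : (4 / Real.pi)⁻¹ * (4 / Real.pi * x * Real.log (4 / Real.pi * x) - 4 / Real.pi * x) =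
      x * Real.log (4 / Real.pi * x) - x := by
    field_simp
  rw [e] at h
  exact h

lemma HH_pi : HH Real.pi = 0 := by
  unfold HH
  have h1 : ∫ t in (0 : ℝ)..Real.pi, Real.log |2 * Real.sin t| =
      ∫ t in (0 : ℝ)..Real.pi, (Real.log 2 + Real.log (Real.sin t)) := by
    apply intervalIntegral.integral_congr_ae
    have h2 : ∀ᵐ t : ℝ, t ≠ Real.pi := by
      rw [ae_iff]
      simp
    filter_upwards [h2] with t ht ht2
    rw [Set.uIoc_of_le Real.pi_pos.le] at ht2
    have h3 : 0 < Real.sin t :=
      Real.sin_pos_of_pos_of_lt_pi ht2.1 (lt_of_le_of_ne ht2.2 ht)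
    rw [abs_of_pos (by positivity), Real.log_mul (by norm_num) h3.ne']
  have h3 : IntervalIntegrable (fun t => Real.log (Real.sin t)) volume 0 Real.pi :=
    intervalIntegrable_log_sin
  rw [h1, intervalIntegral.integral_add intervalIntegrable_const h3,
    intervalIntegral.integral_const, integral_log_sin_zero_pi, sub_zero, smul_eq_mul]
  ring

lemma HH_refl (x : ℝ) : HH (Real.pi - x) = - HH x := by
  have h1 : HH (Real.pi - x) = HH Real.pi - ∫ t in (Real.pi - x)..Real.pi,
      Real.log |2 * Real.sin t| := by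
    unfold HH
    rw [eq_sub_iff_add_eq]
    exact intervalIntegral.integral_add_adjacent_intervals (integrable_h _ _) (integrable_h _ _)
  have h2 : ∫ t in (Real.pi - x)..Real.pi, Real.log |2 * Real.sin t| = HH x := by
    unfold HH
    have := intervalIntegral.integral_comp_sub_left
      (fun t => Real.log |2 * Real.sin t|) Real.pi (a := 0) (b := x)
    rw [sub_zero] at this
    rw [← this]
    apply intervalIntegral.integral_congr
    intro t _
    simp only
    rw [Real.sin_pi_sub]
  rw [h1, h2, HH_pi]; ring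

lemma HH_half : HH (Real.pi / 2) = 0 := by
  have h := HH_refl (Real.pi / 2)
  rw [show Real.pi - Real.pi / 2 = Real.pi / 2 by ring] at h
  linarith

lemma HH_pi_div {N : ℕ} (hN : 2 ≤ N) : |N / Real.pi * HH (Real.pi / N)| ≤ 1 + Real.log N := by
  have hNR : (2 : ℝ) ≤ N := by exact_mod_cast hN
  have hpi := Real.pi_pos
  have hx : 0 < Real.pi / N := by positivity
  have hx2 : Real.pi / N ≤ Real.pi / 2 := by gcongr
  have h1 := HH_upper hx.le
  have h2 := HH_lower hx hx2
  have hk : 0 < N / Real.pi := by positivity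
  have h3 : N / Real.pi * HH (Real.pi / N) ≤ Real.log 2 := by
    calc N / Real.pi * HH (Real.pi / N) ≤ N / Real.pi * (Real.pi / N * Real.log 2) :=
          mul_le_mul_of_nonneg_left h1 hk.le
      _ = Real.log 2 := by field_simp
  have h4 : Real.log (4 / N) - 1 ≤ N / Real.pi * HH (Real.pi / N) := by
    calc Real.log (4 / N) - 1 = N / Real.pi * (Real.pi / N * Real.log (4 / Real.pi *
          (Real.pi / N)) - Real.pi / N) := by
          have : 4 / Real.pi * (Real.pi / N) = 4 / (N : ℝ) := by field_simp
          rw [this]; field_simp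
      _ ≤ _ := mul_le_mul_of_nonneg_left h2 hk.le
  have h5 : Real.log 2 ≤ Real.log N := Real.log_le_log (by norm_num) hNR
  have h6 : Real.log (4 / N) = Real.log 4 - Real.log N :=
    Real.log_div (by norm_num) (by positivity)
  have h7 : 0 ≤ Real.log 4 := Real.log_nonneg (by norm_num)
  rw [abs_le]
  constructor
  · linarith only [h7, h6, h4]
  · linarith only [h5, h3]

lemma log_sn_abs {N t : ℕ} (h0 : 0 < t) (h1 : 2 * t ≤ N) :
    |Real.log (sn N t)| ≤ Real.log N := by
  have hN : 2 ≤ N := by omega
  have hNR : (2 : ℝ) ≤ N := by exact_mod_cast hN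
  have h2 : sn N 1 ≤ sn N t := by
    rcases Nat.lt_or_ge 1 t with h | h
    · exact sn_le (by omega) (by norm_num) (by omega) (by omega)
    · have : t = 1 := by omega
      rw [this]; exact le_rfl
  have h3 := sn_pos (N := N) (x := 1) (by norm_num) (by omega)
  have h4 : sn N t ≤ 2 := by
    unfold sn
    have := Real.sin_le_one (Real.pi * ((t : ℤ) : ℝ) / N)
    linarith only [this]
  have h5 := (abs_le.mp (sn_one_bounds hN)).1
  have h6 := Real.log_le_log h3 h2
  have h7 := Real.log_le_log (h3.trans_le h2) (h4.trans hNR)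
  rw [abs_le]
  constructor <;> linarith

lemma unif_half {N m : ℕ} (hm : 1 ≤ m) (h : 2 * m ≤ N) :
    |logS N m - N / Real.pi * HH (Real.pi / N * m)| ≤ 1 + 2 * Real.log N := by
  have hN : 2 ≤ N := by omega
  have hNR : (2 : ℝ) ≤ N := by exact_mod_cast hN
  have hlogN : Real.log 2 ≤ Real.log N := Real.log_le_log (by norm_num) hNR
  have hlog2 : 0 ≤ Real.log 2 := Real.log_nonneg (by norm_num)
  have h1 := logS_lower hm h
  rw [mul_one] at h1
  have h2 := abs_le.mp (HH_pi_div hN)
  have h3 := abs_le.mp (sn_one_bounds hN)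
  obtain ⟨k, rfl⟩ : ∃ k, m = k + 1 := ⟨m - 1, by omega⟩
  have h4 := logS_upper (N := N) (m := k) h
  rw [mul_one] at h4
  have h5 : logS N (k + 1) = logS N k + Real.log (sn N ((k : ℤ) + 1)) := by
    unfold logS; rw [sum_range_succ]
  have h6 : Real.log (sn N ((k : ℤ) + 1)) ≤ Real.log 2 := by
    have h7 := sn_pos (N := N) (x := (k : ℤ) + 1) (by omega) (by omega)
    apply Real.log_le_log h7
    unfold sn
    have := Real.sin_le_one (Real.pi * (((k : ℤ) + 1 : ℤ) : ℝ) / N)
    linarith only [this]
  have e : (1 + (k : ℝ)) = ((k + 1 : ℕ) : ℝ) := by push_cast; ring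
  rw [e] at h4
  rw [abs_le]
  constructor
  · nlinarith only [h1, h3, h2]
  · nlinarith only [h6, h5, h4, h2, hlogN]

/-- uniform estimate -/
lemma unif {N m : ℕ} (hN : 2 ≤ N) (hm : m < N) :
    |logS N m - N / Real.pi * HH (Real.pi / N * m)| ≤ 1 + 4 * Real.log N := by
  have hNR : (2 : ℝ) ≤ N := by exact_mod_cast hN
  have hlogN : 0 ≤ Real.log N := Real.log_nonneg (by linarith)
  rcases Nat.eq_zero_or_pos m with rfl | h0
  · simp [logS, HH_zero]
    positivity
  by_cases h : 2 * m ≤ N
  · have := unif_half h0 h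
    linarith only [this, hlogN]
  · obtain ⟨j, hj⟩ : ∃ j, j = N - 1 - m := ⟨_, rfl⟩
    have h1 := logS_refl (N := N) m hm
    rw [← hj, logS_last hN] at h1
    have h2 := abs_le.mp (unif_half (N := N) (m := j + 1) (by omega) (by omega))
    have h3 : logS N (j + 1) = logS N j + Real.log (sn N ((j : ℤ) + 1)) := by
      unfold logS; rw [sum_range_succ]
    have h4 := abs_le.mp (log_sn_abs (N := N) (t := j + 1) (by omega) (by omega))
    push_cast at h4
    have h5 : HH (Real.pi / N * m) = - HH (Real.pi / N * ((j + 1 : ℕ) : ℝ)) := by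
      rw [← HH_refl]
      congr 1
      have e : ((j + 1 : ℕ) : ℝ) = (N : ℝ) - m := by
        have : j + 1 = N - m := by omega
        rw [this, Nat.cast_sub (by omega)]
      rw [e]
      field_simp
      ring
    rw [h5, abs_le]
    constructor
    · linarith only [h4, h3, h2, h1, hlogN]
    · linarith only [h4, h3, h2, h1]

end Pool.Agent.Helper9.Kashaev
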