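import Pool.Agent.Helper9.Power
import Pool.Agent.Helper9.Asym

/-!
# The square of a crossing
-/

namespace Pool.Agent.Helper9.Kashaev

open Finset

lemma qb_qb {N a k l : ℕ} (ha : a < N) (hk : k ≤ a) (hl : l ≤ k) :
    qb N a k * qb N k l = qb N a l * qb N (a - l) (k - l) := by
  rw [qb_eq_div ha hk, qb_eq_div (by omega) hl, qb_eq_div ha (by omega),
    qb_eq_div (by omega) (by omega)]
  have e : a - l - (k - l) = a - k := by omega
  rw [e]
  have f1 : qfac N k ≠ 0 := qfac_ne (by omega)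
  have f2 : qfac N (a - k) ≠ 0 := qfac_ne (by omega)
  have f3 : qfac N l ≠ 0 := qfac_ne (by omega)
  have f4 : qfac N (k - l) ≠ 0 := qfac_ne (by omega)
  have f5 : qfac N (a - l) ≠ 0 := qfac_ne (by omega)
  field_simp

lemma tht_add {N : ℕ} (hN : 2 ≤ N) (l j : ℕ) :
    tht N (l + j) 0 = tht N l 0 * (-v N ^ (1 : ℤ)) ^ j := by
  induction j with
  | zero => simp
  | succ j ih =>
    rw [← Nat.add_assoc, tht_succ hN, ih, v_neg_wt hN, pow_succ]
    simp only [Nat.cast_zero, mul_zero, add_zero]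
    ring

/-- the coefficients of the square of a crossing, up to a phase -/
noncomputable def tb (N a l : ℕ) : ℝ := rb N a l * ∏ t ∈ range (a - l), sn N ((l : ℤ) + 1 + t)

lemma Ac_Ac {N a c l : ℕ} (hN : 2 ≤ N) (ha : a < N) (hl : l ≤ a) :
    ‖∑ j ∈ range (a - l + 1), Ac N a c (l + j) * Ac N (l + j) (c + (a - (l + j))) l‖ =
      tb N a l := by
  obtain ⟨n, rfl⟩ : ∃ n, a = l + n := ⟨a - l, by omega⟩
  have e0 : l + n - l = n := by omega
  rw [e0]
  have h1 : ∀ j ∈ range (n + 1), Ac N (l + n) c (l + j) * Ac N (l + j) (c + (l + n - (l + j))) l =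
      (tht N (l + n) 0 * tht N l 0 * v N ^ (2 * (c : ℤ) * n + (n : ℤ) ^ 2 + ((l : ℤ) + n) * l +
        (l : ℤ) ^ 2) * qb N (l + n) l) *
        (qb N n j * (-v N ^ (2 * (l : ℤ) + n + 1)) ^ j) := by
    intro j hj
    rw [mem_range] at hj
    have e1 : l + n - (l + j) = n - j := by omega
    rw [e1]
    unfold Ac
    have e2 := qb_qb (N := N) (a := l + n) (k := l + j) (l := l) ha (by omega) (by omega)
    rw [show l + n - l = n by omega, show l + j - l = j by omega] at e2
    have e3 : ((c + (n - j) : ℕ) : ℤ) = (c : ℤ) + (n - j) := by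
      push_cast [Nat.cast_sub (show j ≤ n by omega)]; ring
    rw [e3, tht_add hN l j]
    have e4 : (-v N ^ (2 * (l : ℤ) + n + 1)) ^ j =
        (-v N ^ (1 : ℤ)) ^ j * v N ^ ((j : ℤ) * (2 * l + n)) := by
      rw [neg_pow, neg_pow (v N ^ (1 : ℤ)), ← zpow_natCast (v N ^ (2 * (l : ℤ) + n + 1)),
        ← zpow_mul, ← zpow_natCast (v N ^ (1 : ℤ)), ← zpow_mul, mul_assoc, vz]
      congr 2; push_cast; ring
    rw [e4]
    have z : v N ^ ((((l + n : ℕ) : ℤ) - ((l + j : ℕ) : ℤ)) * (2 * (c : ℤ) +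
        (((l + n : ℕ) : ℤ) - ((l + j : ℕ) : ℤ))) + ((l + n : ℕ) : ℤ) * ((l + j : ℕ) : ℤ)) *
        v N ^ ((((l + j : ℕ) : ℤ) - (l : ℤ)) * (2 * ((c : ℤ) + (n - j)) +
        (((l + j : ℕ) : ℤ) - (l : ℤ))) + ((l + j : ℕ) : ℤ) * (l : ℤ)) =
        v N ^ (2 * (c : ℤ) * n + (n : ℤ) ^ 2 + ((l : ℤ) + n) * l + (l : ℤ) ^ 2) *
        v N ^ ((j : ℤ) * (2 * l + n)) := by
      rw [vz, vz]; congr 1; push_cast; ring
    linear_combination (tht N (l + n) 0 * (tht N l 0 * (-v N ^ (1 : ℤ)) ^ j) *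
      qb N (l + n) (l + j) * qb N (l + j) l) * z +
      (tht N (l + n) 0 * (tht N l 0 * (-v N ^ (1 : ℤ)) ^ j) *
      v N ^ (2 * (c : ℤ) * n + (n : ℤ) ^ 2 + ((l : ℤ) + n) * l + (l : ℤ) ^ 2) *
        v N ^ ((j : ℤ) * (2 * l + n))) * e2
  rw [sum_congr rfl h1, ← mul_sum, ← prod_formula]
  have h2 : ∀ t ∈ range n, 1 + v N ^ (2 * (t : ℤ) + 1 - n) * (-v N ^ (2 * (l : ℤ) + n + 1)) =
      1 - (v N ^ 2) ^ (l + 1 + t) := by
    intro t _
    rw [mul_neg, vz, ← sub_eq_add_neg, ← pow_mul, ← zpow_natCast]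
    congr 2; push_cast; ring
  rw [prod_congr rfl h2, norm_mul, norm_mul, norm_mul, norm_mul, norm_tht, norm_tht,
    norm_v_zpow, norm_qb ha (by omega), norm_prod]
  unfold tb
  rw [show l + n - l = n by omega, one_mul, one_mul, one_mul]
  congr 1
  apply prod_congr rfl
  intro t ht
  rw [mem_range] at ht
  rw [norm_one_sub_v, abs_of_pos]
  · push_cast; rfl
  · exact sn_pos (by push_cast; omega) (by push_cast; omega)

/-- entries of the square -/
lemma norm_MA_sq {N : ℕ} (hN : 2 ≤ N) (x y : I2 N) :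
    ‖(MA N ^ 2) x y‖ = if (y.1 : ℕ) ≤ x.1 ∧ (y.2 : ℕ) = x.2 + (x.1 - y.1) then tb N x.1 y.1
      else 0 := by
  obtain ⟨⟨a, ha⟩, ⟨c, hc⟩⟩ := x
  obtain ⟨⟨l, hl⟩, ⟨c', hc'⟩⟩ := y
  rw [sq, Matrix.mul_apply]
  simp only
  split_ifs with h
  · have h1 : l ≤ a := h.1
    have h2 : c' = c + (a - l) := h.2
    rw [← Ac_Ac hN ha h1 (c := c)]
    congr 1
    rw [← Fin.sum_univ_eq_sum_range (fun j => Ac N a c (l + j) *
      Ac N (l + j) (c + (a - (l + j))) l)]
    set ι : Fin (a - l + 1) → I2 N := fun j =>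
      (⟨l + (j : ℕ), by have := j.2; omega⟩,
        ⟨c + (a - (l + (j : ℕ))), by have := j.2; omega⟩) with hι
    have hinj : Function.Injective ι := by
      intro i j hij
      have := congrArg (fun z : I2 N => (z.1 : ℕ)) hij
      simp only [hι] at this
      exact Fin.ext (by omega)
    symm
    apply Fintype.sum_of_injective ι hinj
    · intro z hz
      obtain ⟨⟨k, hk⟩, ⟨d, hd⟩⟩ := z
      by_contra hne
      apply hz
      have n1 := left_ne_zero_of_mul hne
      have n2 := right_ne_zero_of_mul hne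
      unfold MA at n1 n2
      simp only at n1 n2
      have c1 : k ≤ a ∧ d = c + (a - k) := by
        by_contra h'
        rw [if_neg h'] at n1
        exact n1 rfl
      have c2 : l ≤ k ∧ c' = d + (k - l) := by
        by_contra h'
        rw [if_neg h'] at n2
        exact n2 rfl
      refine ⟨⟨k - l, by omega⟩, ?_⟩
      simp only [hι, Prod.mk.injEq, Fin.mk.injEq]
      constructor
      · omega
      · omega
    · intro j
      have hj := j.2
      unfold MA
      simp only [hι]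
      rw [if_pos ⟨show l + (j : ℕ) ≤ a by omega, trivial⟩,
        if_pos ⟨show l ≤ l + (j : ℕ) by omega,
          show c' = c + (a - (l + (j : ℕ))) + (l + (j : ℕ) - l) by omega⟩]
  · rw [norm_eq_zero]
    apply sum_eq_zero
    rintro ⟨⟨k, hk⟩, ⟨d, hd⟩⟩ _
    by_contra hne
    apply h
    have n1 := left_ne_zero_of_mul hne
    have n2 := right_ne_zero_of_mul hne
    unfold MA at n1 n2
    simp only at n1 n2
    have c1 : k ≤ a ∧ d = c + (a - k) := by
      by_contra h'
      rw [if_neg h'] at n1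
      exact n1 rfl
    have c2 : l ≤ k ∧ c' = d + (k - l) := by
      by_contra h'
      rw [if_neg h'] at n2
      exact n2 rfl
    omega

lemma log_tb {N a l : ℕ} (ha : a < N) (hl : l ≤ a) :
    Real.log (tb N a l) = 2 * logS N a - 2 * logS N l - logS N (a - l) := by
  have h1 : ∏ t ∈ range (a - l), sn N ((l : ℤ) + 1 + t) ≠ 0 := by
    apply prod_ne_zero_iff.mpr
    intro t ht
    rw [mem_range] at ht
    exact (sn_pos (by omega) (by omega)).ne'
  unfold tb
  rw [Real.log_mul (rb_pos ha hl).ne' h1]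
  have h2 : Real.log (∏ t ∈ range (a - l), sn N ((l : ℤ) + 1 + t)) = logS N a - logS N l := by
    rw [Real.log_prod (fun t ht => by
      rw [mem_range] at ht
      exact (sn_pos (by omega) (by omega)).ne')]
    unfold logS
    obtain ⟨n, rfl⟩ : ∃ n, a = l + n := ⟨a - l, by omega⟩
    rw [show l + n - l = n by omega, sum_range_add, add_sub_cancel_left]
    apply sum_congr rfl
    intro t _
    congr 2; push_cast; ring
  rw [h2]
  unfold rb
  have f1 := (rfac_pos (N := N) (m := a) ha).ne'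
  have f2 := (rfac_pos (N := N) (m := l) (by omega)).ne'
  have f3 := (rfac_pos (N := N) (m := a - l) (by omega)).ne'
  rw [Real.log_div f1 (mul_ne_zero f2 f3), Real.log_mul f2 f3, log_rfac ha,
    log_rfac (by omega), log_rfac (by omega)]
  push_cast [Nat.cast_sub hl]
  ring

lemma tb_pos {N a l : ℕ} (ha : a < N) (hl : l ≤ a) : 0 < tb N a l := by
  unfold tb
  apply mul_pos (rb_pos ha hl)
  apply prod_pos
  intro t ht
  rw [mem_range] at ht
  exact sn_pos (by omega) (by omega)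

lemma tb_refl {N a l : ℕ} (ha : a < N) (hl : l ≤ a) :
    tb N (N - 1 - l) (N - 1 - a) = tb N a l := by
  have h1 := tb_pos ha hl
  have h2 := tb_pos (N := N) (a := N - 1 - l) (l := N - 1 - a) (by omega) (by omega)
  apply Real.log_injOn_pos (Set.mem_Ioi.mpr h2) (Set.mem_Ioi.mpr h1)
  rw [log_tb (by omega) (by omega), log_tb ha hl, show N - 1 - l - (N - 1 - a) = a - l by omega]
  have h3 := logS_refl (N := N) l (by omega)
  have h4 := logS_refl (N := N) a ha
  linarith

end Pool.Agent.Helper9.Kashaev
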