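import Pool.Agent.Helper9.Unif
import Pool.Agent.Helper9.Square

/-!
# The octahedral maximum
-/

namespace Pool.Agent.Helper9.Kashaev

open Finset Filter Topology MeasureTheory

lemma HH_deriv {x : ℝ} (h0 : 0 < x) (h1 : x < Real.pi) :
    HasDerivAt HH (Real.log |2 * Real.sin x|) x := by
  have hs : 0 < Real.sin x := Real.sin_pos_of_pos_of_lt_pi h0 h1
  have hc : ContinuousAt (fun t => Real.log |2 * Real.sin t|) x := by
    apply ContinuousAt.log
    · fun_prop
    · exact (abs_pos.mpr (by positivity)).ne'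
  apply intervalIntegral.integral_hasDerivAt_right (integrable_h 0 x) _ hc
  refine ⟨Set.univ, univ_mem, ?_⟩
  have : Measurable (fun t => Real.log |2 * Real.sin t|) := by
    apply Real.measurable_log.comp
    fun_prop
  exact this.aestronglyMeasurable

/-- the difference, at fixed `δ` -/
lemma phi_mono {δ : ℝ} (h0 : 0 < δ) (h1 : δ < Real.pi) :
    StrictMonoOn (fun x => HH (x + δ) - HH x) (Set.Icc 0 ((Real.pi - δ) / 2)) := by
  have hpi := Real.pi_pos
  apply strictMonoOn_of_deriv_pos (convex_Icc _ _)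
  · apply Continuous.continuousOn
    exact (HH_cont.comp (continuous_id.add continuous_const)).sub HH_cont
  · intro x hx
    rw [interior_Icc] at hx
    obtain ⟨hx0, hx1⟩ := hx
    have d1 : HasDerivAt (fun x => HH (x + δ)) (Real.log |2 * Real.sin (x + δ)|) x := by
      have := (HH_deriv (x := x + δ) (by linarith) (by linarith)).comp_add_const x δ
      exact this
    have d2 := HH_deriv (x := x) hx0 (by linarith)
    have d3 : HasDerivAt (fun x => HH (x + δ) - HH x)
        (Real.log |2 * Real.sin (x + δ)| - Real.log |2 * Real.sin x|) x := d1.sub d2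
    rw [d3.deriv]
    have h2 : Real.sin x < Real.sin (x + δ) := by
      have h3 := Real.sin_sub_sin (x + δ) x
      have h4 : 0 < Real.sin ((x + δ - x) / 2) := by
        rw [show (x + δ - x) / 2 = δ / 2 by ring]
        exact Real.sin_pos_of_pos_of_lt_pi (by linarith) (by linarith)
      have h5 : 0 < Real.cos ((x + δ + x) / 2) := by
        apply Real.cos_pos_of_mem_Ioo
        constructor <;> linarith
      nlinarith only [mul_pos h4 h5, h5, h4, h3]
    have h6 : 0 < Real.sin x := Real.sin_pos_of_pos_of_lt_pi hx0 (by linarith)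
    rw [abs_of_pos (by linarith), abs_of_pos (by linarith)]
    have := Real.log_lt_log (show 0 < 2 * Real.sin x by linarith)
      (show 2 * Real.sin x < 2 * Real.sin (x + δ) by linarith)
    linarith

lemma phi_symm {δ x : ℝ} : HH ((Real.pi - δ - x) + δ) - HH (Real.pi - δ - x) =
    HH (x + δ) - HH x := by
  have h1 := HH_refl x
  have h2 := HH_refl (x + δ)
  rw [show Real.pi - δ - x + δ = Real.pi - x by ring,
    show Real.pi - δ - x = Real.pi - (x + δ) by ring, h1, h2]
  ring

lemma phi_center {δ : ℝ} : HH ((Real.pi - δ) / 2 + δ) - HH ((Real.pi - δ) / 2) =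
    -2 * HH ((Real.pi - δ) / 2) := by
  have h := HH_refl ((Real.pi - δ) / 2)
  rw [show Real.pi - (Real.pi - δ) / 2 = (Real.pi - δ) / 2 + δ by ring] at h
  rw [h]; ring

lemma phi_le {δ x : ℝ} (h0 : 0 < δ) (h1 : δ < Real.pi) (hx0 : 0 ≤ x) (hx1 : x + δ ≤ Real.pi) :
    HH (x + δ) - HH x ≤ -2 * HH ((Real.pi - δ) / 2) := by
  rw [← phi_center]
  rcases le_total x ((Real.pi - δ) / 2) with h | h
  · exact (phi_mono h0 h1).monotoneOn ⟨hx0, h⟩ ⟨by linarith, le_rfl⟩ h
  · rw [← phi_symm]
    exact (phi_mono h0 h1).monotoneOn ⟨by linarith, by linarith⟩ ⟨by linarith, le_rfl⟩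
      (by linarith)

lemma phi_lt {δ x : ℝ} (h0 : 0 < δ) (h1 : δ < Real.pi) (hx0 : 0 ≤ x)
    (hx : x < (Real.pi - δ) / 2) : HH (x + δ) - HH x < -2 * HH ((Real.pi - δ) / 2) := by
  rw [← phi_center]
  exact phi_mono h0 h1 ⟨hx0, hx.le⟩ ⟨by linarith, le_rfl⟩ hx

/-- the function of `δ` -/
noncomputable def GG (δ : ℝ) : ℝ := -4 * HH ((Real.pi - δ) / 2) - HH δ

lemma GG_cont : Continuous GG := by
  unfold GG
  apply Continuous.sub
  · exact continuous_const.mul (HH_cont.comp (by fun_prop))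
  · exact HH_cont

lemma GG_deriv {δ : ℝ} (h0 : 0 < δ) (h1 : δ < Real.pi) :
    HasDerivAt GG (2 * Real.log |2 * Real.sin ((Real.pi - δ) / 2)| -
      Real.log |2 * Real.sin δ|) δ := by
  have d1 : HasDerivAt (fun x : ℝ => (Real.pi - x) / 2) (-1 / 2) δ := by
    have := ((hasDerivAt_id δ).const_sub Real.pi).div_const 2
    simpa using this
  have d2 := (HH_deriv (x := (Real.pi - δ) / 2) (by linarith) (by linarith)).comp δ d1
  have d3 := (d2.const_mul (-4)).sub (HH_deriv h0 h1)
  refine d3.congr_deriv ?_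
  ring

lemma GG_sign {δ : ℝ} (h0 : 0 < δ) (h1 : δ < Real.pi) :
    2 * Real.log |2 * Real.sin ((Real.pi - δ) / 2)| - Real.log |2 * Real.sin δ| =
      Real.log (Real.cos (δ / 2)) - Real.log (Real.sin (δ / 2)) := by
  have hs : 0 < Real.sin (δ / 2) := Real.sin_pos_of_pos_of_lt_pi (by linarith) (by linarith)
  have hc : 0 < Real.cos (δ / 2) := Real.cos_pos_of_mem_Ioo ⟨by linarith, by linarith⟩
  have e1 : Real.sin ((Real.pi - δ) / 2) = Real.cos (δ / 2) := by
    rw [show (Real.pi - δ) / 2 = Real.pi / 2 - δ / 2 by ring, Real.sin_pi_div_two_sub]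
  have e2 : Real.sin δ = 2 * Real.sin (δ / 2) * Real.cos (δ / 2) := by
    rw [← Real.sin_two_mul]; congr 1; ring
  rw [e1, e2, abs_of_pos (by positivity), abs_of_pos (by positivity),
    Real.log_mul (by norm_num) hc.ne', Real.log_mul (by norm_num) (by positivity),
    Real.log_mul (by positivity) hc.ne', Real.log_mul (by norm_num) hs.ne']
  ring

lemma GG_mono : StrictMonoOn GG (Set.Icc 0 (Real.pi / 2)) := by
  have hpi := Real.pi_pos
  apply strictMonoOn_of_deriv_pos (convex_Icc _ _) GG_cont.continuousOn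
  intro x hx
  rw [interior_Icc] at hx
  obtain ⟨hx0, hx1⟩ := hx
  rw [(GG_deriv hx0 (by linarith)).deriv, GG_sign hx0 (by linarith)]
  have hs : 0 < Real.sin (x / 2) := Real.sin_pos_of_pos_of_lt_pi (by linarith) (by linarith)
  have h1 : Real.sin (x / 2) < Real.cos (x / 2) := by
    rw [← Real.sin_pi_div_two_sub]
    exact Real.sin_lt_sin_of_lt_of_le_pi_div_two (by linarith) (by linarith) (by linarith)
  have := Real.log_lt_log hs h1
  linarith

lemma GG_anti : StrictAntiOn GG (Set.Icc (Real.pi / 2) Real.pi) := by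
  have hpi := Real.pi_pos
  apply strictAntiOn_of_deriv_neg (convex_Icc _ _) GG_cont.continuousOn
  intro x hx
  rw [interior_Icc] at hx
  obtain ⟨hx0, hx1⟩ := hx
  rw [(GG_deriv (by linarith) (by linarith)).deriv, GG_sign (by linarith) (by linarith)]
  have hc : 0 < Real.cos (x / 2) := Real.cos_pos_of_mem_Ioo ⟨by linarith, by linarith⟩
  have h1 : Real.cos (x / 2) < Real.sin (x / 2) := by
    rw [← Real.sin_pi_div_two_sub]
    exact Real.sin_lt_sin_of_lt_of_le_pi_div_two (by linarith) (by linarith) (by linarith)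
  have := Real.log_lt_log hc h1
  linarith

lemma GG_half : GG (Real.pi / 2) = -4 * HH (Real.pi / 4) := by
  unfold GG
  rw [HH_half, show (Real.pi - Real.pi / 2) / 2 = Real.pi / 4 by ring]; ring

lemma GG_le {δ : ℝ} (h0 : 0 ≤ δ) (h1 : δ ≤ Real.pi) : GG δ ≤ GG (Real.pi / 2) := by
  have hpi := Real.pi_pos
  rcases le_total δ (Real.pi / 2) with h | h
  · exact GG_mono.monotoneOn ⟨h0, h⟩ ⟨by linarith, le_rfl⟩ h
  · exact GG_anti.antitoneOn ⟨le_rfl, by linarith⟩ ⟨h, h1⟩ h

lemma GG_zero : GG 0 = 0 := by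
  unfold GG
  rw [sub_zero, HH_half, HH_zero]; ring

lemma GG_pi : GG Real.pi = 0 := by
  unfold GG
  rw [sub_self, zero_div, HH_zero, HH_pi]; ring

lemma GG_pos : 0 < GG (Real.pi / 2) := by
  have hpi := Real.pi_pos
  rw [← GG_zero]
  exact GG_mono ⟨le_rfl, by linarith⟩ ⟨by linarith, le_rfl⟩ (by linarith)

/-- the exponent of `tb` -/
noncomputable def FF (x y : ℝ) : ℝ := 2 * HH y - 2 * HH x - HH (y - x)

lemma FF_le_GG {x y : ℝ} (h0 : 0 ≤ x) (h1 : x ≤ y) (h2 : y ≤ Real.pi) : FF x y ≤ GG (y - x) := by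
  have hpi := Real.pi_pos
  rcases h1.eq_or_lt with rfl | h1
  · rw [sub_self, GG_zero]
    unfold FF
    rw [sub_self, sub_self, HH_zero]; linarith
  · rcases (show y - x ≤ Real.pi by linarith).eq_or_lt with h3 | h3
    · have hx : x = 0 := by linarith
      have hy : y = Real.pi := by linarith
      rw [h3, GG_pi, hx, hy]
      unfold FF
      rw [HH_pi, HH_zero, sub_zero, HH_pi]; linarith
    · have := phi_le (δ := y - x) (x := x) (by linarith) h3 h0 (by linarith)
      rw [show x + (y - x) = y by ring] at this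
      unfold FF GG
      linarith

lemma FF_le {x y : ℝ} (h0 : 0 ≤ x) (h1 : x ≤ y) (h2 : y ≤ Real.pi) :
    FF x y ≤ -4 * HH (Real.pi / 4) := by
  rw [← GG_half]
  exact (FF_le_GG h0 h1 h2).trans (GG_le (by linarith) (by linarith))

lemma FF_lt {x y : ℝ} (h0 : 0 ≤ x) (h1 : x ≤ y) (h2 : y ≤ Real.pi / 2) :
    FF x y < -4 * HH (Real.pi / 4) := by
  have hpi := Real.pi_pos
  rw [← GG_half]
  rcases (show y - x ≤ Real.pi / 2 by linarith).eq_or_lt with h3 | h3
  · have hx : x = 0 := by linarith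
    have h4 := phi_lt (δ := y - x) (x := x) (by linarith) (by linarith) h0 (by
      rw [h3, hx]; linarith)
    rw [show x + (y - x) = y by ring] at h4
    rw [← h3]
    unfold FF GG
    linarith
  · have h4 := FF_le_GG h0 h1 (by linarith)
    have h5 := GG_mono (a := y - x) (b := Real.pi / 2) ⟨by linarith, h3.le⟩
      ⟨by linarith, le_rfl⟩ h3
    linarith

lemma FF_cont : Continuous (fun p : ℝ × ℝ => FF p.1 p.2) := by
  unfold FF
  have h1 : Continuous (fun p : ℝ × ℝ => HH p.2) := HH_cont.comp continuous_snd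
  have h2 : Continuous (fun p : ℝ × ℝ => HH p.1) := HH_cont.comp continuous_fst
  have h3 : Continuous (fun p : ℝ × ℝ => HH (p.2 - p.1)) :=
    HH_cont.comp (continuous_snd.sub continuous_fst)
  exact ((continuous_const.mul h1).sub (continuous_const.mul h2)).sub h3

/-- uniform strict inequality on the lower half -/
lemma FF_gap : ∃ c : ℝ, 0 ≤ c ∧ c < -4 * HH (Real.pi / 4) ∧ ∀ x y : ℝ, 0 ≤ x → x ≤ y →
    y ≤ Real.pi / 2 → FF x y ≤ c := by
  have hpi := Real.pi_pos
  set K : Set (ℝ × ℝ) := {p | 0 ≤ p.1 ∧ p.1 ≤ p.2 ∧ p.2 ≤ Real.pi / 2} with hK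
  have hKc : IsCompact K := by
    apply IsCompact.of_isClosed_subset (isCompact_Icc (a := ((0 : ℝ), (0 : ℝ)))
      (b := (Real.pi / 2, Real.pi / 2)))
    · apply IsClosed.inter (isClosed_le continuous_const continuous_fst)
      apply IsClosed.inter (isClosed_le continuous_fst continuous_snd)
        (isClosed_le continuous_snd continuous_const)
    · rintro ⟨x, y⟩ ⟨h1, h2, h3⟩
      simp only at h1 h2 h3
      exact ⟨⟨h1, by simp only; linarith⟩, ⟨by simp only; linarith, h3⟩⟩
  have hKn : K.Nonempty := ⟨(0, 0), le_rfl, le_rfl, by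
    show (0 : ℝ) ≤ Real.pi / 2
    linarith⟩
  obtain ⟨p, hp, hmax⟩ := hKc.exists_isMaxOn hKn FF_cont.continuousOn
  refine ⟨max (FF p.1 p.2) 0, le_max_right _ _, ?_, ?_⟩
  · apply max_lt
    · exact FF_lt hp.1 hp.2.1 hp.2.2
    · rw [← GG_half]; exact GG_pos
  · intro x y h1 h2 h3
    exact (hmax (show (x, y) ∈ K from ⟨h1, h2, h3⟩)).trans (le_max_left _ _)

/-- uniform comparison of `tb` with its exponent -/
lemma log_tb_approx {N a l : ℕ} (hN : 2 ≤ N) (ha : a < N) (hl : l ≤ a) :
    |Real.log (tb N a l) - N / Real.pi * FF (Real.pi / N * l) (Real.pi / N * a)| ≤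
      5 * (1 + 4 * Real.log N) := by
  rw [log_tb ha hl]
  have h1 := abs_le.mp (unif hN ha)
  have h2 := abs_le.mp (unif (N := N) (m := l) hN (by omega))
  have h3 := abs_le.mp (unif (N := N) (m := a - l) hN (by omega))
  have e : Real.pi / N * ((a - l : ℕ) : ℝ) = Real.pi / N * a - Real.pi / N * l := by
    rw [Nat.cast_sub hl]; ring
  rw [e] at h3
  unfold FF
  rw [abs_le]
  constructor
  · linarith only [h3, h2, h1]
  · linarith only [h3, h2, h1]

end Pool.Agent.Helper9.Kashaev
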