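import Pool.Agent.Helper9.Oct

/-!
# Growth rate for the closed braids `(σ₁ ^ 2 σ₂ ^ (-2)) ^ p` with their axis
-/

namespace Pool.Agent.Helper9.Kashaev

open Finset Filter Topology MeasureTheory

/-- General assembly of the growth rate from bounds for the entries of the `r`-th power of a
crossing. -/
theorem growth_of_bounds (r : ℕ) {p : ℕ} (hp : 1 ≤ p) (M c : ℝ) (hc : c < M)
    (U V L : ℕ → ℝ)
    (hU : Tendsto (fun N => U N / N) atTop (𝓝 M)) (hV : Tendsto (fun N => V N / N) atTop (𝓝 c))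
    (hL : Tendsto (fun N => L N / N) atTop (𝓝 M))
    (hup : ∀ᶠ N : ℕ in atTop, ∀ x y, ‖(MA N ^ r) x y‖ ≤ Real.exp (U N))
    (hsmall : ∀ᶠ N : ℕ in atTop, ∀ s, s < N → N ≤ 2 * s → ∀ a l : Fin (N - s),
      ‖(MA N ^ r) (im N s a) (im N s l)‖ ≤ Real.exp (V N) ∧
      ‖(MA N ^ r) (ip N s a) (ip N s l)‖ ≤ Real.exp (V N))
    (hlow : ∀ᶠ N : ℕ in atTop, ∃ a l : Fin (N - 0), Real.exp (L N) ≤ ‖(Am N 0 ^ r) a l‖) :
    Tendsto (fun N : ℕ => 2 * Real.pi *
      Real.log ‖(N : ℂ) * Matrix.trace ((MC N ^ r * MA N ^ r) ^ p)‖ / N) atTop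
      (𝓝 (4 * Real.pi * p * M)) := by
  have hpi := Real.pi_pos
  have hlog := tendsto_log_div
  have hinv : Tendsto (fun N : ℕ => (1 : ℝ) / N) atTop (𝓝 0) := tendsto_one_div_atTop_nhds_zero_nat
  -- the small part is negligible
  have h1 : Tendsto (fun N : ℕ => (Real.log 4 * (1 / (N : ℝ)) + 2 * (Real.log N / N)) +
      p * (2 * (Real.log N / N) + 2 * (V N / N))) atTop (𝓝 (2 * p * c)) := by
    have h := ((hinv.const_mul (Real.log 4)).add (hlog.const_mul 2)).add
      (((hlog.const_mul 2).add (hV.const_mul 2)).const_mul (p : ℝ))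
    convert h using 2
    ring
  have h2 : Tendsto (fun N : ℕ => 2 * (p : ℝ) * (L N / N)) atTop (𝓝 (2 * p * M)) :=
    hL.const_mul (2 * (p : ℝ))
  have hp' : (0 : ℝ) < p := by exact_mod_cast hp
  have h3 : ∀ᶠ N : ℕ in atTop, (Real.log 4 * (1 / (N : ℝ)) + 2 * (Real.log N / N)) +
      p * (2 * (Real.log N / N) + 2 * (V N / N)) < 2 * (p : ℝ) * (L N / N) := by
    apply h1.eventually_lt h2
    have := mul_lt_mul_of_pos_left hc (show (0 : ℝ) < 2 * p by positivity)
    exact this
  have hbig : ∀ᶠ N : ℕ in atTop, Real.exp (2 * p * L N) / 2 ≤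
      ‖Matrix.trace ((MC N ^ r * MA N ^ r) ^ p)‖ := by
    filter_upwards [h3, hsmall, hlow, eventually_ge_atTop 2] with N h3 h4 h5 hN
    obtain ⟨a, l, h5⟩ := h5
    have hNR : (0 : ℝ) < N := by positivity
    have h6 := trace_lower_r hN r p a l (Real.exp (V N)) (Real.exp_pos _).le h4
    have h7 : Real.exp (2 * p * L N) ≤ ‖(Am N 0 ^ r) a l‖ ^ (2 * p) := by
      have := pow_le_pow_left₀ (Real.exp_pos _).le h5 (2 * p)
      rw [← Real.exp_nat_mul] at this
      push_cast at this
      exact this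
    have h8 : 2 * (N : ℝ) * (N * ((N : ℝ) ^ 2 * Real.exp (V N) ^ 2) ^ p) ≤
        Real.exp (2 * p * L N) / 2 := by
      have e1 : 4 * (N : ℝ) * (N * ((N : ℝ) ^ 2 * Real.exp (V N) ^ 2) ^ p) =
          Real.exp ((Real.log 4 + 2 * Real.log N) + p * (2 * Real.log N + 2 * V N)) := by
        have g1 : Real.exp (Real.log 4) = 4 := Real.exp_log (by norm_num)
        have g2 : Real.exp (2 * Real.log N) = (N : ℝ) ^ 2 := by
          rw [two_mul, Real.exp_add, Real.exp_log hNR, sq]
        have g3 : Real.exp (2 * V N) = Real.exp (V N) ^ 2 := by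
          rw [two_mul, Real.exp_add, sq]
        rw [Real.exp_add, Real.exp_add, g1, g2, Real.exp_nat_mul, Real.exp_add, g2, g3]
        ring
      have e2 : (Real.log 4 + 2 * Real.log N) + p * (2 * Real.log N + 2 * V N) ≤
          2 * p * L N := by
        have h9 := mul_le_mul_of_nonneg_left h3.le hNR.le
        have e3 : (N : ℝ) * ((Real.log 4 * (1 / (N : ℝ)) + 2 * (Real.log N / N)) +
            p * (2 * (Real.log N / N) + 2 * (V N / N))) =
            (Real.log 4 + 2 * Real.log N) + p * (2 * Real.log N + 2 * V N) := by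
          field_simp
        have e4 : (N : ℝ) * (2 * (p : ℝ) * (L N / N)) = 2 * p * L N := by field_simp
        rw [e3, e4] at h9
        exact h9
      have e5 := Real.exp_le_exp.mpr e2
      rw [← e1] at e5
      linarith only [e5]
    linarith only [h8, h7, h6]
  have lo : Tendsto (fun N : ℕ => 2 * Real.pi * (Real.log N / N + (2 * p * (L N / N) -
      Real.log 2 * (1 / N)))) atTop (𝓝 (4 * Real.pi * p * M)) := by
    have h := (hlog.add ((hL.const_mul (2 * (p : ℝ))).sub
      (hinv.const_mul (Real.log 2)))).const_mul (2 * Real.pi)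
    convert h using 2
    ring
  have hi : Tendsto (fun N : ℕ => 2 * Real.pi * (Real.log N / N + (Real.log 2 * (1 / N) +
      2 * (Real.log N / N) + p * (2 * (Real.log N / N) + 2 * (U N / N))))) atTop
      (𝓝 (4 * Real.pi * p * M)) := by
    have h := (hlog.add (((hinv.const_mul (Real.log 2)).add (hlog.const_mul 2)).add
      (((hlog.const_mul 2).add (hU.const_mul 2)).const_mul (p : ℝ)))).const_mul (2 * Real.pi)
    convert h using 2
    ring
  apply tendsto_of_tendsto_of_tendsto_of_le_of_le' lo hi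
  · filter_upwards [hbig, eventually_ge_atTop 2] with N h1 hN
    have hNR : (0 : ℝ) < N := by positivity
    have h2 : 0 < Real.exp (2 * p * L N) / 2 := by positivity
    have h3 := Real.log_le_log h2 h1
    rw [Real.log_div (by positivity) (by norm_num), Real.log_exp] at h3
    rw [norm_mul, Complex.norm_natCast, Real.log_mul hNR.ne' (h2.trans_le h1).ne']
    have h4 : 2 * Real.pi * (Real.log N / N + (2 * p * (L N / N) - Real.log 2 * (1 / N))) =
      2 * Real.pi * (Real.log N + (2 * p * L N - Real.log 2)) / N := by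
      field_simp
    rw [h4]
    gcongr
  · filter_upwards [hbig, hup, eventually_ge_atTop 2] with N h1 h5 hN
    have hNR : (0 : ℝ) < N := by positivity
    have h2 : 0 < Real.exp (2 * p * L N) / 2 := by positivity
    have h3 := total_bound_r hN r (Real.exp (U N)) (Real.exp_pos _).le h5 p
    have h6 := Real.log_le_log (h2.trans_le h1) h3
    have e1 : 2 * (N : ℝ) * (N * ((N : ℝ) ^ 2 * Real.exp (U N) ^ 2) ^ p) =
        Real.exp ((Real.log 2 + 2 * Real.log N) + p * (2 * Real.log N + 2 * U N)) := by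
      have g1 : Real.exp (Real.log 2) = 2 := Real.exp_log (by norm_num)
      have g2 : Real.exp (2 * Real.log N) = (N : ℝ) ^ 2 := by
        rw [two_mul, Real.exp_add, Real.exp_log hNR, sq]
      have g3 : Real.exp (2 * U N) = Real.exp (U N) ^ 2 := by
        rw [two_mul, Real.exp_add, sq]
      rw [Real.exp_add, Real.exp_add, g1, g2, Real.exp_nat_mul, Real.exp_add, g2, g3]
      ring
    rw [e1, Real.log_exp] at h6
    rw [norm_mul, Complex.norm_natCast, Real.log_mul hNR.ne' (h2.trans_le h1).ne']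
    have h4 : 2 * Real.pi * (Real.log N / N + (Real.log 2 * (1 / N) +
      2 * (Real.log N / N) + p * (2 * (Real.log N / N) + 2 * (U N / N)))) =
      2 * Real.pi * (Real.log N + ((Real.log 2 + 2 * Real.log N) +
        p * (2 * Real.log N + 2 * U N))) / N := by
      field_simp
    rw [h4]
    gcongr

lemma tb_le_exp {N a l : ℕ} (hN : 2 ≤ N) (ha : a < N) (hl : l ≤ a) {C : ℝ}
    (hC : FF (Real.pi / N * l) (Real.pi / N * a) ≤ C) :
    tb N a l ≤ Real.exp (N / Real.pi * C + 5 * (1 + 4 * Real.log N)) := by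
  have h1 := (abs_le.mp (log_tb_approx hN ha hl)).2
  have hk : 0 ≤ N / Real.pi := by have := Real.pi_pos; positivity
  have h2 := mul_le_mul_of_nonneg_left hC hk
  rw [← Real.exp_log (tb_pos ha hl)]
  apply Real.exp_le_exp.mpr
  linarith only [h2, h1]

lemma err_tendsto (C : ℝ) : Tendsto (fun N : ℕ => ((N : ℝ) / Real.pi * C +
    5 * (1 + 4 * Real.log N)) / N) atTop (𝓝 (C / Real.pi)) := by
  have hlog := tendsto_log_div
  have hinv : Tendsto (fun N : ℕ => (1 : ℝ) / N) atTop (𝓝 0) := tendsto_one_div_atTop_nhds_zero_nat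
  have h := ((tendsto_const_nhds (x := C / Real.pi)).add ((hinv.const_mul 5).add
    (hlog.const_mul 20)))
  rw [show C / Real.pi + (5 * 0 + 20 * 0) = C / Real.pi by ring] at h
  apply h.congr'
  filter_upwards [eventually_ge_atTop 1] with N hN
  have hNR : (0 : ℝ) < N := by exact_mod_cast hN
  have hpi := Real.pi_pos
  field_simp
  ring

lemma tendsto_quarter :
    Tendsto (fun N : ℕ => Real.pi / N * ((N / 4 : ℕ) : ℝ)) atTop (𝓝 (Real.pi / 4)) := by
  have hinv : Tendsto (fun N : ℕ => (1 : ℝ) / N) atTop (𝓝 0) := tendsto_one_div_atTop_nhds_zero_nat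
  have lo : Tendsto (fun N : ℕ => Real.pi * (1 / 4 - 1 / N)) atTop (𝓝 (Real.pi / 4)) := by
    have := ((tendsto_const_nhds (x := (1 : ℝ) / 4)).sub hinv).const_mul Real.pi
    convert this using 2
    ring
  have hpi := Real.pi_pos
  apply tendsto_of_tendsto_of_tendsto_of_le_of_le' lo tendsto_const_nhds
  · filter_upwards [eventually_ge_atTop 2] with N hN
    have hNR : (0 : ℝ) < N := by positivity
    have h : N ≤ 4 * (N / 4) + 4 := by omega
    have h' : (N : ℝ) ≤ 4 * ((N / 4 : ℕ) : ℝ) + 4 := by exact_mod_cast h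
    rw [div_mul_eq_mul_div, mul_div_assoc]
    apply mul_le_mul_of_nonneg_left _ hpi.le
    rw [le_div_iff₀ hNR, sub_mul, one_div_mul_cancel hNR.ne']
    linarith only [h']
  · filter_upwards [eventually_ge_atTop 2] with N hN
    have hNR : (0 : ℝ) < N := by positivity
    have h : 4 * (N / 4) ≤ N := by omega
    have h' : 4 * ((N / 4 : ℕ) : ℝ) ≤ N := by exact_mod_cast h
    rw [div_mul_eq_mul_div, mul_div_assoc, div_eq_mul_one_div Real.pi 4]
    apply mul_le_mul_of_nonneg_left _ hpi.le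
    rw [div_le_iff₀ hNR]
    linarith only [h']

lemma tendsto_quarter' : Tendsto (fun N : ℕ => Real.pi / N * ((N - 1 - N / 4 : ℕ) : ℝ)) atTop
    (𝓝 (3 * Real.pi / 4)) := by
  have hinv : Tendsto (fun N : ℕ => (1 : ℝ) / N) atTop (𝓝 0) := tendsto_one_div_atTop_nhds_zero_nat
  have h := ((tendsto_const_nhds (x := Real.pi)).sub (hinv.const_mul Real.pi)).sub
    tendsto_quarter
  rw [show Real.pi - Real.pi * 0 - Real.pi / 4 = 3 * Real.pi / 4 by ring] at h
  apply h.congr'
  filter_upwards [eventually_ge_atTop 2] with N hN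
  have hNR : (N : ℝ) ≠ 0 := by positivity
  have h2 : ((N - 1 - N / 4 : ℕ) : ℝ) = (N : ℝ) - 1 - ((N / 4 : ℕ) : ℝ) := by
    rw [Nat.cast_sub (by omega), Nat.cast_sub (by omega)]; simp
  rw [h2]
  field_simp

lemma FF_quarter : FF (Real.pi / 4) (3 * Real.pi / 4) = -4 * HH (Real.pi / 4) := by
  unfold FF
  have h := HH_refl (Real.pi / 4)
  rw [show Real.pi - Real.pi / 4 = 3 * Real.pi / 4 by ring] at h
  rw [h, show 3 * Real.pi / 4 - Real.pi / 4 = Real.pi / 2 by ring, HH_half]
  ring

lemma sq_entry_le {N : ℕ} (hN : 2 ≤ N) (x y : I2 N) {E : ℝ} (hE : 0 ≤ E)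
    (h : (y.1 : ℕ) ≤ x.1 → tb N x.1 y.1 ≤ E) : ‖(MA N ^ 2) x y‖ ≤ E := by
  rw [norm_MA_sq hN]
  split_ifs with h1
  · exact h h1.1
  · exact hE

/-- The growth rate for the closed braids `(σ₁ ^ 2 σ₂ ^ (-2)) ^ p` with their axis. -/
theorem oct_growth {p : ℕ} (hp : 1 ≤ p) :
    Tendsto (fun N : ℕ => 2 * Real.pi *
      Real.log ‖(N : ℂ) * Matrix.trace ((MC N ^ 2 * MA N ^ 2) ^ p)‖ / N) atTop
      (𝓝 (2 * p * octVol)) := by
  have hpi := Real.pi_pos
  obtain ⟨c, hc0, hc, hgap⟩ := FF_gap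
  have hkey := growth_of_bounds 2 hp ((-4 * HH (Real.pi / 4)) / Real.pi) (c / Real.pi)
    (div_lt_div_of_pos_right hc hpi)
    (fun N => (N : ℝ) / Real.pi * (-4 * HH (Real.pi / 4)) + 5 * (1 + 4 * Real.log N))
    (fun N => (N : ℝ) / Real.pi * c + 5 * (1 + 4 * Real.log N))
    (fun N => (N : ℝ) / Real.pi * FF (Real.pi / N * ((N / 4 : ℕ) : ℝ))
      (Real.pi / N * ((N - 1 - N / 4 : ℕ) : ℝ)) - 5 * (1 + 4 * Real.log N))
    (err_tendsto _) (err_tendsto _) ?_ ?_ ?_ ?_
  · convert hkey using 2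
    unfold octVol
    rw [HH_loba]
    field_simp
    ring
  · -- the lower bound
    have h1 := (FF_cont.tendsto (Real.pi / 4, 3 * Real.pi / 4)).comp
      (tendsto_quarter.prodMk_nhds tendsto_quarter')
    simp only [FF_quarter] at h1
    have h2 := (h1.div_const Real.pi).sub (err_tendsto 0)
    rw [zero_div, sub_zero] at h2
    apply h2.congr'
    filter_upwards [eventually_ge_atTop 1] with N hN
    have hNR : (0 : ℝ) < N := by exact_mod_cast hN
    simp only [Function.comp_apply]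
    field_simp
    ring
  · filter_upwards [eventually_ge_atTop 2] with N hN x y
    have hNR : (0 : ℝ) < N := by positivity
    apply sq_entry_le hN x y (Real.exp_pos _).le
    intro h1
    apply tb_le_exp hN x.1.2 h1
    have hx : ((x.1 : ℕ) : ℝ) ≤ N := by exact_mod_cast x.1.2.le
    have hy : ((y.1 : ℕ) : ℝ) ≤ (x.1 : ℕ) := by exact_mod_cast h1
    apply FF_le
    · positivity
    · exact mul_le_mul_of_nonneg_left hy (by positivity)
    · rw [div_mul_eq_mul_div, div_le_iff₀ hNR]
      exact mul_le_mul_of_nonneg_left hx hpi.le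
  · filter_upwards [eventually_ge_atTop 2] with N hN s hs hs2 a l
    have hNR : (0 : ℝ) < N := by positivity
    have ha := a.2
    have hl := l.2
    constructor
    · apply sq_entry_le hN _ _ (Real.exp_pos _).le
      intro h1
      have h1' : (l : ℕ) ≤ a := h1
      show tb N a l ≤ _
      apply tb_le_exp hN (by omega) h1'
      have hx : 2 * ((a : ℕ) : ℝ) ≤ N := by exact_mod_cast (show 2 * (a : ℕ) ≤ N by omega)
      have hy : ((l : ℕ) : ℝ) ≤ (a : ℕ) := by exact_mod_cast h1'
      apply hgap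
      · positivity
      · exact mul_le_mul_of_nonneg_left hy (by positivity)
      · rw [div_mul_eq_mul_div, div_le_div_iff₀ hNR (by norm_num)]
        nlinarith only [hx, hpi]
    · apply sq_entry_le hN _ _ (Real.exp_pos _).le
      intro h1
      have h1' : (l : ℕ) + s ≤ a + s := h1
      show tb N (a + s) (l + s) ≤ _
      rw [← tb_refl (by omega) h1']
      apply tb_le_exp hN (by omega) (by omega)
      have hx : 2 * ((N - 1 - (l + s) : ℕ) : ℝ) ≤ N := by
        exact_mod_cast (show 2 * (N - 1 - ((l : ℕ) + s)) ≤ N by omega)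
      have hy : ((N - 1 - (a + s) : ℕ) : ℝ) ≤ ((N - 1 - (l + s) : ℕ) : ℝ) := by
        exact_mod_cast (show N - 1 - ((a : ℕ) + s) ≤ N - 1 - ((l : ℕ) + s) by omega)
      apply hgap
      · positivity
      · exact mul_le_mul_of_nonneg_left hy (by positivity)
      · rw [div_mul_eq_mul_div, div_le_div_iff₀ hNR (by norm_num)]
        nlinarith only [hx, hpi]
  · filter_upwards [eventually_ge_atTop 4] with N hN
    refine ⟨⟨N - 1 - N / 4, by omega⟩, ⟨N / 4, by omega⟩, ?_⟩
    rw [← Am_pow (by omega)]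
    show _ ≤ ‖(MA N ^ 2) (im N 0 ⟨N - 1 - N / 4, by omega⟩) (im N 0 ⟨N / 4, by omega⟩)‖
    rw [norm_MA_sq (by omega), if_pos ⟨show N / 4 ≤ N - 1 - N / 4 by omega,
      show N - 1 - 0 - N / 4 = N - 1 - 0 - (N - 1 - N / 4) + (N - 1 - N / 4 - N / 4) by omega⟩]
    show _ ≤ tb N (N - 1 - N / 4) (N / 4)
    have h1 := (abs_le.mp (log_tb_approx (N := N) (a := N - 1 - N / 4) (l := N / 4) (by omega)
      (by omega) (by omega))).1
    rw [← Real.exp_log (tb_pos (N := N) (a := N - 1 - N / 4) (l := N / 4) (by omega)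
      (by omega))]
    apply Real.exp_le_exp.mpr
    linarith only [h1]

/-- The volume conjecture for the closed braids `(σ₁ ^ 2 σ₂ ^ (-2)) ^ p` with their axis. -/
theorem oct_volume (p : ℕ) (hp : 1 ≤ p) : ∃ z : ℕ → ℂ,
    (∀ N, 2 ≤ N → IsKashaev N (withAxis (twistBraid 1 2 p)) (z N)) ∧
    Tendsto (fun N : ℕ => 2 * Real.pi * Real.log ‖z N‖ / N) atTop (𝓝 (2 * p * octVol)) :=
  ⟨fun N => N * Matrix.trace ((MC N ^ 2 * MA N ^ 2) ^ p), fun _ hN => twist_value hN 2 p,
    oct_growth hp⟩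

end Pool.Agent.Helper9.Kashaev
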