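import Pool.Agent.Helper9.RTDefs

/-!
# Closed braids `(σ₁ ^ r σ₂ ^ (-r)) ^ p` together with their axis
-/

namespace Pool.Agent.Helper9.Kashaev

/-- The braid `(σ₁ ^ r σ₂ ^ (-r)) ^ p` on the strands number `k`, `k + 1`, `k + 2`. -/
def twistBraid (k r : ℕ) : ℕ → Diagram
  | 0 => []
  | p + 1 => List.replicate r (k, .pos) ++ List.replicate r (k + 1, .neg) ++ twistBraid k r p

/-- The link formed by the closure of a braid `β` on the strands number 1, 2, 3 and the axis of
this closed braid, cut open at the axis.  Strand number 0 is the axis; the strands number 1, 2, 3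
carry the braid and are closed by the strands number 4, 5, 6; after the braid, the axis runs in
front of the strands 1, 2, 3 and comes back behind them. -/
def withAxis (β : Diagram) : Diagram :=
  [(1, .cup), (2, .cup), (3, .cup)] ++ β ++
    [(0, .pos), (1, .pos), (2, .pos), (2, .pos), (1, .pos), (0, .pos)] ++
    [(3, .cap), (2, .cap), (1, .cap)]

end Pool.Agent.Helper9.Kashaev
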