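import Pool.Agent.Helper9.Asym
import Pool.Agent.Helper9.TwistDefs

/-!
# Words in `σ₁` and `σ₂⁻¹`
-/

namespace Pool.Agent.Helper9.Kashaev

open Finset

/-- the diagram of a word -/
def wordD (k : ℕ) : List Bool → Diagram
  | [] => []
  | b :: w => (if b then (k, Piece.pos) else (k + 1, Piece.neg)) :: wordD k w

lemma wordD_append (k : ℕ) (u w : List Bool) : wordD k (u ++ w) = wordD k u ++ wordD k w := by
  induction u with
  | nil => rfl
  | cons b u ih => simp only [List.cons_append, wordD, ih]

lemma wordD_true (k r : ℕ) : wordD k (List.replicate r true) = List.replicate r (k, .pos) := by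
  induction r with
  | zero => rfl
  | succ r ih => simp only [List.replicate_succ, wordD, ih]; rfl

lemma wordD_false (k r : ℕ) :
    wordD k (List.replicate r false) = List.replicate r (k + 1, .neg) := by
  induction r with
  | zero => rfl
  | succ r ih => simp only [List.replicate_succ, wordD, ih]; rfl

/-- the word of `twistBraid` -/
def twistWord (r : ℕ) : ℕ → List Bool
  | 0 => []
  | p + 1 => List.replicate r true ++ List.replicate r false ++ twistWord r p

lemma wordD_twist (k r p : ℕ) : wordD k (twistWord r p) = twistBraid k r p := by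
  induction p with
  | zero => rfl
  | succ p ih =>
    simp only [twistWord, twistBraid, wordD_append, ih, wordD_true, wordD_false]

/-- the slice of a letter -/
noncomputable def lsl (N k : ℕ) (b : Bool) (f : List ℕ → ℂ) : List ℕ → ℂ :=
  if b then slice N .pos k f else slice N .neg (k + 1) f

lemma RT_wordD_cons {N k : ℕ} (b : Bool) (w : List Bool) (f : List ℕ → ℂ) :
    RT N (wordD k (b :: w)) f = RT N (wordD k w) (lsl N k b f) := by
  cases b <;> rfl

lemma lsl_Sup {N n k : ℕ} (b : Bool) {f : List ℕ → ℂ} (hf : Sup N n f) :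
    Sup N n (lsl N k b f) := by
  cases b
  · exact hf.neg (k + 1)
  · exact hf.pos k

lemma RT_word_Sup {N n : ℕ} (k : ℕ) (w : List Bool) {f : List ℕ → ℂ} (hf : Sup N n f) :
    Sup N n (RT N (wordD k w) f) := by
  induction w generalizing f with
  | nil => exact hf
  | cons b w ih => rw [RT_wordD_cons]; exact ih (lsl_Sup b hf)

lemma lsl_cons {N k : ℕ} (b : Bool) (f : List ℕ → ℂ) (x : ℕ) :
    (fun u => lsl N (k + 1) b f (x :: u)) = lsl N k b (fun u => f (x :: u)) := by
  cases b <;> rfl

lemma RT_word_cons {N : ℕ} (k : ℕ) (w : List Bool) (f : List ℕ → ℂ) (x : ℕ) (u : List ℕ) :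
    RT N (wordD (k + 1) w) f (x :: u) = RT N (wordD k w) (fun u => f (x :: u)) u := by
  induction w generalizing f with
  | nil => rfl
  | cons b w ih => rw [RT_wordD_cons, RT_wordD_cons, ih, lsl_cons]

lemma lsl_congr {N : ℕ} (b : Bool) (f g : List ℕ → ℂ)
    (hfg : ∀ a b c, f [a, b, c] = g [a, b, c]) (x y z : ℕ) :
    lsl N 0 b f [x, y, z] = lsl N 0 b g [x, y, z] := by
  cases b <;> simp only [lsl, slice, piece, hfg, if_true, if_false, Bool.false_eq_true]

lemma RT_word_congr {N : ℕ} (w : List Bool) (f g : List ℕ → ℂ)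
    (hfg : ∀ a b c, f [a, b, c] = g [a, b, c]) (x y z : ℕ) :
    RT N (wordD 0 w) f [x, y, z] = RT N (wordD 0 w) g [x, y, z] := by
  induction w generalizing f g x y z with
  | nil => exact hfg x y z
  | cons b w ih =>
    rw [RT_wordD_cons, RT_wordD_cons]
    exact ih _ _ (fun a' b' c' => lsl_congr b f g hfg a' b' c') _ _ _

lemma RT_word_append {N : ℕ} (w : List Bool) (f : List ℕ → ℂ) (a b c : ℕ) (s : List ℕ) :
    RT N (wordD 0 w) f ([a, b, c] ++ s) = RT N (wordD 0 w) (fun u => f (u ++ s)) [a, b, c] := by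
  induction w generalizing f with
  | nil => rfl
  | cons b' w ih =>
    rw [RT_wordD_cons, RT_wordD_cons, ih]
    apply RT_word_congr
    intro a b c
    cases b' <;> simp only [lsl, slice, piece, List.cons_append, List.nil_append, if_true,
      if_false, Bool.false_eq_true]

lemma double_braiding' {N : ℕ} (h0 : 0 < N) (h : List ℕ → ℂ)
    (hh : ∀ x w, x ≠ 0 → h (x :: w) = 0) {a b c : ℕ} (ha : a < N) (hb : b < N) (hc : c < N)
    (s : List ℕ) :
    RT N [(0, .pos), (1, .pos), (2, .pos), (2, .pos), (1, .pos), (0, .pos)] h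
      (0 :: a :: b :: c :: s) =
      (tht N 0 a * tht N 0 b * tht N 0 c) ^ 2 * h (0 :: a :: b :: c :: s) :=
  double_braiding h0 h hh ha hb hc s

/-- the Kashaev invariant of a closed braid with its axis is a trace -/
lemma word_trace {N : ℕ} (hN : 2 ≤ N) (w : List Bool) :
    RT N (withAxis (wordD 1 w)) (ket [0]) [0] = ∑ a ∈ range N, ∑ b ∈ range N, ∑ c ∈ range N,
      RT N (wordD 0 w) (ket [a, b, c]) [a, b, c] := by
  have h0 : 0 < N := by omega
  unfold withAxis
  rw [RT_append, RT_append, RT_append]
  set k3 := RT N [(1, .cup), (2, .cup), (3, .cup)] (ket [0]) with hk3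
  set h := RT N (wordD 1 w) k3 with hh
  set g := RT N [(0, .pos), (1, .pos), (2, .pos), (2, .pos), (1, .pos), (0, .pos)] h with hg
  have hcap : RT N [(3, .cap), (2, .cap), (1, .cap)] g [0] =
      ∑ a ∈ range N, ∑ b ∈ range N, ∑ c ∈ range N, capC N a * capC N b * capC N c *
        g [0, a, b, c, N - 1 - c, N - 1 - b, N - 1 - a] := by
    simp only [RT, slice, piece, mul_sum]
    apply sum_congr rfl; intro a _
    apply sum_congr rfl; intro b _
    apply sum_congr rfl; intro c _
    ring
  rw [hcap]
  have hk0 : ∀ x u, x ≠ 0 → k3 (x :: u) = 0 := by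
    intro x u hx
    rw [hk3]
    have hz : (fun u => ket [0] (x :: u)) = fun _ => 0 := by
      funext u; simp [ket, hx]
    simp only [RT, slice]
    rw [hz]
    have z0 : (fun u => piece N .cup (fun _ => 0) u) = fun _ => 0 := slice_zero_fun N .cup 0
    have z1 : (fun u => slice N .cup 1 (fun _ => 0) u) = fun _ => 0 := slice_zero_fun N .cup 1
    have z2 : slice N .cup 2 (fun _ => 0) = fun _ => 0 := slice_zero_fun N .cup 2
    have e0 : piece N .cup (fun _ => 0) = fun _ => 0 := z0
    rw [e0]
    have e1 : slice N .cup 1 (fun _ => 0) = fun _ => 0 := z1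
    rw [e1]
    exact congrFun z2 u
  have hh0 : ∀ x u, x ≠ 0 → h (x :: u) = 0 := by
    intro x u hx
    rw [hh, RT_word_cons]
    have : (fun u => k3 (x :: u)) = fun _ => 0 := by
      funext u; exact hk0 x u hx
    rw [this]
    have z : RT N (wordD 0 w) (fun _ => 0) = fun _ => 0 := by
      rw [← RTL_apply]; exact (RTL N (wordD 0 w)).map_zero
    exact congrFun z u
  apply sum_congr rfl; intro a ha
  apply sum_congr rfl; intro b hb
  apply sum_congr rfl; intro c hc
  rw [mem_range] at ha hb hc
  have e1 : g [0, a, b, c, N - 1 - c, N - 1 - b, N - 1 - a] =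
      (tht N 0 a * tht N 0 b * tht N 0 c) ^ 2 *
        h [0, a, b, c, N - 1 - c, N - 1 - b, N - 1 - a] :=
    double_braiding h0 h hh0 ha hb hc _
  have e2 : h [0, a, b, c, N - 1 - c, N - 1 - b, N - 1 - a] =
      cupC N a * cupC N b * cupC N c * RT N (wordD 0 w) (ket [a, b, c]) [a, b, c] := by
    rw [hh, RT_word_cons]
    have := RT_word_append (N := N) w (fun u => k3 (0 :: u)) a b c
      [N - 1 - c, N - 1 - b, N - 1 - a]
    simp only [List.cons_append, List.nil_append] at this
    rw [this]
    have h3 : RT N (wordD 0 w) (fun u => k3 (0 :: (u ++ [N - 1 - c, N - 1 - b, N - 1 - a])))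
        [a, b, c] = RT N (wordD 0 w) (fun u => (cupC N a * cupC N b * cupC N c) *
          ket [a, b, c] u) [a, b, c] := by
      apply RT_word_congr
      intro a' b' c'
      rw [hk3]
      simp only [RT, slice, piece, List.cons_append, List.nil_append, ket]
      by_cases hc' : c' = c
      · by_cases hb' : b' = b
        · by_cases ha' : a' = a
          · subst ha' hb' hc'
            rw [if_pos (by omega), if_pos (by omega), if_pos (by omega)]
            simp; ring
          · rw [if_pos (by omega), if_pos (by omega), if_neg (by omega)]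
            simp [ha']
        · rw [if_pos (by omega), if_neg (by omega)]
          simp [hb']
      · rw [if_neg (by omega)]
        simp [hc']
    rw [h3]
    have h4 : (fun u => (cupC N a * cupC N b * cupC N c) * ket [a, b, c] u) =
        (cupC N a * cupC N b * cupC N c) • ket [a, b, c] := rfl
    rw [h4, ← RTL_apply, map_smul, RTL_apply]
    rfl
  rw [e1, e2]
  have ca := cup_cap_tht hN ha
  have cb := cup_cap_tht hN hb
  have cc := cup_cap_tht hN hc
  calc capC N a * capC N b * capC N c * ((tht N 0 a * tht N 0 b * tht N 0 c) ^ 2 *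
        (cupC N a * cupC N b * cupC N c * RT N (wordD 0 w) (ket [a, b, c]) [a, b, c]))
      = (capC N a * cupC N a * tht N 0 a ^ 2) * (capC N b * cupC N b * tht N 0 b ^ 2) *
        (capC N c * cupC N c * tht N 0 c ^ 2) *
        RT N (wordD 0 w) (ket [a, b, c]) [a, b, c] := by ring
    _ = _ := by rw [ca, cb, cc]; ring

lemma word_isKashaev {N : ℕ} (hN : 2 ≤ N) (w : List Bool) :
    IsKashaev N (withAxis (wordD 1 w)) (∑ a ∈ range N, ∑ b ∈ range N, ∑ c ∈ range N,
      RT N (wordD 0 w) (ket [a, b, c]) [a, b, c]) := by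
  rw [← word_trace hN w]
  apply isKashaev_of_Sup hN
  unfold withAxis
  rw [RT_append, RT_append, RT_append]
  have h1 : Sup N 1 (ket [0]) := Sup_ket (w := [0]) (by intro x hx; simp at hx; omega)
  have h2 : Sup N 7 (RT N [(1, .cup), (2, .cup), (3, .cup)] (ket [0])) := by
    simp only [RT]
    exact ((h1.cup 1).cup 2).cup 3
  have h3 := RT_word_Sup 1 w h2
  simp only [RT] at h3 ⊢
  exact (((((((((h3.pos 0).pos 1).pos 2).pos 2).pos 1).pos 0).cap 3).cap 2).cap 1)

/-- the word on the third tensor power -/
noncomputable def WS (N : ℕ) (w : List Bool) : S3 N →ₗ[ℂ] S3 N :=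
  (RTL N (wordD 0 w)).restrict (p := S3 N) (q := S3 N)
    (fun _ hf => by rw [RTL_apply]; exact RT_word_Sup 0 w hf)

lemma WS_coe {N : ℕ} {w : List Bool} (f : S3 N) : (WS N w f).1 = RT N (wordD 0 w) f.1 :=
  RTL_apply _ _ _

lemma WS_comm {N : ℕ} {w : List Bool} (hN : 2 ≤ N) (f : S3 N) :
    WS N w (ES N f) = ES N (WS N w f) := by
  apply Subtype.ext
  rw [WS_coe, ES_coe, ES_coe, WS_coe, RT_E hN]

/-- the matrix of a letter -/
noncomputable def ML (N : ℕ) (b : Bool) : Matrix (I2 N) (I2 N) ℂ := if b then MA N else MC N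

/-- the matrix of a word -/
noncomputable def MW (N : ℕ) : List Bool → Matrix (I2 N) (I2 N) ℂ
  | [] => 1
  | b :: w => MW N w * ML N b

lemma rhoS_WS {N : ℕ} (hN : 2 ≤ N) (w : List Bool) : ∀ f : S3 N, ES N f = 0 →
    rhoS N (WS N w f) = (MW N w).mulVec (rhoS N f) := by
  induction w with
  | nil =>
    intro f _
    show rhoS N (WS N [] f) = (1 : Matrix (I2 N) (I2 N) ℂ).mulVec (rhoS N f)
    rw [Matrix.one_mulVec]
    rfl
  | cons b w ih =>
    intro f hf
    have h1 : Sup N 3 (lsl N 0 b f.1) := lsl_Sup b f.2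
    set g : S3 N := ⟨_, h1⟩ with hg
    have hEg : ES N g = 0 := by
      apply Subtype.ext
      show Eop N (lsl N 0 b f.1) = 0
      have : Eop N f.1 = fun _ => 0 := congrArg Subtype.val hf
      cases b
      · show Eop N (slice N .neg 1 f.1) = 0
        rw [← slice_E hN, this, slice_zero_fun]; rfl
      · show Eop N (slice N .pos 0 f.1) = 0
        rw [← slice_E hN, this, slice_zero_fun]; rfl
    have h3 : WS N (b :: w) f = WS N w g := by
      apply Subtype.ext
      rw [WS_coe, WS_coe, RT_wordD_cons]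
    have h4 : rhoS N g = (ML N b).mulVec (rhoS N f) := by
      cases b
      · exact rhoS_neg hN f g hf rfl
      · exact rhoS_pos hN f g hf rfl
    rw [h3, ih g hEg, h4, Matrix.mulVec_mulVec]
    rfl

/-- The Kashaev invariant of the closed braid with its axis, as a trace of a matrix. -/
theorem word_value {N : ℕ} (hN : 2 ≤ N) (w : List Bool) :
    IsKashaev N (withAxis (wordD 1 w)) (N * Matrix.trace (MW N w)) := by
  have h1 := word_isKashaev hN w
  have h2 := trace_S3 (WS N w) (fun f => RT N (wordD 0 w) f) (fun f => WS_coe f)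
  rw [← h2] at h1
  have hker : ∀ x ∈ LinearMap.ker (ES N), WS N w x ∈ LinearMap.ker (ES N) := by
    intro x hx
    rw [LinearMap.mem_ker] at *
    rw [← WS_comm hN, hx, map_zero]
  have h3 := Lin.trace_free (ES N) (WS N w) (WS_comm hN) N (by
    intro x
    apply Subtype.ext
    rw [ES_pow_coe, EL_pow_N hN]; rfl) (fun j hj u hu => ES_free hN j hj u hu) hker
  have h4 : LinearMap.trace ℂ (LinearMap.ker (ES N)) ((WS N w).restrict hker) =
      Matrix.trace (MW N w) := by
    rw [← Matrix.trace_toLin'_eq]
    refine Lin.trace_bij (K := ℂ) (V := LinearMap.ker (ES N)) (W := I2 N → ℂ)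
      { toFun := fun f => rhoS N f.1
        map_add' := fun f g => map_add (rhoS N) f.1 g.1
        map_smul' := fun c f => map_smul (rhoS N) c f.1 } ?_ ?_ _ _ ?_
    · rintro ⟨f, hf⟩ h
      exact Subtype.ext (rhoS_ker_inj hN f hf h)
    · intro y
      obtain ⟨f, hf, h⟩ := rhoS_ker_surj hN y
      exact ⟨⟨f, hf⟩, h⟩
    · rintro ⟨f, hf⟩
      rw [Matrix.toLin'_apply]
      exact rhoS_WS hN w f hf
  rw [h3, h4] at h1
  exact h1

lemma MW_append {N : ℕ} (u w : List Bool) : MW N (u ++ w) = MW N w * MW N u := by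
  induction u with
  | nil => simp [MW]
  | cons b u ih => simp only [List.cons_append, MW, ih, Matrix.mul_assoc]

lemma MW_replicate {N : ℕ} (b : Bool) (r : ℕ) : MW N (List.replicate r b) = ML N b ^ r := by
  induction r with
  | zero => rfl
  | succ r ih => simp only [List.replicate_succ, MW, ih, pow_succ]

lemma MW_twist {N : ℕ} (r p : ℕ) : MW N (twistWord r p) = (MC N ^ r * MA N ^ r) ^ p := by
  induction p with
  | zero => rfl
  | succ p ih =>
    simp only [twistWord, MW_append, MW_replicate, ih, pow_succ]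
    rfl

theorem twist_value {N : ℕ} (hN : 2 ≤ N) (r p : ℕ) :
    IsKashaev N (withAxis (twistBraid 1 r p)) (N * Matrix.trace ((MC N ^ r * MA N ^ r) ^ p)) := by
  have h := word_value hN (twistWord r p)
  rw [wordD_twist, MW_twist] at h
  exact h

end Pool.Agent.Helper9.Kashaev
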