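import Pool.Agent.Helper9.Asym
import Pool.Agent.Helper9.Word

/-!
# Powers of the crossings
-/

namespace Pool.Agent.Helper9.Kashaev

open Finset
open scoped Matrix

lemma pow_lev {N : ℕ} (M : Matrix (I2 N) (I2 N) ℂ) (hM : ∀ x y, M x y ≠ 0 → lev y = lev x)
    (r : ℕ) : ∀ x y, (M ^ r) x y ≠ 0 → lev y = lev x := by
  induction r with
  | zero =>
    intro x y h
    rw [pow_zero, Matrix.one_apply] at h
    split_ifs at h with h1
    · rw [h1]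
    · exact absurd rfl h
  | succ r ih =>
    intro x y h
    rw [pow_succ, Matrix.mul_apply] at h
    obtain ⟨z, _, hz⟩ := Finset.exists_ne_zero_of_sum_ne_zero h
    rw [← ih _ _ (left_ne_zero_of_mul hz), hM _ _ (right_ne_zero_of_mul hz)]

lemma mul_lev {N : ℕ} (M M' : Matrix (I2 N) (I2 N) ℂ) (hM : ∀ x y, M x y ≠ 0 → lev y = lev x)
    (hM' : ∀ x y, M' x y ≠ 0 → lev y = lev x) :
    ∀ x y, (M * M') x y ≠ 0 → lev y = lev x := by
  intro x y h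
  rw [Matrix.mul_apply] at h
  obtain ⟨z, _, hz⟩ := Finset.exists_ne_zero_of_sum_ne_zero h
  rw [← hM _ _ (left_ne_zero_of_mul hz), hM' _ _ (right_ne_zero_of_mul hz)]

lemma MAr_lev {N : ℕ} (r : ℕ) (x y : I2 N) (h : (MA N ^ r) x y ≠ 0) : lev y = lev x :=
  pow_lev _ (fun _ _ h => MA_lev h) r x y h

lemma MCr_lev {N : ℕ} (r : ℕ) (x y : I2 N) (h : (MC N ^ r) x y ≠ 0) : lev y = lev x :=
  pow_lev _ (fun _ _ h => MC_lev h) r x y h

lemma MCAr_lev {N : ℕ} (r p : ℕ) : ∀ x y : I2 N, ((MC N ^ r * MA N ^ r) ^ p) x y ≠ 0 →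
    lev y = lev x :=
  pow_lev _ (mul_lev _ _ (MCr_lev r) (MAr_lev r)) p

lemma Am_pow {N s : ℕ} (hs : s < N) (r : ℕ) :
    (MA N ^ r).submatrix (im N s) (im N s) = Am N s ^ r :=
  block_pow _ _ (im_inj N s) (MA_im hs) r

lemma Cm_pow {N s : ℕ} (hs : s < N) (r : ℕ) :
    (MC N ^ r).submatrix (im N s) (im N s) = Cm N s ^ r :=
  block_pow _ _ (im_inj N s) (MC_im hs) r

lemma Ap_pow {N s : ℕ} (hs : s < N) (r : ℕ) :
    (MA N ^ r).submatrix (ip N s) (ip N s) = Ap N s ^ r :=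
  block_pow _ _ (ip_inj N s) (MA_ip hs) r

lemma Cp_pow {N s : ℕ} (hs : s < N) (r : ℕ) :
    (MC N ^ r).submatrix (ip N s) (ip N s) = Cp N s ^ r :=
  block_pow _ _ (ip_inj N s) (MC_ip hs) r

lemma lev_im_surj {N s : ℕ} (hs : s < N) (M : Matrix (I2 N) (I2 N) ℂ)
    (hM : ∀ x y, M x y ≠ 0 → lev y = lev x) (a : Fin (N - s)) (y : I2 N)
    (h : M (im N s a) y ≠ 0) : ∃ b, im N s b = y :=
  im_surj hs y (by rw [hM _ _ h, lev_im])

lemma lev_ip_surj {N s : ℕ} (hs : s < N) (M : Matrix (I2 N) (I2 N) ℂ)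
    (hM : ∀ x y, M x y ≠ 0 → lev y = lev x) (a : Fin (N - s)) (y : I2 N)
    (h : M (ip N s a) y ≠ 0) : ∃ b, ip N s b = y :=
  ip_surj hs y (by rw [hM _ _ h, lev_ip])

lemma MCAr_im {N s : ℕ} (hs : s < N) (r p : ℕ) :
    ((MC N ^ r * MA N ^ r) ^ p).submatrix (im N s) (im N s) = (Cm N s ^ r * Am N s ^ r) ^ p := by
  rw [block_pow _ _ (im_inj N s) (lev_im_surj hs _ (mul_lev _ _ (MCr_lev r) (MAr_lev r))),
    block_mul _ _ _ (im_inj N s) (lev_im_surj hs _ (MCr_lev r)), Cm_pow hs, Am_pow hs]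

lemma MCAr_ip {N s : ℕ} (hs : s < N) (r p : ℕ) :
    ((MC N ^ r * MA N ^ r) ^ p).submatrix (ip N s) (ip N s) = (Cp N s ^ r * Ap N s ^ r) ^ p := by
  rw [block_pow _ _ (ip_inj N s) (lev_ip_surj hs _ (mul_lev _ _ (MCr_lev r) (MAr_lev r))),
    block_mul _ _ _ (ip_inj N s) (lev_ip_surj hs _ (MCr_lev r)), Cp_pow hs, Ap_pow hs]

lemma trace_levels_r {N : ℕ} (hN : 2 ≤ N) (r p : ℕ) :
    Matrix.trace ((MC N ^ r * MA N ^ r) ^ p) =
      ∑ s ∈ range N, Matrix.trace ((Cm N s ^ r * Am N s ^ r) ^ p) +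
      ∑ s ∈ range (N - 1), Matrix.trace ((Cp N (s + 1) ^ r * Ap N (s + 1) ^ r) ^ p) := by
  unfold Matrix.trace
  rw [sum_levels hN]
  congr 1
  · apply sum_congr rfl
    intro s hs
    rw [mem_range] at hs
    rw [← MCAr_im hs]
    rfl
  · apply sum_congr rfl
    intro s hs
    rw [mem_range] at hs
    rw [← MCAr_ip (by omega)]
    rfl

lemma conj_pow' {n : Type*} [Fintype n] [DecidableEq n] (X Y M : Matrix n n ℂ)
    (h : X * Y = 1) (h' : Y * X = 1) (q : ℕ) : (Y * M * X) ^ q = Y * M ^ q * X := by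
  induction q with
  | zero => rw [pow_zero, pow_zero, Matrix.mul_one, h']
  | succ q ih =>
    rw [pow_succ, ih, pow_succ]
    calc Y * M ^ q * X * (Y * M * X) = Y * M ^ q * (X * Y) * M * X := by
          simp only [Matrix.mul_assoc]
      _ = _ := by rw [h, Matrix.mul_one]; simp only [Matrix.mul_assoc]

lemma Cm_pow_eq {N s : ℕ} (hN : 2 ≤ N) (r : ℕ) :
    Cm N s ^ r = Xi N s * (Ap N s ^ r)ᴴ * Xd N s := by
  rw [Cm_eq hN, conj_pow' _ _ _ (Xd_Xi N s) (Xi_Xd N s), Matrix.conjTranspose_pow]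

lemma Am_pow_H {N s : ℕ} (hN : 2 ≤ N) (r : ℕ) :
    (Am N s ^ r)ᴴ = Xi N s * Cp N s ^ r * Xd N s := by
  rw [Matrix.conjTranspose_pow, Am_H hN, conj_pow' _ _ _ (Xd_Xi N s) (Xi_Xd N s)]

lemma Cm_pow_H {N s : ℕ} (hN : 2 ≤ N) (r : ℕ) :
    (Cm N s ^ r)ᴴ = Xi N s * Ap N s ^ r * Xd N s := by
  rw [Matrix.conjTranspose_pow, Cm_H hN, conj_pow' _ _ _ (Xd_Xi N s) (Xi_Xd N s)]

lemma trace_ip_r {N s : ℕ} (hN : 2 ≤ N) (r p : ℕ) :
    Matrix.trace ((Cp N s ^ r * Ap N s ^ r) ^ p) =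
      star (Matrix.trace ((Cm N s ^ r * Am N s ^ r) ^ p)) := by
  rw [← Matrix.trace_conjTranspose, Matrix.conjTranspose_pow, Matrix.conjTranspose_mul,
    Am_pow_H hN, Cm_pow_H hN]
  have h1 : Xi N s * Cp N s ^ r * Xd N s * (Xi N s * Ap N s ^ r * Xd N s) =
      Xi N s * (Cp N s ^ r * Ap N s ^ r) * Xd N s := by
    calc Xi N s * Cp N s ^ r * Xd N s * (Xi N s * Ap N s ^ r * Xd N s)
        = Xi N s * Cp N s ^ r * (Xd N s * Xi N s) * Ap N s ^ r * Xd N s := by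
          simp only [Matrix.mul_assoc]
      _ = _ := by rw [Xd_Xi, Matrix.mul_one]; simp only [Matrix.mul_assoc]
  rw [h1, conj_pow' _ _ _ (Xd_Xi N s) (Xi_Xd N s), Matrix.trace_mul_comm, ← Matrix.mul_assoc,
    Xd_Xi, Matrix.one_mul]

lemma trace_re_r {N : ℕ} (hN : 2 ≤ N) (r p : ℕ) :
    (Matrix.trace ((MC N ^ r * MA N ^ r) ^ p)).re =
      (Matrix.trace ((Cm N 0 ^ r * Am N 0 ^ r) ^ p)).re +
      2 * ∑ s ∈ range (N - 1), (Matrix.trace ((Cm N (s + 1) ^ r * Am N (s + 1) ^ r) ^ p)).re := by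
  rw [trace_levels_r hN]
  obtain ⟨M, rfl⟩ : ∃ M, N = M + 1 := ⟨N - 1, by omega⟩
  rw [sum_range_succ', Nat.add_sub_cancel]
  simp only [Complex.add_re, Complex.re_sum]
  have h : ∀ s ∈ range M, (Matrix.trace ((Cp (M + 1) (s + 1) ^ r *
      Ap (M + 1) (s + 1) ^ r) ^ p)).re =
      (Matrix.trace ((Cm (M + 1) (s + 1) ^ r * Am (M + 1) (s + 1) ^ r) ^ p)).re := by
    intro s _
    rw [trace_ip_r hN]; rfl
  rw [sum_congr rfl h]
  ring

lemma rel_pow {n : Type*} [Fintype n] [DecidableEq n] (G A C : Matrix n n ℂ)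
    (h : G * C = Aᴴ * G) (r : ℕ) : G * C ^ r = (A ^ r)ᴴ * G := by
  induction r with
  | zero => simp
  | succ r ih =>
    rw [pow_succ, ← Matrix.mul_assoc, ih, Matrix.mul_assoc, h, ← Matrix.mul_assoc,
      ← Matrix.conjTranspose_mul, ← pow_succ']

lemma comm_pow {n m : Type*} [Fintype n] [DecidableEq n] [Fintype m] [DecidableEq m]
    (A : Matrix n n ℂ) (A' : Matrix m m ℂ) (J : Matrix n m ℂ) (h : A * J = J * A') (r : ℕ) :
    A ^ r * J = J * A' ^ r := by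
  induction r with
  | zero => simp
  | succ r ih =>
    rw [pow_succ, Matrix.mul_assoc, h, ← Matrix.mul_assoc, ih, Matrix.mul_assoc, ← pow_succ]

lemma pair_le_r {N s : ℕ} (hN : 2 ≤ N) (hs0 : 1 ≤ s) (hs : 2 * s < N) (r p : ℕ) :
    (Matrix.trace ((Cm N (N - s) ^ r * Am N (N - s) ^ r) ^ p)).re ≤
      (Matrix.trace ((Cm N s ^ r * Am N s ^ r) ^ p)).re := by
  apply Lin.psd_trace (Am N s ^ r) (Cm N s ^ r) (Am N (N - s) ^ r) (Cm N (N - s) ^ r) (Mw N s)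
    (Jm N s) (rel_pow _ _ _ (gram_rel hN hs0 hs.le) r) (comm_pow _ _ _ (Jm_comm hN hs0 hs).1 r)
    (comm_pow _ _ _ (Jm_comm hN hs0 hs).2 r) (Mw_Jm hN hs0 hs) (Jm_inj hs0 hs) (Mw_surj hN)
  simp only [Fintype.card_fin]
  omega

lemma level_zero_r {N : ℕ} (hN : 2 ≤ N) (r p : ℕ) (a l : Fin (N - 0)) :
    ‖(Am N 0 ^ r) a l‖ ^ (2 * p) ≤ (Matrix.trace ((Cm N 0 ^ r * Am N 0 ^ r) ^ p)).re := by
  have h1 : Cm N 0 = (Am N 0)ᴴ := by
    rw [Cm_eq hN]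
    have hX : Xi N 0 = 1 := by
      unfold Xi
      rw [← Matrix.diagonal_one]
      congr 1
      funext a
      simp
    have hX' : Xd N 0 = 1 := by
      unfold Xd
      rw [← Matrix.diagonal_one]
      congr 1
      funext a
      simp
    have hA : Ap N 0 = Am N 0 := by
      ext a l
      rw [Ap_apply, Am_apply]
      rfl
    rw [hX, hX', hA, Matrix.one_mul, Matrix.mul_one]
  rw [h1, ← Matrix.conjTranspose_pow]
  exact Lin.gram_trace_pow (Am N 0 ^ r) a l p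

lemma norm_X {N : ℕ} (x : ℤ) : ‖v N ^ x‖ = 1 := norm_v_zpow N x

/-- entries of the powers of `Cm` -/
lemma norm_Cm_pow {N s : ℕ} (hN : 2 ≤ N) (r : ℕ) (l a : Fin (N - s)) :
    ‖(Cm N s ^ r) l a‖ = ‖(Ap N s ^ r) a l‖ := by
  rw [Cm_pow_eq hN]
  unfold Xi Xd
  rw [Matrix.mul_diagonal, Matrix.diagonal_mul, Matrix.conjTranspose_apply, norm_mul, norm_mul,
    norm_star, norm_v_zpow, norm_v_zpow, one_mul, mul_one]

lemma level_bound_r {N s : ℕ} (hN : 2 ≤ N) (hs : s < N) (r : ℕ) (μ : ℝ)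
    (hμ0 : 0 ≤ μ)
    (hA : ∀ a l : Fin (N - s), ‖(MA N ^ r) (im N s a) (im N s l)‖ ≤ μ)
    (hA' : ∀ a l : Fin (N - s), ‖(MA N ^ r) (ip N s a) (ip N s l)‖ ≤ μ) (p : ℕ) :
    ‖Matrix.trace ((Cm N s ^ r * Am N s ^ r) ^ p)‖ ≤ N * ((N : ℝ) ^ 2 * μ ^ 2) ^ p := by
  apply norm_trace_pow_le _ _ N _ (by omega) μ hμ0
  · intro l a
    rw [norm_Cm_pow hN, ← Ap_pow hs]
    exact hA' a l
  · intro a l
    rw [← Am_pow hs]
    exact hA a l
  · rw [Fintype.card_fin]; omega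

/-- bound for the whole trace -/
lemma total_bound_r {N : ℕ} (hN : 2 ≤ N) (r : ℕ) (μ : ℝ) (hμ0 : 0 ≤ μ)
    (hA : ∀ x y, ‖(MA N ^ r) x y‖ ≤ μ) (p : ℕ) :
    ‖Matrix.trace ((MC N ^ r * MA N ^ r) ^ p)‖ ≤ 2 * N * (N * ((N : ℝ) ^ 2 * μ ^ 2) ^ p) := by
  rw [trace_levels_r hN]
  have h1 : ∀ s ∈ range N, ‖Matrix.trace ((Cm N s ^ r * Am N s ^ r) ^ p)‖ ≤
      N * ((N : ℝ) ^ 2 * μ ^ 2) ^ p := by
    intro s hs
    rw [mem_range] at hs
    exact level_bound_r hN hs r μ hμ0 (fun a l => hA _ _) (fun a l => hA _ _) p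
  have h2 : ∀ s ∈ range (N - 1), ‖Matrix.trace ((Cp N (s + 1) ^ r * Ap N (s + 1) ^ r) ^ p)‖ ≤
      N * ((N : ℝ) ^ 2 * μ ^ 2) ^ p := by
    intro s hs
    rw [mem_range] at hs
    rw [trace_ip_r hN, norm_star]
    exact level_bound_r hN (by omega) r μ hμ0 (fun a l => hA _ _) (fun a l => hA _ _) p
  have h3 : ((N - 1 : ℕ) : ℝ) ≤ N := by exact_mod_cast Nat.sub_le N 1
  have hB : 0 ≤ N * ((N : ℝ) ^ 2 * μ ^ 2) ^ p := by positivity
  calc ‖∑ s ∈ range N, Matrix.trace ((Cm N s ^ r * Am N s ^ r) ^ p) +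
      ∑ s ∈ range (N - 1), Matrix.trace ((Cp N (s + 1) ^ r * Ap N (s + 1) ^ r) ^ p)‖
      ≤ ∑ s ∈ range N, N * ((N : ℝ) ^ 2 * μ ^ 2) ^ p +
        ∑ s ∈ range (N - 1), N * ((N : ℝ) ^ 2 * μ ^ 2) ^ p :=
        (norm_add_le _ _).trans (add_le_add ((norm_sum_le _ _).trans (sum_le_sum h1))
          ((norm_sum_le _ _).trans (sum_le_sum h2)))
    _ = (N + ((N - 1 : ℕ) : ℝ)) * (N * ((N : ℝ) ^ 2 * μ ^ 2) ^ p) := by
        rw [sum_const, sum_const, card_range, card_range, nsmul_eq_mul, nsmul_eq_mul]; ring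
    _ ≤ _ := by nlinarith

/-- lower bound for the trace -/
lemma trace_lower_r {N : ℕ} (hN : 2 ≤ N) (r p : ℕ) (a l : Fin (N - 0)) (μ : ℝ) (hμ0 : 0 ≤ μ)
    (hA : ∀ s, s < N → N ≤ 2 * s → ∀ a l : Fin (N - s),
      ‖(MA N ^ r) (im N s a) (im N s l)‖ ≤ μ ∧ ‖(MA N ^ r) (ip N s a) (ip N s l)‖ ≤ μ) :
    ‖(Am N 0 ^ r) a l‖ ^ (2 * p) - 2 * N * (N * ((N : ℝ) ^ 2 * μ ^ 2) ^ p) ≤
      ‖Matrix.trace ((MC N ^ r * MA N ^ r) ^ p)‖ := by
  set B : ℝ := N * ((N : ℝ) ^ 2 * μ ^ 2) ^ p with hB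
  set g : ℕ → ℝ := fun s => (Matrix.trace ((Cm N s ^ r * Am N s ^ r) ^ p)).re with hg
  have hB0 : 0 ≤ B := by positivity
  have hsmall : ∀ s, s < N → N ≤ 2 * s → -B ≤ g s := by
    intro s hs hs2
    have h := level_bound_r hN hs r μ hμ0 (fun a l => (hA s hs hs2 a l).1)
      (fun a l => (hA s hs hs2 a l).2) p
    have h2 := Complex.abs_re_le_norm (Matrix.trace ((Cm N s ^ r * Am N s ^ r) ^ p))
    have h3 := neg_abs_le (Matrix.trace ((Cm N s ^ r * Am N s ^ r) ^ p)).re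
    simp only [hg]
    linarith
  have hpair : ∀ s, 1 ≤ s → s < N → -(2 * B) ≤ g s + g (N - s) := by
    intro s h1 h2
    rcases lt_trichotomy (2 * s) N with h | h | h
    · have h3 : g (N - s) ≤ g s := pair_le_r hN h1 h r p
      have h4 := hsmall (N - s) (by omega) (by omega)
      linarith
    · have h3 := hsmall s h2 (by omega)
      have h4 : N - s = s := by omega
      rw [h4]; linarith
    · have h3 : g (N - (N - s)) ≤ g (N - s) := pair_le_r hN (by omega) (by omega) r p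
      have h4 : N - (N - s) = s := by omega
      rw [h4] at h3
      have h5 := hsmall s h2 (by omega)
      linarith
  have hsum : -(N * B) ≤ ∑ s ∈ range (N - 1), g (s + 1) := by
    have h1 : ∑ s ∈ range (N - 1), g (s + 1) = ∑ s ∈ range (N - 1), g (N - (s + 1)) := by
      rw [← sum_range_reflect]
      apply sum_congr rfl
      intro s hs
      rw [mem_range] at hs
      congr 1; omega
    have h2 : ∑ s ∈ range (N - 1), -(2 * B) ≤
        ∑ s ∈ range (N - 1), (g (s + 1) + g (N - (s + 1))) := by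
      apply sum_le_sum
      intro s hs
      rw [mem_range] at hs
      exact hpair (s + 1) (by omega) (by omega)
    rw [sum_add_distrib, ← h1, sum_const, card_range, nsmul_eq_mul] at h2
    have h3 : ((N - 1 : ℕ) : ℝ) ≤ N := by exact_mod_cast Nat.sub_le N 1
    nlinarith
  have h0 : ‖(Am N 0 ^ r) a l‖ ^ (2 * p) ≤ g 0 := level_zero_r hN r p a l
  have hle := Complex.re_le_norm (Matrix.trace ((MC N ^ r * MA N ^ r) ^ p))
  have hre2 : (Matrix.trace ((MC N ^ r * MA N ^ r) ^ p)).re =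
      g 0 + 2 * ∑ s ∈ range (N - 1), g (s + 1) := trace_re_r hN r p
  linarith

end Pool.Agent.Helper9.Kashaev
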